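import Mathlib
set_option autoImplicit false

/-! The Gamma integral with a complex rate. -/

namespace Pool.Agent.TH310.BZ

open Complex MeasureTheory Set Filter Topology

lemma rp_int {s b : ℝ} (hs : 0 ≤ s) (hb : 0 < b) :
    IntegrableOn (fun w : ℝ => w ^ s * Real.exp (-b * w)) (Ioi 0) := by
  have h := integrableOn_rpow_mul_exp_neg_mul_rpow (p := 1) (s := s) (b := b) (by linarith)
    one_pos hb
  simpa using h

/-- the Laplace transform of `w ^ δ` -/
noncomputable def lap (δ : ℝ) (c : ℂ) : ℂ :=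
  ∫ w in Ioi (0 : ℝ), ((w ^ δ : ℝ) : ℂ) * cexp (-c * w)

lemma lap_norm_le {δ : ℝ} {c : ℂ} {w : ℝ} (hw : 0 < w) :
    ‖((w ^ δ : ℝ) : ℂ) * cexp (-c * w)‖ = w ^ δ * Real.exp (-c.re * w) := by
  rw [norm_mul, Complex.norm_real, Real.norm_of_nonneg (by positivity), Complex.norm_exp]
  congr 2
  simp

lemma lap_meas (δ : ℝ) (c : ℂ) :
    Measurable fun w : ℝ => ((w ^ δ : ℝ) : ℂ) * cexp (-c * w) := by
  have h1 : Measurable fun w : ℝ => ((w ^ δ : ℝ) : ℂ) := by
    have : Measurable fun w : ℝ => w ^ δ := by fun_prop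
    exact Complex.measurable_ofReal.comp this
  have h2 : Measurable fun w : ℝ => cexp (-c * w) := by
    have : Continuous fun w : ℝ => cexp (-c * w) := by fun_prop
    exact this.measurable
  exact h1.mul h2

lemma lap_int {δ : ℝ} (hδ : 0 ≤ δ) {c : ℂ} (hc : 0 < c.re) :
    IntegrableOn (fun w : ℝ => ((w ^ δ : ℝ) : ℂ) * cexp (-c * w)) (Ioi 0) := by
  refine Integrable.mono' (rp_int hδ hc) (lap_meas δ c).aestronglyMeasurable ?_
  filter_upwards [ae_restrict_mem measurableSet_Ioi] with w hw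
  exact (lap_norm_le hw).le

lemma lap_diff {δ : ℝ} (hδ : 0 ≤ δ) : DifferentiableOn ℂ (lap δ) {c : ℂ | 0 < c.re} := by
  intro c₀ hc₀
  simp only [mem_setOf_eq] at hc₀
  have hs : {c : ℂ | c₀.re / 2 < c.re} ∈ 𝓝 c₀ :=
    (isOpen_lt continuous_const Complex.continuous_re).mem_nhds (by
      simp only [mem_setOf_eq]; linarith)
  have h := hasDerivAt_integral_of_dominated_loc_of_deriv_le (μ := volume.restrict (Ioi (0 : ℝ)))
    (F := fun (c : ℂ) (w : ℝ) => ((w ^ δ : ℝ) : ℂ) * cexp (-c * w))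
    (F' := fun (c : ℂ) (w : ℝ) => ((w ^ δ : ℝ) : ℂ) * (-(w : ℂ) * cexp (-c * w)))
    (bound := fun w => w ^ (δ + 1) * Real.exp (-(c₀.re / 2) * w))
    (x₀ := c₀) hs (Eventually.of_forall fun c => (lap_meas δ c).aestronglyMeasurable)
    (lap_int hδ hc₀) ?_ ?_ (rp_int (by linarith) (by linarith)) ?_
  · exact h.2.differentiableAt.differentiableWithinAt
  · have h1 : Measurable fun w : ℝ => ((w ^ δ : ℝ) : ℂ) := by
      have : Measurable fun w : ℝ => w ^ δ := by fun_prop
      exact Complex.measurable_ofReal.comp this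
    have h2 : Measurable fun w : ℝ => (-(w : ℂ) * cexp (-c₀ * w)) := by
      have : Continuous fun w : ℝ => (-(w : ℂ) * cexp (-c₀ * w)) := by fun_prop
      exact this.measurable
    exact (h1.mul h2).aestronglyMeasurable
  · filter_upwards [ae_restrict_mem measurableSet_Ioi] with w hw c hc
    have hc' : c₀.re / 2 < c.re := hc
    have hw0 : (0 : ℝ) < w := hw
    rw [norm_mul, Complex.norm_real, Real.norm_of_nonneg (by positivity), norm_mul, norm_neg,
      Complex.norm_real, Real.norm_of_nonneg hw0.le, Complex.norm_exp, Real.rpow_add hw0,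
      Real.rpow_one, ← mul_assoc]
    apply mul_le_mul_of_nonneg_left _ (by positivity)
    apply Real.exp_le_exp.2
    simp only [neg_mul, neg_re, mul_re, ofReal_re, ofReal_im, mul_zero, sub_zero]
    nlinarith
  · filter_upwards with w c _
    have h1 : HasDerivAt (fun c : ℂ => -c * (w : ℂ)) (-(w : ℂ)) c := by
      simpa using ((hasDerivAt_id c).neg.mul_const (w : ℂ))
    have h2 := (h1.cexp).const_mul (((w ^ δ : ℝ) : ℂ))
    refine h2.congr_deriv ?_
    ring

lemma lap_real {δ : ℝ} (hδ : 0 ≤ δ) {r : ℝ} (hr : 0 < r) :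
    lap δ r = (Real.Gamma (δ + 1) : ℂ) * (r : ℂ) ^ (-((δ + 1 : ℝ) : ℂ)) := by
  have h := Real.integral_rpow_mul_exp_neg_mul_Ioi (a := δ + 1) (r := r) (by linarith) hr
  unfold lap
  have e1 : ∀ w : ℝ, ((w ^ δ : ℝ) : ℂ) * cexp (-(r : ℂ) * w) =
      ((w ^ (δ + 1 - 1) * Real.exp (-(r * w)) : ℝ) : ℂ) := by
    intro w
    rw [add_sub_cancel_right]
    push_cast
    ring_nf
  simp only [e1]
  rw [integral_complex_ofReal, h, Complex.ofReal_mul, mul_comm]
  congr 1
  rw [one_div, Real.inv_rpow hr.le, ← Real.rpow_neg hr.le, Complex.ofReal_cpow hr.le]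
  push_cast
  ring_nf

theorem lap_eq {δ : ℝ} (hδ : 0 ≤ δ) {c : ℂ} (hc : 0 < c.re) :
    lap δ c = (Real.Gamma (δ + 1) : ℂ) * c ^ (-((δ + 1 : ℝ) : ℂ)) := by
  have hU : IsOpen {c : ℂ | 0 < c.re} := isOpen_lt continuous_const Complex.continuous_re
  have h1 : AnalyticOnNhd ℂ (lap δ) {c : ℂ | 0 < c.re} := (lap_diff hδ).analyticOnNhd hU
  have h2 : AnalyticOnNhd ℂ (fun c : ℂ => (Real.Gamma (δ + 1) : ℂ) * c ^ (-((δ + 1 : ℝ) : ℂ)))
      {c : ℂ | 0 < c.re} := by
    refine DifferentiableOn.analyticOnNhd (fun c hc => ?_) hU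
    refine DifferentiableAt.differentiableWithinAt ?_
    refine DifferentiableAt.const_mul ?_ _
    exact differentiableAt_id.cpow (differentiableAt_const _) (Or.inl hc)
  have hpre : IsPreconnected {c : ℂ | 0 < c.re} :=
    (convex_halfSpace_re_gt 0).isPreconnected
  refine h1.eqOn_of_preconnected_of_frequently_eq h2 hpre (z₀ := 1) (by simp) ?_ hc
  have ht : Tendsto (fun n : ℕ => ((1 + 1 / ((n : ℝ) + 1) : ℝ) : ℂ)) atTop (𝓝[≠] 1) := by
    rw [tendsto_nhdsWithin_iff]
    constructor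
    · have : Tendsto (fun n : ℕ => (1 + 1 / ((n : ℝ) + 1) : ℝ)) atTop (𝓝 (1 + 0)) :=
        tendsto_const_nhds.add tendsto_one_div_add_atTop_nhds_zero_nat
      rw [add_zero] at this
      have h3 := (Complex.continuous_ofReal.tendsto 1).comp this
      simpa [Function.comp_def] using h3
    · refine Eventually.of_forall fun n => ?_
      simp only [mem_compl_iff, mem_singleton_iff]
      intro h
      have h4 : (1 + 1 / ((n : ℝ) + 1) : ℝ) = 1 := by exact_mod_cast h
      have : (0 : ℝ) < 1 / ((n : ℝ) + 1) := by positivity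
      linarith
  refine ht.frequently (Eventually.frequently (Eventually.of_forall fun n => ?_))
  exact lap_real hδ (by positivity)

/-- the Fourier transform of `w ^ δ * exp (- π w)` decays like `|t| ^ (- 1 - δ)` -/
lemma lap_bd {δ : ℝ} (hδ : 0 ≤ δ) (t : ℝ) :
    ‖lap δ (Real.pi * (1 + 2 * t * I))‖ ≤ Real.Gamma (δ + 1) * (1 + |t|) ^ (-(1 + δ)) := by
  have hre : 0 < ((Real.pi : ℂ) * (1 + 2 * t * I)).re := by
    rw [Complex.re_ofReal_mul]
    simp [Real.pi_pos]
  rw [lap_eq hδ hre, norm_mul, Complex.norm_real, Real.norm_of_nonneg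
    (Real.Gamma_pos_of_pos (by linarith)).le]
  apply mul_le_mul_of_nonneg_left _ (Real.Gamma_pos_of_pos (by linarith)).le
  have h1 : ‖((Real.pi : ℂ) * (1 + 2 * t * I)) ^ (-((δ + 1 : ℝ) : ℂ))‖ =
      ‖(Real.pi : ℂ) * (1 + 2 * t * I)‖ ^ (-(δ + 1)) := by
    rw [← Complex.ofReal_neg]
    rw [Complex.norm_cpow_real]
  rw [h1]
  have h2 : 1 + |t| ≤ ‖(Real.pi : ℂ) * (1 + 2 * t * I)‖ := by
    rw [norm_mul, Complex.norm_real, Real.norm_of_nonneg Real.pi_pos.le]
    have h3 : 1 ≤ ‖(1 + 2 * (t : ℂ) * I)‖ := by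
      have := Complex.abs_re_le_norm (1 + 2 * (t : ℂ) * I)
      simpa using this
    have h4 : 2 * |t| ≤ ‖(1 + 2 * (t : ℂ) * I)‖ := by
      have := Complex.abs_im_le_norm (1 + 2 * (t : ℂ) * I)
      simpa [abs_mul] using this
    have := Real.pi_gt_three
    nlinarith
  rw [show -(1 + δ) = -(δ + 1) by ring]
  exact Real.rpow_le_rpow_of_nonpos (by positivity) h2 (by linarith)

end Pool.Agent.TH310.BZ
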