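import Mathlib
import Pool.Agent.H153R4.Pl
set_option autoImplicit false

/-! The fourth moment of a convolution through the ambiguity function of its kernel. -/

namespace Pool.Agent.TH310.BZ

open Complex MeasureTheory Set Filter
open scoped ENNReal FourierTransform ComplexConjugate RealInnerProductSpace

variable {V : Type} [NormedAddCommGroup V] [InnerProductSpace ℝ V] [MeasurableSpace V]
  [BorelSpace V] [FiniteDimensional ℝ V]

/-- bounded, measurable, integrable functions -/
structure GB (g : V → ℂ) : Prop where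
  meas : Measurable g
  int : Integrable g
  bd : ∃ M : ℝ, ∀ z, ‖g z‖ ≤ M

lemma GB.memLp {g : V → ℂ} (hg : GB g) : MemLp g 2 := by
  obtain ⟨M, hM⟩ := hg.bd
  rw [memLp_two_iff_integrable_sq_norm hg.meas.aestronglyMeasurable]
  refine (hg.int.norm.const_mul M).mono (hg.meas.norm.pow_const 2).aestronglyMeasurable
    (ae_of_all _ fun z => ?_)
  have h0 : 0 ≤ M := (norm_nonneg _).trans (hM z)
  rw [Real.norm_of_nonneg (by positivity), norm_mul, norm_norm, Real.norm_of_nonneg h0, sq]
  exact mul_le_mul_of_nonneg_right (hM z) (norm_nonneg _)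

/-- products `g (z + h) * conj (g z)` -/
noncomputable def kk (g : V → ℂ) (h z : V) : ℂ := g (z + h) * conj (g z)

lemma GB.mul_bdd {g k : V → ℂ} (hg : GB g) (hk : Measurable k) {M : ℝ} (hM : ∀ z, ‖k z‖ ≤ M) :
    GB fun z => k z * g z := by
  obtain ⟨N, hN⟩ := hg.bd
  refine ⟨hk.mul hg.meas, hg.int.bdd_mul hk.aestronglyMeasurable (ae_of_all _ hM), M * N,
    fun z => ?_⟩
  rw [norm_mul]
  exact mul_le_mul (hM z) (hN z) (norm_nonneg _) ((norm_nonneg _).trans (hM z))

lemma GB.conj {g : V → ℂ} (hg : GB g) : GB fun z => conj (g z) := by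
  obtain ⟨N, hN⟩ := hg.bd
  refine ⟨continuous_conj.measurable.comp hg.meas, ?_, N, fun z => by
    rw [RCLike.norm_conj]; exact hN z⟩
  have := hg.int.norm
  refine this.mono (continuous_conj.measurable.comp hg.meas).aestronglyMeasurable
    (ae_of_all _ fun z => ?_)
  simp

lemma GB.kk {g : V → ℂ} (hg : GB g) (h : V) : GB (kk g h) := by
  obtain ⟨N, hN⟩ := hg.bd
  exact hg.conj.mul_bdd (hg.meas.comp (measurable_add_const h)) fun z => hN _

lemma four_le (x y : ℝ≥0∞) : 2 * (x ^ 2 * y ^ 2) ≤ x ^ 4 + y ^ 4 := by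
  rcases eq_or_ne x ⊤ with rfl | hx
  · simp
  rcases eq_or_ne y ⊤ with rfl | hy
  · simp
  lift x to NNReal using hx
  lift y to NNReal using hy
  norm_cast
  rw [← NNReal.coe_le_coe]
  push_cast
  nlinarith [sq_nonneg ((x : ℝ) ^ 2 - (y : ℝ) ^ 2)]

lemma kk_l2 {g : V → ℂ} (hg : Measurable g) (h : V) :
    ∫⁻ z, ‖kk g h z‖ₑ ^ 2 ≤ ∫⁻ z, ‖g z‖ₑ ^ 4 := by
  have e1 : ∀ z, 2 * ‖kk g h z‖ₑ ^ 2 ≤ ‖g (z + h)‖ₑ ^ 4 + ‖g z‖ₑ ^ 4 := by
    intro z
    have : ‖kk g h z‖ₑ = ‖g (z + h)‖ₑ * ‖g z‖ₑ := by
      unfold kk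
      rw [enorm_mul]
      congr 1
      rw [← ofReal_norm, ← ofReal_norm, RCLike.norm_conj]
    rw [this, mul_pow]
    exact four_le _ _
  have e2 : 2 * ∫⁻ z, ‖kk g h z‖ₑ ^ 2 ≤ 2 * ∫⁻ z, ‖g z‖ₑ ^ 4 := by
    rw [← lintegral_const_mul' _ _ (by simp)]
    refine (lintegral_mono e1).trans (le_of_eq ?_)
    have hm : Measurable fun z => ‖g z‖ₑ ^ 4 := hg.enorm.pow_const 4
    have e3 := lintegral_add_left (μ := (volume : Measure V)) (f := fun z => ‖g (z + h)‖ₑ ^ 4)
      (hm.comp (measurable_add_const h)) (fun z => ‖g z‖ₑ ^ 4)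
    rw [e3, lintegral_add_right_eq_self (fun z => ‖g z‖ₑ ^ 4) h, two_mul]
  exact (ENNReal.mul_le_mul_iff_right (by simp) (by simp)).1 e2

/-- convolution -/
noncomputable def cv (K g : V → ℂ) (x : V) : ℂ := ∫ y, g y * K (x - y)

lemma cv_eq (K g : V → ℂ) : cv K g = MeasureTheory.convolution g K (ContinuousLinearMap.mul ℂ ℂ) volume := by
  ext x
  simp [cv, convolution]

lemma cv_bd {K g : V → ℂ} {M : ℝ} (hM : ∀ z, ‖K z‖ ≤ M) (hg : Integrable g) (x : V) :
    ‖cv K g x‖ ≤ (∫ y, ‖g y‖) * M := by
  unfold cv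
  refine (norm_integral_le_integral_norm _).trans ?_
  rw [← integral_mul_const]
  refine integral_mono_of_nonneg (ae_of_all _ fun _ => norm_nonneg _) (hg.norm.mul_const M)
    (ae_of_all _ fun y => ?_)
  simp only [norm_mul]
  exact mul_le_mul_of_nonneg_left (hM _) (norm_nonneg _)

lemma GB.cv {K g : V → ℂ} (hK : GB K) (hg : GB g) : GB (cv K g) := by
  obtain ⟨M, hM⟩ := hK.bd
  refine ⟨?_, ?_, _, cv_bd hM hg.int⟩
  · unfold BZ.cv
    refine (StronglyMeasurable.integral_prod_right' (f := fun p : V × V => g p.2 * K (p.1 - p.2))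
      ?_).measurable
    exact ((hg.meas.comp measurable_snd).mul
      (hK.meas.comp (measurable_fst.sub measurable_snd))).stronglyMeasurable
  · rw [cv_eq]
    exact hg.int.integrable_convolution (ContinuousLinearMap.mul ℂ ℂ) hK.int

/-- ambiguity function -/
noncomputable def amb (K : V → ℂ) (h θ : V) : ℂ := 𝓕 (fun x => K (x - h) * conj (K x)) θ

lemma kk_prod_int {g : V → ℂ} (hg : GB g) :
    Integrable (fun p : V × V => kk g p.2 p.1) (volume.prod volume) := by
  have hm : Measurable (fun p : V × V => kk g p.2 p.1) := by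
    unfold kk
    exact (hg.meas.comp (measurable_fst.add measurable_snd)).mul
      (continuous_conj.measurable.comp (hg.meas.comp measurable_fst))
  rw [integrable_prod_iff hm.aestronglyMeasurable]
  constructor
  · refine ae_of_all _ fun y => ?_
    simp only [kk]
    exact (hg.int.comp_add_left y).mul_const _
  · have : (fun y => ∫ h, ‖kk g h y‖) = fun y => (∫ h, ‖g h‖) * ‖g y‖ := by
      ext y
      have e : ∀ h, ‖kk g h y‖ = ‖g (y + h)‖ * ‖g y‖ := by
        intro h; unfold kk; rw [norm_mul, RCLike.norm_conj]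
      simp only [e]
      rw [integral_mul_const, integral_add_left_eq_self (fun z => ‖g z‖) y]
    rw [this]
    exact hg.int.norm.const_mul _

lemma sq_rep {K g : V → ℂ} (hK : GB K) (hg : GB g) (x : V) :
    cv K g x * conj (cv K g x) =
      ∫ p : V × V, kk g p.2 p.1 * (K (x - p.1 - p.2) * conj (K (x - p.1))) := by
  obtain ⟨M, hM⟩ := hK.bd
  have hm : Measurable fun p : V × V => K (x - p.1 - p.2) * conj (K (x - p.1)) :=
    (hK.meas.comp ((measurable_const.sub measurable_fst).sub measurable_snd)).mul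
      (continuous_conj.measurable.comp (hK.meas.comp (measurable_const.sub measurable_fst)))
  have hi : Integrable (fun p : V × V => kk g p.2 p.1 * (K (x - p.1 - p.2) * conj (K (x - p.1))))
      (volume.prod volume) := by
    refine (kk_prod_int hg).mul_bdd (c := M * M) hm.aestronglyMeasurable (ae_of_all _ fun p => ?_)
    rw [norm_mul, RCLike.norm_conj]
    exact mul_le_mul (hM _) (hM _) (norm_nonneg _) ((norm_nonneg _).trans (hM 0))
  rw [Measure.volume_eq_prod, integral_prod _ hi]
  have e1 : ∀ y : V, ∫ h : V, kk g h y * (K (x - y - h) * conj (K (x - y))) =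
      cv K g x * conj (g y * K (x - y)) := by
    intro y
    have e2 : ∀ h : V, kk g h y * (K (x - y - h) * conj (K (x - y))) =
        (fun z => g z * K (x - z)) (y + h) * conj (g y * K (x - y)) := by
      intro h
      simp only [kk, map_mul, sub_sub]
      ring
    simp only [e2]
    rw [integral_mul_const, integral_add_left_eq_self (fun z => g z * K (x - z)) y]
    rfl
  simp only [e1]
  rw [integral_const_mul]
  congr 1
  unfold cv
  rw [← integral_conj]

lemma amb_rep {K g : V → ℂ} (hK : GB K) (hg : GB g) (θ : V) :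
    𝓕 (fun x => cv K g x * conj (cv K g x)) θ = ∫ h, amb K h θ * 𝓕 (kk g h) θ := by
  obtain ⟨M, hM⟩ := hK.bd
  have hM0 : 0 ≤ M := (norm_nonneg _).trans (hM 0)
  rw [Real.fourier_eq]
  have e0 : ∀ x, Real.fourierChar (-⟪x, θ⟫) • (cv K g x * conj (cv K g x)) =
      ∫ p : V × V, Real.fourierChar (-⟪x, θ⟫) •
        (kk g p.2 p.1 * (K (x - p.1 - p.2) * conj (K (x - p.1)))) := by
    intro x
    rw [sq_rep hK hg x]
    simp only [Circle.smul_def, smul_eq_mul]
    rw [← integral_const_mul]
  simp only [e0]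
  have hmk : Measurable (fun p : V × V => kk g p.2 p.1) := by
    unfold kk
    exact (hg.meas.comp (measurable_fst.add measurable_snd)).mul
      (continuous_conj.measurable.comp (hg.meas.comp measurable_fst))
  have hmc : Measurable fun x : V => (Real.fourierChar (-⟪x, θ⟫) : ℂ) := by
    have : Continuous fun x : V => (Real.fourierChar (-⟪x, θ⟫) : ℂ) := by fun_prop
    exact this.measurable
  have hm : Measurable fun q : V × (V × V) => Real.fourierChar (-⟪q.1, θ⟫) •
        (kk g q.2.2 q.2.1 * (K (q.1 - q.2.1 - q.2.2) * conj (K (q.1 - q.2.1)))) := by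
    simp only [Circle.smul_def, smul_eq_mul]
    refine (hmc.comp measurable_fst).mul ((hmk.comp measurable_snd).mul ?_)
    exact (hK.meas.comp ((measurable_fst.sub measurable_snd.fst).sub measurable_snd.snd)).mul
      (continuous_conj.measurable.comp (hK.meas.comp (measurable_fst.sub measurable_snd.fst)))
  have hi : Integrable (Function.uncurry fun (x : V) (p : V × V) => Real.fourierChar (-⟪x, θ⟫) •
        (kk g p.2 p.1 * (K (x - p.1 - p.2) * conj (K (x - p.1))))) (volume.prod volume) := by
    rw [integrable_prod_iff' (by exact hm.aestronglyMeasurable)]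
    have hn : ∀ (x : V) (p : V × V), ‖Real.fourierChar (-⟪x, θ⟫) •
        (kk g p.2 p.1 * (K (x - p.1 - p.2) * conj (K (x - p.1))))‖ ≤
          ‖kk g p.2 p.1‖ * (M * ‖K (x - p.1)‖) := by
      intro x p
      rw [Circle.norm_smul, norm_mul, norm_mul, RCLike.norm_conj]
      gcongr
      exact hM _
    have hKi : ∀ p : V × V, Integrable fun x : V => ‖kk g p.2 p.1‖ * (M * ‖K (x - p.1)‖) :=
      fun p => (((hK.int.comp_sub_right p.1).norm).const_mul M).const_mul _
    constructor
    · refine ae_of_all _ fun p => ?_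
      refine (hKi p).mono' ?_ (ae_of_all _ fun x => hn x p)
      exact (hm.comp (measurable_id.prodMk measurable_const)).aestronglyMeasurable
    · refine ((kk_prod_int hg).norm.mul_const (M * ∫ x, ‖K x‖)).mono' ?_ (ae_of_all _ fun p => ?_)
      · exact (StronglyMeasurable.integral_prod_left' (f := fun q : V × (V × V) =>
          ‖Real.fourierChar (-⟪q.1, θ⟫) •
            (kk g q.2.2 q.2.1 * (K (q.1 - q.2.1 - q.2.2) * conj (K (q.1 - q.2.1))))‖)
            hm.norm.stronglyMeasurable).aestronglyMeasurable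
      · rw [Real.norm_of_nonneg (integral_nonneg fun _ => norm_nonneg _)]
        refine (integral_mono_of_nonneg (ae_of_all _ fun _ => norm_nonneg _) (hKi p)
          (ae_of_all _ fun x => hn x p)).trans (le_of_eq ?_)
        rw [integral_const_mul, integral_const_mul,
          integral_sub_right_eq_self (fun z => ‖K z‖) p.1]
  rw [integral_integral_swap hi]
  have e1 : ∀ p : V × V, ∫ x, Real.fourierChar (-⟪x, θ⟫) •
        (kk g p.2 p.1 * (K (x - p.1 - p.2) * conj (K (x - p.1)))) =
      (Real.fourierChar (-⟪p.1, θ⟫) • kk g p.2 p.1) * amb K p.2 θ := by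
    intro p
    rw [← integral_add_right_eq_self _ p.1]
    unfold amb
    rw [Real.fourier_eq, ← integral_const_mul]
    congr 1
    ext x
    simp only [add_sub_cancel_right, Circle.smul_def, smul_eq_mul, inner_add_left, neg_add,
      AddChar.map_add_eq_mul, Circle.coe_mul]
    ring
  simp only [e1]
  have hi2 : Integrable (fun p : V × V => (Real.fourierChar (-⟪p.1, θ⟫) • kk g p.2 p.1) *
      amb K p.2 θ) (volume.prod volume) := by
    have := hi.swap.integral_prod_left
    refine this.congr (ae_of_all _ fun p => ?_)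
    exact e1 p
  rw [Measure.volume_eq_prod, integral_prod_symm _ hi2]
  congr 1
  ext h
  simp only
  rw [integral_mul_const, mul_comm, Real.fourier_eq]

end Pool.Agent.TH310.BZ
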