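import Mathlib
import Pool.Agent.TH310.BZ.Cor
set_option autoImplicit false

/-! Complex Gaussian kernels and their ambiguity functions. -/

namespace Pool.Agent.TH310.BZ

open Complex MeasureTheory Set Filter
open scoped ENNReal FourierTransform ComplexConjugate RealInnerProductSpace

/-- Euclidean space -/
abbrev E (n : ℕ) := EuclideanSpace ℝ (Fin n)

/-- the complex time `b (1 + 2 i t)` -/
noncomputable def zz (b t : ℝ) : ℂ := (b : ℂ) * (1 + 2 * (t : ℂ) * I)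

/-- its inverse -/
noncomputable def tau (b t : ℝ) : ℂ := (zz b t)⁻¹

/-- one dimensional kernel -/
noncomputable def k1 (b t x : ℝ) : ℂ :=
  (tau b t) ^ (1 / 2 : ℂ) * cexp (-(Real.pi : ℂ) * tau b t * (x : ℂ) ^ 2)

/-- `1 + 4 t ^ 2` -/
noncomputable def DD (t : ℝ) : ℝ := 1 + 4 * t ^ 2

lemma DD_pos (t : ℝ) : 0 < DD t := by unfold DD; positivity

lemma zz_re (b t : ℝ) : (zz b t).re = b := by simp [zz]

lemma zz_ne {b : ℝ} (hb : 0 < b) (t : ℝ) : zz b t ≠ 0 := by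
  intro h
  have := zz_re b t
  rw [h, Complex.zero_re] at this
  exact hb.ne this

lemma tau_eq {b : ℝ} (hb : 0 < b) (t : ℝ) :
    tau b t = ((1 / (b * DD t) : ℝ) : ℂ) - ((2 * t / (b * DD t) : ℝ) : ℂ) * I := by
  have hD := DD_pos t
  have h1 : (zz b t) * (((1 / (b * DD t) : ℝ) : ℂ) - ((2 * t / (b * DD t) : ℝ) : ℂ) * I) = 1 := by
    unfold zz
    have hb' : (b : ℂ) ≠ 0 := by exact_mod_cast hb.ne'
    have hD' : ((DD t : ℝ) : ℂ) ≠ 0 := by exact_mod_cast hD.ne'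
    push_cast
    field_simp
    have : ((DD t : ℝ) : ℂ) = 1 + 4 * (t : ℂ) ^ 2 := by unfold DD; push_cast; ring
    rw [this]
    ring_nf
    rw [I_sq]
    ring
  unfold tau
  exact inv_eq_of_mul_eq_one_right h1

lemma tau_re {b : ℝ} (hb : 0 < b) (t : ℝ) : (tau b t).re = 1 / (b * DD t) := by
  rw [tau_eq hb t]
  simp only [Complex.sub_re, Complex.ofReal_re, Complex.mul_re, I_re, mul_zero,
    Complex.ofReal_im, I_im, mul_one, sub_self, sub_zero]

lemma tau_im {b : ℝ} (hb : 0 < b) (t : ℝ) : (tau b t).im = -(2 * t / (b * DD t)) := by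
  rw [tau_eq hb t]
  simp only [Complex.sub_im, Complex.ofReal_re, Complex.mul_im, I_re, mul_zero,
    Complex.ofReal_im, I_im, mul_one, add_zero, zero_sub]

lemma tau_ne {b : ℝ} (hb : 0 < b) (t : ℝ) : tau b t ≠ 0 := inv_ne_zero (zz_ne hb t)

lemma tau_norm {b : ℝ} (hb : 0 < b) (t : ℝ) : ‖tau b t‖ = 1 / (b * Real.sqrt (DD t)) := by
  have h0 : ‖zz b t‖ = b * Real.sqrt (DD t) := by
    unfold zz
    rw [norm_mul, Complex.norm_real, Real.norm_of_nonneg hb.le]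
    congr 1
    have : (1 + 2 * (t : ℂ) * I) = ((1 : ℝ) : ℂ) + ((2 * t : ℝ) : ℂ) * I := by push_cast; ring
    rw [this, Complex.norm_add_mul_I]
    congr 1
    unfold DD
    ring
  unfold tau
  rw [norm_inv, h0, one_div]

lemma k1_norm {b : ℝ} (hb : 0 < b) (t x : ℝ) :
    ‖k1 b t x‖ = ‖(tau b t) ^ (1 / 2 : ℂ)‖ * Real.exp (-(Real.pi / (b * DD t)) * x ^ 2) := by
  unfold k1
  rw [norm_mul, Complex.norm_exp]
  congr 2
  have : (-(Real.pi : ℂ) * tau b t * (x : ℂ) ^ 2) = ((-(Real.pi * x ^ 2) : ℝ) : ℂ) * tau b t := by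
    push_cast; ring
  rw [this, Complex.re_ofReal_mul, tau_re hb]
  ring

lemma k1_bd {b : ℝ} (hb : 0 < b) (t x : ℝ) : ‖k1 b t x‖ ≤ ‖(tau b t) ^ (1 / 2 : ℂ)‖ := by
  rw [k1_norm hb]
  have hD := DD_pos t
  have : Real.exp (-(Real.pi / (b * DD t)) * x ^ 2) ≤ 1 := by
    rw [Real.exp_le_one_iff]
    have : 0 ≤ Real.pi / (b * DD t) * x ^ 2 := by positivity
    linarith
  exact mul_le_of_le_one_right (norm_nonneg _) this

lemma k1_cont (b t : ℝ) : Continuous (k1 b t) := by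
  unfold k1
  fun_prop

lemma k1_int {b : ℝ} (hb : 0 < b) (t : ℝ) : Integrable (k1 b t) := by
  unfold k1
  refine Integrable.const_mul ?_ _
  have h := integrable_cexp_quadratic (b := (Real.pi : ℂ) * tau b t) (by
    rw [Complex.re_ofReal_mul, tau_re hb]
    have := DD_pos t
    positivity) 0 0
  refine h.congr (ae_of_all _ fun x => ?_)
  simp only [zero_mul, add_zero, neg_mul]

/-- Fourier transform of the complex Gaussian -/
lemma k1_fourier {b : ℝ} (hb : 0 < b) (t x : ℝ) :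
    ∫ ξ : ℝ, cexp (-(Real.pi : ℂ) * zz b t * (ξ : ℂ) ^ 2) *
      cexp (((2 * Real.pi * (x * ξ) : ℝ) : ℂ) * I) = k1 b t x := by
  have h1 : (-(Real.pi : ℂ) * zz b t).re < 0 := by
    rw [neg_mul, Complex.neg_re, Complex.re_ofReal_mul, zz_re]
    have := Real.pi_pos
    nlinarith [mul_pos this hb]
  have h2 := integral_cexp_quadratic h1 (2 * Real.pi * x * I) 0
  have hz := zz_ne hb t
  have hpi : (Real.pi : ℂ) ≠ 0 := by exact_mod_cast Real.pi_ne_zero
  calc _ = ∫ ξ : ℝ, cexp (-(Real.pi : ℂ) * zz b t * (ξ : ℂ) ^ 2 + 2 * Real.pi * x * I * ξ + 0) := by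
        congr 1
        ext ξ
        rw [← Complex.exp_add]
        congr 1
        push_cast
        ring
    _ = _ := by
        rw [h2]
        unfold k1 tau
        congr 1
        · congr 1
          field_simp
        · congr 1
          have : (2 * (Real.pi : ℂ) * x * I) ^ 2 = -(4 * Real.pi ^ 2 * x ^ 2) := by
            rw [mul_pow, I_sq]; ring
          rw [this]
          field_simp
          ring

/-- the modulus of the ambiguity function -/
noncomputable def Aw (b t h θ : ℝ) : ℝ :=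
  (Real.sqrt (2 * b))⁻¹ * Real.exp (-(Real.pi / (2 * b)) * (h + 2 * t * b * θ) ^ 2 -
    Real.pi * b / 2 * θ ^ 2)

lemma Aw_nonneg (b t h θ : ℝ) : 0 ≤ Aw b t h θ := by unfold Aw; positivity

/-- one dimensional ambiguity function -/
noncomputable def amb1 (b t h θ : ℝ) : ℂ :=
  ∫ x : ℝ, cexp (((-2 * Real.pi * (x * θ) : ℝ) : ℂ) * I) * (k1 b t (x - h) * conj (k1 b t x))

lemma amb1_norm {b : ℝ} (hb : 0 < b) (t h θ : ℝ) : ‖amb1 b t h θ‖ = Aw b t h θ := by
  have hD := DD_pos t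
  obtain ⟨p, hp⟩ : ∃ p, p = 1 / (b * DD t) := ⟨_, rfl⟩
  obtain ⟨q, hq⟩ : ∃ q, q = 2 * t / (b * DD t) := ⟨_, rfl⟩
  have hp0 : 0 < p := by rw [hp]; positivity
  have ht : tau b t = (p : ℂ) - (q : ℂ) * I := by rw [tau_eq hb t, ← hp, ← hq]
  have htc : conj (tau b t) = (p : ℂ) + (q : ℂ) * I := by
    rw [ht]; simp
  have h1 : amb1 b t h θ = ((tau b t) ^ (1 / 2 : ℂ) * conj ((tau b t) ^ (1 / 2 : ℂ))) *
      ∫ x : ℝ, cexp (((-(2 * Real.pi * p) : ℝ) : ℂ) * (x : ℂ) ^ 2 +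
        (2 * Real.pi * (tau b t * h) - 2 * Real.pi * θ * I) * x +
        (-(Real.pi : ℂ) * tau b t * (h : ℂ) ^ 2)) := by
    unfold amb1
    rw [← integral_const_mul]
    congr 1
    ext x
    unfold k1
    rw [map_mul, ← Complex.exp_conj]
    simp only [map_mul, map_neg, map_pow, Complex.conj_ofReal, htc]
    have e : cexp (((-(2 * Real.pi * p) : ℝ) : ℂ) * (x : ℂ) ^ 2 +
        (2 * Real.pi * (tau b t * h) - 2 * Real.pi * θ * I) * x +
        (-(Real.pi : ℂ) * tau b t * (h : ℂ) ^ 2)) =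
        cexp (((-2 * Real.pi * (x * θ) : ℝ) : ℂ) * I) *
        (cexp (-(Real.pi : ℂ) * tau b t * ((x - h : ℝ) : ℂ) ^ 2) *
          cexp (-(Real.pi : ℂ) * ((p : ℂ) + (q : ℂ) * I) * (x : ℂ) ^ 2)) := by
      rw [← Complex.exp_add, ← Complex.exp_add]
      congr 1
      rw [ht]
      push_cast
      ring
    rw [e]
    ring
  have hB : ((-(2 * Real.pi * p) : ℝ) : ℂ).re < 0 := by
    rw [Complex.ofReal_re]
    have := Real.pi_pos
    nlinarith [mul_pos this hp0]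
  rw [h1, integral_cexp_quadratic hB, norm_mul, norm_mul, norm_mul, RCLike.norm_conj]
  have n1 : ‖(tau b t) ^ (1 / 2 : ℂ)‖ * ‖(tau b t) ^ (1 / 2 : ℂ)‖ = ‖tau b t‖ := by
    rw [← norm_mul, ← Complex.cpow_add _ _ (tau_ne hb t)]
    norm_num
  have n2 : ‖((Real.pi : ℂ) / -((-(2 * Real.pi * p) : ℝ) : ℂ)) ^ (1 / 2 : ℂ)‖ =
      Real.sqrt (1 / (2 * p)) := by
    have e1 : ((Real.pi : ℂ) / -((-(2 * Real.pi * p) : ℝ) : ℂ)) = ((1 / (2 * p) : ℝ) : ℂ) := by
      have hpi : (Real.pi : ℂ) ≠ 0 := by exact_mod_cast Real.pi_ne_zero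
      have hpc : (p : ℂ) ≠ 0 := by exact_mod_cast hp0.ne'
      push_cast
      field_simp
    rw [e1, show (1 / 2 : ℂ) = ((1 / 2 : ℝ) : ℂ) by push_cast; ring,
      ← Complex.ofReal_cpow (by positivity), Complex.norm_real,
      Real.norm_of_nonneg (by positivity), ← Real.sqrt_eq_rpow]
  rw [n1, n2, tau_norm hb, Complex.norm_exp, ← mul_assoc]
  have n3 : 1 / (b * Real.sqrt (DD t)) * Real.sqrt (1 / (2 * p)) = (Real.sqrt (2 * b))⁻¹ := by
    have hs : 0 < Real.sqrt (DD t) := Real.sqrt_pos.2 hD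
    have e2 : Real.sqrt (1 / (2 * p)) = Real.sqrt (DD t) * Real.sqrt (b / 2) := by
      rw [← Real.sqrt_mul hD.le]
      congr 1
      rw [hp]
      field_simp
    have e3 : Real.sqrt (b / 2) = b * (Real.sqrt (2 * b))⁻¹ := by
      rw [eq_mul_inv_iff_mul_eq₀ (by positivity), ← Real.sqrt_mul (by positivity)]
      rw [show b / 2 * (2 * b) = b ^ 2 by ring, Real.sqrt_sq hb.le]
    rw [e2, e3]
    field_simp
  rw [n3]
  unfold Aw
  congr 2
  have e4 : (-(Real.pi : ℂ) * tau b t * (h : ℂ) ^ 2 -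
      (2 * Real.pi * (tau b t * h) - 2 * Real.pi * θ * I) ^ 2 /
        (4 * ((-(2 * Real.pi * p) : ℝ) : ℂ))) =
      ((-(Real.pi * p * h ^ 2) + Real.pi / (2 * p) * (p ^ 2 * h ^ 2 - (q * h + θ) ^ 2) : ℝ) : ℂ) +
      ((Real.pi * q * h ^ 2 - Real.pi / (2 * p) * (2 * (p * h) * (q * h + θ)) : ℝ) : ℂ) * I := by
    rw [ht]
    have hpi : (Real.pi : ℂ) ≠ 0 := by exact_mod_cast Real.pi_ne_zero
    have hpc : (p : ℂ) ≠ 0 := by exact_mod_cast hp0.ne'
    push_cast
    field_simp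
    ring_nf
    simp only [I_sq]
    ring
  rw [e4]
  simp only [add_re, ofReal_re, mul_re, I_re, mul_zero, ofReal_im, I_im, mul_one, sub_self,
    add_zero]
  rw [hp, hq]
  unfold DD at *
  field_simp
  ring

end Pool.Agent.TH310.BZ
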