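import Mathlib
import Pool.Agent.TH310.BZ.Gauss
set_option autoImplicit false

/-! Complex Gaussian kernels in `n` dimensions. -/

namespace Pool.Agent.TH310.BZ

open Complex MeasureTheory Set Filter
open scoped ENNReal FourierTransform ComplexConjugate RealInnerProductSpace

variable {n : ℕ}

lemma emb_ofLp (n : ℕ) : MeasurableEmbedding (@WithLp.ofLp 2 (Fin n → ℝ)) :=
  (MeasurableEquiv.toLp 2 (Fin n → ℝ)).symm.measurableEmbedding

/-- the `n` dimensional kernel -/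
noncomputable def KK (b : Fin n → ℝ) (t : ℝ) (x : E n) : ℂ := ∏ j, k1 (b j) t (x j)

lemma KK_cont (b : Fin n → ℝ) (t : ℝ) : Continuous (KK b t) := by
  unfold KK
  refine continuous_finsetProd _ fun j _ => (k1_cont (b j) t).comp ?_
  fun_prop

lemma KK_bd {b : Fin n → ℝ} (hb : ∀ j, 0 < b j) (t : ℝ) (x : E n) :
    ‖KK b t x‖ ≤ ∏ j, ‖(tau (b j) t) ^ (1 / 2 : ℂ)‖ := by
  unfold KK
  rw [norm_prod]
  exact Finset.prod_le_prod (fun _ _ => norm_nonneg _) fun j _ => k1_bd (hb j) t (x j)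

lemma KK_GB {b : Fin n → ℝ} (hb : ∀ j, 0 < b j) (t : ℝ) : GB (KK b t) := by
  refine ⟨(KK_cont b t).measurable, ?_, _, KK_bd hb t⟩
  have h1 : Integrable (fun x : Fin n → ℝ => ∏ j, k1 (b j) t (x j)) := by
    rw [volume_pi]
    exact Integrable.fintype_prod_dep (f := fun j x => k1 (b j) t x) fun j => k1_int (hb j) t
  exact (PiLp.volume_preserving_ofLp (Fin n)).integrable_comp_of_integrable h1

lemma integral_prod_E (f : Fin n → ℝ → ℂ) :
    ∫ x : E n, ∏ j, f j (x j) = ∏ j, ∫ x : ℝ, f j x := by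
  have h := (PiLp.volume_preserving_ofLp (Fin n)).integral_comp (emb_ofLp n)
    (fun x : Fin n → ℝ => ∏ j, f j (x j))
  rw [h, integral_fintype_prod_volume_eq_prod]

lemma amb_eq (b : Fin n → ℝ) (t : ℝ) (h θ : E n) :
    amb (KK b t) h θ = ∏ j, amb1 (b j) t (h j) (θ j) := by
  unfold amb
  rw [Real.fourier_eq']
  have e1 : ∀ x : E n, cexp (((-2 * Real.pi * ⟪x, θ⟫ : ℝ) : ℂ) * I) •
      (KK b t (x - h) * conj (KK b t x)) =
      ∏ j, (fun (j : Fin n) (x : ℝ) => cexp (((-2 * Real.pi * (x * θ j) : ℝ) : ℂ) * I) *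
        (k1 (b j) t (x - h j) * conj (k1 (b j) t x))) j (x j) := by
    intro x
    simp only [KK, smul_eq_mul, map_prod, PiLp.sub_apply]
    rw [Finset.prod_mul_distrib, Finset.prod_mul_distrib]
    congr 1
    rw [← Complex.exp_sum]
    congr 1
    rw [PiLp.inner_apply]
    simp only [RCLike.inner_apply, conj_trivial]
    rw [Finset.mul_sum, Complex.ofReal_sum, Finset.sum_mul]
    refine Finset.sum_congr rfl fun j _ => ?_
    push_cast
    ring
  exact (integral_congr_ae (ae_of_all _ e1)).trans (integral_prod_E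
    (fun (j : Fin n) (x : ℝ) => cexp (((-2 * Real.pi * (x * θ j) : ℝ) : ℂ) * I) *
        (k1 (b j) t (x - h j) * conj (k1 (b j) t x))))

lemma amb_norm {b : Fin n → ℝ} (hb : ∀ j, 0 < b j) (t : ℝ) (h θ : E n) :
    ‖amb (KK b t) h θ‖ = ∏ j, Aw (b j) t (h j) (θ j) := by
  rw [amb_eq, norm_prod]
  exact Finset.prod_congr rfl fun j _ => amb1_norm (hb j) t _ _

/-- quadratic form -/
noncomputable def QF (b : Fin n → ℝ) (ξ : E n) : ℝ := ∑ j, b j * ξ j ^ 2

lemma KK_fourier {b : Fin n → ℝ} (hb : ∀ j, 0 < b j) (t : ℝ) (x : E n) :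
    ∫ ξ : E n, cexp (-((Real.pi * QF b ξ : ℝ) : ℂ) * (1 + 2 * (t : ℂ) * I)) *
      cexp (((2 * Real.pi * ⟪x, ξ⟫ : ℝ) : ℂ) * I) = KK b t x := by
  have e1 : ∀ ξ : E n, cexp (-((Real.pi * QF b ξ : ℝ) : ℂ) * (1 + 2 * (t : ℂ) * I)) *
      cexp (((2 * Real.pi * ⟪x, ξ⟫ : ℝ) : ℂ) * I) =
      ∏ j, (fun (j : Fin n) (ξ : ℝ) => cexp (-(Real.pi : ℂ) * zz (b j) t * (ξ : ℂ) ^ 2) *
      cexp (((2 * Real.pi * (x j * ξ) : ℝ) : ℂ) * I)) j (ξ j) := by
    intro ξ
    simp only
    rw [Finset.prod_mul_distrib, ← Complex.exp_sum, ← Complex.exp_sum]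
    congr 1
    · congr 1
      unfold QF zz
      rw [Finset.mul_sum, Complex.ofReal_sum, neg_mul, Finset.sum_mul, ← Finset.sum_neg_distrib]
      refine Finset.sum_congr rfl fun j _ => ?_
      push_cast
      ring
    · congr 1
      rw [PiLp.inner_apply]
      simp only [RCLike.inner_apply, conj_trivial]
      rw [Finset.mul_sum, Complex.ofReal_sum, Finset.sum_mul]
      refine Finset.sum_congr rfl fun j _ => ?_
      push_cast
      ring
  refine (integral_congr_ae (ae_of_all _ e1)).trans ((integral_prod_E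
    (fun (j : Fin n) (ξ : ℝ) => cexp (-(Real.pi : ℂ) * zz (b j) t * (ξ : ℂ) ^ 2) *
      cexp (((2 * Real.pi * (x j * ξ) : ℝ) : ℂ) * I))).trans ?_)
  unfold KK
  exact Finset.prod_congr rfl fun j _ => k1_fourier (hb j) t (x j)

end Pool.Agent.TH310.BZ
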