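import Mathlib
import Pool.Agent.TH310.BZ.KK
import Pool.Agent.H988R2.Gauss
set_option autoImplicit false

/-! Integrals of the modulus of the ambiguity function. -/

namespace Pool.Agent.TH310.BZ

open Complex MeasureTheory Set Filter
open scoped ENNReal FourierTransform ComplexConjugate RealInnerProductSpace

lemma Aw_cont2 (b t : ℝ) : Continuous fun p : ℝ × ℝ => Aw b t p.1 p.2 := by
  unfold Aw
  fun_prop

lemma Aw_meas3 (t : ℝ) : Measurable fun p : ℝ × ℝ × ℝ => Aw p.1 t p.2.1 p.2.2 := by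
  unfold Aw
  fun_prop

lemma gauss_shift_int {c : ℝ} (hc : 0 < c) (a : ℝ) :
    ∫⁻ h : ℝ, ENNReal.ofReal (Real.exp (-c * (h + a) ^ 2)) = ENNReal.ofReal (Real.sqrt (Real.pi / c)) := by
  have h1 := lintegral_add_right_eq_self (μ := (volume : Measure ℝ))
    (fun h => ENNReal.ofReal (Real.exp (-c * h ^ 2))) a
  rw [h1, ← ofReal_integral_eq_lintegral_ofReal (integrable_exp_neg_mul_sq hc)
    (ae_of_all _ fun _ => (Real.exp_pos _).le), integral_gaussian]

lemma Aw_int_h {b : ℝ} (hb : 0 < b) (t θ : ℝ) : ∫⁻ h : ℝ, ENNReal.ofReal (Aw b t h θ) ≤ 1 := by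
  have h1 : ∀ h : ℝ, ENNReal.ofReal (Aw b t h θ) ≤ ENNReal.ofReal (Real.sqrt (2 * b))⁻¹ *
      ENNReal.ofReal (Real.exp (-(Real.pi / (2 * b)) * (h + 2 * t * b * θ) ^ 2)) := by
    intro h
    rw [← ENNReal.ofReal_mul (by positivity)]
    apply ENNReal.ofReal_le_ofReal
    unfold Aw
    apply mul_le_mul_of_nonneg_left _ (by positivity)
    apply Real.exp_le_exp.2
    have : 0 ≤ Real.pi * b / 2 * θ ^ 2 := by positivity
    linarith
  refine (lintegral_mono h1).trans ?_
  rw [lintegral_const_mul' _ _ ENNReal.ofReal_ne_top,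
    gauss_shift_int (by positivity : 0 < Real.pi / (2 * b)), ← ENNReal.ofReal_mul (by positivity)]
  have : (Real.sqrt (2 * b))⁻¹ * Real.sqrt (Real.pi / (Real.pi / (2 * b))) = 1 := by
    rw [show Real.pi / (Real.pi / (2 * b)) = 2 * b by field_simp]
    exact inv_mul_cancel₀ (by positivity)
  rw [this, ENNReal.ofReal_one]

lemma exp_neg_le_rpow {u η : ℝ} (hu : 0 < u) (hη : 0 < η) (hη1 : η ≤ 1) :
    Real.exp (-u) ≤ u ^ (-η) := by
  rw [Real.rpow_neg hu.le, Real.exp_neg]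
  apply inv_anti₀ (by positivity)
  rcases le_or_gt u 1 with h | h
  · calc u ^ η ≤ 1 := Real.rpow_le_one hu.le h hη.le
      _ ≤ Real.exp u := Real.one_le_exp hu.le
  · calc u ^ η ≤ u ^ (1 : ℝ) := Real.rpow_le_rpow_of_exponent_le h.le hη1
      _ = u := Real.rpow_one u
      _ ≤ Real.exp u := by linarith [Real.add_one_le_exp u]

lemma exp_neg_le_sq {u : ℝ} (hu : 0 < u) : Real.exp (-u) ≤ 2 / u ^ 2 := by
  rw [Real.exp_neg, inv_eq_one_div, div_le_div_iff₀ (Real.exp_pos _) (by positivity)]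
  have := Real.quadratic_le_exp_of_nonneg hu.le
  nlinarith

/-- The average of the ambiguity weight over the coefficient. -/
theorem Aw_avg (α γ η : ℝ) (hα : 0 < α) (hαγ : α ≤ γ) (hη : 0 < η) (hη1 : η ≤ 1) :
    ∃ C : ℝ, 0 < C ∧ ∀ t h θ : ℝ, ∫⁻ b in Icc α γ, ENNReal.ofReal (Aw b t h θ) ≤
      ENNReal.ofReal (C * (1 + t ^ 2) ^ η * (1 + |h|) ^ (-(1 + 2 * η))) := by
  have hγ : 0 < γ := lt_of_lt_of_le hα hαγ
  obtain ⟨s, hs⟩ : ∃ s, s = (Real.sqrt (2 * α))⁻¹ := ⟨_, rfl⟩
  have hs0 : 0 < s := by rw [hs]; positivity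
  obtain ⟨c₁, hc₁⟩ : ∃ c, c = Real.pi / (8 * γ) := ⟨_, rfl⟩
  have hc₁0 : 0 < c₁ := by rw [hc₁]; positivity
  obtain ⟨c₂, hc₂⟩ : ∃ c, c = Real.pi * α / (32 * γ ^ 2) := ⟨_, rfl⟩
  have hc₂0 : 0 < c₂ := by rw [hc₂]; positivity
  obtain ⟨C₁, hC₁⟩ : ∃ C, C = 8 * (s * (γ - α)) := ⟨_, rfl⟩
  obtain ⟨C₂, hC₂⟩ : ∃ C, C = 8 * (s * (2 / c₁ ^ 2) * (γ - α)) := ⟨_, rfl⟩
  obtain ⟨C₃, hC₃⟩ : ∃ C, C = 8 * (s * Real.sqrt (2 * γ) * (2 * γ) * c₂ ^ (-η)) := ⟨_, rfl⟩
  have hga : 0 ≤ γ - α := by linarith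
  have hC₁0 : 0 ≤ C₁ := by rw [hC₁]; positivity
  have hC₂0 : 0 ≤ C₂ := by rw [hC₂]; positivity
  have hC₃0 : 0 ≤ C₃ := by rw [hC₃]; positivity
  refine ⟨C₁ + C₂ + C₃ + 1, by positivity, fun t h θ => ?_⟩
  have ht1 : (1 : ℝ) ≤ (1 + t ^ 2) ^ η := Real.one_le_rpow (by nlinarith [sq_nonneg t]) hη.le
  -- pointwise bound
  have hpt : ∀ b ∈ Icc α γ, Aw b t h θ ≤ s * Real.exp (-(Real.pi / (2 * γ)) * (h + 2 * t * b * θ) ^ 2 -
      Real.pi * α / 2 * θ ^ 2) := by
    intro b hb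
    have hb0 : 0 < b := lt_of_lt_of_le hα hb.1
    unfold Aw
    rw [hs]
    apply mul_le_mul _ _ (Real.exp_pos _).le (by positivity)
    · apply inv_anti₀ (by positivity)
      apply Real.sqrt_le_sqrt
      linarith [hb.1]
    · apply Real.exp_le_exp.2
      have e1 : Real.pi / (2 * γ) ≤ Real.pi / (2 * b) := by
        apply div_le_div_of_nonneg_left Real.pi_pos.le (by positivity)
        linarith [hb.2]
      have e2 : Real.pi * α / 2 * θ ^ 2 ≤ Real.pi * b / 2 * θ ^ 2 := by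
        have := hb.1
        have := Real.pi_pos
        gcongr
      have e3 : Real.pi / (2 * γ) * (h + 2 * t * b * θ) ^ 2 ≤
          Real.pi / (2 * b) * (h + 2 * t * b * θ) ^ 2 :=
        mul_le_mul_of_nonneg_right e1 (sq_nonneg _)
      nlinarith
  have hle1 : ∀ B : ℝ, (∀ b ∈ Icc α γ, Aw b t h θ ≤ B) →
      ∫⁻ b in Icc α γ, ENNReal.ofReal (Aw b t h θ) ≤ ENNReal.ofReal (B * (γ - α)) := by
    intro B hB
    calc ∫⁻ b in Icc α γ, ENNReal.ofReal (Aw b t h θ) ≤ ∫⁻ _b in Icc α γ, ENNReal.ofReal B :=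
          setLIntegral_mono' measurableSet_Icc fun b hb => ENNReal.ofReal_le_ofReal (hB b hb)
      _ = ENNReal.ofReal (B * (γ - α)) := by
          rw [lintegral_const, Measure.restrict_apply_univ, Real.volume_Icc,
            ← ENNReal.ofReal_mul']
          linarith
  rcases le_or_gt |h| 1 with hh | hh
  · refine (hle1 s fun b hb => ?_).trans (ENNReal.ofReal_le_ofReal ?_)
    · refine (hpt b hb).trans (mul_le_of_le_one_right hs0.le ?_)
      rw [Real.exp_le_one_iff]
      have : 0 ≤ Real.pi / (2 * γ) * (h + 2 * t * b * θ) ^ 2 := by positivity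
      have : 0 ≤ Real.pi * α / 2 * θ ^ 2 := by positivity
      linarith
    · have e1 : (1 / 8 : ℝ) ≤ (1 + |h|) ^ (-(1 + 2 * η)) := by
        calc (1 / 8 : ℝ) = (2 : ℝ) ^ (-(3 : ℝ)) := by norm_num
          _ ≤ (2 : ℝ) ^ (-(1 + 2 * η)) := by
            apply Real.rpow_le_rpow_of_exponent_le (by norm_num); linarith
          _ ≤ (1 + |h|) ^ (-(1 + 2 * η)) := by
            apply Real.rpow_le_rpow_of_nonpos (by positivity) (by linarith) (by linarith)
      calc s * (γ - α) = C₁ * 1 * (1 / 8) := by rw [hC₁]; ring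
        _ ≤ (C₁ + C₂ + C₃ + 1) * (1 + t ^ 2) ^ η * (1 + |h|) ^ (-(1 + 2 * η)) := by
          gcongr
          linarith
  · have hh0 : 0 < |h| := by linarith
    have e1 : |h| ^ (-(1 + 2 * η)) ≤ 8 * (1 + |h|) ^ (-(1 + 2 * η)) := by
      have : (2 : ℝ) ^ (-(1 + 2 * η)) * |h| ^ (-(1 + 2 * η)) ≤ (1 + |h|) ^ (-(1 + 2 * η)) := by
        rw [← Real.mul_rpow (by norm_num) hh0.le]
        apply Real.rpow_le_rpow_of_nonpos (by positivity) (by linarith) (by linarith)
      have e2 : (1 / 8 : ℝ) ≤ (2 : ℝ) ^ (-(1 + 2 * η)) := by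
        calc (1 / 8 : ℝ) = (2 : ℝ) ^ (-(3 : ℝ)) := by norm_num
          _ ≤ _ := by
            apply Real.rpow_le_rpow_of_exponent_le (by norm_num); linarith
      have e3 : 0 ≤ |h| ^ (-(1 + 2 * η)) := by positivity
      nlinarith
    rcases le_or_gt (4 * γ * |t| * |θ|) |h| with hA | hB
    · refine (hle1 (s * (2 / c₁ ^ 2) * |h| ^ (-(1 + 2 * η))) fun b hb => ?_).trans
        (ENNReal.ofReal_le_ofReal ?_)
      · have hb0 : 0 < b := lt_of_lt_of_le hα hb.1
        refine (hpt b hb).trans ?_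
        rw [mul_assoc s]
        apply mul_le_mul_of_nonneg_left _ hs0.le
        have f1 : |2 * t * b * θ| ≤ |h| / 2 := by
          rw [abs_mul, abs_mul, abs_mul, abs_of_pos hb0, abs_two]
          have : 2 * |t| * b * |θ| ≤ 2 * |t| * γ * |θ| := by
            have := hb.2
            gcongr
          linarith
        have f2 : |h| ^ 2 / 4 ≤ (h + 2 * t * b * θ) ^ 2 := by
          have g1 : |h| / 2 ≤ |h + 2 * t * b * θ| := by
            have := abs_sub_abs_le_abs_sub h (-(2 * t * b * θ))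
            rw [abs_neg, sub_neg_eq_add] at this
            linarith
          have g2 : (|h| / 2) ^ 2 ≤ |h + 2 * t * b * θ| ^ 2 :=
            pow_le_pow_left₀ (by positivity) g1 2
          rw [sq_abs (h + 2 * t * b * θ)] at g2
          linarith
        have f3 : Real.exp (-(Real.pi / (2 * γ)) * (h + 2 * t * b * θ) ^ 2 -
            Real.pi * α / 2 * θ ^ 2) ≤ Real.exp (-(c₁ * |h| ^ 2)) := by
          apply Real.exp_le_exp.2
          have : 0 ≤ Real.pi * α / 2 * θ ^ 2 := by positivity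
          have g3 : c₁ * |h| ^ 2 ≤ Real.pi / (2 * γ) * (h + 2 * t * b * θ) ^ 2 := by
            calc c₁ * |h| ^ 2 = Real.pi / (2 * γ) * (|h| ^ 2 / 4) := by
                  rw [hc₁]; field_simp; ring
              _ ≤ _ := mul_le_mul_of_nonneg_left f2 (by positivity)
          linarith
        refine f3.trans ((exp_neg_le_sq (by positivity)).trans ?_)
        have g4 : 2 / (c₁ * |h| ^ 2) ^ 2 = 2 / c₁ ^ 2 * |h| ^ (-(4 : ℝ)) := by
          rw [Real.rpow_neg hh0.le, show (4 : ℝ) = ((4 : ℕ) : ℝ) by norm_num, Real.rpow_natCast]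
          field_simp
        rw [g4]
        apply mul_le_mul_of_nonneg_left _ (by positivity)
        apply Real.rpow_le_rpow_of_exponent_le hh.le
        linarith
      · calc s * (2 / c₁ ^ 2) * |h| ^ (-(1 + 2 * η)) * (γ - α)
            ≤ s * (2 / c₁ ^ 2) * (8 * (1 + |h|) ^ (-(1 + 2 * η))) * (γ - α) := by gcongr
          _ = C₂ * 1 * (1 + |h|) ^ (-(1 + 2 * η)) := by rw [hC₂]; ring
          _ ≤ (C₁ + C₂ + C₃ + 1) * (1 + t ^ 2) ^ η * (1 + |h|) ^ (-(1 + 2 * η)) := by
            gcongr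
            linarith
    · have htθ : 0 < |t| * |θ| := by
        by_contra hcon
        have : |t| * |θ| = 0 := le_antisymm (not_lt.1 hcon) (by positivity)
        have : 4 * γ * |t| * |θ| = 0 := by rw [mul_assoc, this, mul_zero]
        linarith
      have ht0 : t ≠ 0 := by
        rintro rfl
        simp at htθ
      have hθ0 : θ ≠ 0 := by
        rintro rfl
        simp at htθ
      -- the Gaussian factor in `θ`
      have f1 : Real.exp (-(Real.pi * α / 2 * θ ^ 2)) ≤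
          c₂ ^ (-η) * (1 + t ^ 2) ^ η * |h| ^ (-(2 * η)) := by
        have g1 : c₂ * (|h| ^ 2 / (1 + t ^ 2)) ≤ Real.pi * α / 2 * θ ^ 2 := by
          have g2 : |h| ^ 2 ≤ 16 * γ ^ 2 * (t ^ 2 * θ ^ 2) := by
            calc |h| ^ 2 ≤ (4 * γ * |t| * |θ|) ^ 2 := pow_le_pow_left₀ hh0.le hB.le 2
              _ = 16 * γ ^ 2 * (|t| ^ 2 * |θ| ^ 2) := by ring
              _ = _ := by rw [sq_abs, sq_abs]
          have g3 : |h| ^ 2 / (1 + t ^ 2) ≤ 16 * γ ^ 2 * θ ^ 2 := by
            rw [div_le_iff₀ (by positivity)]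
            nlinarith [sq_nonneg θ, sq_nonneg γ, mul_nonneg (sq_nonneg γ) (sq_nonneg θ)]
          calc c₂ * (|h| ^ 2 / (1 + t ^ 2)) ≤ c₂ * (16 * γ ^ 2 * θ ^ 2) :=
                mul_le_mul_of_nonneg_left g3 hc₂0.le
            _ = _ := by rw [hc₂]; field_simp; ring
        calc Real.exp (-(Real.pi * α / 2 * θ ^ 2))
            ≤ Real.exp (-(c₂ * (|h| ^ 2 / (1 + t ^ 2)))) := Real.exp_le_exp.2 (by linarith)
          _ ≤ (c₂ * (|h| ^ 2 / (1 + t ^ 2))) ^ (-η) := exp_neg_le_rpow (by positivity) hη hη1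
          _ = _ := by
            rw [Real.mul_rpow hc₂0.le (by positivity), Real.div_rpow (by positivity)
              (by positivity), Real.rpow_neg (by positivity : 0 ≤ 1 + t ^ 2), div_inv_eq_mul,
              ← Real.rpow_natCast |h| 2, ← Real.rpow_mul hh0.le]
            rw [show ((2 : ℕ) : ℝ) * -η = -(2 * η) by push_cast; ring]
            ring
      have f2 : ∀ b ∈ Icc α γ, ENNReal.ofReal (Aw b t h θ) ≤
          ENNReal.ofReal (s * (c₂ ^ (-η) * (1 + t ^ 2) ^ η * |h| ^ (-(2 * η)))) *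
            ENNReal.ofReal (Real.exp (-(Real.pi / (2 * γ) * (2 * t * θ) ^ 2) *
              (b + h / (2 * t * θ)) ^ 2)) := by
        intro b hb
        rw [← ENNReal.ofReal_mul (by positivity)]
        apply ENNReal.ofReal_le_ofReal
        refine (hpt b hb).trans ?_
        rw [mul_assoc s]
        apply mul_le_mul_of_nonneg_left _ hs0.le
        have g1 : -(Real.pi / (2 * γ)) * (h + 2 * t * b * θ) ^ 2 - Real.pi * α / 2 * θ ^ 2 =
            -(Real.pi * α / 2 * θ ^ 2) + -(Real.pi / (2 * γ) * (2 * t * θ) ^ 2) *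
              (b + h / (2 * t * θ)) ^ 2 := by
          field_simp
          ring
        rw [g1, Real.exp_add]
        exact mul_le_mul_of_nonneg_right f1 (Real.exp_pos _).le
      calc ∫⁻ b in Icc α γ, ENNReal.ofReal (Aw b t h θ)
          ≤ ∫⁻ b in Icc α γ, ENNReal.ofReal (s * (c₂ ^ (-η) * (1 + t ^ 2) ^ η *
              |h| ^ (-(2 * η)))) * ENNReal.ofReal (Real.exp (-(Real.pi / (2 * γ) *
                (2 * t * θ) ^ 2) * (b + h / (2 * t * θ)) ^ 2)) :=
            setLIntegral_mono' measurableSet_Icc f2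
        _ ≤ ∫⁻ b, ENNReal.ofReal (s * (c₂ ^ (-η) * (1 + t ^ 2) ^ η *
              |h| ^ (-(2 * η)))) * ENNReal.ofReal (Real.exp (-(Real.pi / (2 * γ) *
                (2 * t * θ) ^ 2) * (b + h / (2 * t * θ)) ^ 2)) :=
            setLIntegral_le_lintegral _ _
        _ = ENNReal.ofReal (s * (c₂ ^ (-η) * (1 + t ^ 2) ^ η * |h| ^ (-(2 * η))) *
              Real.sqrt (Real.pi / (Real.pi / (2 * γ) * (2 * t * θ) ^ 2))) := by
            rw [lintegral_const_mul' _ _ ENNReal.ofReal_ne_top,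
              gauss_shift_int (by positivity), ← ENNReal.ofReal_mul (by positivity)]
        _ ≤ _ := by
            apply ENNReal.ofReal_le_ofReal
            have g1 : Real.sqrt (Real.pi / (Real.pi / (2 * γ) * (2 * t * θ) ^ 2)) ≤
                Real.sqrt (2 * γ) * (2 * γ) * |h| ^ (-(1 : ℝ)) := by
              have g2 : Real.pi / (Real.pi / (2 * γ) * (2 * t * θ) ^ 2) =
                  2 * γ * (1 / (2 * t * θ)) ^ 2 := by
                field_simp
              rw [g2, Real.sqrt_mul (by positivity), Real.sqrt_sq_eq_abs, mul_assoc (Real.sqrt (2 * γ))]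
              apply mul_le_mul_of_nonneg_left _ (by positivity)
              rw [abs_div, abs_one, abs_mul, abs_mul, abs_two, Real.rpow_neg_one,
                ← div_eq_mul_inv, div_le_div_iff₀ (by positivity) hh0]
              nlinarith
            calc s * (c₂ ^ (-η) * (1 + t ^ 2) ^ η * |h| ^ (-(2 * η))) *
                Real.sqrt (Real.pi / (Real.pi / (2 * γ) * (2 * t * θ) ^ 2))
                ≤ s * (c₂ ^ (-η) * (1 + t ^ 2) ^ η * |h| ^ (-(2 * η))) *
                  (Real.sqrt (2 * γ) * (2 * γ) * |h| ^ (-(1 : ℝ))) := by gcongr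
              _ = s * Real.sqrt (2 * γ) * (2 * γ) * c₂ ^ (-η) * (1 + t ^ 2) ^ η *
                  |h| ^ (-(1 + 2 * η)) := by
                  rw [show -(1 + 2 * η) = -(2 * η) + -(1 : ℝ) by ring, Real.rpow_add hh0]
                  ring
              _ ≤ s * Real.sqrt (2 * γ) * (2 * γ) * c₂ ^ (-η) * (1 + t ^ 2) ^ η *
                  (8 * (1 + |h|) ^ (-(1 + 2 * η))) := by gcongr
              _ = C₃ * (1 + t ^ 2) ^ η * (1 + |h|) ^ (-(1 + 2 * η)) := by rw [hC₃]; ring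
              _ ≤ _ := by
                gcongr
                linarith

lemma japanese_fin {r : ℝ} (hr : 1 < r) :
    ∫⁻ h : ℝ, ENNReal.ofReal ((1 + |h|) ^ (-r)) < ⊤ := by
  have h1 := integrable_one_add_norm (E := ℝ) (μ := volume) (r := r) (by simpa using hr)
  have h2 := h1.lintegral_lt_top
  simpa using h2

end Pool.Agent.TH310.BZ
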