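import Mathlib
import Pool.Agent.TH310.BZ.Wt
set_option autoImplicit false

/-! The averaged fourth moment of the convolution with complex Gaussians. -/

namespace Pool.Agent.TH310.BZ

open Complex MeasureTheory Set Filter
open scoped ENNReal FourierTransform ComplexConjugate RealInnerProductSpace

lemma cs_le {X : Type*} [MeasurableSpace X] {μ : Measure X} {f g : X → ℝ≥0∞} (hf : Measurable f)
    (hg : Measurable g) :
    (∫⁻ x, f x * g x ∂μ) ^ 2 ≤ (∫⁻ x, f x ∂μ) * ∫⁻ x, f x * g x ^ 2 ∂μ := by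
  have h := ENNReal.lintegral_mul_le_Lp_mul_Lq μ (p := 2) (q := 2) (by constructor <;> norm_num)
    (f := fun x => f x ^ (1 / 2 : ℝ)) (g := fun x => f x ^ (1 / 2 : ℝ) * g x)
    (hf.pow_const _).aemeasurable ((hf.pow_const _).mul hg).aemeasurable
  have e1 : ∀ x, ((fun x => f x ^ (1 / 2 : ℝ)) * fun x => f x ^ (1 / 2 : ℝ) * g x) x = f x * g x := by
    intro x
    simp only [Pi.mul_apply]
    rw [← mul_assoc, ← ENNReal.rpow_add_of_nonneg _ _ (by norm_num) (by norm_num)]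
    norm_num
  have e2 : ∀ x, (f x ^ (1 / 2 : ℝ)) ^ (2 : ℝ) = f x := by
    intro x
    rw [← ENNReal.rpow_mul]
    norm_num
  have e3 : ∀ x, (f x ^ (1 / 2 : ℝ) * g x) ^ (2 : ℝ) = f x * g x ^ 2 := by
    intro x
    rw [ENNReal.mul_rpow_of_nonneg _ _ (by norm_num), e2]
    congr 1
    exact ENNReal.rpow_ofNat _ _
  simp only [e1, e2, e3] at h
  calc (∫⁻ x, f x * g x ∂μ) ^ 2
      ≤ ((∫⁻ x, f x ∂μ) ^ (1 / 2 : ℝ) * (∫⁻ x, f x * g x ^ 2 ∂μ) ^ (1 / 2 : ℝ)) ^ 2 := by gcongr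
    _ = _ := by
      rw [mul_pow, ← ENNReal.rpow_natCast, ← ENNReal.rpow_natCast, ← ENNReal.rpow_mul,
        ← ENNReal.rpow_mul]
      norm_num

section general
variable {V : Type} [NormedAddCommGroup V] [InnerProductSpace ℝ V] [MeasurableSpace V]
  [BorelSpace V] [FiniteDimensional ℝ V]

lemma meas_Fkk {g : V → ℂ} (hg : Measurable g) :
    Measurable fun p : V × V => 𝓕 (kk g p.2) p.1 := by
  have h1 : (fun p : V × V => 𝓕 (kk g p.2) p.1) = fun p : V × V =>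
      ∫ v : V, (fun q : (V × V) × V => Real.fourierChar (-⟪q.2, q.1.1⟫) • kk g q.1.2 q.2) (p, v) := by
    ext p
    rw [Real.fourier_eq]
  rw [h1]
  refine (StronglyMeasurable.integral_prod_right' (ν := (volume : Measure V))
    (f := fun q : (V × V) × V => Real.fourierChar (-⟪q.2, q.1.1⟫) • kk g q.1.2 q.2) ?_).measurable
  have h2 : Measurable fun q : (V × V) × V => (Real.fourierChar (-⟪q.2, q.1.1⟫) : ℂ) := by
    have : Continuous fun q : (V × V) × V => (Real.fourierChar (-⟪q.2, q.1.1⟫) : ℂ) := by fun_prop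
    exact this.measurable
  simp only [Circle.smul_def, smul_eq_mul]
  refine (h2.mul ?_).stronglyMeasurable
  unfold kk
  exact (hg.comp (measurable_snd.add measurable_fst.snd)).mul
    (continuous_conj.measurable.comp (hg.comp measurable_snd))

lemma meas_F {g : V → ℂ} (hg : Integrable g) : Measurable (𝓕 g) := by
  have := VectorFourier.fourierIntegral_continuous (L := innerₗ V) Real.continuous_fourierChar
      continuous_inner hg
  exact Continuous.measurable this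

lemma meas_amb {K : V → ℂ} (hK : Measurable K) :
    Measurable fun p : V × V => amb K p.1 p.2 := by
  have h1 : (fun p : V × V => amb K p.1 p.2) = fun p : V × V =>
      ∫ v : V, (fun q : (V × V) × V => Real.fourierChar (-⟪q.2, q.1.2⟫) •
        (K (q.2 - q.1.1) * conj (K q.2))) (p, v) := by
    ext p
    unfold amb
    rw [Real.fourier_eq]
  rw [h1]
  refine (StronglyMeasurable.integral_prod_right' (ν := (volume : Measure V))
    (f := fun q : (V × V) × V => Real.fourierChar (-⟪q.2, q.1.2⟫) •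
        (K (q.2 - q.1.1) * conj (K q.2))) ?_).measurable
  have h2 : Measurable fun q : (V × V) × V => (Real.fourierChar (-⟪q.2, q.1.2⟫) : ℂ) := by
    have : Continuous fun q : (V × V) × V => (Real.fourierChar (-⟪q.2, q.1.2⟫) : ℂ) := by fun_prop
    exact this.measurable
  simp only [Circle.smul_def, smul_eq_mul]
  refine (h2.mul ?_).stronglyMeasurable
  exact (hK.comp (measurable_snd.sub measurable_fst.fst)).mul
    (continuous_conj.measurable.comp (hK.comp measurable_snd))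

lemma l4_le {K g : V → ℂ} (hK : GB K) (hg : GB g)
    (h1 : ∀ θ : V, ∫⁻ h : V, ‖amb K h θ‖ₑ ≤ 1) :
    ∫⁻ x, ‖cv K g x‖ₑ ^ 4 ≤ ∫⁻ θ : V, ∫⁻ h : V, ‖amb K h θ‖ₑ * ‖𝓕 (kk g h) θ‖ₑ ^ 2 := by
  have hG := hK.cv hg
  obtain ⟨M, hM⟩ := hG.bd
  have hGG : GB fun x => cv K g x * conj (cv K g x) := hG.conj.mul_bdd hG.meas hM
  have e1 : ∫⁻ x, ‖cv K g x‖ₑ ^ 4 = ∫⁻ θ, ‖𝓕 (fun x => cv K g x * conj (cv K g x)) θ‖ₑ ^ 2 := by
    rw [Pool.Agent.H153R4.plancherel _ hGG.int hGG.memLp]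
    congr 1
    ext x
    have : ‖conj (cv K g x)‖ₑ = ‖cv K g x‖ₑ := by
      rw [← ofReal_norm, ← ofReal_norm, RCLike.norm_conj]
    rw [enorm_mul, this]
    ring
  rw [e1]
  refine lintegral_mono fun θ => ?_
  rw [amb_rep hK hg]
  have hm1 : Measurable fun h : V => ‖amb K h θ‖ₑ :=
    ((meas_amb hK.meas).comp (measurable_id.prodMk measurable_const)).enorm
  have hm2 : Measurable fun h : V => ‖𝓕 (kk g h) θ‖ₑ :=
    ((meas_Fkk hg.meas).comp (measurable_const.prodMk measurable_id)).enorm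
  calc ‖∫ h, amb K h θ * 𝓕 (kk g h) θ‖ₑ ^ 2
      ≤ (∫⁻ h, ‖amb K h θ‖ₑ * ‖𝓕 (kk g h) θ‖ₑ) ^ 2 := by
        gcongr
        refine (enorm_integral_le_lintegral_enorm _).trans (le_of_eq ?_)
        simp only [enorm_mul]
    _ ≤ (∫⁻ h, ‖amb K h θ‖ₑ) * ∫⁻ h, ‖amb K h θ‖ₑ * ‖𝓕 (kk g h) θ‖ₑ ^ 2 := cs_le hm1 hm2
    _ ≤ 1 * ∫⁻ h, ‖amb K h θ‖ₑ * ‖𝓕 (kk g h) θ‖ₑ ^ 2 := by gcongr; exact h1 θ
    _ = _ := one_mul _

end general

variable {n : ℕ}

lemma lint_prod_E (f : Fin n → ℝ → ℝ≥0∞) (hf : ∀ j, Measurable (f j)) :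
    ∫⁻ x : E n, ∏ j, f j (x j) = ∏ j, ∫⁻ x : ℝ, f j x := by
  have h := (PiLp.volume_preserving_ofLp (Fin n)).lintegral_comp_emb (emb_ofLp n)
    (fun x : Fin n → ℝ => ∏ j, f j (x j))
  rw [h, volume_pi]
  exact Pool.Agent.H988R2.lintegral_fin_prod (fun _ => volume) f hf

lemma amb_enorm {b : Fin n → ℝ} (hb : ∀ j, 0 < b j) (t : ℝ) (h θ : E n) :
    ‖amb (KK b t) h θ‖ₑ = ∏ j, ENNReal.ofReal (Aw (b j) t (h j) (θ j)) := by
  rw [← ofReal_norm, amb_norm hb, ENNReal.ofReal_prod_of_nonneg fun j _ => Aw_nonneg _ _ _ _]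

lemma amb_int_h {b : Fin n → ℝ} (hb : ∀ j, 0 < b j) (t : ℝ) (θ : E n) :
    ∫⁻ h : E n, ‖amb (KK b t) h θ‖ₑ ≤ 1 := by
  simp only [amb_enorm hb]
  rw [lint_prod_E (fun j x => ENNReal.ofReal (Aw (b j) t x (θ j))) fun j =>
    ((Aw_cont2 (b j) t).measurable.comp (measurable_id.prodMk measurable_const)).ennreal_ofReal]
  exact Finset.prod_le_one' fun j _ => Aw_int_h (hb j) t (θ j)

/-- the parameter measure -/
noncomputable def nu (n : ℕ) (α γ : ℝ) : Measure (Fin n → ℝ) :=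
  Measure.pi fun _ : Fin n => volume.restrict (Icc α γ)

instance (n : ℕ) (α γ : ℝ) : IsFiniteMeasure (nu n α γ) := by unfold nu; infer_instance

lemma nu_ae (n : ℕ) (α γ : ℝ) : ∀ᵐ b ∂(nu n α γ), ∀ j, b j ∈ Icc α γ := by
  unfold nu
  rw [← Measure.restrict_pi_pi]
  have : MeasurableSet (univ.pi fun _ : Fin n => Icc α γ) :=
    MeasurableSet.univ_pi fun _ => measurableSet_Icc
  filter_upwards [ae_restrict_mem this] with b hb j
  exact hb j (mem_univ j)

lemma nu_prod (n : ℕ) (α γ : ℝ) (f : Fin n → ℝ → ℝ≥0∞) (hf : ∀ j, Measurable (f j)) :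
    ∫⁻ b, ∏ j, f j (b j) ∂(nu n α γ) = ∏ j, ∫⁻ x in Icc α γ, f j x :=
  Pool.Agent.H988R2.lintegral_fin_prod (fun _ => volume.restrict (Icc α γ)) f hf

lemma box_avg {n : ℕ} {α γ C t η : ℝ}
    (hA : ∀ t h θ : ℝ, ∫⁻ b in Icc α γ, ENNReal.ofReal (Aw b t h θ) ≤
      ENNReal.ofReal (C * (1 + t ^ 2) ^ η * (1 + |h|) ^ (-(1 + 2 * η)))) (p : E n × E n) :
    ∫⁻ b, ∏ j, ENNReal.ofReal (Aw (b j) t (p.2 j) (p.1 j)) ∂(nu n α γ) ≤
      ∏ j, ENNReal.ofReal (C * (1 + t ^ 2) ^ η * (1 + |p.2 j|) ^ (-(1 + 2 * η))) := by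
  refine (le_of_eq (nu_prod n α γ (fun j b => ENNReal.ofReal (Aw b t (p.2 j) (p.1 j)))
    fun j => ?_)).trans ?_
  · have : Measurable fun b : ℝ => Aw b t (p.2 j) (p.1 j) := by
      unfold Aw
      fun_prop
    exact this.ennreal_ofReal
  · exact Finset.prod_le_prod' fun j _ => hA t (p.2 j) (p.1 j)

/-- **The averaged fourth moment.** -/
theorem core4 (n : ℕ) (α γ η : ℝ) (hα : 0 < α) (hαγ : α ≤ γ) (hη : 0 < η) (hη1 : η ≤ 1) :
    ∃ C : ℝ, 0 < C ∧ ∀ t : ℝ, ∀ g : E n → ℂ, GB g →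
      ∫⁻ b, ∫⁻ x, ‖cv (KK b t) g x‖ₑ ^ 4 ∂volume ∂(nu n α γ) ≤
        ENNReal.ofReal (C * ((1 + t ^ 2) ^ η) ^ n) * ∫⁻ x, ‖g x‖ₑ ^ 4 := by
  obtain ⟨C, hC, hA⟩ := Aw_avg α γ η hα hαγ hη hη1
  have hjf := japanese_fin (r := 1 + 2 * η) (by linarith)
  obtain ⟨J, hJ⟩ : ∃ J, J = ∫⁻ h : ℝ, ENNReal.ofReal ((1 + |h|) ^ (-(1 + 2 * η))) := ⟨_, rfl⟩
  rw [← hJ] at hjf
  refine ⟨(C * J.toReal) ^ n + 1, by positivity, fun t g hg => ?_⟩
  have hm0 : Measurable fun p : (Fin n → ℝ) × (E n × E n) =>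
      ∏ j, ENNReal.ofReal (Aw (p.1 j) t (p.2.2 j) (p.2.1 j)) := by
    refine Finset.measurable_prod _ fun j _ => Measurable.ennreal_ofReal ?_
    refine (Aw_meas3 t).comp (Measurable.prodMk (by fun_prop) (Measurable.prodMk ?_ ?_))
    · fun_prop
    · fun_prop
  have hmF : Measurable fun p : E n × E n => ‖𝓕 (kk g p.2) p.1‖ₑ ^ 2 :=
    (meas_Fkk hg.meas).enorm.pow_const 2
  calc ∫⁻ b, ∫⁻ x, ‖cv (KK b t) g x‖ₑ ^ 4 ∂volume ∂(nu n α γ)
      ≤ ∫⁻ b, ∫⁻ p : E n × E n, (∏ j, ENNReal.ofReal (Aw (b j) t (p.2 j) (p.1 j))) *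
          ‖𝓕 (kk g p.2) p.1‖ₑ ^ 2 ∂(volume.prod volume) ∂(nu n α γ) := by
        refine lintegral_mono_ae ?_
        filter_upwards [nu_ae n α γ] with b hb
        have hb0 : ∀ j, 0 < b j := fun j => lt_of_lt_of_le hα (hb j).1
        refine (l4_le (KK_GB hb0 t) hg (amb_int_h hb0 t)).trans (le_of_eq ?_)
        rw [lintegral_prod]
        · simp only [amb_enorm hb0]
        · exact ((hm0.comp (measurable_const.prodMk measurable_id)).mul hmF).aemeasurable
    _ = ∫⁻ p : E n × E n, (∫⁻ b, ∏ j, ENNReal.ofReal (Aw (b j) t (p.2 j) (p.1 j)) ∂(nu n α γ)) *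
          ‖𝓕 (kk g p.2) p.1‖ₑ ^ 2 ∂(volume.prod volume) := by
        rw [lintegral_lintegral_swap]
        · refine lintegral_congr fun p => ?_
          have hmb : Measurable fun b : Fin n → ℝ =>
              ∏ j, ENNReal.ofReal (Aw (b j) t (p.2 j) (p.1 j)) :=
            hm0.comp (measurable_id.prodMk measurable_const)
          rw [lintegral_mul_const _ hmb]
        · exact (hm0.mul (hmF.comp measurable_snd)).aemeasurable
    _ ≤ ∫⁻ p : E n × E n, (∏ j, ENNReal.ofReal (C * (1 + t ^ 2) ^ η *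
          (1 + |p.2 j|) ^ (-(1 + 2 * η)))) * ‖𝓕 (kk g p.2) p.1‖ₑ ^ 2 ∂(volume.prod volume) := by
        exact lintegral_mono fun p => mul_le_mul_left (box_avg hA p) _
    _ = ∫⁻ h : E n, (∏ j, ENNReal.ofReal (C * (1 + t ^ 2) ^ η *
          (1 + |h j|) ^ (-(1 + 2 * η)))) * ∫⁻ θ : E n, ‖𝓕 (kk g h) θ‖ₑ ^ 2 := by
        have hmW : Measurable fun h : E n => ∏ j, ENNReal.ofReal (C * (1 + t ^ 2) ^ η *
          (1 + |h j|) ^ (-(1 + 2 * η))) := by
          refine Finset.measurable_prod _ fun j _ => Measurable.ennreal_ofReal ?_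
          have : Measurable fun x : ℝ => C * (1 + t ^ 2) ^ η * (1 + |x|) ^ (-(1 + 2 * η)) := by
            fun_prop
          exact this.comp (by fun_prop)
        rw [lintegral_prod_symm]
        · refine lintegral_congr fun h => ?_
          have hmθ : Measurable fun θ : E n => ‖𝓕 (kk g h) θ‖ₑ ^ 2 :=
            (meas_F (hg.kk h).int).enorm.pow_const 2
          simp only
          rw [lintegral_const_mul _ hmθ]
        · exact ((hmW.comp measurable_snd).mul hmF).aemeasurable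
    _ ≤ ∫⁻ h : E n, (∏ j, ENNReal.ofReal (C * (1 + t ^ 2) ^ η *
          (1 + |h j|) ^ (-(1 + 2 * η)))) * ∫⁻ x : E n, ‖g x‖ₑ ^ 4 := by
        refine lintegral_mono fun h => ?_
        refine mul_le_mul_right ?_ _
        rw [Pool.Agent.H153R4.plancherel _ (hg.kk h).int (hg.kk h).memLp]
        exact kk_l2 hg.meas h
    _ = (∏ _j : Fin n, ENNReal.ofReal (C * (1 + t ^ 2) ^ η) * J) * ∫⁻ x : E n, ‖g x‖ₑ ^ 4 := by
        have hmW1 : Measurable fun x : ℝ => ENNReal.ofReal (C * (1 + t ^ 2) ^ η *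
          (1 + |x|) ^ (-(1 + 2 * η))) := by
          refine Measurable.ennreal_ofReal ?_
          fun_prop
        have hmW : Measurable fun h : E n => ∏ j, ENNReal.ofReal (C * (1 + t ^ 2) ^ η *
          (1 + |h j|) ^ (-(1 + 2 * η))) := by
          refine Finset.measurable_prod _ fun j _ => hmW1.comp ?_
          fun_prop
        rw [lintegral_mul_const _ hmW]
        congr 1
        refine (lint_prod_E (fun _ x => ENNReal.ofReal (C *
          (1 + t ^ 2) ^ η * (1 + |x|) ^ (-(1 + 2 * η)))) fun _ => hmW1).trans ?_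
        refine Finset.prod_congr rfl fun j _ => ?_
        rw [hJ, ← lintegral_const_mul' _ _ ENNReal.ofReal_ne_top]
        refine lintegral_congr fun x => ?_
        rw [ENNReal.ofReal_mul (by positivity)]
    _ ≤ _ := by
        refine mul_le_mul_left ?_ _
        have eJ : ENNReal.ofReal (C * (1 + t ^ 2) ^ η) * J =
            ENNReal.ofReal (C * (1 + t ^ 2) ^ η * J.toReal) := by
          rw [ENNReal.ofReal_mul (p := C * (1 + t ^ 2) ^ η) (by positivity),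
            ENNReal.ofReal_toReal hjf.ne]
        rw [Finset.prod_const, Finset.card_univ, Fintype.card_fin, eJ,
          ← ENNReal.ofReal_pow (by positivity)]
        apply ENNReal.ofReal_le_ofReal
        rw [show (C * (1 + t ^ 2) ^ η * J.toReal) ^ n =
          (C * J.toReal) ^ n * ((1 + t ^ 2) ^ η) ^ n by rw [← mul_pow]; ring]
        have : 0 ≤ ((1 + t ^ 2) ^ η) ^ n := by positivity
        nlinarith

end Pool.Agent.TH310.BZ
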