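import Mathlib
import Pool.Agent.TH310.BZ.Core4
set_option autoImplicit false

/-! Fourth moments of Fourier integrals with weights. -/

namespace Pool.Agent.TH310.BZ

open Complex MeasureTheory Set Filter
open scoped ENNReal FourierTransform ComplexConjugate RealInnerProductSpace

section general
variable {V : Type} [NormedAddCommGroup V] [InnerProductSpace ℝ V] [MeasurableSpace V]
  [BorelSpace V] [FiniteDimensional ℝ V]

/-- autocorrelation -/
noncomputable def BB (g : V → ℂ) (h : V) : ℂ := ∫ z, kk g h z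

lemma BB_cv (g : V → ℂ) : BB g = cv g (fun t => conj (g (-t))) := by
  ext h
  unfold BB cv kk
  rw [← integral_neg_eq_self]
  apply integral_congr_ae
  refine ae_of_all _ fun s => ?_
  simp only
  rw [neg_add_eq_sub, mul_comm]

lemma GB.neg {g : V → ℂ} (hg : GB g) : GB (fun t => conj (g (-t))) := by
  obtain ⟨M, hM⟩ := hg.bd
  have h1 : GB fun t => g (-t) := ⟨hg.meas.comp measurable_neg, hg.int.comp_neg, M, fun z => hM _⟩
  exact h1.conj

lemma GB.BB {g : V → ℂ} (hg : GB g) : GB (BB g) := by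
  rw [BB_cv]
  exact hg.cv hg.neg

lemma conj_fourier (g : V → ℂ) (ξ : V) :
    𝓕 (fun t => conj (g (-t))) ξ = conj (𝓕 g ξ) := by
  rw [Real.fourier_eq', Real.fourier_eq']
  rw [← integral_conj, ← integral_neg_eq_self]
  apply integral_congr_ae
  refine ae_of_all _ fun s => ?_
  simp only [smul_eq_mul, map_mul, neg_neg]
  congr 1
  rw [← Complex.exp_conj]
  congr 1
  simp only [map_mul, Complex.conj_ofReal, Complex.conj_I, inner_neg_left]
  push_cast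
  ring

lemma F_BB {g : V → ℂ} (hg : GB g) (ξ : V) :
    𝓕 (BB g) ξ = conj (𝓕 g ξ) * 𝓕 g ξ := by
  rw [BB_cv, cv_eq, Real.fourier_mul_convolution_eq hg.neg.int hg.int, conj_fourier]

lemma four {g : V → ℂ} (hg : GB g) :
    ∫⁻ ξ : V, ‖𝓕 g ξ‖ₑ ^ 4 = ∫⁻ h, ‖BB g h‖ₑ ^ 2 := by
  rw [← Pool.Agent.H153R4.plancherel _ hg.BB.int hg.BB.memLp]
  congr 1
  ext ξ
  rw [F_BB hg, enorm_mul]
  have : ‖conj (𝓕 g ξ)‖ₑ = ‖𝓕 g ξ‖ₑ := by
    rw [← ofReal_norm, ← ofReal_norm, RCLike.norm_conj]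
  rw [this]
  ring

end general

/-- weights -/
noncomputable def wt (s t : ℝ) : ℝ≥0∞ := ENNReal.ofReal ((1 + |t|) ^ s)

lemma wt_mul (s r t : ℝ) : wt s t * wt r t = wt (s + r) t := by
  unfold wt
  rw [← ENNReal.ofReal_mul (by positivity), Real.rpow_add (by positivity)]

lemma wt_zero (t : ℝ) : wt 0 t = 1 := by simp [wt]

lemma wt_sq (s t : ℝ) : wt s t ^ 2 = wt (2 * s) t := by
  rw [sq, wt_mul, two_mul]

lemma wt_pow4 (s t : ℝ) : wt s t ^ 4 = wt (4 * s) t := by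
  rw [show (4 : ℕ) = 2 * 2 by norm_num, pow_mul, wt_sq, wt_sq]
  congr 1
  ring

lemma wt_meas (s : ℝ) : Measurable (wt s) := by
  unfold wt
  have : Measurable fun t : ℝ => (1 + |t|) ^ s := by fun_prop
  exact this.ennreal_ofReal

lemma wt_fin {s : ℝ} (hs : s < -1) : ∫⁻ t, wt s t < ⊤ := by
  have := japanese_fin (r := -s) (by linarith)
  simpa [wt] using this

lemma two_le (x y : ℝ≥0∞) : 2 * (x * y) ≤ x ^ 2 + y ^ 2 := by
  rcases eq_or_ne x ⊤ with rfl | hx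
  · simp
  rcases eq_or_ne y ⊤ with rfl | hy
  · simp
  lift x to NNReal using hx
  lift y to NNReal using hy
  norm_cast
  rw [← NNReal.coe_le_coe]
  push_cast
  nlinarith [sq_nonneg ((x : ℝ) - y)]

lemma wt_corr (τ : ℝ) : ∫⁻ t, wt (-(5 / 8)) (t + τ) * wt (-(5 / 8)) t ≤ ∫⁻ t, wt (-(5 / 4)) t := by
  have h1 : ∀ t, 2 * (wt (-(5 / 8)) (t + τ) * wt (-(5 / 8)) t) ≤
      wt (-(5 / 4)) (t + τ) + wt (-(5 / 4)) t := by
    intro t
    have e1 : ∀ s, wt (-(5 / 4)) s = wt (-(5 / 8)) s ^ 2 := by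
      intro s; rw [wt_sq]; congr 1; ring
    rw [e1, e1]
    exact two_le _ _
  have h2 : 2 * ∫⁻ t, wt (-(5 / 8)) (t + τ) * wt (-(5 / 8)) t ≤ 2 * ∫⁻ t, wt (-(5 / 4)) t := by
    rw [← lintegral_const_mul' _ _ (by simp)]
    refine (lintegral_mono h1).trans (le_of_eq ?_)
    have e3 := lintegral_add_left (μ := (volume : Measure ℝ)) (f := fun t => wt (-(5 / 4)) (t + τ))
      ((wt_meas _).comp (measurable_add_const τ)) (fun t => wt (-(5 / 4)) t)
    rw [e3, lintegral_add_right_eq_self (fun t => wt (-(5 / 4)) t) τ, two_mul]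
  exact (ENNReal.mul_le_mul_iff_right (by simp) (by simp)).1 h2

/-- **Fourth moment of a Fourier integral on the line.** -/
theorem rad4 {h : ℝ → ℂ} (hh : GB h) {H : ℝ → ℝ≥0∞} (hH : Measurable H)
    (hle : ∀ t, ‖h t‖ₑ ≤ wt (-1) t * H t) :
    ∫⁻ v, ‖𝓕 h v‖ₑ ^ 4 ≤ (∫⁻ t, wt (-(5 / 4)) t) ^ 2 * ∫⁻ t, wt (-(3 / 2)) t * H t ^ 4 := by
  rw [four hh]
  have hm : Measurable fun t => ‖h t‖ₑ := hh.meas.enorm
  obtain ⟨a, ha⟩ : ∃ a : ℝ → ℝ≥0∞, a = fun t => wt (5 / 8) t * ‖h t‖ₑ ^ 2 := ⟨_, rfl⟩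
  have ham : Measurable a := by rw [ha]; exact (wt_meas _).mul (hm.pow_const 2)
  have h1 : ∀ τ, ‖BB h τ‖ₑ ^ 2 ≤ (∫⁻ t, wt (-(5 / 4)) t) * ∫⁻ t, a (t + τ) * a t := by
    intro τ
    have e1 : ‖BB h τ‖ₑ ≤ ∫⁻ t, (wt (-(5 / 8)) (t + τ) * wt (-(5 / 8)) t) *
        ((wt (5 / 8) (t + τ) * ‖h (t + τ)‖ₑ) * (wt (5 / 8) t * ‖h t‖ₑ)) := by
      unfold BB kk
      refine (enorm_integral_le_lintegral_enorm _).trans (le_of_eq ?_)
      refine lintegral_congr fun t => ?_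
      have g1 : ‖conj (h t)‖ₑ = ‖h t‖ₑ := by
        rw [← ofReal_norm, ← ofReal_norm, RCLike.norm_conj]
      have g2 : ∀ s, wt (-(5 / 8)) s * wt (5 / 8) s = 1 := by
        intro s; rw [wt_mul, neg_add_cancel, wt_zero]
      rw [enorm_mul, g1]
      calc ‖h (t + τ)‖ₑ * ‖h t‖ₑ = (wt (-(5 / 8)) (t + τ) * wt (5 / 8) (t + τ)) *
            (wt (-(5 / 8)) t * wt (5 / 8) t) * (‖h (t + τ)‖ₑ * ‖h t‖ₑ) := by
            rw [g2, g2, one_mul, one_mul]
        _ = _ := by ring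
    have hm1 : Measurable fun t => wt (-(5 / 8)) (t + τ) * wt (-(5 / 8)) t :=
      ((wt_meas _).comp (measurable_add_const τ)).mul (wt_meas _)
    have hm2 : Measurable fun t => (wt (5 / 8) (t + τ) * ‖h (t + τ)‖ₑ) * (wt (5 / 8) t * ‖h t‖ₑ) := by
      have : Measurable fun t => wt (5 / 8) t * ‖h t‖ₑ := (wt_meas _).mul hm
      exact (this.comp (measurable_add_const τ)).mul this
    calc ‖BB h τ‖ₑ ^ 2 ≤ (∫⁻ t, (wt (-(5 / 8)) (t + τ) * wt (-(5 / 8)) t) *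
        ((wt (5 / 8) (t + τ) * ‖h (t + τ)‖ₑ) * (wt (5 / 8) t * ‖h t‖ₑ))) ^ 2 := by gcongr
      _ ≤ _ := cs_le hm1 hm2
      _ ≤ (∫⁻ t, wt (-(5 / 4)) t) * ∫⁻ t, (wt (-(5 / 8)) (t + τ) * wt (-(5 / 8)) t) *
        ((wt (5 / 8) (t + τ) * ‖h (t + τ)‖ₑ) * (wt (5 / 8) t * ‖h t‖ₑ)) ^ 2 := by
          exact mul_le_mul_left (wt_corr τ) _
      _ = _ := by
          congr 1
          refine lintegral_congr fun t => ?_
          rw [ha]
          simp only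
          have g2 : ∀ s, wt (5 / 8) s = wt (-(5 / 8)) s * wt (5 / 8) s ^ 2 := by
            intro s; rw [wt_sq, wt_mul]; congr 1; ring
          calc wt (-(5 / 8)) (t + τ) * wt (-(5 / 8)) t *
                (wt (5 / 8) (t + τ) * ‖h (t + τ)‖ₑ * (wt (5 / 8) t * ‖h t‖ₑ)) ^ 2
              = ((wt (-(5 / 8)) (t + τ) * wt (5 / 8) (t + τ) ^ 2) * ‖h (t + τ)‖ₑ ^ 2) *
                ((wt (-(5 / 8)) t * wt (5 / 8) t ^ 2) * ‖h t‖ₑ ^ 2) := by ring
            _ = _ := by rw [← g2, ← g2]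
  have h2 : ∫⁻ τ, ∫⁻ t, a (t + τ) * a t = (∫⁻ t, a t) ^ 2 := by
    rw [lintegral_lintegral_swap]
    · have e1 : ∀ t, ∫⁻ τ, a (t + τ) * a t = (∫⁻ τ, a τ) * a t := by
        intro t
        have e2 : Measurable fun τ => a (t + τ) := ham.comp (measurable_const_add t)
        rw [lintegral_mul_const _ e2, lintegral_add_left_eq_self (fun τ => a τ) t]
      simp only [e1]
      rw [lintegral_const_mul _ ham, sq]
    · exact ((ham.comp (measurable_snd.add measurable_fst)).mul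
        (ham.comp measurable_snd)).aemeasurable
  have h3 : (∫⁻ t, a t) ^ 2 ≤ (∫⁻ t, wt (-(5 / 4)) t) * ∫⁻ t, wt (-(3 / 2)) t * H t ^ 4 := by
    have e1 : ∫⁻ t, a t ≤ ∫⁻ t, wt (-(5 / 4)) t * (wt (-(1 / 8)) t * H t ^ 2) := by
      refine lintegral_mono fun t => ?_
      rw [ha]
      simp only
      calc wt (5 / 8) t * ‖h t‖ₑ ^ 2 ≤ wt (5 / 8) t * (wt (-1) t * H t) ^ 2 := by
            gcongr
            exact hle t
        _ = (wt (5 / 8) t * wt (-1) t ^ 2) * H t ^ 2 := by ring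
        _ = (wt (-(5 / 4)) t * wt (-(1 / 8)) t) * H t ^ 2 := by
            rw [wt_sq, wt_mul, wt_mul]
            norm_num
        _ = _ := by ring
    calc (∫⁻ t, a t) ^ 2 ≤ (∫⁻ t, wt (-(5 / 4)) t * (wt (-(1 / 8)) t * H t ^ 2)) ^ 2 := by gcongr
      _ ≤ _ := cs_le (wt_meas _) ((wt_meas _).mul (hH.pow_const 2))
      _ = _ := by
          congr 1
          refine lintegral_congr fun t => ?_
          calc wt (-(5 / 4)) t * (wt (-(1 / 8)) t * H t ^ 2) ^ 2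
              = (wt (-(5 / 4)) t * wt (-(1 / 8)) t ^ 2) * H t ^ 4 := by ring
            _ = _ := by
                rw [wt_sq, wt_mul]
                norm_num
  have hm3 : Measurable fun τ => ∫⁻ t, a (t + τ) * a t :=
    Measurable.lintegral_prod_right' (f := fun p : ℝ × ℝ => a (p.2 + p.1) * a p.2)
      ((ham.comp (measurable_snd.add measurable_fst)).mul (ham.comp measurable_snd))
  calc ∫⁻ τ, ‖BB h τ‖ₑ ^ 2 ≤ ∫⁻ τ, (∫⁻ t, wt (-(5 / 4)) t) * ∫⁻ t, a (t + τ) * a t :=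
        lintegral_mono h1
    _ = (∫⁻ t, wt (-(5 / 4)) t) * (∫⁻ t, a t) ^ 2 := by rw [lintegral_const_mul _ hm3, h2]
    _ ≤ (∫⁻ t, wt (-(5 / 4)) t) * ((∫⁻ t, wt (-(5 / 4)) t) * ∫⁻ t, wt (-(3 / 2)) t * H t ^ 4) := by
        gcongr
    _ = _ := by ring

end Pool.Agent.TH310.BZ
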