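import Mathlib
import Pool.Agent.TH310.BZ.Rad
import Pool.Agent.TH310.BZ.GamC
set_option autoImplicit false

/-! Bochner-Riesz means of ellipsoids as Fourier integrals of complex Gaussians. -/

namespace Pool.Agent.TH310.BZ

open Complex MeasureTheory Set Filter Topology
open scoped ENNReal FourierTransform ComplexConjugate RealInnerProductSpace

/-- profile -/
noncomputable def NN (δ w : ℝ) : ℝ := if 0 < w then w ^ δ * Real.exp (-Real.pi * w) else 0

lemma NN_nonneg (δ w : ℝ) : 0 ≤ NN δ w := by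
  unfold NN
  split_ifs with h
  · positivity
  · exact le_rfl

lemma NN_eq (δ : ℝ) : NN δ = (Ioi (0 : ℝ)).indicator fun w => w ^ δ * Real.exp (-Real.pi * w) := by
  ext w
  unfold NN
  by_cases h : 0 < w
  · rw [if_pos h, indicator_of_mem (by exact h)]
  · rw [if_neg h, indicator_of_notMem (by exact h)]

lemma NN_meas (δ : ℝ) : Measurable (NN δ) := by
  rw [NN_eq]
  refine Measurable.indicator ?_ measurableSet_Ioi
  fun_prop

lemma NN_int {δ : ℝ} (hδ : 0 ≤ δ) : Integrable (NN δ) := by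
  rw [NN_eq, integrable_indicator_iff measurableSet_Ioi]
  exact rp_int hδ Real.pi_pos

lemma NN_cont {δ w : ℝ} (hw : w ≠ 0) : ContinuousAt (NN δ) w := by
  rcases lt_or_gt_of_ne hw with h | h
  · have : NN δ =ᶠ[𝓝 w] fun _ => 0 := by
      filter_upwards [Iio_mem_nhds h] with u hu
      unfold NN
      rw [if_neg (not_lt.2 (le_of_lt hu))]
    exact continuousAt_const.congr this.symm
  · have : NN δ =ᶠ[𝓝 w] fun w => w ^ δ * Real.exp (-Real.pi * w) := by
      filter_upwards [Ioi_mem_nhds h] with u hu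
      unfold NN
      rw [if_pos (show (0:ℝ) < u from hu)]
    refine ContinuousAt.congr ?_ this.symm
    refine ContinuousAt.mul ?_ (by fun_prop)
    exact Real.continuousAt_rpow_const _ _ (Or.inl hw)

/-- bound of the profile, for `0 < w ≤ T` -/
lemma NN_bd {δ : ℝ} (hδ : 0 ≤ δ) {w T : ℝ} (hw : w ≤ T) (hT : 0 ≤ T) : NN δ w ≤ T ^ δ := by
  unfold NN
  split_ifs with h
  · calc w ^ δ * Real.exp (-Real.pi * w) ≤ w ^ δ * 1 := by
          apply mul_le_mul_of_nonneg_left _ (by positivity)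
          rw [Real.exp_le_one_iff]
          nlinarith [mul_pos Real.pi_pos h]
      _ ≤ T ^ δ := by
          rw [mul_one]
          exact Real.rpow_le_rpow h.le hw hδ
  · positivity

lemma NN_fourier (δ A t : ℝ) :
    ∫ v : ℝ, cexp (((-2 * Real.pi * (v * t) : ℝ) : ℂ) * I) * ((NN δ (v - A) : ℝ) : ℂ) =
      cexp (((-2 * Real.pi * (A * t) : ℝ) : ℂ) * I) * lap δ (Real.pi * (1 + 2 * t * I)) := by
  rw [← integral_add_right_eq_self _ A]
  unfold lap
  rw [← integral_indicator measurableSet_Ioi, ← integral_const_mul]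
  congr 1
  ext w
  rw [add_sub_cancel_right]
  by_cases h : 0 < w
  · rw [indicator_of_mem (by exact h)]
    unfold NN
    rw [if_pos h]
    have e0 : ((w ^ δ * Real.exp (-Real.pi * w) : ℝ) : ℂ) =
        ((w ^ δ : ℝ) : ℂ) * cexp ((-Real.pi * w : ℝ) : ℂ) := by
      rw [Complex.ofReal_mul, Complex.ofReal_exp]
    rw [e0]
    have e : cexp (((-2 * Real.pi * ((w + A) * t) : ℝ) : ℂ) * I) * cexp ((-Real.pi * w : ℝ) : ℂ) =
        cexp (((-2 * Real.pi * (A * t) : ℝ) : ℂ) * I) *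
          cexp (-((Real.pi : ℂ) * (1 + 2 * t * I)) * w) := by
      rw [← Complex.exp_add, ← Complex.exp_add]
      congr 1
      push_cast
      ring
    linear_combination ((w ^ δ : ℝ) : ℂ) * e
  · rw [indicator_of_notMem (by exact h)]
    unfold NN
    rw [if_neg h]
    simp

variable {n : ℕ}

lemma QF_nonneg {b : Fin n → ℝ} (hb : ∀ j, 0 < b j) (ξ : E n) : 0 ≤ QF b ξ := by
  unfold QF
  exact Finset.sum_nonneg fun j _ => mul_nonneg (hb j).le (sq_nonneg _)

lemma QF_cont (b : Fin n → ℝ) : Continuous (QF b) := by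
  unfold QF
  fun_prop

lemma QF_null (hn : 1 ≤ n) {b : Fin n → ℝ} (hb : ∀ j, 0 < b j) (v : ℝ) :
    volume {ξ : E n | QF b ξ = v} = 0 := by
  haveI : Nontrivial (E n) := by
    haveI : Nonempty (Fin n) := ⟨⟨0, hn⟩⟩
    infer_instance
  let T : E n →ₗ[ℝ] E n :=
    { toFun := fun ξ => WithLp.toLp 2 fun j => Real.sqrt (b j) * ξ j
      map_add' := fun x y => by
        ext j; simp [mul_add]
      map_smul' := fun c x => by
        ext j; simp; ring }
  have hT : ∀ ξ j, T ξ j = Real.sqrt (b j) * ξ j := fun ξ j => rfl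
  have hn2 : ∀ ξ, ‖T ξ‖ ^ 2 = QF b ξ := by
    intro ξ
    rw [EuclideanSpace.norm_sq_eq]
    unfold QF
    refine Finset.sum_congr rfl fun j _ => ?_
    rw [hT, Real.norm_eq_abs, sq_abs, mul_pow, Real.sq_sqrt (hb j).le]
  have hdet : LinearMap.det T ≠ 0 := by
    intro h0
    have hk := LinearMap.bot_lt_ker_of_det_eq_zero h0
    obtain ⟨x, hx, hx0⟩ := (Submodule.ne_bot_iff _).1 hk.ne'
    apply hx0
    ext j
    have h1 : T x j = 0 := by
      rw [LinearMap.mem_ker.1 hx]; rfl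
    rw [hT] at h1
    have h2 : Real.sqrt (b j) ≠ 0 := (Real.sqrt_pos.2 (hb j)).ne'
    have h3 := (mul_eq_zero.1 h1).resolve_left h2
    simpa using h3
  have hsub : {ξ : E n | QF b ξ = v} ⊆ T ⁻¹' (Metric.sphere 0 (Real.sqrt v)) := by
    intro ξ hξ
    rw [mem_setOf_eq] at hξ
    rw [mem_preimage, mem_sphere_zero_iff_norm, ← hξ, ← hn2, Real.sqrt_sq (norm_nonneg _)]
  refine measure_mono_null hsub ?_
  rw [Measure.addHaar_preimage_linearMap _ hdet, Measure.addHaar_sphere, mul_zero]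

/-- the Gaussian weight times the Fourier transform -/
noncomputable def Gx (b : Fin n → ℝ) (f : E n → ℂ) (x ξ : E n) : ℂ :=
  cexp (-((Real.pi * QF b ξ : ℝ) : ℂ)) * 𝓕 f ξ * cexp (((2 * Real.pi * ⟪x, ξ⟫ : ℝ) : ℂ) * I)

lemma F_cont {f : E n → ℂ} (hf : Integrable f) : Continuous (𝓕 f) :=
  VectorFourier.fourierIntegral_continuous (L := innerₗ (E n)) Real.continuous_fourierChar
      continuous_inner hf

lemma F_bd {f : E n → ℂ} (ξ : E n) : ‖𝓕 f ξ‖ ≤ ∫ y, ‖f y‖ := by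
  rw [Real.fourier_eq]
  refine (norm_integral_le_integral_norm _).trans (le_of_eq ?_)
  congr 1
  ext y
  rw [Circle.norm_smul]

lemma gauss_int {b : Fin n → ℝ} (hb : ∀ j, 0 < b j) :
    Integrable fun ξ : E n => Real.exp (-(Real.pi * QF b ξ)) := by
  have h1 : Integrable (fun x : Fin n → ℝ => ∏ j, Real.exp (-(Real.pi * b j) * x j ^ 2)) := by
    rw [volume_pi]
    exact Integrable.fintype_prod_dep (f := fun j x => Real.exp (-(Real.pi * b j) * x ^ 2))
      fun j => integrable_exp_neg_mul_sq (mul_pos Real.pi_pos (hb j))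
  have h2 := (PiLp.volume_preserving_ofLp (Fin n)).integrable_comp_of_integrable h1
  refine h2.congr (ae_of_all _ fun ξ => ?_)
  simp only [Function.comp_apply]
  rw [← Real.exp_sum]
  congr 1
  unfold QF
  rw [Finset.mul_sum, ← Finset.sum_neg_distrib]
  refine Finset.sum_congr rfl fun j _ => ?_
  ring

lemma Gx_cont {b : Fin n → ℝ} {f : E n → ℂ} (hf : Integrable f) (x : E n) :
    Continuous (Gx b f x) := by
  unfold Gx
  have h1 := QF_cont b
  have h2 := F_cont hf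
  fun_prop

lemma Gx_norm {b : Fin n → ℝ} {f : E n → ℂ} (x ξ : E n) :
    ‖Gx b f x ξ‖ = Real.exp (-(Real.pi * QF b ξ)) * ‖𝓕 f ξ‖ := by
  unfold Gx
  rw [norm_mul, norm_mul, Complex.norm_exp_ofReal_mul_I, mul_one, Complex.norm_exp]
  congr 2

lemma Gx_int {b : Fin n → ℝ} (hb : ∀ j, 0 < b j) {f : E n → ℂ} (hf : Integrable f) (x : E n) :
    Integrable (Gx b f x) := by
  refine ((gauss_int hb).mul_const (∫ y, ‖f y‖)).mono' (Gx_cont hf x).aestronglyMeasurable
    (ae_of_all _ fun ξ => ?_)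
  rw [Gx_norm]
  exact mul_le_mul_of_nonneg_left (F_bd ξ) (Real.exp_pos _).le

/-- the function whose Fourier transform is computed -/
noncomputable def FF (δ : ℝ) (b : Fin n → ℝ) (f : E n → ℂ) (x : E n) (v : ℝ) : ℂ :=
  ∫ ξ : E n, ((NN δ (v - QF b ξ) : ℝ) : ℂ) * Gx b f x ξ

lemma FF_prod {δ : ℝ} (hδ : 0 ≤ δ) {b : Fin n → ℝ} (hb : ∀ j, 0 < b j) {f : E n → ℂ}
    (hf : Integrable f) (x : E n) :
    Integrable (fun p : ℝ × E n => ((NN δ (p.1 - QF b p.2) : ℝ) : ℂ) * Gx b f x p.2)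
      (volume.prod volume) := by
  have hm : Measurable (fun p : ℝ × E n => ((NN δ (p.1 - QF b p.2) : ℝ) : ℂ) * Gx b f x p.2) := by
    refine Measurable.mul (Complex.measurable_ofReal.comp ((NN_meas δ).comp
      (measurable_fst.sub ((QF_cont b).measurable.comp measurable_snd)))) ?_
    exact (Gx_cont hf x).measurable.comp measurable_snd
  rw [integrable_prod_iff' hm.aestronglyMeasurable]
  constructor
  · refine ae_of_all _ fun ξ => ?_
    exact (((NN_int hδ).comp_sub_right (QF b ξ)).ofReal (𝕜 := ℂ)).mul_const (Gx b f x ξ)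
  · have e : ∀ ξ : E n, ∫ v : ℝ, ‖((NN δ (v - QF b ξ) : ℝ) : ℂ) * Gx b f x ξ‖ =
        (∫ v, NN δ v) * ‖Gx b f x ξ‖ := by
      intro ξ
      have e1 : ∀ v : ℝ, ‖((NN δ (v - QF b ξ) : ℝ) : ℂ) * Gx b f x ξ‖ =
          NN δ (v - QF b ξ) * ‖Gx b f x ξ‖ := by
        intro v
        rw [norm_mul, Complex.norm_real, Real.norm_of_nonneg (NN_nonneg _ _)]
      simp only [e1]
      rw [integral_mul_const, integral_sub_right_eq_self (fun v => NN δ v) (QF b ξ)]
    simp only [e]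
    exact (Gx_int hb hf x).norm.const_mul _

lemma FF_int {δ : ℝ} (hδ : 0 ≤ δ) {b : Fin n → ℝ} (hb : ∀ j, 0 < b j) {f : E n → ℂ}
    (hf : Integrable f) (x : E n) : Integrable (FF δ b f x) :=
  (FF_prod hδ hb hf x).integral_prod_left

lemma FF_cont (hn : 1 ≤ n) {δ : ℝ} (hδ : 0 ≤ δ) {b : Fin n → ℝ} (hb : ∀ j, 0 < b j)
    {f : E n → ℂ} (hf : Integrable f) (x : E n) : Continuous (FF δ b f x) := by
  rw [continuous_iff_continuousAt]
  intro v₀
  unfold FF
  refine continuousAt_of_dominated (bound := fun ξ => (|v₀| + 1) ^ δ * ‖Gx b f x ξ‖) ?_ ?_ ?_ ?_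
  · refine Eventually.of_forall fun v => ?_
    refine Measurable.aestronglyMeasurable ?_
    refine Measurable.mul (Complex.measurable_ofReal.comp ((NN_meas δ).comp
      (measurable_const.sub (QF_cont b).measurable))) (Gx_cont hf x).measurable
  · filter_upwards [Iio_mem_nhds (show v₀ < |v₀| + 1 by linarith [le_abs_self v₀])] with v hv
    refine ae_of_all _ fun ξ => ?_
    rw [norm_mul, Complex.norm_real, Real.norm_of_nonneg (NN_nonneg _ _)]
    refine mul_le_mul_of_nonneg_right ?_ (norm_nonneg _)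
    refine NN_bd hδ ?_ (by positivity)
    have := QF_nonneg hb ξ
    simp only [mem_Iio] at hv
    linarith
  · exact (Gx_int hb hf x).norm.const_mul _
  · have h0 := QF_null hn hb v₀
    rw [← compl_mem_ae_iff] at h0
    filter_upwards [h0] with ξ hξ
    have h1 : v₀ - QF b ξ ≠ 0 := by
      intro h
      apply hξ
      rw [mem_setOf_eq]
      linarith
    refine ContinuousAt.mul ?_ continuousAt_const
    refine Complex.continuous_ofReal.continuousAt.comp ?_
    exact ContinuousAt.comp (f := fun v : ℝ => v - QF b ξ) (NN_cont h1) (by fun_prop)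

lemma HH_eq {b : Fin n → ℝ} (hb : ∀ j, 0 < b j) (t : ℝ) {f : E n → ℂ} (hf : GB f) (x : E n) :
    ∫ ξ : E n, cexp (-((Real.pi * QF b ξ : ℝ) : ℂ) * (1 + 2 * (t : ℂ) * I)) * 𝓕 f ξ *
      cexp (((2 * Real.pi * ⟪x, ξ⟫ : ℝ) : ℂ) * I) = cv (KK b t) f x := by
  have h1 : ∀ ξ : E n, cexp (-((Real.pi * QF b ξ : ℝ) : ℂ) * (1 + 2 * (t : ℂ) * I)) * 𝓕 f ξ *
      cexp (((2 * Real.pi * ⟪x, ξ⟫ : ℝ) : ℂ) * I) =
      ∫ y : E n, f y * (cexp (-((Real.pi * QF b ξ : ℝ) : ℂ) * (1 + 2 * (t : ℂ) * I)) *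
        cexp (((2 * Real.pi * ⟪x - y, ξ⟫ : ℝ) : ℂ) * I)) := by
    intro ξ
    rw [Real.fourier_eq', ← integral_const_mul, ← integral_mul_const]
    congr 1
    ext y
    rw [smul_eq_mul]
    have e : cexp (((-2 * Real.pi * ⟪y, ξ⟫ : ℝ) : ℂ) * I) *
        cexp (((2 * Real.pi * ⟪x, ξ⟫ : ℝ) : ℂ) * I) =
        cexp (((2 * Real.pi * ⟪x - y, ξ⟫ : ℝ) : ℂ) * I) := by
      rw [← Complex.exp_add]
      congr 1
      rw [inner_sub_left]
      push_cast
      ring
    linear_combination (cexp (-((Real.pi * QF b ξ : ℝ) : ℂ) * (1 + 2 * (t : ℂ) * I)) * f y) * e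
  have hnG : ∀ ξ : E n, ‖cexp (-((Real.pi * QF b ξ : ℝ) : ℂ) * (1 + 2 * (t : ℂ) * I))‖ =
      Real.exp (-(Real.pi * QF b ξ)) := by
    intro ξ
    rw [Complex.norm_exp]
    congr 1
    rw [← Complex.ofReal_neg, Complex.re_ofReal_mul]
    simp
  have hm : Measurable fun p : E n × E n => f p.2 *
      (cexp (-((Real.pi * QF b p.1 : ℝ) : ℂ) * (1 + 2 * (t : ℂ) * I)) *
        cexp (((2 * Real.pi * ⟪x - p.2, p.1⟫ : ℝ) : ℂ) * I)) := by
    refine (hf.meas.comp measurable_snd).mul ?_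
    have h1 := QF_cont b
    have : Continuous fun p : E n × E n =>
      (cexp (-((Real.pi * QF b p.1 : ℝ) : ℂ) * (1 + 2 * (t : ℂ) * I)) *
        cexp (((2 * Real.pi * ⟪x - p.2, p.1⟫ : ℝ) : ℂ) * I)) := by fun_prop
    exact this.measurable
  have hi : Integrable (Function.uncurry fun (ξ y : E n) => f y *
      (cexp (-((Real.pi * QF b ξ : ℝ) : ℂ) * (1 + 2 * (t : ℂ) * I)) *
        cexp (((2 * Real.pi * ⟪x - y, ξ⟫ : ℝ) : ℂ) * I))) (volume.prod volume) := by
    have h2 : Integrable (fun p : E n × E n => Real.exp (-(Real.pi * QF b p.1)) * ‖f p.2‖)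
        (volume.prod volume) := (gauss_int hb).mul_prod hf.int.norm
    refine h2.mono' hm.aestronglyMeasurable (ae_of_all _ fun p => ?_)
    simp only [Function.uncurry]
    rw [norm_mul, norm_mul, Complex.norm_exp_ofReal_mul_I, mul_one, hnG, mul_comm]
  simp only [h1]
  rw [integral_integral_swap hi]
  unfold cv
  congr 1
  ext y
  rw [integral_const_mul, KK_fourier hb]

lemma FF_fourier {δ : ℝ} (hδ : 0 ≤ δ) {b : Fin n → ℝ} (hb : ∀ j, 0 < b j) {f : E n → ℂ}
    (hf : GB f) (x : E n) (t : ℝ) :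
    𝓕 (FF δ b f x) t = lap δ (Real.pi * (1 + 2 * t * I)) * cv (KK b t) f x := by
  rw [Real.fourier_eq']
  have e0 : ∀ v : ℝ, cexp (((-2 * Real.pi * ⟪v, t⟫ : ℝ) : ℂ) * I) • FF δ b f x v =
      ∫ ξ : E n, cexp (((-2 * Real.pi * (v * t) : ℝ) : ℂ) * I) *
        (((NN δ (v - QF b ξ) : ℝ) : ℂ) * Gx b f x ξ) := by
    intro v
    unfold FF
    rw [smul_eq_mul, ← integral_const_mul]
    simp only [RCLike.inner_apply, conj_trivial]
    rw [mul_comm t v]
  rw [integral_congr_ae (ae_of_all _ e0)]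
  have hi : Integrable (Function.uncurry fun (v : ℝ) (ξ : E n) =>
      cexp (((-2 * Real.pi * (v * t) : ℝ) : ℂ) * I) *
        (((NN δ (v - QF b ξ) : ℝ) : ℂ) * Gx b f x ξ)) (volume.prod volume) := by
    refine (FF_prod hδ hb hf.int x).bdd_mul (c := 1) ?_ (ae_of_all _ fun p => ?_)
    · have : Continuous fun p : ℝ × E n => cexp (((-2 * Real.pi * (p.1 * t) : ℝ) : ℂ) * I) := by
        fun_prop
      exact this.aestronglyMeasurable
    · rw [Complex.norm_exp_ofReal_mul_I]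
  rw [integral_integral_swap hi, ← HH_eq hb t hf x, ← integral_const_mul]
  congr 1
  ext ξ
  have e1 : ∀ v : ℝ, cexp (((-2 * Real.pi * (v * t) : ℝ) : ℂ) * I) *
        (((NN δ (v - QF b ξ) : ℝ) : ℂ) * Gx b f x ξ) =
      (cexp (((-2 * Real.pi * (v * t) : ℝ) : ℂ) * I) * ((NN δ (v - QF b ξ) : ℝ) : ℂ)) *
        Gx b f x ξ := fun v => by ring
  simp only [e1]
  rw [integral_mul_const, NN_fourier]
  unfold Gx
  have e2 : cexp (((-2 * Real.pi * (QF b ξ * t) : ℝ) : ℂ) * I) *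
      cexp (-((Real.pi * QF b ξ : ℝ) : ℂ)) =
      cexp (-((Real.pi * QF b ξ : ℝ) : ℂ) * (1 + 2 * (t : ℂ) * I)) := by
    rw [← Complex.exp_add]
    congr 1
    push_cast
    ring
  linear_combination (lap δ (Real.pi * (1 + 2 * t * I)) * 𝓕 f ξ *
    cexp (((2 * Real.pi * ⟪x, ξ⟫ : ℝ) : ℂ) * I)) * e2

end Pool.Agent.TH310.BZ
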