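import Mathlib
import Pool.Agent.TH310.BZ.Rep
set_option autoImplicit false

/-! Averaged fourth power bounds. -/

namespace Pool.Agent.TH310.BZ

open Complex MeasureTheory Set Filter Topology
open scoped ENNReal FourierTransform ComplexConjugate RealInnerProductSpace

variable {n : ℕ}

lemma k1_meas3 (j : Fin n) :
    Measurable fun p : ((Fin n → ℝ) × ℝ) × E n => k1 (p.1.1 j) p.1.2 (p.2 j) := by
  have hz : Measurable fun p : ((Fin n → ℝ) × ℝ) × E n => zz (p.1.1 j) p.1.2 := by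
    have : Continuous fun p : ((Fin n → ℝ) × ℝ) × E n => zz (p.1.1 j) p.1.2 := by
      unfold zz
      fun_prop
    exact this.measurable
  have ht : Measurable fun p : ((Fin n → ℝ) × ℝ) × E n => tau (p.1.1 j) p.1.2 := hz.inv
  have hx : Measurable fun p : ((Fin n → ℝ) × ℝ) × E n => ((p.2 j : ℝ) : ℂ) := by
    have : Continuous fun p : ((Fin n → ℝ) × ℝ) × E n => ((p.2 j : ℝ) : ℂ) := by fun_prop
    exact this.measurable
  unfold k1
  exact (ht.pow_const _).mul (Complex.measurable_exp.comp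
    ((measurable_const.mul ht).mul (hx.pow_const 2)))

lemma KK_meas3 : Measurable fun p : ((Fin n → ℝ) × ℝ) × E n => KK p.1.1 p.1.2 p.2 := by
  unfold KK
  exact Finset.measurable_prod _ fun j _ => k1_meas3 j

lemma cv_meas3 {f : E n → ℂ} (hf : Measurable f) :
    Measurable fun p : ((Fin n → ℝ) × ℝ) × E n => cv (KK p.1.1 p.1.2) f p.2 := by
  unfold cv
  have h : Measurable fun q : (((Fin n → ℝ) × ℝ) × E n) × E n =>
      f q.2 * KK q.1.1.1 q.1.1.2 (q.1.2 - q.2) := by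
    refine (hf.comp measurable_snd).mul ?_
    exact KK_meas3.comp ((measurable_fst.comp measurable_fst).prodMk
      ((measurable_snd.comp measurable_fst).sub measurable_snd))
  exact (StronglyMeasurable.integral_prod_right' (ν := (volume : Measure (E n)))
    h.stronglyMeasurable).measurable

lemma cv_meas_bx {f : E n → ℂ} (hf : Measurable f) (t : ℝ) :
    Measurable fun p : (Fin n → ℝ) × E n => ‖cv (KK p.1 t) f p.2‖ₑ ^ 4 := by
  have h2 : Measurable fun p : (Fin n → ℝ) × E n => ((p.1, t), p.2) :=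
    (measurable_fst.prodMk measurable_const).prodMk measurable_snd
  exact ((cv_meas3 hf).comp h2).enorm.pow_const 4

lemma cv_meas_x {f : E n → ℂ} (hf : Measurable f) (b : Fin n → ℝ) (t : ℝ) :
    Measurable fun x : E n => ‖cv (KK b t) f x‖ₑ ^ 4 := by
  have h2 : Measurable fun x : E n => ((b, t), x) :=
    measurable_const.prodMk measurable_id
  exact ((cv_meas3 hf).comp h2).enorm.pow_const 4

/-- constant -/
noncomputable def cb (b : Fin n → ℝ) : ℝ := ∏ j, (2 / b j) ^ (1 / 2 : ℝ)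

lemma KK_decay (hn : 1 ≤ n) {b : Fin n → ℝ} (hb : ∀ j, 0 < b j) (t : ℝ) (x : E n) :
    ‖KK b t x‖ ≤ cb b * (1 + |t|) ^ (-(1 / 2) : ℝ) := by
  have h1 : ∀ j, ‖(tau (b j) t) ^ (1 / 2 : ℂ)‖ ≤
      (2 / b j) ^ (1 / 2 : ℝ) * (1 + |t|) ^ (-(1 / 2) : ℝ) := by
    intro j
    have e : (1 / 2 : ℂ) = ((1 / 2 : ℝ) : ℂ) := by push_cast; ring
    rw [e, Complex.norm_cpow_real, tau_norm (hb j)]
    have hbj := hb j
    have h0 : (0 : ℝ) < 1 + |t| := by positivity
    rw [show (-(1 / 2) : ℝ) = (-1) * (1 / 2) by ring, Real.rpow_mul h0.le, Real.rpow_neg_one,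
      ← Real.mul_rpow (by positivity) (by positivity)]
    refine Real.rpow_le_rpow (by positivity) ?_ (by norm_num)
    have h2 : (1 + |t|) / 2 ≤ Real.sqrt (DD t) := by
      apply Real.le_sqrt_of_sq_le
      unfold DD
      have := abs_nonneg t
      nlinarith [sq_abs t, sq_nonneg (|t| - 1)]
    rw [div_mul_eq_mul_div, ← div_eq_mul_inv, div_div, div_le_div_iff₀ (by
      have := Real.sqrt_pos.2 (DD_pos t); positivity) (by positivity)]
    nlinarith
  refine (KK_bd hb t x).trans ((Finset.prod_le_prod (fun _ _ => norm_nonneg _)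
    fun j _ => h1 j).trans ?_)
  rw [Finset.prod_mul_distrib, Finset.prod_const, Finset.card_univ, Fintype.card_fin]
  unfold cb
  refine mul_le_mul_of_nonneg_left ?_ (Finset.prod_nonneg fun j _ => by
    have := hb j; positivity)
  have h3 : (1 + |t|) ^ (-(1 / 2) : ℝ) ≤ 1 :=
    Real.rpow_le_one_of_one_le_of_nonpos (by linarith [abs_nonneg t]) (by norm_num)
  calc ((1 + |t|) ^ (-(1 / 2) : ℝ)) ^ n ≤ ((1 + |t|) ^ (-(1 / 2) : ℝ)) ^ 1 :=
        pow_le_pow_of_le_one (by positivity) h3 hn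
    _ = _ := pow_one _

lemma cv_decay (hn : 1 ≤ n) {b : Fin n → ℝ} (hb : ∀ j, 0 < b j) (t : ℝ) {f : E n → ℂ}
    (hf : GB f) (x : E n) :
    ‖cv (KK b t) f x‖ ≤ (∫ y, ‖f y‖) * (cb b * (1 + |t|) ^ (-(1 / 2) : ℝ)) := by
  unfold cv
  rw [← integral_mul_const]
  refine norm_integral_le_of_norm_le (hf.int.norm.mul_const _) (ae_of_all _ fun y => ?_)
  rw [norm_mul]
  exact mul_le_mul_of_nonneg_left (KK_decay hn hb t _) (norm_nonneg _)

lemma hh_GB (hn : 1 ≤ n) {δ : ℝ} (hδ : 0 ≤ δ) {b : Fin n → ℝ} (hb : ∀ j, 0 < b j)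
    {f : E n → ℂ} (hf : GB f) (x : E n) : GB (𝓕 (FF δ b f x)) := by
  have hI := FF_int hδ hb hf.int x
  refine ⟨meas_F hI, ?_, ∫ v, ‖FF δ b f x v‖, fun t => ?_⟩
  · have hint : Integrable fun t : ℝ => (1 + ‖t‖) ^ (-(3 / 2) : ℝ) :=
      integrable_one_add_norm (by simp; norm_num)
    refine Integrable.mono' (hint.const_mul (Real.Gamma (δ + 1) * ((∫ y, ‖f y‖) * cb b)))
      (meas_F hI).aestronglyMeasurable (ae_of_all _ fun t => ?_)
    rw [FF_fourier hδ hb hf, norm_mul, Real.norm_eq_abs]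
    have hG : 0 < Real.Gamma (δ + 1) := Real.Gamma_pos_of_pos (by linarith)
    have h0 : (0 : ℝ) < 1 + |t| := by positivity
    have h1 : (1 + |t|) ^ (-(1 + δ)) ≤ (1 + |t|) ^ (-1 : ℝ) :=
      Real.rpow_le_rpow_of_exponent_le (by linarith [abs_nonneg t]) (by linarith)
    calc ‖lap δ (Real.pi * (1 + 2 * t * I))‖ * ‖cv (KK b t) f x‖
        ≤ (Real.Gamma (δ + 1) * (1 + |t|) ^ (-(1 + δ))) *
          ((∫ y, ‖f y‖) * (cb b * (1 + |t|) ^ (-(1 / 2) : ℝ))) :=
          mul_le_mul (lap_bd hδ t) (cv_decay hn hb t hf x) (norm_nonneg _) (by positivity)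
      _ ≤ (Real.Gamma (δ + 1) * (1 + |t|) ^ (-1 : ℝ)) *
          ((∫ y, ‖f y‖) * (cb b * (1 + |t|) ^ (-(1 / 2) : ℝ))) := by
          have h2 : 0 ≤ ∫ y, ‖f y‖ := integral_nonneg fun _ => norm_nonneg _
          have h3 : 0 ≤ cb b := by
            unfold cb
            exact Finset.prod_nonneg fun j _ => by have := hb j; positivity
          gcongr
      _ = _ := by
          rw [show (-(3 / 2) : ℝ) = (-1) + (-(1 / 2)) by ring, Real.rpow_add h0]
          ring
  · rw [Real.fourier_eq]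
    refine (norm_integral_le_integral_norm _).trans (le_of_eq ?_)
    congr 1
    ext y
    rw [Circle.norm_smul]

theorem radF (hn : 1 ≤ n) {δ : ℝ} (hδ : 0 ≤ δ) {b : Fin n → ℝ} (hb : ∀ j, 0 < b j)
    {f : E n → ℂ} (hf : GB f) (x : E n) :
    ∫⁻ v, ‖FF δ b f x v‖ₑ ^ 4 ≤ (∫⁻ t, wt (-(5 / 4)) t) ^ 2 *
      ∫⁻ t, wt (-(3 / 2)) t * (ENNReal.ofReal (Real.Gamma (δ + 1)) * ‖cv (KK b t) f x‖ₑ) ^ 4 := by
  have hG := hh_GB hn hδ hb hf x
  have hI := FF_int hδ hb hf.int x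
  have hmc : Measurable fun t => ‖cv (KK b t) f x‖ₑ :=
    ((cv_meas3 hf.meas).comp ((measurable_const.prodMk measurable_id).prodMk
      measurable_const)).enorm
  have h1 := rad4 hG (H := fun t => ENNReal.ofReal (Real.Gamma (δ + 1)) * ‖cv (KK b t) f x‖ₑ)
    (measurable_const.mul hmc) ?_
  · refine le_trans (le_of_eq ?_) h1
    have e : ∀ v, FF δ b f x v = 𝓕 (𝓕 (FF δ b f x)) (-v) := by
      intro v
      rw [← Real.fourierInv_eq_fourier_neg,
        (FF_cont hn hδ hb hf.int x).fourierInv_fourier_eq hI hG.int]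
    rw [lintegral_congr (fun v => by rw [e v] :
      ∀ v, ‖FF δ b f x v‖ₑ ^ 4 = ‖𝓕 (𝓕 (FF δ b f x)) (-v)‖ₑ ^ 4)]
    exact lintegral_neg_eq_self (fun v => ‖𝓕 (𝓕 (FF δ b f x)) v‖ₑ ^ 4)
  · intro t
    rw [FF_fourier hδ hb hf, enorm_mul, ← mul_assoc]
    refine mul_le_mul_left ?_ _
    unfold wt
    rw [← ofReal_norm, ← ENNReal.ofReal_mul (by positivity)]
    apply ENNReal.ofReal_le_ofReal
    refine (lap_bd hδ t).trans ?_
    rw [mul_comm]
    refine mul_le_mul_of_nonneg_right ?_ (Real.Gamma_pos_of_pos (by linarith)).le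
    exact Real.rpow_le_rpow_of_exponent_le (by linarith [abs_nonneg t]) (by linarith)

lemma mul_aux (t : ℝ) (C X : ℝ≥0∞) (_ : Unit) :
    wt (-(3 / 2)) t * (wt (1 / 4) t * C * X) = wt (-(5 / 4)) t * (C * X) := by
  rw [mul_assoc (wt (1 / 4) t), ← mul_assoc, wt_mul]
  norm_num

theorem avgF (n : ℕ) (hn : 1 ≤ n) (α γ δ : ℝ) (hα : 0 < α) (hαγ : α ≤ γ) (hδ : 0 ≤ δ) :
    ∃ C : ℝ≥0∞, C ≠ ⊤ ∧ ∀ f : E n → ℂ, GB f →
      ∫⁻ b, ∫⁻ x, ∫⁻ v, ‖FF δ b f x v‖ₑ ^ 4 ∂volume ∂volume ∂(nu n α γ) ≤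
        C * ∫⁻ x, ‖f x‖ₑ ^ 4 := by
  have hn0 : (0 : ℝ) < 8 * (n + 1) := by positivity
  obtain ⟨C, hC, hcore⟩ := core4 n α γ (1 / (8 * (n + 1))) hα hαγ (by positivity) (by
    rw [div_le_one hn0]
    have : (0 : ℝ) ≤ n := by positivity
    linarith)
  have hW : ∫⁻ t, wt (-(5 / 4)) t < ⊤ := wt_fin (by norm_num)
  refine ⟨(∫⁻ t, wt (-(5 / 4)) t) ^ 2 * ENNReal.ofReal (Real.Gamma (δ + 1)) ^ 4 *
    ((∫⁻ t, wt (-(5 / 4)) t) * ENNReal.ofReal C), ?_, fun f hf => ?_⟩
  · refine ENNReal.mul_ne_top (ENNReal.mul_ne_top (ENNReal.pow_ne_top hW.ne)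
      (ENNReal.pow_ne_top ENNReal.ofReal_ne_top)) (ENNReal.mul_ne_top hW.ne ENNReal.ofReal_ne_top)
  have hm : Measurable fun p : ((Fin n → ℝ) × ℝ) × E n =>
      wt (-(3 / 2)) p.1.2 * ‖cv (KK p.1.1 p.1.2) f p.2‖ₑ ^ 4 :=
    ((wt_meas _).comp (measurable_snd.comp measurable_fst)).mul
      ((cv_meas3 hf.meas).enorm.pow_const 4)
  obtain ⟨Q, hQ⟩ : ∃ Q, Q = (∫⁻ t, wt (-(5 / 4)) t) ^ 2 *
    ENNReal.ofReal (Real.Gamma (δ + 1)) ^ 4 := ⟨_, rfl⟩
  rw [← hQ]
  have hmx : ∀ b : Fin n → ℝ, Measurable fun x : E n =>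
      ∫⁻ t, wt (-(3 / 2)) t * ‖cv (KK b t) f x‖ₑ ^ 4 := by
    intro b
    refine Measurable.lintegral_prod_right' (f := fun p : E n × ℝ =>
      wt (-(3 / 2)) p.2 * ‖cv (KK b p.2) f p.1‖ₑ ^ 4) ?_
    have h2 : Measurable fun p : E n × ℝ => ((b, p.2), p.1) :=
      (measurable_const.prodMk measurable_snd).prodMk measurable_fst
    have h9 := hm.comp h2
    simp only [Function.comp_def] at h9
    exact h9
  have hmb : Measurable fun b : Fin n → ℝ =>
      ∫⁻ x : E n, ∫⁻ t, wt (-(3 / 2)) t * ‖cv (KK b t) f x‖ₑ ^ 4 := by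
    have h2 : Measurable fun p : (Fin n → ℝ) × E n =>
        ∫⁻ t, wt (-(3 / 2)) t * ‖cv (KK p.1 t) f p.2‖ₑ ^ 4 := by
      refine Measurable.lintegral_prod_right' (f := fun p : ((Fin n → ℝ) × E n) × ℝ =>
        wt (-(3 / 2)) p.2 * ‖cv (KK p.1.1 p.2) f p.1.2‖ₑ ^ 4) ?_
      have h3 : Measurable fun p : ((Fin n → ℝ) × E n) × ℝ => ((p.1.1, p.2), p.1.2) :=
        ((measurable_fst.comp measurable_fst).prodMk measurable_snd).prodMk
        (measurable_snd.comp measurable_fst)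
      have h9 := hm.comp h3
      simp only [Function.comp_def] at h9
      exact h9
    exact h2.lintegral_prod_right'
  calc ∫⁻ b, ∫⁻ x, ∫⁻ v, ‖FF δ b f x v‖ₑ ^ 4 ∂volume ∂volume ∂(nu n α γ)
      ≤ ∫⁻ b, ∫⁻ x : E n, Q * ∫⁻ t, wt (-(3 / 2)) t * ‖cv (KK b t) f x‖ₑ ^ 4
          ∂volume ∂volume ∂(nu n α γ) := by
        refine lintegral_mono_ae ?_
        filter_upwards [nu_ae n α γ] with b hb
        have hb0 : ∀ j, 0 < b j := fun j => lt_of_lt_of_le hα (hb j).1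
        refine lintegral_mono fun x => (radF hn hδ hb0 hf x).trans (le_of_eq ?_)
        rw [hQ, mul_assoc]
        congr 1
        rw [← lintegral_const_mul' _ _ (ENNReal.pow_ne_top ENNReal.ofReal_ne_top)]
        refine lintegral_congr fun t => ?_
        ring
    _ = Q * ∫⁻ b, ∫⁻ x : E n, ∫⁻ t, wt (-(3 / 2)) t * ‖cv (KK b t) f x‖ₑ ^ 4
          ∂volume ∂volume ∂(nu n α γ) := by
        rw [← lintegral_const_mul _ hmb]
        refine lintegral_congr fun b => ?_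
        rw [lintegral_const_mul _ (hmx b)]
    _ = Q * ∫⁻ t, ∫⁻ b, ∫⁻ x : E n, wt (-(3 / 2)) t * ‖cv (KK b t) f x‖ₑ ^ 4
          ∂volume ∂(nu n α γ) := by
        congr 1
        have e1 : ∀ b : Fin n → ℝ, ∫⁻ x : E n, ∫⁻ t, wt (-(3 / 2)) t * ‖cv (KK b t) f x‖ₑ ^ 4 =
            ∫⁻ t, ∫⁻ x : E n, wt (-(3 / 2)) t * ‖cv (KK b t) f x‖ₑ ^ 4 := by
          intro b
          refine lintegral_lintegral_swap (f := fun (x : E n) (t : ℝ) =>
            wt (-(3 / 2)) t * ‖cv (KK b t) f x‖ₑ ^ 4) ?_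
          have h2 : Measurable fun p : E n × ℝ => ((b, p.2), p.1) :=
            (measurable_const.prodMk measurable_snd).prodMk measurable_fst
          have h9 := hm.comp h2
          simp only [Function.comp_def] at h9
          exact h9.aemeasurable
        simp only [e1]
        refine lintegral_lintegral_swap (f := fun (b : Fin n → ℝ) (t : ℝ) =>
            ∫⁻ x : E n, wt (-(3 / 2)) t * ‖cv (KK b t) f x‖ₑ ^ 4) ?_
        exact hm.lintegral_prod_right'.aemeasurable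
    _ ≤ Q * ∫⁻ t, wt (-(5 / 4)) t * (ENNReal.ofReal C * ∫⁻ x, ‖f x‖ₑ ^ 4) := by
        refine mul_le_mul_right (lintegral_mono fun t => ?_) _
        have hmbx : Measurable fun b : Fin n → ℝ => ∫⁻ x : E n, ‖cv (KK b t) f x‖ₑ ^ 4 := by
          exact (cv_meas_bx hf.meas t).lintegral_prod_right'
        have e2 : ∫⁻ b, ∫⁻ x : E n, wt (-(3 / 2)) t * ‖cv (KK b t) f x‖ₑ ^ 4
            ∂volume ∂(nu n α γ) =
            wt (-(3 / 2)) t * ∫⁻ b, ∫⁻ x : E n, ‖cv (KK b t) f x‖ₑ ^ 4 ∂volume ∂(nu n α γ) := by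
          rw [← lintegral_const_mul _ hmbx]
          refine lintegral_congr fun b => ?_
          rw [lintegral_const_mul _ (cv_meas_x hf.meas b t)]
        rw [e2]
        have h4 : ENNReal.ofReal (C * ((1 + t ^ 2) ^ (1 / (8 * ((n : ℝ) + 1)))) ^ n) ≤
            wt (1 / 4) t * ENNReal.ofReal C := by
          unfold wt
          rw [← ENNReal.ofReal_mul (by positivity)]
          apply ENNReal.ofReal_le_ofReal
          rw [mul_comm]
          refine mul_le_mul_of_nonneg_right ?_ hC.le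
          rw [← Real.rpow_natCast, ← Real.rpow_mul (by positivity)]
          have h0 : (1 : ℝ) ≤ 1 + |t| := by linarith [abs_nonneg t]
          have h5 : 1 + t ^ 2 ≤ (1 + |t|) ^ 2 := by nlinarith [sq_abs t, abs_nonneg t]
          calc (1 + t ^ 2) ^ (1 / (8 * ((n : ℝ) + 1)) * n)
              ≤ ((1 + |t|) ^ 2) ^ (1 / (8 * ((n : ℝ) + 1)) * n) :=
                Real.rpow_le_rpow (by positivity) h5 (by positivity)
            _ = (1 + |t|) ^ (2 * (1 / (8 * ((n : ℝ) + 1)) * n)) := by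
                rw [← Real.rpow_natCast, ← Real.rpow_mul (by positivity)]
                norm_num
            _ ≤ (1 + |t|) ^ (1 / 4 : ℝ) := by
                refine Real.rpow_le_rpow_of_exponent_le h0 ?_
                rw [← sub_nonneg]
                have : (1 : ℝ) / 4 - 2 * (1 / (8 * ((n : ℝ) + 1)) * n) = 1 / (4 * (n + 1)) := by
                  field_simp
                  ring
                rw [this]
                positivity
        refine (mul_le_mul_right ((hcore t f hf).trans (mul_le_mul_left h4 _)) _).trans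
          (le_of_eq ?_)
        exact mul_aux _ _ _ ()
    _ = _ := by
        rw [lintegral_mul_const _ (wt_meas _)]
        simp only [mul_assoc]

end Pool.Agent.TH310.BZ
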