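import Mathlib
import Pool.Agent.TH310.BZ.Loc
set_option autoImplicit false

/-! Averaged bounds for the means of ellipsoids. -/

namespace Pool.Agent.TH310.BZ

open Complex MeasureTheory Set Filter Topology
open scoped ENNReal FourierTransform ComplexConjugate RealInnerProductSpace

variable {n : ℕ}

/-- the symbol -/
noncomputable def sm (δ : ℝ) (a : Fin n → ℝ) (ξ : E n) : ℝ :=
  if QF a ξ < 1 then (1 - QF a ξ) ^ δ else 0

/-- the means -/
noncomputable def SS (δ : ℝ) (a : Fin n → ℝ) (f : E n → ℂ) (x : E n) : ℂ :=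
  ∫ ξ : E n, ((sm δ a ξ : ℝ) : ℂ) * 𝓕 f ξ * cexp (((2 * Real.pi * ⟪x, ξ⟫ : ℝ) : ℂ) * I)

lemma QF_cont2 : Continuous fun p : (Fin n → ℝ) × E n => QF p.1 p.2 := by
  unfold QF
  fun_prop

lemma sm_meas2 (δ : ℝ) : Measurable fun p : (Fin n → ℝ) × E n => sm δ p.1 p.2 := by
  have h1 : Measurable fun p : (Fin n → ℝ) × E n => QF p.1 p.2 := QF_cont2.measurable
  unfold sm
  exact Measurable.ite (measurableSet_lt h1 measurable_const)
    ((measurable_const.sub h1).pow_const δ) measurable_const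

lemma sm_meas (δ : ℝ) (a : Fin n → ℝ) : Measurable (sm δ a) := by
  have h2 : Measurable fun ξ : E n => (a, ξ) := measurable_const.prodMk measurable_id
  exact (sm_meas2 δ).comp h2

lemma sm_nonneg (δ : ℝ) (a : Fin n → ℝ) (ξ : E n) : 0 ≤ sm δ a ξ := by
  unfold sm
  split_ifs with h
  · exact Real.rpow_nonneg (by linarith) _
  · exact le_rfl

lemma sm_le_one {δ : ℝ} (hδ : 0 ≤ δ) {a : Fin n → ℝ} (ha : ∀ j, 0 < a j) (ξ : E n) :
    sm δ a ξ ≤ 1 := by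
  have := QF_nonneg ha ξ
  unfold sm
  split_ifs with h
  · exact Real.rpow_le_one (by linarith) (by linarith) hδ
  · exact zero_le_one

lemma sm_le {δ : ℝ} (hδ : 0 ≤ δ) {a : Fin n → ℝ} (ha : ∀ j, 0 < a j) (ξ : E n) :
    sm δ a ξ ≤ Real.exp Real.pi * Real.exp (-(Real.pi * QF a ξ)) := by
  rw [← Real.exp_add]
  by_cases h : QF a ξ < 1
  · refine (sm_le_one hδ ha ξ).trans ?_
    rw [← Real.exp_zero]
    apply Real.exp_le_exp.2
    nlinarith [Real.pi_pos]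
  · unfold sm
    rw [if_neg h]
    positivity

lemma SS_GB {δ : ℝ} (hδ : 0 ≤ δ) {a : Fin n → ℝ} (ha : ∀ j, 0 < a j) {f : E n → ℂ}
    (hf : Integrable f) : GB fun ξ : E n => ((sm δ a ξ : ℝ) : ℂ) * 𝓕 f ξ := by
  have hm : Measurable fun ξ : E n => ((sm δ a ξ : ℝ) : ℂ) * 𝓕 f ξ :=
    (Complex.measurable_ofReal.comp (sm_meas δ a)).mul (meas_F hf)
  refine ⟨hm, ?_, ∫ y, ‖f y‖, fun ξ => ?_⟩
  · refine Integrable.mono' ((gauss_int ha).const_mul (Real.exp Real.pi * ∫ y, ‖f y‖))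
      hm.aestronglyMeasurable (ae_of_all _ fun ξ => ?_)
    rw [norm_mul, Complex.norm_real, Real.norm_of_nonneg (sm_nonneg _ _ _)]
    calc sm δ a ξ * ‖𝓕 f ξ‖ ≤ (Real.exp Real.pi * Real.exp (-(Real.pi * QF a ξ))) *
          ∫ y, ‖f y‖ :=
          mul_le_mul (sm_le hδ ha ξ) (F_bd ξ) (norm_nonneg _) (by positivity)
      _ = _ := by ring
  · rw [norm_mul, Complex.norm_real, Real.norm_of_nonneg (sm_nonneg _ _ _)]
    calc sm δ a ξ * ‖𝓕 f ξ‖ ≤ 1 * ∫ y, ‖f y‖ :=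
          mul_le_mul (sm_le_one hδ ha ξ) (F_bd ξ) (norm_nonneg _) zero_le_one
      _ = _ := one_mul _

lemma SS_eq (δ : ℝ) (a : Fin n → ℝ) (f : E n → ℂ) (x : E n) :
    SS δ a f x = 𝓕 (fun ξ : E n => ((sm δ a ξ : ℝ) : ℂ) * 𝓕 f ξ) (-x) := by
  rw [Real.fourier_eq']
  unfold SS
  congr 1
  ext ξ
  rw [smul_eq_mul, mul_comm]
  congr 2
  rw [inner_neg_right, real_inner_comm]
  push_cast
  ring

theorem SS_two {δ : ℝ} (hδ : 0 ≤ δ) {a : Fin n → ℝ} (ha : ∀ j, 0 < a j) {f : E n → ℂ}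
    (hf : GB f) : ∫⁻ x, ‖SS δ a f x‖ₑ ^ 2 ≤ ∫⁻ x, ‖f x‖ₑ ^ 2 := by
  have hG := SS_GB hδ ha hf.int
  simp only [SS_eq]
  rw [lintegral_neg_eq_self (fun x => ‖𝓕 (fun ξ : E n => ((sm δ a ξ : ℝ) : ℂ) * 𝓕 f ξ) x‖ₑ ^ 2),
    Pool.Agent.H153R4.plancherel _ hG.int hG.memLp, ← Pool.Agent.H153R4.plancherel _ hf.int hf.memLp]
  refine lintegral_mono fun ξ => ?_
  rw [enorm_mul]
  have h1 : ‖((sm δ a ξ : ℝ) : ℂ)‖ₑ ≤ 1 := by
    rw [← ofReal_norm, Complex.norm_real, Real.norm_of_nonneg (sm_nonneg _ _ _)]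
    exact ENNReal.ofReal_le_one.2 (sm_le_one hδ ha ξ)
  calc (‖((sm δ a ξ : ℝ) : ℂ)‖ₑ * ‖𝓕 f ξ‖ₑ) ^ 2 ≤ (1 * ‖𝓕 f ξ‖ₑ) ^ 2 := by gcongr
    _ = _ := by rw [one_mul]

lemma SS_meas2 (δ : ℝ) {f : E n → ℂ} (hf : Integrable f) :
    Measurable fun p : (Fin n → ℝ) × E n => SS δ p.1 f p.2 := by
  have h1 : Measurable fun q : ((Fin n → ℝ) × E n) × E n => ((sm δ q.1.1 q.2 : ℝ) : ℂ) := by
    have h2 : Measurable fun q : ((Fin n → ℝ) × E n) × E n => (q.1.1, q.2) :=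
      (measurable_fst.comp measurable_fst).prodMk measurable_snd
    exact Complex.measurable_ofReal.comp ((sm_meas2 δ).comp h2)
  have h3 : Measurable fun q : ((Fin n → ℝ) × E n) × E n => 𝓕 f q.2 :=
    (meas_F hf).comp measurable_snd
  have h4 : Measurable fun q : ((Fin n → ℝ) × E n) × E n =>
      cexp (((2 * Real.pi * ⟪q.1.2, q.2⟫ : ℝ) : ℂ) * I) := by
    have : Continuous fun q : ((Fin n → ℝ) × E n) × E n =>
      cexp (((2 * Real.pi * ⟪q.1.2, q.2⟫ : ℝ) : ℂ) * I) := by fun_prop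
    exact this.measurable
  have h5 : Measurable fun q : ((Fin n → ℝ) × E n) × E n => ((sm δ q.1.1 q.2 : ℝ) : ℂ) *
    𝓕 f q.2 * cexp (((2 * Real.pi * ⟪q.1.2, q.2⟫ : ℝ) : ℂ) * I) := (h1.mul h3).mul h4
  unfold SS
  exact (StronglyMeasurable.integral_prod_right' (ν := (volume : Measure (E n)))
    h5.stronglyMeasurable).measurable

lemma FF_meas3 (δ : ℝ) {f : E n → ℂ} (hf : Integrable f) :
    Measurable fun p : ((Fin n → ℝ) × E n) × ℝ => FF δ p.1.1 f p.1.2 p.2 := by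
  have h0 : Measurable fun q : (((Fin n → ℝ) × E n) × ℝ) × E n => QF q.1.1.1 q.2 := by
    have h2 : Measurable fun q : (((Fin n → ℝ) × E n) × ℝ) × E n => (q.1.1.1, q.2) :=
      (measurable_fst.comp (measurable_fst.comp measurable_fst)).prodMk measurable_snd
    exact QF_cont2.measurable.comp h2
  have h1 : Measurable fun q : (((Fin n → ℝ) × E n) × ℝ) × E n =>
      ((NN δ (q.1.2 - QF q.1.1.1 q.2) : ℝ) : ℂ) :=
    Complex.measurable_ofReal.comp ((NN_meas δ).comp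
      ((measurable_snd.comp measurable_fst).sub h0))
  have h3 : Measurable fun q : (((Fin n → ℝ) × E n) × ℝ) × E n => 𝓕 f q.2 :=
    (meas_F hf).comp measurable_snd
  have h4 : Measurable fun q : (((Fin n → ℝ) × E n) × ℝ) × E n =>
      cexp (((2 * Real.pi * ⟪q.1.1.2, q.2⟫ : ℝ) : ℂ) * I) := by
    have : Continuous fun q : (((Fin n → ℝ) × E n) × ℝ) × E n =>
      cexp (((2 * Real.pi * ⟪q.1.1.2, q.2⟫ : ℝ) : ℂ) * I) := by fun_prop
    exact this.measurable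
  have h6 : Measurable fun q : (((Fin n → ℝ) × E n) × ℝ) × E n =>
      cexp (-((Real.pi * QF q.1.1.1 q.2 : ℝ) : ℂ)) :=
    Complex.measurable_exp.comp (Complex.measurable_ofReal.comp (measurable_const.mul h0)).neg
  have h5 : Measurable fun q : (((Fin n → ℝ) × E n) × ℝ) × E n =>
      ((NN δ (q.1.2 - QF q.1.1.1 q.2) : ℝ) : ℂ) * Gx q.1.1.1 f q.1.1.2 q.2 := by
    unfold Gx
    exact h1.mul ((h6.mul h3).mul h4)
  unfold FF
  exact (StronglyMeasurable.integral_prod_right' (ν := (volume : Measure (E n)))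
    h5.stronglyMeasurable).measurable


end Pool.Agent.TH310.BZ
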