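import Mathlib
import Pool.Agent.TH310.BZ.Sph0
set_option autoImplicit false

/-! Averaged fourth power bounds for the means of ellipsoids. -/

namespace Pool.Agent.TH310.BZ

open Complex MeasureTheory Set Filter Topology
open scoped ENNReal FourierTransform ComplexConjugate RealInnerProductSpace

variable {n : ℕ}

lemma FF_m3 (δ : ℝ) {f : E n → ℂ} (hf : Integrable f) :
    Measurable fun p : ((Fin n → ℝ) × E n) × ℝ => ‖FF δ p.1.1 f p.1.2 p.2‖ₑ ^ 4 :=
  (FF_meas3 δ hf).enorm.pow_const 4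

lemma FF_m2 (δ : ℝ) {f : E n → ℂ} (hf : Integrable f) (K : ℝ≥0∞) :
    Measurable fun q : (ℝ × (Fin n → ℝ)) × E n => K * ‖FF δ q.1.2 f q.2 q.1.1‖ₑ ^ 4 := by
  have h3 : Measurable fun q : (ℝ × (Fin n → ℝ)) × E n => ((q.1.2, q.2), q.1.1) :=
    ((measurable_snd.comp measurable_fst).prodMk measurable_snd).prodMk
      (measurable_fst.comp measurable_fst)
  exact (((FF_meas3 δ hf).comp h3).enorm.pow_const 4).const_mul K

lemma FF_m1 (δ : ℝ) {f : E n → ℂ} (hf : Integrable f) (K : ℝ≥0∞) (b : Fin n → ℝ) :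
    Measurable fun p : ℝ × E n => K * ‖FF δ b f p.2 p.1‖ₑ ^ 4 := by
  have h7 : Measurable fun p : ℝ × E n => ((b, p.2), p.1) :=
    (measurable_const.prodMk measurable_snd).prodMk measurable_fst
  exact (((FF_meas3 δ hf).comp h7).enorm.pow_const 4).const_mul K

lemma FF_swap (δ : ℝ) {f : E n → ℂ} (hf : Integrable f) {K : ℝ≥0∞} (hK : K ≠ ⊤)
    (ν : Measure (Fin n → ℝ)) [SFinite ν] :
    ∫⁻ v, ∫⁻ b, ∫⁻ x, K * ‖FF δ b f x v‖ₑ ^ 4 ∂volume ∂ν =
      K * ∫⁻ b, ∫⁻ x, ∫⁻ v, ‖FF δ b f x v‖ₑ ^ 4 ∂volume ∂volume ∂ν := by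
  have hm1 : Measurable fun p : ℝ × (Fin n → ℝ) => ∫⁻ x, K * ‖FF δ p.2 f x p.1‖ₑ ^ 4 :=
    (FF_m2 δ hf K).lintegral_prod_right'
  have hmb : Measurable fun p : (Fin n → ℝ) × E n => ∫⁻ v, ‖FF δ p.1 f p.2 v‖ₑ ^ 4 :=
    (FF_m3 δ hf).lintegral_prod_right'
  have hmb2 : Measurable fun b : Fin n → ℝ => ∫⁻ x, ∫⁻ v, ‖FF δ b f x v‖ₑ ^ 4 :=
    hmb.lintegral_prod_right'
  rw [lintegral_lintegral_swap (f := fun (v : ℝ) (b : Fin n → ℝ) =>
    ∫⁻ x, K * ‖FF δ b f x v‖ₑ ^ 4) hm1.aemeasurable]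
  rw [← lintegral_const_mul _ hmb2]
  refine lintegral_congr fun b => ?_
  have h5 : Measurable fun x : E n => (b, x) := measurable_const.prodMk measurable_id
  rw [lintegral_lintegral_swap (f := fun (v : ℝ) (x : E n) =>
    K * ‖FF δ b f x v‖ₑ ^ 4) (FF_m1 δ hf K b).aemeasurable]
  have h6 : Measurable fun x : E n => ∫⁻ v, ‖FF δ b f x v‖ₑ ^ 4 := by
    have := hmb.comp h5
    simp only [Function.comp_def] at this
    exact this
  rw [← lintegral_const_mul _ h6]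
  refine lintegral_congr fun x => ?_
  rw [lintegral_const_mul' _ _ hK]

lemma SS_FF (δ : ℝ) (b : Fin n → ℝ) (f : E n → ℂ) (x : E n) {v : ℝ} (hv : 0 < v) :
    SS δ (fun j => b j / v) f x = ((v ^ (-δ) * Real.exp (Real.pi * v) : ℝ) : ℂ) *
      FF δ b f x v := by
  unfold SS FF
  rw [← integral_const_mul]
  congr 1
  ext ξ
  have hq : QF (fun j => b j / v) ξ = QF b ξ / v := by
    unfold QF
    rw [Finset.sum_div]
    exact Finset.sum_congr rfl fun j _ => by ring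
  have key : ((sm δ (fun j => b j / v) ξ : ℝ) : ℂ) =
      ((v ^ (-δ) * Real.exp (Real.pi * v) : ℝ) : ℂ) * (((NN δ (v - QF b ξ) : ℝ) : ℂ) *
        cexp (-((Real.pi * QF b ξ : ℝ) : ℂ))) := by
    rw [← Complex.ofReal_neg, ← Complex.ofReal_exp, ← Complex.ofReal_mul, ← Complex.ofReal_mul]
    congr 1
    unfold sm NN
    rw [hq]
    by_cases h : QF b ξ < v
    · rw [if_pos ((div_lt_one hv).2 h), if_pos (by linarith)]
      have e1 : 1 - QF b ξ / v = (v - QF b ξ) * v⁻¹ := by field_simp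
      rw [e1, Real.mul_rpow (by linarith) (by positivity), Real.inv_rpow hv.le,
        ← Real.rpow_neg hv.le]
      have e2 : Real.exp (Real.pi * v) * (Real.exp (-Real.pi * (v - QF b ξ)) *
          Real.exp (-(Real.pi * QF b ξ))) = 1 := by
        rw [← Real.exp_add, ← Real.exp_add, ← Real.exp_zero]
        congr 1
        ring
      linear_combination (-(v - QF b ξ) ^ δ * v ^ (-δ)) * e2
    · rw [if_neg (by rw [div_lt_one hv]; exact h), if_neg (by linarith)]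
      ring
  rw [key]
  unfold Gx
  ring

lemma nu_eq (n : ℕ) (α γ : ℝ) :
    nu n α γ = (volume : Measure (Fin n → ℝ)).restrict (univ.pi fun _ => Icc α γ) := by
  unfold nu
  rw [volume_pi, Measure.restrict_pi_pi]

/-- change of variables -/
lemma nu_scale {α β v : ℝ} (hα : 0 < α) (hv : 1 ≤ v) (hv2 : v ≤ 2)
    (G : (Fin n → ℝ) → ℝ≥0∞) (hG : Measurable G) :
    ∫⁻ a, G a ∂(nu n α β) ≤ ∫⁻ b, G (fun j => b j / v) ∂(nu n α (2 * β)) := by
  have hB : MeasurableSet (univ.pi fun _ : Fin n => Icc α β) :=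
    MeasurableSet.univ_pi fun _ => measurableSet_Icc
  have hB2 : MeasurableSet (univ.pi fun _ : Fin n => Icc α (2 * β)) :=
    MeasurableSet.univ_pi fun _ => measurableSet_Icc
  have hv0 : 0 < v := by linarith
  have hmap := Measure.map_addHaar_smul (volume : Measure (Fin n → ℝ)) (r := v⁻¹)
    (inv_ne_zero hv0.ne')
  have hH : Measurable ((univ.pi fun _ : Fin n => Icc α β).indicator G) := hG.indicator hB
  have h1 : ∫⁻ b, (univ.pi fun _ : Fin n => Icc α β).indicator G (v⁻¹ • b) =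
      ENNReal.ofReal |((v⁻¹) ^ Module.finrank ℝ (Fin n → ℝ))⁻¹| *
        ∫⁻ a, (univ.pi fun _ : Fin n => Icc α β).indicator G a := by
    rw [← lintegral_map hH (measurable_const_smul v⁻¹), hmap, lintegral_smul_measure, smul_eq_mul]
  have h2 : 1 ≤ ENNReal.ofReal |((v⁻¹) ^ Module.finrank ℝ (Fin n → ℝ))⁻¹| := by
    rw [ENNReal.one_le_ofReal, inv_pow, inv_inv, abs_of_nonneg (by positivity)]
    exact one_le_pow₀ hv
  rw [nu_eq, nu_eq, ← lintegral_indicator hB, ← lintegral_indicator hB2]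
  calc ∫⁻ a, (univ.pi fun _ : Fin n => Icc α β).indicator G a
      ≤ ENNReal.ofReal |((v⁻¹) ^ Module.finrank ℝ (Fin n → ℝ))⁻¹| *
        ∫⁻ a, (univ.pi fun _ : Fin n => Icc α β).indicator G a := by
        conv_lhs => rw [← one_mul (∫⁻ a, (univ.pi fun _ : Fin n => Icc α β).indicator G a)]
        exact mul_le_mul_left h2 _
    _ = ∫⁻ b, (univ.pi fun _ : Fin n => Icc α β).indicator G (v⁻¹ • b) := h1.symm
    _ ≤ _ := by
        refine lintegral_mono fun b => ?_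
        by_cases hb : v⁻¹ • b ∈ univ.pi fun _ : Fin n => Icc α β
        · rw [indicator_of_mem hb, indicator_of_mem]
          · refine le_of_eq ?_
            congr 1
            ext j
            rw [Pi.smul_apply, smul_eq_mul, div_eq_inv_mul]
          · intro j _
            have h3 := hb j (mem_univ j)
            rw [Pi.smul_apply, smul_eq_mul] at h3
            have h4 : b j = v * (v⁻¹ * b j) := by field_simp
            constructor
            · rw [h4]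
              nlinarith [h3.1]
            · rw [h4]
              nlinarith [h3.1, h3.2]
        · rw [indicator_of_notMem hb]
          exact zero_le

theorem SS_four (n : ℕ) (hn : 1 ≤ n) (α β δ : ℝ) (hα : 0 < α) (hαβ : α ≤ β) (hδ : 0 ≤ δ) :
    ∃ C : ℝ≥0∞, C ≠ ⊤ ∧ ∀ f : E n → ℂ, GB f →
      ∫⁻ a, ∫⁻ x, ‖SS δ a f x‖ₑ ^ 4 ∂volume ∂(nu n α β) ≤ C * ∫⁻ x, ‖f x‖ₑ ^ 4 := by
  obtain ⟨C, hC, hF⟩ := avgF n hn α (2 * β) δ hα (by linarith) hδ
  obtain ⟨K, hK⟩ : ∃ K, K = ENNReal.ofReal (Real.exp (Real.pi * 2)) ^ 4 := ⟨_, rfl⟩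
  have hKt : K ≠ ⊤ := by rw [hK]; exact ENNReal.pow_ne_top ENNReal.ofReal_ne_top
  refine ⟨K * C, ENNReal.mul_ne_top hKt hC, fun f hf => ?_⟩
  have hG : Measurable fun a : Fin n → ℝ => ∫⁻ x, ‖SS δ a f x‖ₑ ^ 4 := by
    have : Measurable fun p : (Fin n → ℝ) × E n => ‖SS δ p.1 f p.2‖ₑ ^ 4 :=
      (SS_meas2 δ hf.int).enorm.pow_const 4
    exact this.lintegral_prod_right'
  have hvol : ∫⁻ _ in Icc (1 : ℝ) 2, (1 : ℝ≥0∞) = 1 := by
    rw [lintegral_one, Measure.restrict_apply_univ, Real.volume_Icc]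
    norm_num
  calc ∫⁻ a, ∫⁻ x, ‖SS δ a f x‖ₑ ^ 4 ∂volume ∂(nu n α β)
      = ∫⁻ _ in Icc (1 : ℝ) 2, ∫⁻ a, ∫⁻ x, ‖SS δ a f x‖ₑ ^ 4 ∂volume ∂(nu n α β) := by
        rw [lintegral_const, Measure.restrict_apply_univ, Real.volume_Icc]
        norm_num
    _ ≤ ∫⁻ v in Icc (1 : ℝ) 2, ∫⁻ b, ∫⁻ x, K * ‖FF δ b f x v‖ₑ ^ 4
          ∂volume ∂(nu n α (2 * β)) := by
        refine setLIntegral_mono' measurableSet_Icc fun v hv => ?_
        refine (nu_scale hα hv.1 hv.2 _ hG).trans ?_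
        refine lintegral_mono fun b => lintegral_mono fun x => ?_
        simp only
        rw [SS_FF δ b f x (by linarith [hv.1]), enorm_mul, mul_pow, hK]
        refine mul_le_mul_left ?_ _
        have hv0 : 0 < v := by linarith [hv.1]
        have h1 : ‖((v ^ (-δ) * Real.exp (Real.pi * v) : ℝ) : ℂ)‖ₑ ≤
            ENNReal.ofReal (Real.exp (Real.pi * 2)) := by
          rw [← ofReal_norm, Complex.norm_real, Real.norm_of_nonneg (by positivity)]
          apply ENNReal.ofReal_le_ofReal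
          have h2 : v ^ (-δ) ≤ 1 := Real.rpow_le_one_of_one_le_of_nonpos hv.1 (by linarith)
          have h3 : Real.exp (Real.pi * v) ≤ Real.exp (Real.pi * 2) :=
            Real.exp_le_exp.2 (by nlinarith [Real.pi_pos, hv.2])
          calc v ^ (-δ) * Real.exp (Real.pi * v) ≤ 1 * Real.exp (Real.pi * 2) :=
                mul_le_mul h2 h3 (by positivity) zero_le_one
            _ = _ := one_mul _
        gcongr
    _ ≤ ∫⁻ v, ∫⁻ b, ∫⁻ x, K * ‖FF δ b f x v‖ₑ ^ 4 ∂volume ∂(nu n α (2 * β)) :=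
        setLIntegral_le_lintegral _ _
    _ = K * ∫⁻ b, ∫⁻ x, ∫⁻ v, ‖FF δ b f x v‖ₑ ^ 4 ∂volume ∂volume ∂(nu n α (2 * β)) :=
        FF_swap δ hf.int hKt _
    _ ≤ _ := by
        rw [mul_assoc]
        exact mul_le_mul_right (hF f hf) _

end Pool.Agent.TH310.BZ
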