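import Mathlib
import Pool.Agent.TH310.BZ.Sph
import Pool.Agent.H438R2.RZ.M1
set_option autoImplicit false

/-! Interpolation, and the passage to general functions. -/

namespace Pool.Agent.TH310.BZ

open Complex MeasureTheory Set Filter Topology
open scoped ENNReal FourierTransform ComplexConjugate RealInnerProductSpace

variable {n : ℕ}

/-- truncation -/
noncomputable def hi (t : ℝ) (f : E n → ℂ) (x : E n) : ℂ := if t < ‖f x‖ then f x else 0
/-- truncation -/
noncomputable def lo (t : ℝ) (f : E n → ℂ) (x : E n) : ℂ := if ‖f x‖ ≤ t then f x else 0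

lemma hi_add_lo (t : ℝ) (f : E n → ℂ) (x : E n) : f x = hi t f x + lo t f x := by
  unfold hi lo
  by_cases h : t < ‖f x‖
  · rw [if_pos h, if_neg (not_le.2 h), add_zero]
  · rw [if_neg h, if_pos (not_lt.1 h), zero_add]

lemma hi_meas (t : ℝ) {f : E n → ℂ} (hf : Measurable f) : Measurable (hi t f) := by
  unfold hi
  exact Measurable.ite (measurableSet_lt measurable_const hf.norm) hf measurable_const

lemma lo_meas (t : ℝ) {f : E n → ℂ} (hf : Measurable f) : Measurable (lo t f) := by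
  unfold lo
  exact Measurable.ite (measurableSet_le hf.norm measurable_const) hf measurable_const

lemma hi_le (t : ℝ) (f : E n → ℂ) (x : E n) : ‖hi t f x‖ ≤ ‖f x‖ := by
  unfold hi
  split_ifs
  · exact le_rfl
  · simp

lemma lo_le (t : ℝ) (f : E n → ℂ) (x : E n) : ‖lo t f x‖ ≤ ‖f x‖ := by
  unfold lo
  split_ifs
  · exact le_rfl
  · simp

lemma hi_int (t : ℝ) {f : E n → ℂ} (hf : Measurable f) (hi' : Integrable f) :
    Integrable (hi t f) :=
  hi'.mono (hi_meas t hf).aestronglyMeasurable (ae_of_all _ fun x => hi_le t f x)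

lemma lo_int (t : ℝ) {f : E n → ℂ} (hf : Measurable f) (hi' : Integrable f) :
    Integrable (lo t f) :=
  hi'.mono (lo_meas t hf).aestronglyMeasurable (ae_of_all _ fun x => lo_le t f x)

lemma hi_GB (t : ℝ) {f : E n → ℂ} (hf : GB f) : GB (hi t f) := by
  obtain ⟨M, hM⟩ := hf.bd
  exact ⟨hi_meas t hf.meas, hi_int t hf.meas hf.int, M, fun x => (hi_le t f x).trans (hM x)⟩

lemma lo_GB (t : ℝ) {f : E n → ℂ} (hf : Measurable f) (hi' : Integrable f) (ht : 0 ≤ t) :
    GB (lo t f) := by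
  refine ⟨lo_meas t hf, lo_int t hf hi', t, fun x => ?_⟩
  unfold lo
  split_ifs with h
  · exact h
  · simpa using ht

lemma SS_add {δ : ℝ} (hδ : 0 ≤ δ) {a : Fin n → ℝ} (ha : ∀ j, 0 < a j) {f g : E n → ℂ}
    (hf : Integrable f) (hg : Integrable g) (x : E n) :
    SS δ a (fun y => f y + g y) x = SS δ a f x + SS δ a g x := by
  have h1 : ∀ ξ, 𝓕 (fun y => f y + g y) ξ = 𝓕 f ξ + 𝓕 g ξ := by
    intro ξ
    have hf' : Integrable fun v : E n => Real.fourierChar (-⟪v, ξ⟫) • f v :=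
      (Real.fourierIntegral_convergent_iff (V := E n) ξ).2 hf
    have hg' : Integrable fun v : E n => Real.fourierChar (-⟪v, ξ⟫) • g v :=
      (Real.fourierIntegral_convergent_iff (V := E n) ξ).2 hg
    rw [Real.fourier_eq, Real.fourier_eq, Real.fourier_eq, ← integral_add hf' hg']
    congr 1
    ext v
    rw [smul_add]
  have hu : ∀ {u : E n → ℂ}, Integrable u → Integrable fun ξ : E n =>
      ((sm δ a ξ : ℝ) : ℂ) * 𝓕 u ξ * cexp (((2 * Real.pi * ⟪x, ξ⟫ : ℝ) : ℂ) * I) := by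
    intro u hu
    have h2 := (SS_GB hδ ha hu).int
    refine h2.mul_bdd (c := 1) ?_ (ae_of_all _ fun ξ => ?_)
    · have : Continuous fun ξ : E n => cexp (((2 * Real.pi * ⟪x, ξ⟫ : ℝ) : ℂ) * I) := by fun_prop
      exact this.aestronglyMeasurable
    · rw [Complex.norm_exp_ofReal_mul_I]
  unfold SS
  rw [← integral_add (hu hf) (hu hg)]
  congr 1
  ext ξ
  rw [h1]
  ring

/-- the bound for bounded functions -/
theorem SS_p (n : ℕ) (hn : 1 ≤ n) (α β δ p : ℝ) (hα : 0 < α) (hαβ : α ≤ β) (hδ : 0 ≤ δ)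
    (hp : 2 ≤ p) (hp4 : p ≤ 4) :
    ∃ C : ℝ≥0∞, C ≠ ⊤ ∧ ∀ f : E n → ℂ, GB f →
      ∫⁻ a, ∫⁻ x, ‖SS δ a f x‖ₑ ^ p ∂volume ∂(nu n α β) ≤ C * ∫⁻ x, ‖f x‖ₑ ^ p := by
  have hpos : ∀ᵐ a ∂(nu n α β), ∀ j, 0 < a j := by
    filter_upwards [nu_ae n α β] with a ha j
    exact lt_of_lt_of_le hα (ha j).1
  have htwo : ∀ f : E n → ℂ, GB f →
      ∫⁻ a, ∫⁻ x, ‖SS δ a f x‖ₑ ^ 2 ∂volume ∂(nu n α β) ≤
        nu n α β univ * ∫⁻ x, ‖f x‖ₑ ^ 2 := by
    intro f hf
    calc ∫⁻ a, ∫⁻ x, ‖SS δ a f x‖ₑ ^ 2 ∂volume ∂(nu n α β)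
        ≤ ∫⁻ _, ∫⁻ x, ‖f x‖ₑ ^ 2 ∂volume ∂(nu n α β) := by
          refine lintegral_mono_ae ?_
          filter_upwards [hpos] with a ha
          exact SS_two hδ ha hf
      _ = _ := by rw [lintegral_const, mul_comm]
  obtain ⟨C4, hC4, h4⟩ := SS_four n hn α β δ hα hαβ hδ
  rcases hp.eq_or_lt with rfl | hp
  · refine ⟨nu n α β univ, measure_ne_top _ _, fun f hf => ?_⟩
    have := htwo f hf
    simpa only [← ENNReal.rpow_natCast, Nat.cast_ofNat] using this
  rcases hp4.eq_or_lt with rfl | hp4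
  · refine ⟨C4, hC4, fun f hf => ?_⟩
    have := h4 f hf
    simpa only [← ENNReal.rpow_natCast, Nat.cast_ofNat] using this
  obtain ⟨C, hC, hM⟩ := Pool.Agent.H438R2.RZ.marc24 p hp hp4
  obtain ⟨M2, hM2⟩ : ∃ M, M = (nu n α β univ).toReal + 1 := ⟨_, rfl⟩
  obtain ⟨M4, hM4⟩ : ∃ M, M = C4.toReal + 1 := ⟨_, rfl⟩
  have hM2' : nu n α β univ ≤ ENNReal.ofReal M2 := by
    rw [hM2]
    refine (le_of_eq (ENNReal.ofReal_toReal (measure_ne_top _ _)).symm).trans ?_
    exact ENNReal.ofReal_le_ofReal (by linarith)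
  have hM4' : C4 ≤ ENNReal.ofReal M4 := by
    rw [hM4]
    refine (le_of_eq (ENNReal.ofReal_toReal hC4).symm).trans ?_
    exact ENNReal.ofReal_le_ofReal (by linarith)
  have hM2p : 0 < M2 := by rw [hM2]; positivity
  have hM4p : 0 < M4 := by rw [hM4]; positivity
  refine ⟨ENNReal.ofReal (C * M2 ^ ((4 - p) / 2) * M4 ^ ((p - 2) / 2)), ENNReal.ofReal_ne_top,
    fun f hf => ?_⟩
  have hSm : Measurable fun q : (Fin n → ℝ) × E n => ‖SS δ q.1 f q.2‖ := (SS_meas2 δ hf.int).norm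
  have key := hM (X := E n) (Y := (Fin n → ℝ) × E n) volume ((nu n α β).prod volume)
    (fun q => ‖SS δ q.1 f q.2‖) (fun x => ‖f x‖) hSm hf.meas.norm (fun _ => norm_nonneg _)
    (fun _ => norm_nonneg _) M2 M4 hM2p hM4p ?_
  · rw [lintegral_prod] at key
    · simpa only [ofReal_norm] using key
    · exact (hSm.ennreal_ofReal.pow_const p).aemeasurable
  · intro t ht
    have hlo := lo_GB t hf.meas hf.int ht.le
    have hhi := hi_GB t hf
    have hmu : Measurable fun q : (Fin n → ℝ) × E n => ‖SS δ q.1 (hi t f) q.2‖ₑ :=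
      (SS_meas2 δ hhi.int).enorm
    have hmv : Measurable fun q : (Fin n → ℝ) × E n => ‖SS δ q.1 (lo t f) q.2‖ₑ :=
      (SS_meas2 δ hlo.int).enorm
    refine ⟨fun q => ‖SS δ q.1 (hi t f) q.2‖ₑ, fun q => ‖SS δ q.1 (lo t f) q.2‖ₑ, hmu, hmv,
      ?_, ?_, ?_⟩
    · have hpos2 : ∀ᵐ q ∂((nu n α β).prod (volume : Measure (E n))), ∀ j, 0 < q.1 j :=
        Measure.quasiMeasurePreserving_fst.ae hpos
      filter_upwards [hpos2] with q hq
      rw [ofReal_norm]
      have e : SS δ q.1 f q.2 = SS δ q.1 (hi t f) q.2 + SS δ q.1 (lo t f) q.2 := by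
        rw [← SS_add hδ hq hhi.int hlo.int]
        congr 1
        ext y
        exact hi_add_lo t f y
      rw [e]
      exact enorm_add_le _ _
    · rw [lintegral_prod _ (hmu.pow_const 2).aemeasurable]
      refine (htwo _ hhi).trans (mul_le_mul' hM2' (le_of_eq ?_))
      rw [← lintegral_indicator (measurableSet_lt measurable_const hf.meas.norm)]
      refine lintegral_congr fun x => ?_
      unfold hi
      by_cases h : t < ‖f x‖
      · rw [if_pos h, indicator_of_mem (by exact h), ofReal_norm]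
      · rw [if_neg h, indicator_of_notMem (by exact h)]
        simp
    · rw [lintegral_prod _ (hmv.pow_const 4).aemeasurable]
      refine (h4 _ hlo).trans (mul_le_mul' hM4' (le_of_eq ?_))
      rw [← lintegral_indicator (measurableSet_le hf.meas.norm measurable_const)]
      refine lintegral_congr fun x => ?_
      unfold lo
      by_cases h : ‖f x‖ ≤ t
      · rw [if_pos h, indicator_of_mem (by exact h), ofReal_norm]
      · rw [if_neg h, indicator_of_notMem (by exact h)]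
        simp

lemma F_sub_bd {f g : E n → ℂ} (hf : Integrable f) (hg : Integrable g) (ξ : E n) :
    ‖𝓕 f ξ - 𝓕 g ξ‖ ≤ ∫ y, ‖f y - g y‖ := by
  have hf' : Integrable fun v : E n => Real.fourierChar (-⟪v, ξ⟫) • f v :=
    (Real.fourierIntegral_convergent_iff (V := E n) ξ).2 hf
  have hg' : Integrable fun v : E n => Real.fourierChar (-⟪v, ξ⟫) • g v :=
    (Real.fourierIntegral_convergent_iff (V := E n) ξ).2 hg
  rw [Real.fourier_eq, Real.fourier_eq, ← integral_sub hf' hg']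
  refine (norm_integral_le_integral_norm _).trans (le_of_eq ?_)
  congr 1
  ext y
  rw [← smul_sub, Circle.norm_smul]

lemma lo_tendsto {f : E n → ℂ} (hf : Measurable f) (hi' : Integrable f) :
    Tendsto (fun k : ℕ => ∫ y, ‖lo k f y - f y‖) atTop (𝓝 0) := by
  have h0 : Tendsto (fun k : ℕ => ∫ y, ‖lo k f y - f y‖) atTop (𝓝 (∫ _ : E n, (0 : ℝ))) := by
    refine tendsto_integral_of_dominated_convergence (fun y => 2 * ‖f y‖) ?_ ?_ ?_ ?_
    · exact fun k => ((lo_meas k hf).sub hf).norm.aestronglyMeasurable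
    · exact hi'.norm.const_mul 2
    · refine fun k => ae_of_all _ fun y => ?_
      rw [norm_norm]
      have h1 := norm_sub_le (lo k f y) (f y)
      have h2 := lo_le k f y
      linarith
    · refine ae_of_all _ fun y => ?_
      obtain ⟨N, hN⟩ := exists_nat_ge ‖f y‖
      refine tendsto_const_nhds.congr' ?_
      filter_upwards [eventually_ge_atTop N] with k hk
      have : ‖f y‖ ≤ (k : ℝ) := hN.trans (by exact_mod_cast hk)
      unfold lo
      rw [if_pos this, sub_self, norm_zero]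
  simpa using h0

lemma SS_sub_bd {δ : ℝ} (hδ : 0 ≤ δ) {a : Fin n → ℝ} (ha : ∀ j, 0 < a j) {f g : E n → ℂ}
    (hf : Integrable f) (hg : Integrable g) (x : E n) :
    ‖SS δ a f x - SS δ a g x‖ ≤ (∫ ξ : E n, Real.exp Real.pi * Real.exp (-(Real.pi * QF a ξ))) *
      ∫ y, ‖f y - g y‖ := by
  have hu : ∀ {u : E n → ℂ}, Integrable u → Integrable fun ξ : E n =>
      ((sm δ a ξ : ℝ) : ℂ) * 𝓕 u ξ * cexp (((2 * Real.pi * ⟪x, ξ⟫ : ℝ) : ℂ) * I) := by
    intro u hu
    have h2 := (SS_GB hδ ha hu).int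
    refine h2.mul_bdd (c := 1) ?_ (ae_of_all _ fun ξ => ?_)
    · have : Continuous fun ξ : E n => cexp (((2 * Real.pi * ⟪x, ξ⟫ : ℝ) : ℂ) * I) := by fun_prop
      exact this.aestronglyMeasurable
    · rw [Complex.norm_exp_ofReal_mul_I]
  unfold SS
  rw [← integral_sub (hu hf) (hu hg), ← integral_mul_const]
  refine norm_integral_le_of_norm_le (((gauss_int ha).const_mul _).mul_const _)
    (ae_of_all _ fun ξ => ?_)
  have e : ((sm δ a ξ : ℝ) : ℂ) * 𝓕 f ξ * cexp (((2 * Real.pi * ⟪x, ξ⟫ : ℝ) : ℂ) * I) -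
      ((sm δ a ξ : ℝ) : ℂ) * 𝓕 g ξ * cexp (((2 * Real.pi * ⟪x, ξ⟫ : ℝ) : ℂ) * I) =
      ((sm δ a ξ : ℝ) : ℂ) * (𝓕 f ξ - 𝓕 g ξ) *
        cexp (((2 * Real.pi * ⟪x, ξ⟫ : ℝ) : ℂ) * I) := by ring
  rw [e, norm_mul, norm_mul, Complex.norm_exp_ofReal_mul_I, mul_one, Complex.norm_real,
    Real.norm_of_nonneg (sm_nonneg _ _ _)]
  exact mul_le_mul (sm_le hδ ha ξ) (F_sub_bd hf hg ξ) (norm_nonneg _) (by positivity)

lemma SS_tendsto {δ : ℝ} (hδ : 0 ≤ δ) {a : Fin n → ℝ} (ha : ∀ j, 0 < a j) {f : E n → ℂ}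
    (hf : Measurable f) (hi' : Integrable f) (x : E n) :
    Tendsto (fun k : ℕ => SS δ a (lo k f) x) atTop (𝓝 (SS δ a f x)) := by
  rw [tendsto_iff_norm_sub_tendsto_zero]
  have h1 := (lo_tendsto hf hi').const_mul
    (∫ ξ : E n, Real.exp Real.pi * Real.exp (-(Real.pi * QF a ξ)))
  rw [mul_zero] at h1
  exact squeeze_zero (fun _ => norm_nonneg _)
    (fun k => SS_sub_bd hδ ha (lo_int k hf hi') hi' x) h1

/-- the bound for integrable functions -/
theorem SS_all (n : ℕ) (hn : 1 ≤ n) (α β δ p : ℝ) (hα : 0 < α) (hαβ : α ≤ β) (hδ : 0 ≤ δ)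
    (hp : 2 ≤ p) (hp4 : p ≤ 4) :
    ∃ C : ℝ, 0 < C ∧ ∀ f : E n → ℂ, Integrable f →
      ∫⁻ a, ∫⁻ x, ‖SS δ a f x‖ₑ ^ p ∂volume ∂(nu n α β) ≤
        ENNReal.ofReal C * ∫⁻ x, ‖f x‖ₑ ^ p := by
  obtain ⟨C, hC, hB⟩ := SS_p n hn α β δ p hα hαβ hδ hp hp4
  have hpos : ∀ᵐ a ∂(nu n α β), ∀ j, 0 < a j := by
    filter_upwards [nu_ae n α β] with a ha j
    exact lt_of_lt_of_le hα (ha j).1
  have hp0 : 0 ≤ p := by linarith
  -- measurable functions
  have main : ∀ f : E n → ℂ, Measurable f → Integrable f →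
      ∫⁻ a, ∫⁻ x, ‖SS δ a f x‖ₑ ^ p ∂volume ∂(nu n α β) ≤ C * ∫⁻ x, ‖f x‖ₑ ^ p := by
    intro f hf hi'
    have hm : ∀ k : ℕ, Measurable fun q : (Fin n → ℝ) × E n => ‖SS δ q.1 (lo k f) q.2‖ₑ ^ p :=
      fun k => (SS_meas2 δ (lo_int k hf hi')).enorm.pow_const p
    calc ∫⁻ a, ∫⁻ x, ‖SS δ a f x‖ₑ ^ p ∂volume ∂(nu n α β)
        = ∫⁻ q : (Fin n → ℝ) × E n, ‖SS δ q.1 f q.2‖ₑ ^ p ∂((nu n α β).prod volume) := by
          rw [lintegral_prod _ ((SS_meas2 δ hi').enorm.pow_const p).aemeasurable]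
      _ ≤ ∫⁻ q : (Fin n → ℝ) × E n, liminf (fun k : ℕ => ‖SS δ q.1 (lo k f) q.2‖ₑ ^ p) atTop
            ∂((nu n α β).prod volume) := by
          refine lintegral_mono_ae ?_
          have hpos2 : ∀ᵐ q ∂((nu n α β).prod (volume : Measure (E n))), ∀ j, 0 < q.1 j :=
            Measure.quasiMeasurePreserving_fst.ae hpos
          filter_upwards [hpos2] with q hq
          have h1 : Tendsto (fun k : ℕ => ‖SS δ q.1 (lo k f) q.2‖ₑ ^ p) atTop
              (𝓝 (‖SS δ q.1 f q.2‖ₑ ^ p)) :=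
            ((ENNReal.continuous_rpow_const (y := p)).tendsto _).comp
              ((continuous_enorm.tendsto _).comp (SS_tendsto hδ hq hf hi' q.2))
          exact le_of_eq h1.liminf_eq.symm
      _ ≤ liminf (fun k : ℕ => ∫⁻ q : (Fin n → ℝ) × E n, ‖SS δ q.1 (lo k f) q.2‖ₑ ^ p
            ∂((nu n α β).prod volume)) atTop := lintegral_liminf_le hm
      _ ≤ liminf (fun _ : ℕ => C * ∫⁻ x, ‖f x‖ₑ ^ p) atTop := by
          refine liminf_le_liminf (Eventually.of_forall fun k => ?_)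
          rw [lintegral_prod _ (hm k).aemeasurable]
          refine (hB _ (lo_GB k hf hi' (by positivity))).trans ?_
          gcongr with x
          rw [← ofReal_norm, ← ofReal_norm]
          exact ENNReal.ofReal_le_ofReal (lo_le k f x)
      _ = _ := by simp
  refine ⟨C.toReal + 1, by positivity, fun f hf => ?_⟩
  have hf1 : Measurable (hf.1.mk f) := hf.1.stronglyMeasurable_mk.measurable
  have hf2 : f =ᵐ[volume] hf.1.mk f := hf.1.ae_eq_mk
  have hf3 : Integrable (hf.1.mk f) := hf.congr hf2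
  have e1 : 𝓕 f = 𝓕 (hf.1.mk f) := by
    ext ξ
    rw [Real.fourier_eq, Real.fourier_eq]
    refine integral_congr_ae ?_
    filter_upwards [hf2] with y hy
    rw [hy]
  have e2 : ∀ a x, SS δ a f x = SS δ a (hf.1.mk f) x := by
    intro a x
    unfold SS
    rw [e1]
  simp only [e2]
  refine (main _ hf1 hf3).trans (mul_le_mul' ?_ (le_of_eq ?_))
  · refine (le_of_eq (ENNReal.ofReal_toReal hC).symm).trans ?_
    exact ENNReal.ofReal_le_ofReal (by linarith)
  · refine lintegral_congr_ae ?_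
    filter_upwards [hf2] with y hy
    rw [hy]

end Pool.Agent.TH310.BZ
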