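import Mathlib
import Pool.Agent.TH310.BZ.Loc
set_option autoImplicit false

/-! The pointwise maximal bound over a dyadic block of radii. -/

namespace Pool.Agent.TH310.BZ

open Complex MeasureTheory Set Filter Topology
open scoped ENNReal FourierTransform ComplexConjugate RealInnerProductSpace

/-- profile -/
noncomputable def N2 (δ w : ℝ) : ℝ := if 0 < w then w ^ δ * Real.exp (-(2 * Real.pi) * w) else 0

lemma N2_nonneg (δ w : ℝ) : 0 ≤ N2 δ w := by
  unfold N2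
  split_ifs with h
  · positivity
  · exact le_rfl

lemma N2_eq (δ : ℝ) : N2 δ = (Ioi (0 : ℝ)).indicator fun w => w ^ δ * Real.exp (-(2 * Real.pi) * w) := by
  ext w
  unfold N2
  by_cases h : 0 < w
  · rw [if_pos h, indicator_of_mem (by exact h)]
  · rw [if_neg h, indicator_of_notMem (by exact h)]

lemma N2_meas (δ : ℝ) : Measurable (N2 δ) := by
  rw [N2_eq]
  refine Measurable.indicator ?_ measurableSet_Ioi
  fun_prop

lemma N2_int {δ : ℝ} (hδ : 0 ≤ δ) : Integrable (N2 δ) := by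
  rw [N2_eq, integrable_indicator_iff measurableSet_Ioi]
  exact rp_int hδ (mul_pos two_pos Real.pi_pos)

lemma N2_cont {δ w : ℝ} (hw : w ≠ 0) : ContinuousAt (N2 δ) w := by
  rcases lt_or_gt_of_ne hw with h | h
  · have : N2 δ =ᶠ[𝓝 w] fun _ => 0 := by
      filter_upwards [Iio_mem_nhds h] with u hu
      unfold N2
      rw [if_neg (not_lt.2 (le_of_lt hu))]
    exact continuousAt_const.congr this.symm
  · have : N2 δ =ᶠ[𝓝 w] fun w => w ^ δ * Real.exp (-(2 * Real.pi) * w) := by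
      filter_upwards [Ioi_mem_nhds h] with u hu
      unfold N2
      rw [if_pos (show (0:ℝ) < u from hu)]
    refine ContinuousAt.congr ?_ this.symm
    refine ContinuousAt.mul ?_ (by fun_prop)
    exact Real.continuousAt_rpow_const _ _ (Or.inl hw)

/-- bound of the profile, for `0 < w ≤ T` -/
lemma N2_bd {δ : ℝ} (hδ : 0 ≤ δ) {w T : ℝ} (hw : w ≤ T) (hT : 0 ≤ T) : N2 δ w ≤ T ^ δ := by
  unfold N2
  split_ifs with h
  · calc w ^ δ * Real.exp (-(2 * Real.pi) * w) ≤ w ^ δ * 1 := by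
          apply mul_le_mul_of_nonneg_left _ (by positivity)
          rw [Real.exp_le_one_iff]
          nlinarith [mul_pos (mul_pos two_pos Real.pi_pos) h]
      _ ≤ T ^ δ := by
          rw [mul_one]
          exact Real.rpow_le_rpow h.le hw hδ
  · positivity

lemma N2_fourier (δ A t : ℝ) :
    ∫ v : ℝ, cexp (((-2 * Real.pi * (v * t) : ℝ) : ℂ) * I) * ((N2 δ (v - A) : ℝ) : ℂ) =
      cexp (((-2 * Real.pi * (A * t) : ℝ) : ℂ) * I) * lap δ (2 * Real.pi * (1 + t * I)) := by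
  rw [← integral_add_right_eq_self _ A]
  unfold lap
  rw [← integral_indicator measurableSet_Ioi, ← integral_const_mul]
  congr 1
  ext w
  rw [add_sub_cancel_right]
  by_cases h : 0 < w
  · rw [indicator_of_mem (by exact h)]
    unfold N2
    rw [if_pos h]
    have e0 : ((w ^ δ * Real.exp (-(2 * Real.pi) * w) : ℝ) : ℂ) =
        ((w ^ δ : ℝ) : ℂ) * cexp ((-(2 * Real.pi) * w : ℝ) : ℂ) := by
      rw [Complex.ofReal_mul, Complex.ofReal_exp]
    rw [e0]
    have e : cexp (((-2 * Real.pi * ((w + A) * t) : ℝ) : ℂ) * I) * cexp ((-(2 * Real.pi) * w : ℝ) : ℂ) =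
        cexp (((-2 * Real.pi * (A * t) : ℝ) : ℂ) * I) *
          cexp (-(2 * (Real.pi : ℂ) * (1 + t * I)) * w) := by
      rw [← Complex.exp_add, ← Complex.exp_add]
      congr 1
      push_cast
      ring
    linear_combination ((w ^ δ : ℝ) : ℂ) * e
  · rw [indicator_of_notMem (by exact h)]
    unfold N2
    rw [if_neg h]
    simp


lemma lap_bd2 {δ : ℝ} (hδ : 0 ≤ δ) (t : ℝ) :
    ‖lap δ (2 * Real.pi * (1 + t * I))‖ ≤ Real.Gamma (δ + 1) * (1 + |t|) ^ (-(1 + δ)) := by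
  have hre : 0 < (2 * (Real.pi : ℂ) * (1 + t * I)).re := by
    rw [show (2 * (Real.pi : ℂ)) = ((2 * Real.pi : ℝ) : ℂ) by push_cast; ring,
      Complex.re_ofReal_mul]
    simp [Real.pi_pos]
  rw [lap_eq hδ hre, norm_mul, Complex.norm_real, Real.norm_of_nonneg
    (Real.Gamma_pos_of_pos (by linarith)).le]
  apply mul_le_mul_of_nonneg_left _ (Real.Gamma_pos_of_pos (by linarith)).le
  have h1 : ‖(2 * (Real.pi : ℂ) * (1 + t * I)) ^ (-((δ + 1 : ℝ) : ℂ))‖ =
      ‖2 * (Real.pi : ℂ) * (1 + t * I)‖ ^ (-(δ + 1)) := by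
    rw [← Complex.ofReal_neg]
    rw [Complex.norm_cpow_real]
  rw [h1]
  have h2 : 1 + |t| ≤ ‖2 * (Real.pi : ℂ) * (1 + t * I)‖ := by
    rw [norm_mul, show (2 * (Real.pi : ℂ)) = ((2 * Real.pi : ℝ) : ℂ) by push_cast; ring,
      Complex.norm_real, Real.norm_of_nonneg (by positivity)]
    have h3 : 1 ≤ ‖(1 + (t : ℂ) * I)‖ := by
      have := Complex.abs_re_le_norm (1 + (t : ℂ) * I)
      simpa using this
    have h4 : |t| ≤ ‖(1 + (t : ℂ) * I)‖ := by
      have := Complex.abs_im_le_norm (1 + (t : ℂ) * I)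
      simpa [abs_mul] using this
    have := Real.pi_gt_three
    nlinarith
  rw [show -(1 + δ) = -(δ + 1) by ring]
  exact Real.rpow_le_rpow_of_nonpos (by positivity) h2 (by linarith)

variable {n : ℕ}

/-- the function whose Fourier transform is computed -/
noncomputable def F2 (δ : ℝ) (b : Fin n → ℝ) (f : E n → ℂ) (x : E n) (v : ℝ) : ℂ :=
  ∫ ξ : E n, ((N2 δ (v - QF b ξ) : ℝ) : ℂ) * Gx b f x ξ

lemma F2_prod {δ : ℝ} (hδ : 0 ≤ δ) {b : Fin n → ℝ} (hb : ∀ j, 0 < b j) {f : E n → ℂ}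
    (hf : Integrable f) (x : E n) :
    Integrable (fun p : ℝ × E n => ((N2 δ (p.1 - QF b p.2) : ℝ) : ℂ) * Gx b f x p.2)
      (volume.prod volume) := by
  have hm : Measurable (fun p : ℝ × E n => ((N2 δ (p.1 - QF b p.2) : ℝ) : ℂ) * Gx b f x p.2) := by
    refine Measurable.mul (Complex.measurable_ofReal.comp ((N2_meas δ).comp
      (measurable_fst.sub ((QF_cont b).measurable.comp measurable_snd)))) ?_
    exact (Gx_cont hf x).measurable.comp measurable_snd
  rw [integrable_prod_iff' hm.aestronglyMeasurable]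
  constructor
  · refine ae_of_all _ fun ξ => ?_
    exact (((N2_int hδ).comp_sub_right (QF b ξ)).ofReal (𝕜 := ℂ)).mul_const (Gx b f x ξ)
  · have e : ∀ ξ : E n, ∫ v : ℝ, ‖((N2 δ (v - QF b ξ) : ℝ) : ℂ) * Gx b f x ξ‖ =
        (∫ v, N2 δ v) * ‖Gx b f x ξ‖ := by
      intro ξ
      have e1 : ∀ v : ℝ, ‖((N2 δ (v - QF b ξ) : ℝ) : ℂ) * Gx b f x ξ‖ =
          N2 δ (v - QF b ξ) * ‖Gx b f x ξ‖ := by
        intro v
        rw [norm_mul, Complex.norm_real, Real.norm_of_nonneg (N2_nonneg _ _)]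
      simp only [e1]
      rw [integral_mul_const, integral_sub_right_eq_self (fun v => N2 δ v) (QF b ξ)]
    simp only [e]
    exact (Gx_int hb hf x).norm.const_mul _

lemma F2_int {δ : ℝ} (hδ : 0 ≤ δ) {b : Fin n → ℝ} (hb : ∀ j, 0 < b j) {f : E n → ℂ}
    (hf : Integrable f) (x : E n) : Integrable (F2 δ b f x) :=
  (F2_prod hδ hb hf x).integral_prod_left

lemma F2_cont (hn : 1 ≤ n) {δ : ℝ} (hδ : 0 ≤ δ) {b : Fin n → ℝ} (hb : ∀ j, 0 < b j)
    {f : E n → ℂ} (hf : Integrable f) (x : E n) : Continuous (F2 δ b f x) := by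
  rw [continuous_iff_continuousAt]
  intro v₀
  unfold F2
  refine continuousAt_of_dominated (bound := fun ξ => (|v₀| + 1) ^ δ * ‖Gx b f x ξ‖) ?_ ?_ ?_ ?_
  · refine Eventually.of_forall fun v => ?_
    refine Measurable.aestronglyMeasurable ?_
    refine Measurable.mul (Complex.measurable_ofReal.comp ((N2_meas δ).comp
      (measurable_const.sub (QF_cont b).measurable))) (Gx_cont hf x).measurable
  · filter_upwards [Iio_mem_nhds (show v₀ < |v₀| + 1 by linarith [le_abs_self v₀])] with v hv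
    refine ae_of_all _ fun ξ => ?_
    rw [norm_mul, Complex.norm_real, Real.norm_of_nonneg (N2_nonneg _ _)]
    refine mul_le_mul_of_nonneg_right ?_ (norm_nonneg _)
    refine N2_bd hδ ?_ (by positivity)
    have := QF_nonneg hb ξ
    simp only [mem_Iio] at hv
    linarith
  · exact (Gx_int hb hf x).norm.const_mul _
  · have h0 := QF_null hn hb v₀
    rw [← compl_mem_ae_iff] at h0
    filter_upwards [h0] with ξ hξ
    have h1 : v₀ - QF b ξ ≠ 0 := by
      intro h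
      apply hξ
      rw [mem_setOf_eq]
      linarith
    refine ContinuousAt.mul ?_ continuousAt_const
    refine Complex.continuous_ofReal.continuousAt.comp ?_
    exact ContinuousAt.comp (f := fun v : ℝ => v - QF b ξ) (N2_cont h1) (by fun_prop)

lemma F2_fourier {δ : ℝ} (hδ : 0 ≤ δ) {b : Fin n → ℝ} (hb : ∀ j, 0 < b j) {f : E n → ℂ}
    (hf : GB f) (x : E n) (t : ℝ) :
    𝓕 (F2 δ b f x) t = lap δ (2 * Real.pi * (1 + t * I)) * cv (KK b t) f x := by
  rw [Real.fourier_eq']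
  have e0 : ∀ v : ℝ, cexp (((-2 * Real.pi * ⟪v, t⟫ : ℝ) : ℂ) * I) • F2 δ b f x v =
      ∫ ξ : E n, cexp (((-2 * Real.pi * (v * t) : ℝ) : ℂ) * I) *
        (((N2 δ (v - QF b ξ) : ℝ) : ℂ) * Gx b f x ξ) := by
    intro v
    unfold F2
    rw [smul_eq_mul, ← integral_const_mul]
    simp only [RCLike.inner_apply, conj_trivial]
    rw [mul_comm t v]
  rw [integral_congr_ae (ae_of_all _ e0)]
  have hi : Integrable (Function.uncurry fun (v : ℝ) (ξ : E n) =>
      cexp (((-2 * Real.pi * (v * t) : ℝ) : ℂ) * I) *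
        (((N2 δ (v - QF b ξ) : ℝ) : ℂ) * Gx b f x ξ)) (volume.prod volume) := by
    refine (F2_prod hδ hb hf.int x).bdd_mul (c := 1) ?_ (ae_of_all _ fun p => ?_)
    · have : Continuous fun p : ℝ × E n => cexp (((-2 * Real.pi * (p.1 * t) : ℝ) : ℂ) * I) := by
        fun_prop
      exact this.aestronglyMeasurable
    · rw [Complex.norm_exp_ofReal_mul_I]
  rw [integral_integral_swap hi, ← HH_eq hb t hf x, ← integral_const_mul]
  congr 1
  ext ξ
  have e1 : ∀ v : ℝ, cexp (((-2 * Real.pi * (v * t) : ℝ) : ℂ) * I) *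
        (((N2 δ (v - QF b ξ) : ℝ) : ℂ) * Gx b f x ξ) =
      (cexp (((-2 * Real.pi * (v * t) : ℝ) : ℂ) * I) * ((N2 δ (v - QF b ξ) : ℝ) : ℂ)) *
        Gx b f x ξ := fun v => by ring
  simp only [e1]
  rw [integral_mul_const, N2_fourier]
  unfold Gx
  have e2 : cexp (((-2 * Real.pi * (QF b ξ * t) : ℝ) : ℂ) * I) *
      cexp (-((Real.pi * QF b ξ : ℝ) : ℂ)) =
      cexp (-((Real.pi * QF b ξ : ℝ) : ℂ) * (1 + 2 * (t : ℂ) * I)) := by
    rw [← Complex.exp_add]
    congr 1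
    push_cast
    ring
  linear_combination (lap δ (2 * Real.pi * (1 + t * I)) * 𝓕 f ξ *
    cexp (((2 * Real.pi * ⟪x, ξ⟫ : ℝ) : ℂ) * I)) * e2


lemma h2_GB (hn : 1 ≤ n) {δ : ℝ} (hδ : 0 ≤ δ) {b : Fin n → ℝ} (hb : ∀ j, 0 < b j)
    {f : E n → ℂ} (hf : GB f) (x : E n) : Integrable (𝓕 (F2 δ b f x)) := by
  have hI := F2_int hδ hb hf.int x
  have hint : Integrable fun t : ℝ => (1 + ‖t‖) ^ (-(3 / 2) : ℝ) :=
    integrable_one_add_norm (by simp; norm_num)
  refine Integrable.mono' (hint.const_mul (Real.Gamma (δ + 1) * ((∫ y, ‖f y‖) * cb b)))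
    (meas_F hI).aestronglyMeasurable (ae_of_all _ fun t => ?_)
  rw [F2_fourier hδ hb hf, norm_mul, Real.norm_eq_abs]
  have hG : 0 < Real.Gamma (δ + 1) := Real.Gamma_pos_of_pos (by linarith)
  have h0 : (0 : ℝ) < 1 + |t| := by positivity
  have h1 : (1 + |t|) ^ (-(1 + δ)) ≤ (1 + |t|) ^ (-1 : ℝ) :=
    Real.rpow_le_rpow_of_exponent_le (by linarith [abs_nonneg t]) (by linarith)
  calc ‖lap δ (2 * Real.pi * (1 + t * I))‖ * ‖cv (KK b t) f x‖
      ≤ (Real.Gamma (δ + 1) * (1 + |t|) ^ (-(1 + δ))) *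
        ((∫ y, ‖f y‖) * (cb b * (1 + |t|) ^ (-(1 / 2) : ℝ))) :=
        mul_le_mul (lap_bd2 hδ t) (cv_decay hn hb t hf x) (norm_nonneg _) (by positivity)
    _ ≤ (Real.Gamma (δ + 1) * (1 + |t|) ^ (-1 : ℝ)) *
        ((∫ y, ‖f y‖) * (cb b * (1 + |t|) ^ (-(1 / 2) : ℝ))) := by
        have h2 : 0 ≤ ∫ y, ‖f y‖ := integral_nonneg fun _ => norm_nonneg _
        have h3 : 0 ≤ cb b := by
          unfold cb
          exact Finset.prod_nonneg fun j _ => by have := hb j; positivity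
        gcongr
    _ = _ := by
        rw [show (-(3 / 2) : ℝ) = (-1) + (-(1 / 2)) by ring, Real.rpow_add h0]
        ring

/-- the majorant -/
noncomputable def BM (δ : ℝ) (b : Fin n → ℝ) (g : E n → ℂ) (x : E n) : ℝ≥0∞ :=
  ∫⁻ t : ℝ, wt (-(1 + δ)) t * ‖cv (KK b t) g x‖ₑ

theorem F2_sup (hn : 1 ≤ n) {δ : ℝ} (hδ : 0 ≤ δ) {b : Fin n → ℝ} (hb : ∀ j, 0 < b j)
    {f : E n → ℂ} (hf : GB f) (x : E n) (v : ℝ) :
    ‖F2 δ b f x v‖ₑ ≤ ENNReal.ofReal (Real.Gamma (δ + 1)) * BM δ b f x := by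
  have hI := F2_int hδ hb hf.int x
  have hi := h2_GB hn hδ hb hf x
  have e : F2 δ b f x v = 𝓕⁻ (𝓕 (F2 δ b f x)) v := by
    rw [(F2_cont hn hδ hb hf.int x).fourierInv_fourier_eq hI hi]
  rw [e, Real.fourierInv_eq_fourier_neg, Real.fourier_eq]
  refine (enorm_integral_le_lintegral_enorm _).trans ?_
  unfold BM
  rw [← lintegral_const_mul' _ _ ENNReal.ofReal_ne_top]
  refine lintegral_mono fun t => ?_
  have e1 : ‖Real.fourierChar (-⟪t, -v⟫) • 𝓕 (F2 δ b f x) t‖ₑ = ‖𝓕 (F2 δ b f x) t‖ₑ := by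
    rw [← ofReal_norm, ← ofReal_norm, Circle.norm_smul]
  rw [e1, F2_fourier hδ hb hf, enorm_mul, ← mul_assoc]
  refine mul_le_mul_left ?_ _
  unfold wt
  rw [← ofReal_norm, ← ENNReal.ofReal_mul (Real.Gamma_pos_of_pos (by linarith)).le]
  exact ENNReal.ofReal_le_ofReal (lap_bd2 hδ t)

end Pool.Agent.TH310.BZ
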