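import Mathlib
import Pool.Agent.TH310.BZ.Max1
import Pool.Agent.TH310.BZ.Fin
set_option autoImplicit false

/-! Averaged bounds for the majorant. -/

namespace Pool.Agent.TH310.BZ

open Complex MeasureTheory Set Filter Topology
open scoped ENNReal FourierTransform ComplexConjugate RealInnerProductSpace

variable {n : ℕ}

lemma mult_norm {b : Fin n → ℝ} (t : ℝ) (ξ : E n) :
    ‖cexp (-((Real.pi * QF b ξ : ℝ) : ℂ) * (1 + 2 * (t : ℂ) * I))‖ =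
      Real.exp (-(Real.pi * QF b ξ)) := by
  rw [Complex.norm_exp]
  congr 1
  rw [← Complex.ofReal_neg, Complex.re_ofReal_mul]
  simp

lemma mult_GB {b : Fin n → ℝ} (hb : ∀ j, 0 < b j) (t : ℝ) {g : E n → ℂ} (hg : Integrable g) :
    GB fun ξ : E n => cexp (-((Real.pi * QF b ξ : ℝ) : ℂ) * (1 + 2 * (t : ℂ) * I)) * 𝓕 g ξ := by
  have hc : Continuous fun ξ : E n =>
      cexp (-((Real.pi * QF b ξ : ℝ) : ℂ) * (1 + 2 * (t : ℂ) * I)) := by
    have := QF_cont b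
    fun_prop
  have hm : Measurable fun ξ : E n =>
      cexp (-((Real.pi * QF b ξ : ℝ) : ℂ) * (1 + 2 * (t : ℂ) * I)) * 𝓕 g ξ :=
    hc.measurable.mul (meas_F hg)
  refine ⟨hm, ?_, ∫ y, ‖g y‖, fun ξ => ?_⟩
  · refine Integrable.mono' ((gauss_int hb).mul_const (∫ y, ‖g y‖)) hm.aestronglyMeasurable
      (ae_of_all _ fun ξ => ?_)
    rw [norm_mul, mult_norm]
    exact mul_le_mul_of_nonneg_left (F_bd ξ) (Real.exp_pos _).le
  · rw [norm_mul, mult_norm]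
    calc Real.exp (-(Real.pi * QF b ξ)) * ‖𝓕 g ξ‖ ≤ 1 * ∫ y, ‖g y‖ := by
          refine mul_le_mul ?_ (F_bd ξ) (norm_nonneg _) zero_le_one
          rw [Real.exp_le_one_iff]
          nlinarith [Real.pi_pos, QF_nonneg hb ξ]
      _ = _ := one_mul _

lemma cv_two {b : Fin n → ℝ} (hb : ∀ j, 0 < b j) (t : ℝ) {g : E n → ℂ} (hg : GB g) :
    ∫⁻ x, ‖cv (KK b t) g x‖ₑ ^ 2 ≤ ∫⁻ x, ‖g x‖ₑ ^ 2 := by
  have hG := mult_GB hb t hg.int
  have e : ∀ x, cv (KK b t) g x = 𝓕 (fun ξ : E n =>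
      cexp (-((Real.pi * QF b ξ : ℝ) : ℂ) * (1 + 2 * (t : ℂ) * I)) * 𝓕 g ξ) (-x) := by
    intro x
    rw [← HH_eq hb t hg x, Real.fourier_eq']
    congr 1
    ext ξ
    rw [smul_eq_mul, mul_comm]
    congr 2
    rw [inner_neg_right, real_inner_comm]
    push_cast
    ring
  simp only [e]
  rw [lintegral_neg_eq_self (fun x => ‖𝓕 (fun ξ : E n =>
      cexp (-((Real.pi * QF b ξ : ℝ) : ℂ) * (1 + 2 * (t : ℂ) * I)) * 𝓕 g ξ) x‖ₑ ^ 2),
    Pool.Agent.H153R4.plancherel _ hG.int hG.memLp, ← Pool.Agent.H153R4.plancherel _ hg.int hg.memLp]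
  refine lintegral_mono fun ξ => ?_
  rw [enorm_mul]
  have h1 : ‖cexp (-((Real.pi * QF b ξ : ℝ) : ℂ) * (1 + 2 * (t : ℂ) * I))‖ₑ ≤ 1 := by
    rw [← ofReal_norm, mult_norm]
    apply ENNReal.ofReal_le_one.2
    rw [Real.exp_le_one_iff]
    nlinarith [Real.pi_pos, QF_nonneg hb ξ]
  calc (‖cexp (-((Real.pi * QF b ξ : ℝ) : ℂ) * (1 + 2 * (t : ℂ) * I))‖ₑ * ‖𝓕 g ξ‖ₑ) ^ 2
      ≤ (1 * ‖𝓕 g ξ‖ₑ) ^ 2 := by gcongr
    _ = _ := by rw [one_mul]

lemma cv_m3 {g : E n → ℂ} (hg : Measurable g) :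
    Measurable fun p : ((Fin n → ℝ) × E n) × ℝ => ‖cv (KK p.1.1 p.2) g p.1.2‖ₑ := by
  have h3 : Measurable fun p : ((Fin n → ℝ) × E n) × ℝ => ((p.1.1, p.2), p.1.2) :=
    ((measurable_fst.comp measurable_fst).prodMk measurable_snd).prodMk
      (measurable_snd.comp measurable_fst)
  exact ((cv_meas3 hg).comp h3).enorm

lemma cv_m2 {g : E n → ℂ} (hg : Measurable g) (b : Fin n → ℝ) :
    Measurable fun p : E n × ℝ => ‖cv (KK b p.2) g p.1‖ₑ := by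
  have h3 : Measurable fun p : E n × ℝ => ((b, p.2), p.1) :=
    (measurable_const.prodMk measurable_snd).prodMk measurable_fst
  exact ((cv_meas3 hg).comp h3).enorm

lemma cv_m1 {g : E n → ℂ} (hg : Measurable g) (b : Fin n → ℝ) (x : E n) :
    Measurable fun t : ℝ => ‖cv (KK b t) g x‖ₑ := by
  have h3 : Measurable fun t : ℝ => ((b, t), x) :=
    (measurable_const.prodMk measurable_id).prodMk measurable_const
  exact ((cv_meas3 hg).comp h3).enorm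

lemma BM_meas (δ : ℝ) {g : E n → ℂ} (hg : Measurable g) :
    Measurable fun p : (Fin n → ℝ) × E n => BM δ p.1 g p.2 := by
  unfold BM
  have h : Measurable fun q : ((Fin n → ℝ) × E n) × ℝ =>
      wt (-(1 + δ)) q.2 * ‖cv (KK q.1.1 q.2) g q.1.2‖ₑ :=
    ((wt_meas _).comp measurable_snd).mul (cv_m3 hg)
  exact h.lintegral_prod_right'

lemma BM_sq (δ : ℝ) {g : E n → ℂ} (hg : Measurable g) (b : Fin n → ℝ) (x : E n) :
    BM δ b g x ^ 2 ≤ (∫⁻ t, wt (-(1 + δ)) t) *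
      ∫⁻ t, wt (-(1 + δ)) t * ‖cv (KK b t) g x‖ₑ ^ 2 :=
  cs_le (wt_meas _) (cv_m1 hg b x)

lemma BM_pow4 (δ : ℝ) {g : E n → ℂ} (hg : Measurable g) (b : Fin n → ℝ) (x : E n) :
    BM δ b g x ^ 4 ≤ (∫⁻ t, wt (-(1 + δ)) t) ^ 3 *
      ∫⁻ t, wt (-(1 + δ)) t * ‖cv (KK b t) g x‖ₑ ^ 4 := by
  have h1 := BM_sq δ hg b x
  have h2 : (∫⁻ t, wt (-(1 + δ)) t * ‖cv (KK b t) g x‖ₑ ^ 2) ^ 2 ≤
      (∫⁻ t, wt (-(1 + δ)) t) * ∫⁻ t, wt (-(1 + δ)) t * (‖cv (KK b t) g x‖ₑ ^ 2) ^ 2 :=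
    cs_le (wt_meas _) ((cv_m1 hg b x).pow_const 2)
  have e : ∀ t, (‖cv (KK b t) g x‖ₑ ^ 2) ^ 2 = ‖cv (KK b t) g x‖ₑ ^ 4 := fun t => by
    rw [← pow_mul]
  simp only [e] at h2
  calc BM δ b g x ^ 4 = (BM δ b g x ^ 2) ^ 2 := by rw [← pow_mul]
    _ ≤ ((∫⁻ t, wt (-(1 + δ)) t) * ∫⁻ t, wt (-(1 + δ)) t * ‖cv (KK b t) g x‖ₑ ^ 2) ^ 2 := by
        gcongr
    _ = (∫⁻ t, wt (-(1 + δ)) t) ^ 2 *
        (∫⁻ t, wt (-(1 + δ)) t * ‖cv (KK b t) g x‖ₑ ^ 2) ^ 2 := mul_pow _ _ _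
    _ ≤ (∫⁻ t, wt (-(1 + δ)) t) ^ 2 * ((∫⁻ t, wt (-(1 + δ)) t) *
        ∫⁻ t, wt (-(1 + δ)) t * ‖cv (KK b t) g x‖ₑ ^ 4) := mul_le_mul_right h2 _
    _ = _ := by
        rw [← mul_assoc, ← pow_succ]

theorem BM_two {δ : ℝ} {b : Fin n → ℝ} (hb : ∀ j, 0 < b j) {g : E n → ℂ} (hg : GB g) :
    ∫⁻ x, BM δ b g x ^ 2 ≤ (∫⁻ t, wt (-(1 + δ)) t) ^ 2 * ∫⁻ x, ‖g x‖ₑ ^ 2 := by
  have hm : Measurable fun p : E n × ℝ => wt (-(1 + δ)) p.2 * ‖cv (KK b p.2) g p.1‖ₑ ^ 2 :=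
    ((wt_meas _).comp measurable_snd).mul ((cv_m2 hg.meas b).pow_const 2)
  have hmx : Measurable fun x : E n =>
      ∫⁻ t, wt (-(1 + δ)) t * ‖cv (KK b t) g x‖ₑ ^ 2 := hm.lintegral_prod_right'
  have hmt : ∀ t : ℝ, Measurable fun x : E n => ‖cv (KK b t) g x‖ₑ ^ 2 := by
    intro t
    have h3 : Measurable fun x : E n => (x, t) := measurable_id.prodMk measurable_const
    exact ((cv_m2 hg.meas b).comp h3).pow_const 2
  calc ∫⁻ x, BM δ b g x ^ 2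
      ≤ ∫⁻ x, (∫⁻ t, wt (-(1 + δ)) t) * ∫⁻ t, wt (-(1 + δ)) t * ‖cv (KK b t) g x‖ₑ ^ 2 :=
        lintegral_mono fun x => BM_sq δ hg.meas b x
    _ = (∫⁻ t, wt (-(1 + δ)) t) * ∫⁻ x : E n, ∫⁻ t, wt (-(1 + δ)) t *
          ‖cv (KK b t) g x‖ₑ ^ 2 := lintegral_const_mul _ hmx
    _ = (∫⁻ t, wt (-(1 + δ)) t) * ∫⁻ t, ∫⁻ x : E n, wt (-(1 + δ)) t *
          ‖cv (KK b t) g x‖ₑ ^ 2 := by
        rw [lintegral_lintegral_swap (f := fun (x : E n) (t : ℝ) =>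
          wt (-(1 + δ)) t * ‖cv (KK b t) g x‖ₑ ^ 2) hm.aemeasurable]
    _ ≤ (∫⁻ t, wt (-(1 + δ)) t) * ∫⁻ t, wt (-(1 + δ)) t * ∫⁻ x : E n, ‖g x‖ₑ ^ 2 := by
        refine mul_le_mul_right (lintegral_mono fun t => ?_) _
        rw [lintegral_const_mul _ (hmt t)]
        exact mul_le_mul_right (cv_two hb t hg) _
    _ = _ := by
        rw [lintegral_mul_const _ (wt_meas _), sq, mul_assoc]

lemma pow_aux (δ η t : ℝ) (n : ℕ) (hη : 0 ≤ η) (h : 2 * η * n ≤ δ / 2) (C : ℝ)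
    (hC : 0 ≤ C) :
    wt (-(1 + δ)) t * ENNReal.ofReal (C * ((1 + t ^ 2) ^ η) ^ n) ≤
      wt (-(1 + δ / 2)) t * ENNReal.ofReal C := by
  unfold wt
  have h0 : (1 : ℝ) ≤ 1 + |t| := by linarith [abs_nonneg t]
  rw [← ENNReal.ofReal_mul (by positivity), ← ENNReal.ofReal_mul (by positivity)]
  apply ENNReal.ofReal_le_ofReal
  have h5 : 1 + t ^ 2 ≤ (1 + |t|) ^ 2 := by nlinarith [sq_abs t, abs_nonneg t]
  have h6 : ((1 + t ^ 2) ^ η) ^ n ≤ (1 + |t|) ^ (δ / 2) := by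
    rw [← Real.rpow_natCast, ← Real.rpow_mul (by positivity)]
    calc (1 + t ^ 2) ^ (η * n) ≤ ((1 + |t|) ^ 2) ^ (η * n) :=
          Real.rpow_le_rpow (by positivity) h5 (by positivity)
      _ = (1 + |t|) ^ (2 * η * n) := by
          rw [← Real.rpow_natCast, ← Real.rpow_mul (by positivity)]
          congr 1
          push_cast
          ring
      _ ≤ (1 + |t|) ^ (δ / 2) := Real.rpow_le_rpow_of_exponent_le h0 h
  calc (1 + |t|) ^ (-(1 + δ)) * (C * ((1 + t ^ 2) ^ η) ^ n)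
      ≤ (1 + |t|) ^ (-(1 + δ)) * (C * (1 + |t|) ^ (δ / 2)) := by gcongr
    _ = ((1 + |t|) ^ (-(1 + δ)) * (1 + |t|) ^ (δ / 2)) * C := by ring
    _ = _ := by
        rw [← Real.rpow_add (by linarith)]
        congr 2
        ring

theorem BM_four (n : ℕ) (α γ δ : ℝ) (hα : 0 < α) (hαγ : α ≤ γ) (hδ : 0 < δ) :
    ∃ C : ℝ≥0∞, C ≠ ⊤ ∧ ∀ g : E n → ℂ, GB g →
      ∫⁻ b, ∫⁻ x, BM δ b g x ^ 4 ∂volume ∂(nu n α γ) ≤ C * ∫⁻ x, ‖g x‖ₑ ^ 4 := by
  obtain ⟨η, hη⟩ : ∃ η, η = min 1 (δ / (4 * (n + 1))) := ⟨_, rfl⟩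
  have hη0 : 0 < η := by rw [hη]; positivity
  have hη1 : η ≤ 1 := by rw [hη]; exact min_le_left _ _
  have hη2 : 2 * η * n ≤ δ / 2 := by
    have h1 : η ≤ δ / (4 * (n + 1)) := by rw [hη]; exact min_le_right _ _
    have h2 : (0 : ℝ) < 4 * (n + 1) := by positivity
    rw [le_div_iff₀ h2] at h1
    nlinarith
  obtain ⟨C, hC, hcore⟩ := core4 n α γ η hα hαγ hη0 hη1
  obtain ⟨W, hW⟩ : ∃ W, W = ∫⁻ t, wt (-(1 + δ)) t := ⟨_, rfl⟩
  have hWt : W ≠ ⊤ := by rw [hW]; exact (wt_fin (by linarith)).ne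
  have hW2 : ∫⁻ t, wt (-(1 + δ / 2)) t < ⊤ := wt_fin (by linarith)
  refine ⟨W ^ 3 * ((∫⁻ t, wt (-(1 + δ / 2)) t) * ENNReal.ofReal C),
    ENNReal.mul_ne_top (ENNReal.pow_ne_top hWt) (ENNReal.mul_ne_top hW2.ne
      ENNReal.ofReal_ne_top), fun g hg => ?_⟩
  have hm : Measurable fun p : ((Fin n → ℝ) × E n) × ℝ =>
      wt (-(1 + δ)) p.2 * ‖cv (KK p.1.1 p.2) g p.1.2‖ₑ ^ 4 :=
    ((wt_meas _).comp measurable_snd).mul ((cv_m3 hg.meas).pow_const 4)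
  have hm2 : Measurable fun p : (Fin n → ℝ) × E n =>
      ∫⁻ t, wt (-(1 + δ)) t * ‖cv (KK p.1 t) g p.2‖ₑ ^ 4 := hm.lintegral_prod_right'
  have hmx : ∀ b : Fin n → ℝ, Measurable fun x : E n =>
      ∫⁻ t, wt (-(1 + δ)) t * ‖cv (KK b t) g x‖ₑ ^ 4 := by
    intro b
    have h1 : Measurable fun p : E n × ℝ => wt (-(1 + δ)) p.2 * ‖cv (KK b p.2) g p.1‖ₑ ^ 4 :=
      ((wt_meas _).comp measurable_snd).mul ((cv_m2 hg.meas b).pow_const 4)
    exact h1.lintegral_prod_right'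
  have hmb : Measurable fun b : Fin n → ℝ => ∫⁻ x : E n,
      ∫⁻ t, wt (-(1 + δ)) t * ‖cv (KK b t) g x‖ₑ ^ 4 := hm2.lintegral_prod_right'
  calc ∫⁻ b, ∫⁻ x, BM δ b g x ^ 4 ∂volume ∂(nu n α γ)
      ≤ ∫⁻ b, ∫⁻ x : E n, W ^ 3 * ∫⁻ t, wt (-(1 + δ)) t * ‖cv (KK b t) g x‖ₑ ^ 4
          ∂volume ∂volume ∂(nu n α γ) := by
        refine lintegral_mono fun b => lintegral_mono fun x => ?_
        rw [hW]
        exact BM_pow4 δ hg.meas b x
    _ = W ^ 3 * ∫⁻ b, ∫⁻ x : E n, ∫⁻ t, wt (-(1 + δ)) t * ‖cv (KK b t) g x‖ₑ ^ 4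
          ∂volume ∂volume ∂(nu n α γ) := by
        rw [← lintegral_const_mul _ hmb]
        refine lintegral_congr fun b => ?_
        rw [lintegral_const_mul _ (hmx b)]
    _ = W ^ 3 * ∫⁻ t, ∫⁻ b, ∫⁻ x : E n, wt (-(1 + δ)) t * ‖cv (KK b t) g x‖ₑ ^ 4
          ∂volume ∂(nu n α γ) := by
        congr 1
        have e1 : ∀ b : Fin n → ℝ, ∫⁻ x : E n, ∫⁻ t, wt (-(1 + δ)) t *
            ‖cv (KK b t) g x‖ₑ ^ 4 =
            ∫⁻ t, ∫⁻ x : E n, wt (-(1 + δ)) t * ‖cv (KK b t) g x‖ₑ ^ 4 := by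
          intro b
          have h1 : Measurable fun p : E n × ℝ =>
              wt (-(1 + δ)) p.2 * ‖cv (KK b p.2) g p.1‖ₑ ^ 4 :=
            ((wt_meas _).comp measurable_snd).mul ((cv_m2 hg.meas b).pow_const 4)
          exact lintegral_lintegral_swap (f := fun (x : E n) (t : ℝ) =>
            wt (-(1 + δ)) t * ‖cv (KK b t) g x‖ₑ ^ 4) h1.aemeasurable
        simp only [e1]
        have h2 : Measurable fun p : ((Fin n → ℝ) × ℝ) × E n =>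
            wt (-(1 + δ)) p.1.2 * ‖cv (KK p.1.1 p.1.2) g p.2‖ₑ ^ 4 :=
          ((wt_meas _).comp (measurable_snd.comp measurable_fst)).mul
            ((cv_meas3 hg.meas).enorm.pow_const 4)
        exact lintegral_lintegral_swap (f := fun (b : Fin n → ℝ) (t : ℝ) =>
            ∫⁻ x : E n, wt (-(1 + δ)) t * ‖cv (KK b t) g x‖ₑ ^ 4)
            h2.lintegral_prod_right'.aemeasurable
    _ ≤ W ^ 3 * ∫⁻ t, wt (-(1 + δ / 2)) t * (ENNReal.ofReal C * ∫⁻ x, ‖g x‖ₑ ^ 4) := by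
        refine mul_le_mul_right (lintegral_mono fun t => ?_) _
        have hmbx : Measurable fun b : Fin n → ℝ => ∫⁻ x : E n, ‖cv (KK b t) g x‖ₑ ^ 4 :=
          (cv_meas_bx hg.meas t).lintegral_prod_right'
        have e2 : ∫⁻ b, ∫⁻ x : E n, wt (-(1 + δ)) t * ‖cv (KK b t) g x‖ₑ ^ 4
            ∂volume ∂(nu n α γ) =
            wt (-(1 + δ)) t * ∫⁻ b, ∫⁻ x : E n, ‖cv (KK b t) g x‖ₑ ^ 4
              ∂volume ∂(nu n α γ) := by
          rw [← lintegral_const_mul _ hmbx]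
          refine lintegral_congr fun b => ?_
          rw [lintegral_const_mul _ (cv_meas_x hg.meas b t)]
        rw [e2]
        refine (mul_le_mul_right (hcore t g hg) _).trans ?_
        rw [← mul_assoc, ← mul_assoc]
        exact mul_le_mul_left (pow_aux δ η t n hη0.le hη2 C hC.le) _
    _ = _ := by
        rw [lintegral_mul_const _ (wt_meas _)]
        simp only [mul_assoc]

lemma cv_add {K g₁ g₂ : E n → ℂ} (hK : GB K) (h1 : GB g₁) (h2 : GB g₂) (x : E n) :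
    cv K (fun y => g₁ y + g₂ y) x = cv K g₁ x + cv K g₂ x := by
  obtain ⟨M, hM⟩ := hK.bd
  have hi : ∀ {g : E n → ℂ}, GB g → Integrable fun y => g y * K (x - y) := by
    intro g hg
    refine hg.int.mul_bdd (c := M) ?_ (ae_of_all _ fun y => hM _)
    exact (hK.meas.comp (measurable_const.sub measurable_id)).aestronglyMeasurable
  unfold cv
  rw [← integral_add (hi h1) (hi h2)]
  congr 1
  ext y
  ring

lemma BM_add (δ : ℝ) {b : Fin n → ℝ} (hb : ∀ j, 0 < b j) {g₁ g₂ : E n → ℂ} (h1 : GB g₁)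
    (h2 : GB g₂) (x : E n) :
    BM δ b (fun y => g₁ y + g₂ y) x ≤ BM δ b g₁ x + BM δ b g₂ x := by
  have hm : Measurable fun t : ℝ => wt (-(1 + δ)) t * ‖cv (KK b t) g₁ x‖ₑ :=
    (wt_meas _).mul (cv_m1 h1.meas b x)
  unfold BM
  rw [← lintegral_add_left hm]
  refine lintegral_mono fun t => ?_
  rw [cv_add (KK_GB hb t) h1 h2, ← mul_add]
  exact mul_le_mul_right (enorm_add_le _ _) _

lemma BM_lt_top (hn : 1 ≤ n) {δ : ℝ} (hδ : 0 < δ) {b : Fin n → ℝ} (hb : ∀ j, 0 < b j)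
    {g : E n → ℂ} (hg : GB g) (x : E n) : BM δ b g x < ⊤ := by
  unfold BM
  have h1 : ∀ t, wt (-(1 + δ)) t * ‖cv (KK b t) g x‖ₑ ≤
      wt (-(1 + δ)) t * ENNReal.ofReal ((∫ y, ‖g y‖) * cb b) := by
    intro t
    refine mul_le_mul_right ?_ _
    rw [← ofReal_norm]
    apply ENNReal.ofReal_le_ofReal
    refine (cv_decay hn hb t hg x).trans ?_
    have h2 : 0 ≤ ∫ y, ‖g y‖ := integral_nonneg fun _ => norm_nonneg _
    have h3 : 0 ≤ cb b := by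
      unfold cb
      exact Finset.prod_nonneg fun j _ => by have := hb j; positivity
    have h4 : (1 + |t|) ^ (-(1 / 2) : ℝ) ≤ 1 :=
      Real.rpow_le_one_of_one_le_of_nonpos (by linarith [abs_nonneg t]) (by norm_num)
    refine mul_le_mul_of_nonneg_left ?_ h2
    calc cb b * (1 + |t|) ^ (-(1 / 2) : ℝ) ≤ cb b * 1 := mul_le_mul_of_nonneg_left h4 h3
      _ = _ := mul_one _
  refine (lintegral_mono h1).trans_lt ?_
  rw [lintegral_mul_const _ (wt_meas _)]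
  exact ENNReal.mul_lt_top (wt_fin (by linarith)) ENNReal.ofReal_lt_top

/-- the bound for the majorant -/
theorem BM_p (n : ℕ) (hn : 1 ≤ n) (α γ δ p : ℝ) (hα : 0 < α) (hαγ : α ≤ γ) (hδ : 0 < δ)
    (hp : 2 ≤ p) (hp4 : p ≤ 4) :
    ∃ C : ℝ≥0∞, C ≠ ⊤ ∧ ∀ g : E n → ℂ, GB g →
      ∫⁻ b, ∫⁻ x, BM δ b g x ^ p ∂volume ∂(nu n α γ) ≤ C * ∫⁻ x, ‖g x‖ₑ ^ p := by
  have hpos : ∀ᵐ a ∂(nu n α γ), ∀ j, 0 < a j := by
    filter_upwards [nu_ae n α γ] with a ha j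
    exact lt_of_lt_of_le hα (ha j).1
  obtain ⟨W, hW⟩ : ∃ W, W = ∫⁻ t, wt (-(1 + δ)) t := ⟨_, rfl⟩
  have hWt : W ≠ ⊤ := by rw [hW]; exact (wt_fin (by linarith)).ne
  have htwo : ∀ f : E n → ℂ, GB f →
      ∫⁻ a, ∫⁻ x, BM δ a f x ^ 2 ∂volume ∂(nu n α γ) ≤
        (W ^ 2 * nu n α γ univ) * ∫⁻ x, ‖f x‖ₑ ^ 2 := by
    intro f hf
    calc ∫⁻ a, ∫⁻ x, BM δ a f x ^ 2 ∂volume ∂(nu n α γ)
        ≤ ∫⁻ _, W ^ 2 * ∫⁻ x, ‖f x‖ₑ ^ 2 ∂volume ∂(nu n α γ) := by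
          refine lintegral_mono_ae ?_
          filter_upwards [hpos] with a ha
          rw [hW]
          exact BM_two ha hf
      _ = _ := by
          rw [lintegral_const]
          ring
  obtain ⟨C4, hC4, h4⟩ := BM_four n α γ δ hα hαγ hδ
  have hC2 : W ^ 2 * nu n α γ univ ≠ ⊤ :=
    ENNReal.mul_ne_top (ENNReal.pow_ne_top hWt) (measure_ne_top _ _)
  rcases hp.eq_or_lt with rfl | hp
  · refine ⟨W ^ 2 * nu n α γ univ, hC2, fun f hf => ?_⟩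
    have := htwo f hf
    simpa only [← ENNReal.rpow_natCast, Nat.cast_ofNat] using this
  rcases hp4.eq_or_lt with rfl | hp4
  · refine ⟨C4, hC4, fun f hf => ?_⟩
    have := h4 f hf
    simpa only [← ENNReal.rpow_natCast, Nat.cast_ofNat] using this
  obtain ⟨C, hC, hM⟩ := Pool.Agent.H438R2.RZ.marc24 p hp hp4
  obtain ⟨M2, hM2⟩ : ∃ M, M = (W ^ 2 * nu n α γ univ).toReal + 1 := ⟨_, rfl⟩
  obtain ⟨M4, hM4⟩ : ∃ M, M = C4.toReal + 1 := ⟨_, rfl⟩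
  have hM2' : W ^ 2 * nu n α γ univ ≤ ENNReal.ofReal M2 := by
    rw [hM2]
    refine (le_of_eq (ENNReal.ofReal_toReal hC2).symm).trans ?_
    exact ENNReal.ofReal_le_ofReal (by linarith)
  have hM4' : C4 ≤ ENNReal.ofReal M4 := by
    rw [hM4]
    refine (le_of_eq (ENNReal.ofReal_toReal hC4).symm).trans ?_
    exact ENNReal.ofReal_le_ofReal (by linarith)
  have hM2p : 0 < M2 := by rw [hM2]; positivity
  have hM4p : 0 < M4 := by rw [hM4]; positivity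
  refine ⟨ENNReal.ofReal (C * M2 ^ ((4 - p) / 2) * M4 ^ ((p - 2) / 2)), ENNReal.ofReal_ne_top,
    fun f hf => ?_⟩
  have hSm : Measurable fun q : (Fin n → ℝ) × E n => (BM δ q.1 f q.2).toReal :=
    (BM_meas δ hf.meas).ennreal_toReal
  have hpos2 : ∀ᵐ q ∂((nu n α γ).prod (volume : Measure (E n))), ∀ j, 0 < q.1 j :=
    Measure.quasiMeasurePreserving_fst.ae hpos
  have key := hM (X := E n) (Y := (Fin n → ℝ) × E n) volume ((nu n α γ).prod volume)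
    (fun q => (BM δ q.1 f q.2).toReal) (fun x => ‖f x‖) hSm hf.meas.norm
    (fun _ => ENNReal.toReal_nonneg)
    (fun _ => norm_nonneg _) M2 M4 hM2p hM4p ?_
  · have e : ∫⁻ q : (Fin n → ℝ) × E n, ENNReal.ofReal (BM δ q.1 f q.2).toReal ^ p
        ∂((nu n α γ).prod volume) =
        ∫⁻ q : (Fin n → ℝ) × E n, BM δ q.1 f q.2 ^ p ∂((nu n α γ).prod volume) := by
      refine lintegral_congr_ae ?_
      filter_upwards [hpos2] with q hq
      rw [ENNReal.ofReal_toReal (BM_lt_top hn hδ hq hf q.2).ne]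
    rw [e, lintegral_prod _ ((BM_meas δ hf.meas).pow_const p).aemeasurable] at key
    simpa only [ofReal_norm] using key
  · intro t ht
    have hlo := lo_GB t hf.meas hf.int ht.le
    have hhi := hi_GB t hf
    have hmu : Measurable fun q : (Fin n → ℝ) × E n => BM δ q.1 (hi t f) q.2 :=
      BM_meas δ hhi.meas
    have hmv : Measurable fun q : (Fin n → ℝ) × E n => BM δ q.1 (lo t f) q.2 :=
      BM_meas δ hlo.meas
    refine ⟨fun q => BM δ q.1 (hi t f) q.2, fun q => BM δ q.1 (lo t f) q.2, hmu, hmv,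
      ?_, ?_, ?_⟩
    · filter_upwards [hpos2] with q hq
      rw [ENNReal.ofReal_toReal (BM_lt_top hn hδ hq hf q.2).ne]
      have e : BM δ q.1 f q.2 = BM δ q.1 (fun y => hi t f y + lo t f y) q.2 := by
        congr 1
        ext y
        exact hi_add_lo t f y
      rw [e]
      exact BM_add δ hq hhi hlo q.2
    · rw [lintegral_prod _ (hmu.pow_const 2).aemeasurable]
      refine (htwo _ hhi).trans (mul_le_mul' hM2' (le_of_eq ?_))
      rw [← lintegral_indicator (measurableSet_lt measurable_const hf.meas.norm)]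
      refine lintegral_congr fun x => ?_
      unfold hi
      by_cases h : t < ‖f x‖
      · rw [if_pos h, indicator_of_mem (by exact h), ofReal_norm]
      · rw [if_neg h, indicator_of_notMem (by exact h)]
        simp
    · rw [lintegral_prod _ (hmv.pow_const 4).aemeasurable]
      refine (h4 _ hlo).trans (mul_le_mul' hM4' (le_of_eq ?_))
      rw [← lintegral_indicator (measurableSet_le hf.meas.norm measurable_const)]
      refine lintegral_congr fun x => ?_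
      unfold lo
      by_cases h : ‖f x‖ ≤ t
      · rw [if_pos h, indicator_of_mem (by exact h), ofReal_norm]
      · rw [if_neg h, indicator_of_notMem (by exact h)]
        simp

end Pool.Agent.TH310.BZ
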