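import Mathlib
import Pool.Agent.TH310.BZ.Max2
set_option autoImplicit false

/-! Kernels of `ξ_j ^ 2 exp (- π |ξ| ^ 2)`. -/

namespace Pool.Agent.TH310.BZ

open Complex MeasureTheory Set Filter Topology
open scoped ENNReal FourierTransform ComplexConjugate RealInnerProductSpace

/-- Gaussian -/
noncomputable def g1 (x : ℝ) : ℝ := Real.exp (-Real.pi * x ^ 2)

/-- the kernel of `ξ ^ 2 exp (- π ξ ^ 2)` -/
noncomputable def g2 (x : ℝ) : ℝ := (1 / (2 * Real.pi) - x ^ 2) * Real.exp (-Real.pi * x ^ 2)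

lemma g1_fourier (ξ : ℝ) : 𝓕 (fun x : ℝ => ((g1 x : ℝ) : ℂ)) ξ = ((g1 ξ : ℝ) : ℂ) := by
  have h := fourier_gaussian_pi (b := 1) (by simp)
  have h2 := congrFun h ξ
  have e : (fun x : ℝ => ((g1 x : ℝ) : ℂ)) = fun x : ℝ => cexp (-Real.pi * 1 * (x : ℂ) ^ 2) := by
    ext x
    unfold g1
    push_cast
    congr 1
    ring
  rw [e, h2]
  unfold g1
  push_cast
  simp

lemma g1_hasDeriv (x : ℝ) : HasDerivAt g1 (-2 * Real.pi * x * g1 x) x := by
  have h1 : HasDerivAt (fun x : ℝ => -Real.pi * x ^ 2) (-Real.pi * (2 * x)) x := by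
    have := (hasDerivAt_pow 2 x).const_mul (-Real.pi)
    refine this.congr_deriv ?_
    simp
  have h2 := h1.exp
  refine h2.congr_deriv ?_
  unfold g1
  ring

lemma g1_int : Integrable g1 := integrable_exp_neg_mul_sq Real.pi_pos

lemma xg1_int : Integrable fun x : ℝ => x * g1 x := by
  have := integrable_rpow_mul_exp_neg_mul_sq Real.pi_pos (s := 1) (by norm_num)
  simpa [g1] using this

lemma x2g1_int : Integrable fun x : ℝ => x ^ 2 * g1 x := by
  have := integrable_rpow_mul_exp_neg_mul_sq Real.pi_pos (s := 2) (by norm_num)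
  simpa [g1] using this

lemma g2_eq (x : ℝ) : g2 x = 1 / (2 * Real.pi) * g1 x - x ^ 2 * g1 x := by
  unfold g2 g1
  ring

lemma g2_int : Integrable g2 := by
  have h : g2 = fun x => 1 / (2 * Real.pi) * g1 x - x ^ 2 * g1 x := by
    ext x; exact g2_eq x
  rw [h]
  exact (g1_int.const_mul _).sub x2g1_int

lemma g1_cont : Continuous g1 := by unfold g1; fun_prop
lemma g2_cont : Continuous g2 := by unfold g2; fun_prop

lemma F_const_mul (c : ℂ) (h : ℝ → ℂ) (ξ : ℝ) : 𝓕 (fun x => c * h x) ξ = c * 𝓕 h ξ := by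
  rw [Real.fourier_eq', Real.fourier_eq', ← integral_const_mul]
  congr 1
  ext x
  rw [smul_eq_mul, smul_eq_mul]
  ring

lemma g2_fourier (ξ : ℝ) :
    𝓕 (fun x : ℝ => ((g2 x : ℝ) : ℂ)) ξ = ((ξ ^ 2 * g1 ξ : ℝ) : ℂ) := by
  obtain ⟨G, hG⟩ : ∃ G : ℝ → ℂ, G = fun x : ℝ => ((g1 x : ℝ) : ℂ) := ⟨_, rfl⟩
  obtain ⟨G1, hG1⟩ : ∃ G1 : ℝ → ℂ, G1 = fun x : ℝ => ((-2 * Real.pi * x * g1 x : ℝ) : ℂ) :=
    ⟨_, rfl⟩
  obtain ⟨G2, hG2⟩ : ∃ G2 : ℝ → ℂ, G2 = fun x : ℝ =>
    (((4 * Real.pi ^ 2 * x ^ 2 - 2 * Real.pi) * g1 x : ℝ) : ℂ) := ⟨_, rfl⟩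
  have hd1 : ∀ x, HasDerivAt G (G1 x) x := by
    intro x
    rw [hG, hG1]
    exact (g1_hasDeriv x).ofReal_comp
  have hd2 : ∀ x, HasDerivAt G1 (G2 x) x := by
    intro x
    rw [hG1, hG2]
    have h1 : HasDerivAt (fun x : ℝ => -2 * Real.pi * x) (-2 * Real.pi) x := by
      simpa using (hasDerivAt_id x).const_mul (-2 * Real.pi)
    have h2 := h1.mul (g1_hasDeriv x)
    have h3 : HasDerivAt (fun x : ℝ => -2 * Real.pi * x * g1 x)
        ((4 * Real.pi ^ 2 * x ^ 2 - 2 * Real.pi) * g1 x) x := by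
      refine h2.congr_deriv ?_
      ring
    exact h3.ofReal_comp
  have hi0 : Integrable G := by rw [hG]; exact g1_int.ofReal
  have hi1 : Integrable G1 := by
    rw [hG1]
    have : Integrable fun x : ℝ => -2 * Real.pi * x * g1 x := by
      have h := xg1_int.const_mul (-2 * Real.pi)
      refine h.congr (ae_of_all _ fun x => ?_)
      simp only
      ring
    exact this.ofReal
  have hi2 : Integrable G2 := by
    rw [hG2]
    have : Integrable fun x : ℝ => (4 * Real.pi ^ 2 * x ^ 2 - 2 * Real.pi) * g1 x := by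
      have h := (x2g1_int.const_mul (4 * Real.pi ^ 2)).sub (g1_int.const_mul (2 * Real.pi))
      refine h.congr (ae_of_all _ fun x => ?_)
      simp only [Pi.sub_apply]
      ring
    exact this.ofReal
  have e1 : deriv G = G1 := by ext x; exact (hd1 x).deriv
  have e2 : deriv G1 = G2 := by ext x; exact (hd2 x).deriv
  have f1 := Real.fourier_deriv hi0 (fun x => (hd1 x).differentiableAt) (by rw [e1]; exact hi1)
  have f2 := Real.fourier_deriv hi1 (fun x => (hd2 x).differentiableAt) (by rw [e2]; exact hi2)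
  rw [e1] at f1
  rw [e2] at f2
  have e3 : (fun x : ℝ => ((g2 x : ℝ) : ℂ)) = fun x => (-(1 / (4 * (Real.pi : ℂ) ^ 2))) * G2 x := by
    ext x
    rw [hG2, g2_eq]
    have : (Real.pi : ℂ) ≠ 0 := by exact_mod_cast Real.pi_ne_zero
    push_cast
    field_simp
    ring
  rw [e3, F_const_mul, congrFun f2 ξ, congrFun f1 ξ, hG, g1_fourier]
  have : (Real.pi : ℂ) ≠ 0 := by exact_mod_cast Real.pi_ne_zero
  simp only [smul_eq_mul]
  push_cast
  field_simp
  rw [I_sq]
  ring

variable {n : ℕ}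

/-- factors -/
noncomputable def gf (j i : Fin n) (x : ℝ) : ℝ := if i = j then g2 x else g1 x

/-- the kernel of `ξ_j ^ 2 exp (- π |ξ| ^ 2)` -/
noncomputable def KJ (j : Fin n) (x : E n) : ℂ := ∏ i, ((gf j i (x i) : ℝ) : ℂ)

lemma gf_int (j i : Fin n) : Integrable (gf j i) := by
  unfold gf
  by_cases h : i = j
  · simp only [h, if_true]; exact g2_int
  · simp only [h, if_false]; exact g1_int

lemma gf_cont (j i : Fin n) : Continuous (gf j i) := by
  unfold gf
  by_cases h : i = j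
  · simp only [h, if_true]; exact g2_cont
  · simp only [h, if_false]; exact g1_cont

lemma gf_bd (j i : Fin n) (x : ℝ) : |gf j i x| ≤ 1 := by
  have hp := Real.pi_gt_three
  have h0 : g1 x ≤ 1 := by
    unfold g1
    rw [Real.exp_le_one_iff]
    nlinarith [sq_nonneg x]
  have h00 : 0 < g1 x := Real.exp_pos _
  have h1 : x ^ 2 * g1 x ≤ 1 / 3 := by
    have h2 : Real.pi * x ^ 2 + 1 ≤ Real.exp (Real.pi * x ^ 2) := Real.add_one_le_exp _
    have h3 : g1 x * Real.exp (Real.pi * x ^ 2) = 1 := by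
      unfold g1
      rw [← Real.exp_add, ← Real.exp_zero]
      congr 1
      ring
    have h4 : g1 x * (Real.pi * x ^ 2 + 1) ≤ 1 :=
      (mul_le_mul_of_nonneg_left h2 h00.le).trans (le_of_eq h3)
    nlinarith [mul_nonneg h00.le (sq_nonneg x)]
  unfold gf
  split_ifs
  · rw [g2_eq, abs_le]
    have h5 : 0 ≤ x ^ 2 * g1 x := by positivity
    have h6 : 1 / (2 * Real.pi) ≤ 1 / 6 := by
      apply one_div_le_one_div_of_le (by norm_num)
      linarith
    have h7 : 0 < 1 / (2 * Real.pi) := by positivity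
    constructor
    · nlinarith [mul_pos h7 h00]
    · nlinarith [mul_pos h7 h00]
  · rw [abs_of_pos h00]; exact h0

lemma KJ_GB (j : Fin n) : GB (KJ j) := by
  have hc : Continuous (KJ j) := by
    unfold KJ
    refine continuous_finsetProd _ fun i _ => Complex.continuous_ofReal.comp ((gf_cont j i).comp ?_)
    fun_prop
  refine ⟨hc.measurable, ?_, 1, fun x => ?_⟩
  · have h1 : Integrable (fun x : Fin n → ℝ => ∏ i, ((gf j i (x i) : ℝ) : ℂ)) := by
      rw [volume_pi]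
      exact Integrable.fintype_prod_dep (f := fun i x => ((gf j i x : ℝ) : ℂ))
        fun i => (gf_int j i).ofReal
    exact (PiLp.volume_preserving_ofLp (Fin n)).integrable_comp_of_integrable h1
  · unfold KJ
    rw [norm_prod]
    refine Finset.prod_le_one (fun _ _ => norm_nonneg _) fun i _ => ?_
    rw [Complex.norm_real]
    exact gf_bd j i _

/-- the multiplier -/
noncomputable def mj (j : Fin n) (ξ : E n) : ℝ := ξ j ^ 2 * Real.exp (-(Real.pi * ∑ i, ξ i ^ 2))

lemma KJ_fourier (j : Fin n) (ξ : E n) : 𝓕 (KJ j) ξ = ((mj j ξ : ℝ) : ℂ) := by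
  rw [Real.fourier_eq']
  have e1 : ∀ x : E n, cexp (((-2 * Real.pi * ⟪x, ξ⟫ : ℝ) : ℂ) * I) • KJ j x =
      ∏ i, (fun (i : Fin n) (x : ℝ) => cexp (((-2 * Real.pi * (x * ξ i) : ℝ) : ℂ) * I) *
        ((gf j i x : ℝ) : ℂ)) i (x i) := by
    intro x
    simp only [KJ, smul_eq_mul]
    rw [Finset.prod_mul_distrib]
    congr 1
    rw [← Complex.exp_sum]
    congr 1
    rw [PiLp.inner_apply]
    simp only [RCLike.inner_apply, conj_trivial]
    rw [Finset.mul_sum, Complex.ofReal_sum, Finset.sum_mul]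
    refine Finset.sum_congr rfl fun j _ => ?_
    push_cast
    ring
  refine (integral_congr_ae (ae_of_all _ e1)).trans ((integral_prod_E
    (fun (i : Fin n) (x : ℝ) => cexp (((-2 * Real.pi * (x * ξ i) : ℝ) : ℂ) * I) *
        ((gf j i x : ℝ) : ℂ))).trans ?_)
  have e2 : ∀ i : Fin n, ∫ x : ℝ, cexp (((-2 * Real.pi * (x * ξ i) : ℝ) : ℂ) * I) *
        ((gf j i x : ℝ) : ℂ) = (((if i = j then ξ i ^ 2 else 1) * g1 (ξ i) : ℝ) : ℂ) := by
    intro i
    by_cases h : i = j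
    · rw [if_pos h, ← g2_fourier, Real.fourier_eq']
      congr 1
      ext x
      unfold gf
      rw [if_pos h, smul_eq_mul]
      congr 3
      simp only [RCLike.inner_apply, conj_trivial]
      ring_nf
    · rw [if_neg h, one_mul, ← g1_fourier, Real.fourier_eq']
      congr 1
      ext x
      unfold gf
      rw [if_neg h, smul_eq_mul]
      congr 3
      simp only [RCLike.inner_apply, conj_trivial]
      ring_nf
  rw [Finset.prod_congr rfl fun i _ => e2 i, ← Complex.ofReal_prod]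
  congr 1
  rw [Finset.prod_mul_distrib]
  unfold mj
  congr 1
  · rw [Finset.prod_ite_eq' Finset.univ j fun i => ξ i ^ 2]
    simp
  · unfold g1
    rw [← Real.exp_sum]
    congr 1
    rw [Finset.mul_sum, ← Finset.sum_neg_distrib]
    exact Finset.sum_congr rfl fun i _ => by ring

lemma cv_fourier {K g : E n → ℂ} (hK : GB K) (hg : GB g) (ξ : E n) :
    𝓕 (cv K g) ξ = 𝓕 g ξ * 𝓕 K ξ := by
  rw [cv_eq, Real.fourier_mul_convolution_eq hg.int hK.int]

lemma KJf_fourier (j : Fin n) {f : E n → ℂ} (hf : GB f) (ξ : E n) :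
    𝓕 (cv (KJ j) f) ξ = 𝓕 f ξ * ((mj j ξ : ℝ) : ℂ) := by
  rw [cv_fourier (KJ_GB j) hf, KJ_fourier]

/-! ### the real Gaussian -/

lemma KK0_fourier {c : Fin n → ℝ} (hc : ∀ j, 0 < c j) (ξ : E n) :
    𝓕 (KK c 0) ξ = cexp (-((Real.pi * QF c ξ : ℝ) : ℂ)) := by
  obtain ⟨G, hG⟩ : ∃ G : E n → ℂ, G = fun ξ => cexp (-((Real.pi * QF c ξ : ℝ) : ℂ)) := ⟨_, rfl⟩
  have hGc : Continuous G := by
    rw [hG]
    have := QF_cont c
    fun_prop
  have hGi : Integrable G := by
    refine (gauss_int hc).mono' hGc.aestronglyMeasurable (ae_of_all _ fun ξ => ?_)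
    rw [hG]
    simp only
    rw [Complex.norm_exp, ← Complex.ofReal_neg, Complex.ofReal_re]
  have hinv : 𝓕⁻ G = KK c 0 := by
    ext x
    rw [Real.fourierInv_eq', ← KK_fourier hc 0 x]
    congr 1
    ext ξ
    rw [hG, smul_eq_mul, mul_comm, real_inner_comm]
    simp
  have hF : 𝓕 G = fun x => KK c 0 (-x) := by
    ext x
    rw [← hinv, Real.fourierInv_eq_fourier_neg, neg_neg]
  have hFi : Integrable (𝓕 G) := by
    rw [hF]
    exact (KK_GB hc 0).int.comp_neg
  have := hGc.fourier_fourierInv_eq hGi hFi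
  rw [hinv] at this
  rw [this, hG]

lemma k10_int {c : ℝ} (hc : 0 < c) : ∫⁻ x : ℝ, ‖k1 c 0 x‖ₑ = 1 := by
  have hD : DD 0 = 1 := by unfold DD; norm_num
  have hn : ∀ x : ℝ, ‖k1 c 0 x‖ = (1 / c) ^ (1 / 2 : ℝ) * Real.exp (-(Real.pi / c) * x ^ 2) := by
    intro x
    rw [k1_norm hc, hD, mul_one]
    congr 1
    rw [show (1 / 2 : ℂ) = ((1 / 2 : ℝ) : ℂ) by push_cast; ring, Complex.norm_cpow_real,
      tau_norm hc, hD, Real.sqrt_one, mul_one]
  have e : ∀ x : ℝ, ‖k1 c 0 x‖ₑ =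
      ENNReal.ofReal ((1 / c) ^ (1 / 2 : ℝ) * Real.exp (-(Real.pi / c) * x ^ 2)) := by
    intro x
    rw [← ofReal_norm, hn]
  simp only [e]
  rw [← ofReal_integral_eq_lintegral_ofReal]
  · rw [integral_const_mul, integral_gaussian]
    rw [show Real.pi / (Real.pi / c) = c by field_simp, ← Real.sqrt_eq_rpow,
      ← Real.sqrt_mul (by positivity), one_div_mul_cancel hc.ne', Real.sqrt_one, ENNReal.ofReal_one]
  · exact (integrable_exp_neg_mul_sq (by positivity)).const_mul _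
  · exact ae_of_all _ fun x => by positivity

lemma KK0_int {c : Fin n → ℝ} (hc : ∀ j, 0 < c j) : ∫⁻ x : E n, ‖KK c 0 x‖ₑ = 1 := by
  have e : ∀ x : E n, ‖KK c 0 x‖ₑ = ∏ j, (fun (j : Fin n) (x : ℝ) => ‖k1 (c j) 0 x‖ₑ) j (x j) := by
    intro x
    unfold KK
    rw [← ofReal_norm, norm_prod, ENNReal.ofReal_prod_of_nonneg fun _ _ => norm_nonneg _]
    simp only [ofReal_norm]
  simp only [e]
  rw [lint_prod_E (fun (j : Fin n) (x : ℝ) => ‖k1 (c j) 0 x‖ₑ) fun j =>
    (k1_cont (c j) 0).measurable.enorm]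
  exact Finset.prod_eq_one fun j _ => k10_int (hc j)

end Pool.Agent.TH310.BZ
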