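import Mathlib
import Pool.Agent.TH310.BZ.Max3
set_option autoImplicit false

/-! The pieces `a_j ξ_j ^ 2 (1 - Q_a) ^ δ` over one dyadic block of radii. -/

namespace Pool.Agent.TH310.BZ

open Complex MeasureTheory Set Filter Topology
open scoped ENNReal FourierTransform ComplexConjugate RealInnerProductSpace

variable {n : ℕ}

/-- the multiplier `a_j ξ_j ^ 2 (1 - Q_a) ^ δ` -/
noncomputable def TT (δ : ℝ) (j : Fin n) (a : Fin n → ℝ) (f : E n → ℂ) (x : E n) : ℂ :=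
  ∫ ξ : E n, ((a j * ξ j ^ 2 * sm δ a ξ : ℝ) : ℂ) * 𝓕 f ξ *
    cexp (((2 * Real.pi * ⟪x, ξ⟫ : ℝ) : ℂ) * I)

lemma sm_split {δ : ℝ} (a : Fin n → ℝ) (ξ : E n) :
    sm δ a ξ = sm (δ + 1) a ξ + ∑ j, a j * ξ j ^ 2 * sm δ a ξ := by
  rw [← Finset.sum_mul]
  change sm δ a ξ = sm (δ + 1) a ξ + QF a ξ * sm δ a ξ
  unfold sm
  by_cases h : QF a ξ < 1
  · rw [if_pos h, if_pos h, Real.rpow_add_one (by linarith)]
    ring
  · rw [if_neg h, if_neg h]
    ring

lemma tm_le {δ : ℝ} {a : Fin n → ℝ} (ha : ∀ j, 0 < a j) (j : Fin n) (ξ : E n) :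
    a j * ξ j ^ 2 * sm δ a ξ ≤ sm δ a ξ := by
  by_cases h : QF a ξ < 1
  · have h1 : a j * ξ j ^ 2 ≤ QF a ξ := by
      unfold QF
      exact Finset.single_le_sum (f := fun i => a i * ξ i ^ 2)
        (fun i _ => mul_nonneg (ha i).le (sq_nonneg _)) (Finset.mem_univ j)
    nlinarith [sm_nonneg δ a ξ]
  · unfold sm
    rw [if_neg h]
    simp

lemma tm_nonneg {δ : ℝ} {a : Fin n → ℝ} (ha : ∀ j, 0 < a j) (j : Fin n) (ξ : E n) :
    0 ≤ a j * ξ j ^ 2 * sm δ a ξ :=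
  mul_nonneg (mul_nonneg (ha j).le (sq_nonneg _)) (sm_nonneg δ a ξ)

lemma tm_meas (δ : ℝ) (a : Fin n → ℝ) (j : Fin n) :
    Measurable fun ξ : E n => a j * ξ j ^ 2 * sm δ a ξ := by
  have h1 : Measurable fun ξ : E n => a j * ξ j ^ 2 := by
    have : Continuous fun ξ : E n => a j * ξ j ^ 2 := by fun_prop
    exact this.measurable
  exact h1.mul (sm_meas δ a)

lemma e_norm (x ξ : E n) : ‖cexp (((2 * Real.pi * ⟪x, ξ⟫ : ℝ) : ℂ) * I)‖ ≤ 1 := by
  rw [Complex.norm_exp_ofReal_mul_I]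

lemma e_meas (x : E n) : AEStronglyMeasurable
    (fun ξ : E n => cexp (((2 * Real.pi * ⟪x, ξ⟫ : ℝ) : ℂ) * I)) volume := by
  have : Continuous fun ξ : E n => cexp (((2 * Real.pi * ⟪x, ξ⟫ : ℝ) : ℂ) * I) := by fun_prop
  exact this.aestronglyMeasurable

lemma SS_int {δ : ℝ} (hδ : 0 ≤ δ) {a : Fin n → ℝ} (ha : ∀ j, 0 < a j) {f : E n → ℂ}
    (hf : Integrable f) (x : E n) : Integrable fun ξ : E n => ((sm δ a ξ : ℝ) : ℂ) * 𝓕 f ξ *
      cexp (((2 * Real.pi * ⟪x, ξ⟫ : ℝ) : ℂ) * I) :=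
  (SS_GB hδ ha hf).int.mul_bdd (c := 1) (e_meas x) (ae_of_all _ fun ξ => e_norm x ξ)

lemma TT_int {δ : ℝ} (hδ : 0 ≤ δ) {a : Fin n → ℝ} (ha : ∀ j, 0 < a j) {f : E n → ℂ}
    (hf : Integrable f) (j : Fin n) (x : E n) :
    Integrable fun ξ : E n => ((a j * ξ j ^ 2 * sm δ a ξ : ℝ) : ℂ) * 𝓕 f ξ *
      cexp (((2 * Real.pi * ⟪x, ξ⟫ : ℝ) : ℂ) * I) := by
  have h1 : Integrable fun ξ : E n => ((a j * ξ j ^ 2 * sm δ a ξ : ℝ) : ℂ) * 𝓕 f ξ := by
    refine (SS_GB hδ ha hf).int.mono ((Complex.measurable_ofReal.comp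
      (tm_meas δ a j)).mul (meas_F hf)).aestronglyMeasurable (ae_of_all _ fun ξ => ?_)
    rw [norm_mul, norm_mul, Complex.norm_real, Complex.norm_real,
      Real.norm_of_nonneg (sm_nonneg _ _ _), Real.norm_of_nonneg (tm_nonneg ha j ξ)]
    exact mul_le_mul_of_nonneg_right (tm_le ha j ξ) (norm_nonneg _)
  exact h1.mul_bdd (c := 1) (e_meas x) (ae_of_all _ fun ξ => e_norm x ξ)

lemma SS_split {δ : ℝ} (hδ : 0 ≤ δ) {a : Fin n → ℝ} (ha : ∀ j, 0 < a j) {f : E n → ℂ}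
    (hf : Integrable f) (x : E n) :
    SS δ a f x = SS (δ + 1) a f x + ∑ j, TT δ j a f x := by
  unfold SS TT
  rw [← integral_finsetSum _ fun j _ => TT_int hδ ha hf j x,
    ← integral_add (SS_int (by linarith) ha hf x) (integrable_finsetSum _ fun j _ =>
      TT_int hδ ha hf j x)]
  congr 1
  ext ξ
  rw [← Finset.sum_mul, ← Finset.sum_mul, ← add_mul, ← add_mul]
  congr 2
  rw [← Complex.ofReal_sum, ← Complex.ofReal_add]
  congr 1
  exact sm_split a ξ

lemma KK0_mod {c : Fin n → ℝ} (hc : ∀ j, 0 < c j) (x ξ : E n) :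
    ∫ y : E n, KK c 0 (x - y) * cexp (((2 * Real.pi * ⟪y, ξ⟫ : ℝ) : ℂ) * I) =
      cexp (-((Real.pi * QF c ξ : ℝ) : ℂ)) * cexp (((2 * Real.pi * ⟪x, ξ⟫ : ℝ) : ℂ) * I) := by
  have h1 := integral_sub_left_eq_self (μ := (volume : Measure (E n)))
    (fun z : E n => KK c 0 z * cexp (((2 * Real.pi * ⟪x - z, ξ⟫ : ℝ) : ℂ) * I)) x
  have h2 : ∀ y : E n, KK c 0 (x - y) * cexp (((2 * Real.pi * ⟪x - (x - y), ξ⟫ : ℝ) : ℂ) * I) =
      KK c 0 (x - y) * cexp (((2 * Real.pi * ⟪y, ξ⟫ : ℝ) : ℂ) * I) := by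
    intro y
    rw [sub_sub_cancel]
  simp only [h2] at h1
  rw [h1, ← KK0_fourier hc, Real.fourier_eq', ← integral_mul_const]
  congr 1
  ext z
  have e : cexp (((2 * Real.pi * ⟪x - z, ξ⟫ : ℝ) : ℂ) * I) =
      cexp (((-2 * Real.pi * ⟪z, ξ⟫ : ℝ) : ℂ) * I) *
        cexp (((2 * Real.pi * ⟪x, ξ⟫ : ℝ) : ℂ) * I) := by
    rw [← Complex.exp_add]
    congr 1
    rw [inner_sub_left]
    push_cast
    ring
  rw [e, smul_eq_mul]
  ring

lemma QF_sub (b : Fin n → ℝ) (ξ : E n) :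
    QF (fun j => b j - 1) ξ = QF b ξ - ∑ i, ξ i ^ 2 := by
  unfold QF
  rw [← Finset.sum_sub_distrib]
  exact Finset.sum_congr rfl fun j _ => by ring

theorem TT_eq {δ : ℝ} (hδ : 0 ≤ δ) {b : Fin n → ℝ} (hb : ∀ j, 1 < b j) {f : E n → ℂ}
    (hf : GB f) (j : Fin n) (x : E n) {v : ℝ} (hv : 0 < v) :
    TT δ j (fun i => b i / v) f x =
      ((b j * v ^ (-(1 + δ)) * Real.exp (2 * Real.pi * v) : ℝ) : ℂ) *
        ∫ y : E n, KK (fun i => b i - 1) 0 (x - y) * F2 δ b (cv (KJ j) f) y v := by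
  have hb0 : ∀ j, 0 < b j := fun j => by linarith [hb j]
  have hc : ∀ j, 0 < (fun i => b i - 1) j := fun j => by
    have := hb j
    simp only
    linarith
  obtain ⟨c, hcc⟩ : ∃ c : Fin n → ℝ, c = fun i => b i - 1 := ⟨_, rfl⟩
  obtain ⟨g, hg⟩ : ∃ g : E n → ℂ, g = cv (KJ j) f := ⟨_, rfl⟩
  have hgG : GB g := by rw [hg]; exact (KJ_GB j).cv hf
  rw [← hcc, ← hg]
  rw [← hcc] at hc
  have hm : Measurable fun p : E n × E n =>
      KK c 0 (x - p.1) * (((N2 δ (v - QF b p.2) : ℝ) : ℂ) * Gx b g p.1 p.2) := by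
    have h1 : Measurable fun p : E n × E n => KK c 0 (x - p.1) :=
      (KK_cont c 0).measurable.comp (measurable_const.sub measurable_fst)
    have h2 : Measurable fun p : E n × E n => ((N2 δ (v - QF b p.2) : ℝ) : ℂ) :=
      Complex.measurable_ofReal.comp ((N2_meas δ).comp
        (measurable_const.sub ((QF_cont b).measurable.comp measurable_snd)))
    have h3 : Measurable fun p : E n × E n => Gx b g p.1 p.2 := by
      have : Continuous fun p : E n × E n => Gx b g p.1 p.2 := by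
        unfold Gx
        have h4 := QF_cont b
        have h5 := F_cont hgG.int
        fun_prop
      exact this.measurable
    exact h1.mul (h2.mul h3)
  have hi : Integrable (Function.uncurry fun (y ξ : E n) =>
      KK c 0 (x - y) * (((N2 δ (v - QF b ξ) : ℝ) : ℂ) * Gx b g y ξ)) (volume.prod volume) := by
    have h1 : Integrable fun y : E n => ‖KK c 0 (x - y)‖ :=
      ((KK_GB hc 0).int.comp_sub_left x).norm
    have h2 : Integrable fun ξ : E n => v ^ δ * ((∫ y, ‖g y‖) *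
        Real.exp (-(Real.pi * QF b ξ))) := ((gauss_int hb0).const_mul _).const_mul _
    refine (h1.mul_prod h2).mono' hm.aestronglyMeasurable (ae_of_all _ fun p => ?_)
    simp only [Function.uncurry]
    rw [norm_mul, norm_mul, Complex.norm_real, Real.norm_of_nonneg (N2_nonneg _ _), Gx_norm]
    refine mul_le_mul_of_nonneg_left ?_ (norm_nonneg _)
    refine mul_le_mul ?_ ?_ (by positivity) (by positivity)
    · exact N2_bd hδ (by linarith [QF_nonneg hb0 p.2]) hv.le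
    · rw [mul_comm]
      exact mul_le_mul_of_nonneg_right (F_bd _) (Real.exp_pos _).le
  have e1 : ∫ y : E n, KK c 0 (x - y) * F2 δ b g y v =
      ∫ y : E n, ∫ ξ : E n, KK c 0 (x - y) * (((N2 δ (v - QF b ξ) : ℝ) : ℂ) * Gx b g y ξ) := by
    congr 1
    ext y
    unfold F2
    rw [← integral_const_mul]
  rw [e1, integral_integral_swap hi, ← integral_const_mul]
  unfold TT
  congr 1
  ext ξ
  have e2 : ∀ y : E n, KK c 0 (x - y) * (((N2 δ (v - QF b ξ) : ℝ) : ℂ) * Gx b g y ξ) =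
      (((N2 δ (v - QF b ξ) : ℝ) : ℂ) * (cexp (-((Real.pi * QF b ξ : ℝ) : ℂ)) * 𝓕 g ξ)) *
        (KK c 0 (x - y) * cexp (((2 * Real.pi * ⟪y, ξ⟫ : ℝ) : ℂ) * I)) := by
    intro y
    unfold Gx
    ring
  simp only [e2]
  rw [integral_const_mul, KK0_mod hc, hg, KJf_fourier j hf]
  have hq : QF (fun j => b j / v) ξ = QF b ξ / v := by
    unfold QF
    rw [Finset.sum_div]
    exact Finset.sum_congr rfl fun j _ => by ring
  have key : b j / v * ξ j ^ 2 * sm δ (fun i => b i / v) ξ =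
      (b j * v ^ (-(1 + δ)) * Real.exp (2 * Real.pi * v)) *
        (N2 δ (v - QF b ξ) * (Real.exp (-(Real.pi * QF b ξ)) *
          (mj j ξ * Real.exp (-(Real.pi * QF c ξ))))) := by
    unfold sm N2
    rw [hq]
    by_cases h : QF b ξ < v
    · rw [if_pos ((div_lt_one hv).2 h), if_pos (by linarith)]
      have e1 : 1 - QF b ξ / v = (v - QF b ξ) * v⁻¹ := by field_simp
      have e3 : (b j / v) = b j * v⁻¹ := div_eq_mul_inv _ _
      have e4 : v ^ (-(1 + δ)) = v⁻¹ * v ^ (-δ) := by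
        rw [neg_add, Real.rpow_add hv, Real.rpow_neg_one]
      rw [e1, e3, e4, Real.mul_rpow (by linarith) (by positivity), Real.inv_rpow hv.le,
        ← Real.rpow_neg hv.le]
      have e2 : Real.exp (2 * Real.pi * v) * (Real.exp (-(2 * Real.pi) * (v - QF b ξ)) *
          (Real.exp (-(Real.pi * QF b ξ)) * (Real.exp (-(Real.pi * ∑ i, ξ i ^ 2)) *
            Real.exp (-(Real.pi * QF c ξ))))) = 1 := by
        rw [← Real.exp_add, ← Real.exp_add, ← Real.exp_add, ← Real.exp_add, ← Real.exp_zero]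
        congr 1
        rw [hcc, QF_sub]
        ring
      unfold mj
      linear_combination (-(b j * v⁻¹ * ξ j ^ 2 * (v - QF b ξ) ^ δ * v ^ (-δ))) * e2
    · rw [if_neg (by rw [div_lt_one hv]; exact h), if_neg (by linarith)]
      ring
  rw [key]
  push_cast
  ring

/-- smoothing by the real Gaussian -/
noncomputable def SMo (b : Fin n → ℝ) (h : E n → ℝ≥0∞) (x : E n) : ℝ≥0∞ :=
  ∫⁻ y : E n, ‖KK (fun i => b i - 1) 0 (x - y)‖ₑ * h y

/-- majorant for one block -/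
noncomputable def BL (γ δ : ℝ) (j : Fin n) (b : Fin n → ℝ) (f : E n → ℂ) (x : E n) : ℝ≥0∞ :=
  ENNReal.ofReal (γ * Real.exp (4 * Real.pi) * Real.Gamma (δ + 1)) *
    SMo b (BM δ b (cv (KJ j) f)) x

lemma BMx_meas (δ : ℝ) {g : E n → ℂ} (hg : Measurable g) (b : Fin n → ℝ) :
    Measurable (BM δ b g) := by
  have h1 : Measurable fun x : E n => (b, x) := measurable_const.prodMk measurable_id
  have h2 := (BM_meas δ hg).comp h1
  simp only [Function.comp_def] at h2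
  exact h2

lemma KKsub_meas (b : Fin n → ℝ) (x : E n) :
    Measurable fun y : E n => ‖KK (fun i => b i - 1) 0 (x - y)‖ₑ :=
  ((KK_cont _ 0).measurable.comp (measurable_const.sub measurable_id)).enorm

theorem TT_sup (hn : 1 ≤ n) {γ δ : ℝ} (hδ : 0 ≤ δ) {b : Fin n → ℝ}
    (hb : ∀ j, 2 ≤ b j ∧ b j ≤ γ) {f : E n → ℂ} (hf : GB f) (j : Fin n) (x : E n) {v : ℝ}
    (hv : 1 ≤ v) (hv2 : v ≤ 2) :
    ‖TT δ j (fun i => b i / v) f x‖ₑ ≤ BL γ δ j b f x := by
  have hb1 : ∀ j, 1 < b j := fun j => by linarith [(hb j).1]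
  have hb0 : ∀ j, 0 < b j := fun j => by linarith [(hb j).1]
  have hG : 0 < Real.Gamma (δ + 1) := Real.Gamma_pos_of_pos (by linarith)
  have hg : GB (cv (KJ j) f) := (KJ_GB j).cv hf
  have hv0 : 0 < v := by linarith
  have hγ : 0 < γ := by linarith [(hb j).1, (hb j).2]
  rw [TT_eq hδ hb1 hf j x hv0, enorm_mul]
  unfold BL SMo
  have h1 : ‖((b j * v ^ (-(1 + δ)) * Real.exp (2 * Real.pi * v) : ℝ) : ℂ)‖ₑ ≤
      ENNReal.ofReal (γ * Real.exp (4 * Real.pi)) := by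
    rw [← ofReal_norm, Complex.norm_real, Real.norm_of_nonneg (by
      have := hb0 j; positivity)]
    apply ENNReal.ofReal_le_ofReal
    have h2 : v ^ (-(1 + δ)) ≤ 1 := Real.rpow_le_one_of_one_le_of_nonpos hv (by linarith)
    have h3 : Real.exp (2 * Real.pi * v) ≤ Real.exp (4 * Real.pi) :=
      Real.exp_le_exp.2 (by nlinarith [Real.pi_pos])
    calc b j * v ^ (-(1 + δ)) * Real.exp (2 * Real.pi * v)
        ≤ γ * 1 * Real.exp (4 * Real.pi) := by
          have := (hb j).2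
          gcongr
      _ = _ := by ring
  have h2 : ‖∫ y : E n, KK (fun i => b i - 1) 0 (x - y) * F2 δ b (cv (KJ j) f) y v‖ₑ ≤
      ENNReal.ofReal (Real.Gamma (δ + 1)) *
        ∫⁻ y : E n, ‖KK (fun i => b i - 1) 0 (x - y)‖ₑ * BM δ b (cv (KJ j) f) y := by
    refine (enorm_integral_le_lintegral_enorm _).trans ?_
    rw [← lintegral_const_mul' _ _ ENNReal.ofReal_ne_top]
    refine lintegral_mono fun y => ?_
    rw [enorm_mul]
    refine (mul_le_mul_right (F2_sup hn hδ hb0 hg y v) _).trans (le_of_eq ?_)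
    rw [mul_left_comm]
  refine (mul_le_mul' h1 h2).trans (le_of_eq ?_)
  rw [← mul_assoc, ← ENNReal.ofReal_mul (by positivity)]

/-! ### Young's inequality for a probability kernel -/

lemma young {k h : E n → ℝ≥0∞} (hk : Measurable k) (hh : Measurable h)
    (h1 : ∫⁻ x, k x = 1) {p : ℝ} (hp : 1 < p) :
    ∫⁻ x, (∫⁻ y, k (x - y) * h y) ^ p ≤ ∫⁻ x, h x ^ p := by
  have hp0 : 0 < p := by linarith
  obtain ⟨q, hpq⟩ : ∃ q, p.HolderConjugate q := ⟨_, Real.HolderConjugate.conjExponent hp⟩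
  have hkx : ∀ x : E n, Measurable fun y : E n => k (x - y) := fun x =>
    hk.comp (measurable_const.sub measurable_id)
  have hkx1 : ∀ x : E n, ∫⁻ y, k (x - y) = 1 := by
    intro x
    rw [lintegral_sub_left_eq_self (fun z => k z) x, h1]
  have hpt : ∀ x : E n, (∫⁻ y, k (x - y) * h y) ^ p ≤ ∫⁻ y, k (x - y) * h y ^ p := by
    intro x
    have hH := ENNReal.lintegral_mul_le_Lp_mul_Lq (volume : Measure (E n)) hpq
      (f := fun y => k (x - y) ^ (1 / p) * h y) (g := fun y => k (x - y) ^ (1 / q))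
      (((hkx x).pow_const _).mul hh).aemeasurable ((hkx x).pow_const _).aemeasurable
    have e1 : ∀ y, ((fun y => k (x - y) ^ (1 / p) * h y) * fun y => k (x - y) ^ (1 / q)) y =
        k (x - y) * h y := by
      intro y
      simp only [Pi.mul_apply]
      have : k (x - y) ^ (1 / p) * k (x - y) ^ (1 / q) = k (x - y) := by
        rw [← ENNReal.rpow_add_of_nonneg _ _ (by positivity) (by
          have := hpq.symm.pos; positivity)]
        have h3 : 1 / p + 1 / q = 1 := by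
          have := hpq.inv_add_inv_eq_one
          simpa [one_div] using this
        rw [h3, ENNReal.rpow_one]
      calc k (x - y) ^ (1 / p) * h y * k (x - y) ^ (1 / q) =
          (k (x - y) ^ (1 / p) * k (x - y) ^ (1 / q)) * h y := by ring
        _ = _ := by rw [this]
    have e2 : ∀ y, (k (x - y) ^ (1 / p) * h y) ^ p = k (x - y) * h y ^ p := by
      intro y
      rw [ENNReal.mul_rpow_of_nonneg _ _ hp0.le, ← ENNReal.rpow_mul, one_div_mul_cancel hp0.ne',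
        ENNReal.rpow_one]
    have e3 : ∀ y, (k (x - y) ^ (1 / q)) ^ q = k (x - y) := by
      intro y
      rw [← ENNReal.rpow_mul, one_div_mul_cancel hpq.symm.pos.ne', ENNReal.rpow_one]
    simp only [e1, e2, e3] at hH
    rw [hkx1, ENNReal.one_rpow, mul_one] at hH
    calc (∫⁻ y, k (x - y) * h y) ^ p ≤ ((∫⁻ y, k (x - y) * h y ^ p) ^ (1 / p)) ^ p := by gcongr
      _ = _ := by rw [← ENNReal.rpow_mul, one_div_mul_cancel hp0.ne', ENNReal.rpow_one]
  refine (lintegral_mono hpt).trans (le_of_eq ?_)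
  have hmm : Measurable fun q : E n × E n => k (q.1 - q.2) * h q.2 ^ p :=
    (hk.comp (measurable_fst.sub measurable_snd)).mul ((hh.comp measurable_snd).pow_const p)
  rw [lintegral_lintegral_swap (f := fun (x y : E n) => k (x - y) * h y ^ p) hmm.aemeasurable]
  refine lintegral_congr fun y => ?_
  have hky : Measurable fun x : E n => k (x - y) := hk.comp (measurable_id.sub measurable_const)
  rw [lintegral_mul_const _ hky, lintegral_sub_right_eq_self (fun z => k z) y, h1, one_mul]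

lemma SMo_p {b : Fin n → ℝ} (hb : ∀ j, 1 < b j) {h : E n → ℝ≥0∞} (hh : Measurable h) {p : ℝ}
    (hp : 1 < p) : ∫⁻ x, SMo b h x ^ p ≤ ∫⁻ x, h x ^ p := by
  have hc : ∀ j, 0 < (fun i => b i - 1) j := fun j => by
    have := hb j
    simp only
    linarith
  exact young (KK_cont _ 0).measurable.enorm hh (KK0_int hc) hp

lemma BL_meas (γ δ : ℝ) (j : Fin n) {f : E n → ℂ} (hf : GB f) :
    Measurable fun p : (Fin n → ℝ) × E n => BL γ δ j p.1 f p.2 := by
  have hg : GB (cv (KJ j) f) := (KJ_GB j).cv hf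
  have h1 : Measurable fun q : ((Fin n → ℝ) × E n) × E n =>
      (((fun i => q.1.1 i - 1), (0 : ℝ)), q.1.2 - q.2) := by
    refine Measurable.prodMk (Measurable.prodMk ?_ measurable_const) ?_
    · have : Continuous fun q : ((Fin n → ℝ) × E n) × E n => fun i => q.1.1 i - 1 := by fun_prop
      exact this.measurable
    · exact (measurable_snd.comp measurable_fst).sub measurable_snd
  have h2 : Measurable fun q : ((Fin n → ℝ) × E n) × E n =>
      ‖KK (fun i => q.1.1 i - 1) 0 (q.1.2 - q.2)‖ₑ := (KK_meas3.comp h1).enorm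
  have h3 : Measurable fun q : ((Fin n → ℝ) × E n) × E n => (q.1.1, q.2) :=
    (measurable_fst.comp measurable_fst).prodMk measurable_snd
  have h4 := (BM_meas δ hg.meas).comp h3
  simp only [Function.comp_def] at h4
  have h5 := (h2.mul h4).lintegral_prod_right' (ν := (volume : Measure (E n)))
  unfold BL SMo
  exact h5.const_mul _

theorem block (n : ℕ) (hn : 1 ≤ n) (γ δ p : ℝ) (hγ : 2 ≤ γ) (hδ : 0 < δ) (hp : 2 ≤ p)
    (hp4 : p ≤ 4) : ∃ C : ℝ≥0∞, C ≠ ⊤ ∧ ∀ (j : Fin n) (f : E n → ℂ), GB f →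
      ∫⁻ b, ∫⁻ x, BL γ δ j b f x ^ p ∂volume ∂(nu n 2 γ) ≤
        C * ∫⁻ x, ‖cv (KJ j) f x‖ₑ ^ p := by
  obtain ⟨C, hC, hB⟩ := BM_p n hn 2 γ δ p two_pos hγ hδ hp hp4
  obtain ⟨K, hK⟩ : ∃ K : ℝ≥0∞, K =
    ENNReal.ofReal (γ * Real.exp (4 * Real.pi) * Real.Gamma (δ + 1)) := ⟨_, rfl⟩
  have hKt : K ^ p ≠ ⊤ := by
    rw [hK]
    exact ENNReal.rpow_ne_top_of_nonneg (by linarith) ENNReal.ofReal_ne_top
  refine ⟨K ^ p * C, ENNReal.mul_ne_top hKt hC, fun j f hf => ?_⟩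
  have hg : GB (cv (KJ j) f) := (KJ_GB j).cv hf
  have hbm : Measurable fun b : Fin n → ℝ => ∫⁻ x, BM δ b (cv (KJ j) f) x ^ p :=
    ((BM_meas δ hg.meas).pow_const p).lintegral_prod_right'
  calc ∫⁻ b, ∫⁻ x, BL γ δ j b f x ^ p ∂volume ∂(nu n 2 γ)
      ≤ ∫⁻ b, K ^ p * ∫⁻ x, BM δ b (cv (KJ j) f) x ^ p ∂volume ∂(nu n 2 γ) := by
        refine lintegral_mono_ae ?_
        filter_upwards [nu_ae n 2 γ] with b hb
        have hb1 : ∀ j, 1 < b j := fun j => by linarith [(hb j).1]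
        have e : ∀ x, BL γ δ j b f x ^ p = K ^ p * SMo b (BM δ b (cv (KJ j) f)) x ^ p := by
          intro x
          unfold BL
          rw [ENNReal.mul_rpow_of_nonneg _ _ (by linarith), hK]
        simp only [e]
        rw [lintegral_const_mul' _ _ hKt]
        exact mul_le_mul_right (SMo_p hb1 (BMx_meas δ hg.meas b) (by linarith)) _
    _ = K ^ p * ∫⁻ b, ∫⁻ x, BM δ b (cv (KJ j) f) x ^ p ∂volume ∂(nu n 2 γ) :=
        lintegral_const_mul _ hbm
    _ ≤ _ := by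
        rw [mul_assoc]
        exact mul_le_mul_right (hB _ hg) _

end Pool.Agent.TH310.BZ
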