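import Mathlib
import Pool.Agent.TH310.BZ.Max4
import Pool.Agent.H438R2.RZ.M2
set_option autoImplicit false

/-! All radii: dilations and the square function. -/

namespace Pool.Agent.TH310.BZ

open Complex MeasureTheory Set Filter Topology
open scoped ENNReal FourierTransform ComplexConjugate RealInnerProductSpace

variable {n : ℕ}

/-- dilation -/
noncomputable def dl (ρ : ℝ) (f : E n → ℂ) (y : E n) : ℂ := f (ρ⁻¹ • y)

lemma dl_GB {ρ : ℝ} (hρ : 0 < ρ) {f : E n → ℂ} (hf : GB f) : GB (dl ρ f) := by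
  obtain ⟨M, hM⟩ := hf.bd
  exact ⟨hf.meas.comp (measurable_const_smul _), hf.int.comp_smul (inv_ne_zero hρ.ne'), M,
    fun y => hM _⟩

lemma fin_E : Module.finrank ℝ (E n) = n := finrank_euclideanSpace_fin

lemma lint_smul {ρ : ℝ} (hρ : 0 < ρ) {Φ : E n → ℝ≥0∞} (hΦ : Measurable Φ) :
    ∫⁻ x, Φ (ρ • x) = ENNReal.ofReal ((ρ ^ n)⁻¹) * ∫⁻ x, Φ x := by
  have hmap := Measure.map_addHaar_smul (volume : Measure (E n)) (r := ρ) hρ.ne'
  rw [← lintegral_map hΦ (measurable_const_smul ρ), hmap, lintegral_smul_measure, smul_eq_mul,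
    fin_E, abs_of_pos (by positivity)]

lemma F_dil {ρ : ℝ} (hρ : 0 < ρ) (f : E n → ℂ) (η : E n) :
    𝓕 (dl ρ f) η = ((ρ ^ n : ℝ) : ℂ) * 𝓕 f (ρ • η) := by
  rw [Real.fourier_eq', Real.fourier_eq']
  have h1 := Measure.integral_comp_inv_smul (volume : Measure (E n))
    (fun z : E n => cexp (((-2 * Real.pi * ⟪ρ • z, η⟫ : ℝ) : ℂ) * I) • f z) ρ
  have e1 : ∀ y : E n, cexp (((-2 * Real.pi * ⟪y, η⟫ : ℝ) : ℂ) * I) • dl ρ f y =
      cexp (((-2 * Real.pi * ⟪ρ • ρ⁻¹ • y, η⟫ : ℝ) : ℂ) * I) • f (ρ⁻¹ • y) := by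
    intro y
    rw [smul_inv_smul₀ hρ.ne']
    rfl
  simp only [e1]
  rw [h1, fin_E, abs_of_pos (by positivity), Complex.real_smul]
  congr 2
  ext z
  rw [inner_smul_left, inner_smul_right]
  simp

theorem TT_dil {ρ : ℝ} (hρ : 0 < ρ) (δ : ℝ) (j : Fin n) (a : Fin n → ℝ) (f : E n → ℂ)
    (x : E n) : TT δ j (fun i => a i / ρ ^ 2) f x = TT δ j a (dl ρ f) (ρ • x) := by
  unfold TT
  have h1 := Measure.integral_comp_smul (volume : Measure (E n))
    (fun ξ : E n => (((fun i => a i / ρ ^ 2) j * ξ j ^ 2 * sm δ (fun i => a i / ρ ^ 2) ξ : ℝ) : ℂ) *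
      𝓕 f ξ * cexp (((2 * Real.pi * ⟪x, ξ⟫ : ℝ) : ℂ) * I)) ρ
  rw [fin_E, abs_of_pos (by positivity), Complex.real_smul] at h1
  have h2 : ∀ η : E n, ((a j * η j ^ 2 * sm δ a η : ℝ) : ℂ) * 𝓕 (dl ρ f) η *
      cexp (((2 * Real.pi * ⟪ρ • x, η⟫ : ℝ) : ℂ) * I) =
      ((ρ ^ n : ℝ) : ℂ) * ((((fun i => a i / ρ ^ 2) j * (ρ • η) j ^ 2 *
        sm δ (fun i => a i / ρ ^ 2) (ρ • η) : ℝ) : ℂ) *
      𝓕 f (ρ • η) * cexp (((2 * Real.pi * ⟪x, ρ • η⟫ : ℝ) : ℂ) * I)) := by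
    intro η
    rw [F_dil hρ]
    have hq : QF (fun i => a i / ρ ^ 2) (ρ • η) = QF a η := by
      unfold QF
      refine Finset.sum_congr rfl fun i _ => ?_
      rw [PiLp.smul_apply, smul_eq_mul]
      field_simp
    have hs : sm δ (fun i => a i / ρ ^ 2) (ρ • η) = sm δ a η := by
      unfold sm
      rw [hq]
    have hx : a j / ρ ^ 2 * (ρ • η) j ^ 2 = a j * η j ^ 2 := by
      rw [PiLp.smul_apply, smul_eq_mul]
      field_simp
    have hin : (⟪ρ • x, η⟫ : ℝ) = ⟪x, ρ • η⟫ := by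
      rw [inner_smul_left, inner_smul_right]
      simp
    simp only
    rw [hs, hx, hin]
    ring
  simp only [h2]
  rw [integral_const_mul, h1, ← mul_assoc, ← Complex.ofReal_mul, mul_inv_cancel₀ (by positivity),
    Complex.ofReal_one, one_mul]

/-- scales -/
noncomputable def rr (k : ℤ) : ℝ := (2 : ℝ) ^ ((k : ℝ) / 2)

lemma rr_pos (k : ℤ) : 0 < rr k := by unfold rr; positivity

lemma rr_sq (k : ℤ) : rr k ^ 2 = (2 : ℝ) ^ k := by
  unfold rr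
  rw [← Real.rpow_natCast, ← Real.rpow_mul (by norm_num), ← Real.rpow_intCast]
  congr 1
  push_cast
  ring

/-- the majorant over all radii -/
noncomputable def AT (p γ δ : ℝ) (j : Fin n) (b : Fin n → ℝ) (f : E n → ℂ) (x : E n) : ℝ≥0∞ :=
  (∑' k : ℤ, BL γ δ j b (dl (rr k) f) (rr k • x) ^ p) ^ (1 / p)

theorem TT_AT (hn : 1 ≤ n) {p γ δ : ℝ} (hp : 0 < p) (hδ : 0 ≤ δ) {b : Fin n → ℝ}
    (hb : ∀ j, 2 ≤ b j ∧ b j ≤ γ) {f : E n → ℂ} (hf : GB f) (j : Fin n) (x : E n) {v : ℝ}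
    (hv : 0 < v) : ‖TT δ j (fun i => b i / v) f x‖ₑ ≤ AT p γ δ j b f x := by
  obtain ⟨k, hk⟩ := exists_mem_Ico_zpow (x := v) (y := (2 : ℝ)) hv one_lt_two
  have h2k : (0 : ℝ) < 2 ^ k := by positivity
  obtain ⟨w, hw⟩ : ∃ w, w = v / 2 ^ k := ⟨_, rfl⟩
  have hw1 : 1 ≤ w := by
    rw [hw, one_le_div h2k]
    exact hk.1
  have hw2 : w ≤ 2 := by
    rw [hw, div_le_iff₀ h2k]
    have := hk.2
    rw [zpow_add_one₀ (by norm_num)] at this
    linarith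
  have e : (fun i => b i / v) = fun i => (fun i => b i / w) i / rr k ^ 2 := by
    ext i
    simp only
    rw [rr_sq, hw]
    field_simp
  rw [e, TT_dil (rr_pos k)]
  refine (TT_sup hn hδ hb (dl_GB (rr_pos k) hf) j (rr k • x) hw1 hw2).trans ?_
  unfold AT
  have h1 : BL γ δ j b (dl (rr k) f) (rr k • x) ^ p ≤
      ∑' k : ℤ, BL γ δ j b (dl (rr k) f) (rr k • x) ^ p := ENNReal.le_tsum k
  calc BL γ δ j b (dl (rr k) f) (rr k • x)
      = (BL γ δ j b (dl (rr k) f) (rr k • x) ^ p) ^ (1 / p) := by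
        rw [← ENNReal.rpow_mul, mul_one_div_cancel hp.ne', ENNReal.rpow_one]
    _ ≤ _ := by gcongr

lemma BLs_meas (γ δ : ℝ) (j : Fin n) {f : E n → ℂ} (hf : GB f) {ρ : ℝ} (hρ : 0 < ρ) :
    Measurable fun p : (Fin n → ℝ) × E n => BL γ δ j p.1 (dl ρ f) (ρ • p.2) := by
  have h1 : Measurable fun p : (Fin n → ℝ) × E n => (p.1, ρ • p.2) :=
    measurable_fst.prodMk (measurable_snd.const_smul ρ)
  have h2 := (BL_meas γ δ j (dl_GB hρ hf)).comp h1
  simp only [Function.comp_def] at h2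
  exact h2

lemma AT_meas (p γ δ : ℝ) (j : Fin n) {f : E n → ℂ} (hf : GB f) :
    Measurable fun q : (Fin n → ℝ) × E n => AT p γ δ j q.1 f q.2 := by
  unfold AT
  exact (Measurable.ennreal_tsum fun k => (BLs_meas γ δ j hf (rr_pos k)).pow_const p).pow_const _

/-! ### the square function -/

lemma csum : ∑' m : ℤ, ENNReal.ofReal (4 * (1 / 4 : ℝ) ^ m.natAbs) ≠ ⊤ := by
  have hs : Summable fun m : ℤ => 4 * (1 / 4 : ℝ) ^ m.natAbs := by
    refine Summable.mul_left _ ?_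
    refine Summable.of_nat_of_neg ?_ ?_
    · simpa using summable_geometric_of_lt_one (r := (1 / 4 : ℝ)) (by norm_num) (by norm_num)
    · simpa using summable_geometric_of_lt_one (r := (1 / 4 : ℝ)) (by norm_num) (by norm_num)
  rw [← ENNReal.ofReal_tsum_of_nonneg (fun m => by positivity) hs]
  exact ENNReal.ofReal_ne_top

lemma pt_bound {s : ℝ} (hs : 1 ≤ s) (hs2 : s ≤ 2) (m : ℤ) :
    (s * 2 ^ (-m) * Real.exp (-(Real.pi * (s * 2 ^ (-m))))) ^ 2 ≤ 4 * (1 / 4 : ℝ) ^ m.natAbs := by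
  obtain ⟨u, hu⟩ : ∃ u : ℝ, u = s * 2 ^ (-m) := ⟨_, rfl⟩
  rw [← hu]
  have h2 : (0 : ℝ) < 2 ^ (-m) := by positivity
  have hu0 : 0 < u := by rw [hu]; positivity
  have hpi := Real.pi_gt_three
  rcases le_or_gt 0 m with hm | hm
  · have h3 : (2 : ℝ) ^ (-m) = (1 / 2) ^ m.natAbs := by
      rw [one_div, inv_pow, zpow_neg]
      congr 1
      have : m = (m.natAbs : ℤ) := by omega
      conv_lhs => rw [this]
      rw [zpow_natCast]
    have h4 : Real.exp (-(Real.pi * u)) ≤ 1 := by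
      rw [Real.exp_le_one_iff]
      nlinarith
    have h5 : u * Real.exp (-(Real.pi * u)) ≤ 2 * (1 / 2) ^ m.natAbs := by
      calc u * Real.exp (-(Real.pi * u)) ≤ u * 1 := by gcongr
        _ = s * 2 ^ (-m) := by rw [mul_one, hu]
        _ ≤ 2 * 2 ^ (-m) := by gcongr
        _ = _ := by rw [h3]
    calc (u * Real.exp (-(Real.pi * u))) ^ 2 ≤ (2 * (1 / 2) ^ m.natAbs) ^ 2 := by
          gcongr
      _ = 4 * (1 / 4) ^ m.natAbs := by
          rw [mul_pow, ← pow_mul, mul_comm m.natAbs 2, pow_mul]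
          norm_num
  · have h3 : (2 : ℝ) ^ (-m) = 2 ^ m.natAbs := by
      have : -m = (m.natAbs : ℤ) := by omega
      rw [this, zpow_natCast]
    have h4 : u ^ 2 ≤ Real.exp (Real.pi * u) := by
      have h5 := Real.quadratic_le_exp_of_nonneg (x := Real.pi * u) (by positivity)
      have h6 : 9 ≤ Real.pi ^ 2 := by nlinarith
      have h7 : 0 ≤ Real.pi * u := by positivity
      have h8 : 9 * u ^ 2 ≤ Real.pi ^ 2 * u ^ 2 := by nlinarith [sq_nonneg u]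
      nlinarith [sq_nonneg u]
    have h5 : u * Real.exp (-(Real.pi * u)) ≤ 1 / u := by
      rw [le_div_iff₀ hu0, Real.exp_neg]
      have := Real.exp_pos (Real.pi * u)
      rw [mul_comm u, mul_assoc, ← sq, inv_mul_le_iff₀ this, mul_one]
      exact h4
    have h6 : 1 / u ≤ (1 / 2) ^ m.natAbs := by
      rw [one_div_pow]
      refine one_div_le_one_div_of_le (by positivity) ?_
      rw [hu, h3]
      nlinarith [(by positivity : (0 : ℝ) < 2 ^ m.natAbs)]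
    calc (u * Real.exp (-(Real.pi * u))) ^ 2 ≤ ((1 / 2) ^ m.natAbs) ^ 2 := by
          gcongr
          exact h5.trans h6
      _ = (1 / 4) ^ m.natAbs := by
          rw [← pow_mul, mul_comm m.natAbs 2, pow_mul]
          norm_num
      _ ≤ _ := by
          have : (0 : ℝ) ≤ (1 / 4) ^ m.natAbs := by positivity
          linarith

lemma mj_le (j : Fin n) (ξ : E n) {ρ : ℝ} (hρ : 0 < ρ) :
    mj j (ρ⁻¹ • ξ) ≤ ((∑ i, ξ i ^ 2) / ρ ^ 2) * Real.exp (-(Real.pi * ((∑ i, ξ i ^ 2) / ρ ^ 2))) := by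
  have e : ∑ i, (ρ⁻¹ • ξ) i ^ 2 = (∑ i, ξ i ^ 2) / ρ ^ 2 := by
    rw [Finset.sum_div]
    refine Finset.sum_congr rfl fun i _ => ?_
    rw [PiLp.smul_apply, smul_eq_mul]
    field_simp
  unfold mj
  rw [e]
  refine mul_le_mul_of_nonneg_right ?_ (Real.exp_pos _).le
  rw [← e]
  exact Finset.single_le_sum (f := fun i => (ρ⁻¹ • ξ) i ^ 2) (fun i _ => sq_nonneg _)
    (Finset.mem_univ j)

lemma mj_nonneg (j : Fin n) (ξ : E n) : 0 ≤ mj j ξ := by unfold mj; positivity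

lemma mj_sum (j : Fin n) (ξ : E n) :
    ∑' k : ℤ, ENNReal.ofReal (mj j ((rr k)⁻¹ • ξ)) ^ 2 ≤
      ∑' m : ℤ, ENNReal.ofReal (4 * (1 / 4 : ℝ) ^ m.natAbs) := by
  obtain ⟨S, hS⟩ : ∃ S, S = ∑ i, ξ i ^ 2 := ⟨_, rfl⟩
  have hS0 : 0 ≤ S := by rw [hS]; exact Finset.sum_nonneg fun i _ => sq_nonneg _
  rcases hS0.eq_or_lt with h0 | h0
  · have h1 : ∀ k : ℤ, ENNReal.ofReal (mj j ((rr k)⁻¹ • ξ)) ^ 2 = 0 := by
      intro k
      have := mj_le j ξ (rr_pos k)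
      rw [← hS, ← h0] at this
      simp only [zero_div, zero_mul] at this
      rw [ENNReal.ofReal_of_nonpos this]
      simp
    simp only [h1, tsum_zero]
    exact zero_le
  · obtain ⟨k0, hk0⟩ := exists_mem_Ico_zpow (x := S) (y := (2 : ℝ)) h0 one_lt_two
    have h2k : (0 : ℝ) < 2 ^ k0 := by positivity
    obtain ⟨s, hs⟩ : ∃ s, s = S / 2 ^ k0 := ⟨_, rfl⟩
    have hs1 : 1 ≤ s := by rw [hs, one_le_div h2k]; exact hk0.1
    have hs2 : s ≤ 2 := by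
      rw [hs, div_le_iff₀ h2k]
      have := hk0.2
      rw [zpow_add_one₀ (by norm_num)] at this
      linarith
    rw [← Equiv.tsum_eq (Equiv.addRight k0)]
    refine ENNReal.tsum_le_tsum fun m => ?_
    simp only [Equiv.coe_addRight]
    have h3 := mj_le j ξ (rr_pos (m + k0))
    rw [← hS, rr_sq] at h3
    have h4 : S / 2 ^ (m + k0) = s * 2 ^ (-m) := by
      rw [hs, zpow_add₀ (by norm_num), zpow_neg]
      field_simp
    rw [h4] at h3
    calc ENNReal.ofReal (mj j ((rr (m + k0))⁻¹ • ξ)) ^ 2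
        ≤ ENNReal.ofReal (s * 2 ^ (-m) * Real.exp (-(Real.pi * (s * 2 ^ (-m))))) ^ 2 := by
          gcongr
      _ = ENNReal.ofReal ((s * 2 ^ (-m) * Real.exp (-(Real.pi * (s * 2 ^ (-m))))) ^ 2) := by
          rw [ENNReal.ofReal_pow]
          positivity
      _ ≤ _ := ENNReal.ofReal_le_ofReal (pt_bound hs1 hs2 m)

/-- the pieces -/
noncomputable def LPk (j : Fin n) (k : ℤ) (f : E n → ℂ) (x : E n) : ℂ :=
  cv (KJ j) (dl (rr k) f) (rr k • x)

lemma LPk_meas (j : Fin n) (k : ℤ) {f : E n → ℂ} (hf : GB f) : Measurable (LPk j k f) := by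
  unfold LPk
  exact ((KJ_GB j).cv (dl_GB (rr_pos k) hf)).meas.comp (measurable_const_smul _)

lemma mj_meas (j : Fin n) : Measurable (mj (n := n) j) := by
  have : Continuous (mj (n := n) j) := by unfold mj; fun_prop
  exact this.measurable

lemma LPk_two (j : Fin n) (k : ℤ) {f : E n → ℂ} (hf : GB f) :
    ∫⁻ x, ‖LPk j k f x‖ₑ ^ 2 = ∫⁻ ξ, ‖𝓕 f ξ‖ₑ ^ 2 * ENNReal.ofReal (mj j ((rr k)⁻¹ • ξ)) ^ 2 := by
  obtain ⟨ρ, hρ⟩ : ∃ ρ, ρ = rr k := ⟨_, rfl⟩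
  have hρ0 : 0 < ρ := by rw [hρ]; exact rr_pos k
  have hg := dl_GB hρ0 hf
  have hG := (KJ_GB j).cv hg
  unfold LPk
  rw [← hρ]
  rw [lint_smul (Φ := fun x => ‖cv (KJ j) (dl ρ f) x‖ₑ ^ 2) hρ0 (hG.meas.enorm.pow_const 2),
    ← Pool.Agent.H153R4.plancherel _ hG.int hG.memLp]
  obtain ⟨Φ, hΦ⟩ : ∃ Φ : E n → ℝ≥0∞, Φ = fun ξ : E n =>
      ‖𝓕 f ξ‖ₑ ^ 2 * ENNReal.ofReal (mj j (ρ⁻¹ • ξ)) ^ 2 := ⟨_, rfl⟩
  have hmF : Measurable Φ := by
    rw [hΦ]
    exact ((meas_F hf.int).enorm.pow_const 2).mul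
      (((mj_meas j).comp (measurable_const_smul _)).ennreal_ofReal.pow_const 2)
  have hgoal : ∫⁻ ξ, ‖𝓕 f ξ‖ₑ ^ 2 * ENNReal.ofReal (mj j (ρ⁻¹ • ξ)) ^ 2 = ∫⁻ ξ, Φ ξ := by
    rw [hΦ]
  rw [hgoal]
  have e : ∀ η : E n, ‖𝓕 (cv (KJ j) (dl ρ f)) η‖ₑ ^ 2 = ENNReal.ofReal (ρ ^ n) ^ 2 *
      Φ (ρ • η) := by
    intro η
    rw [KJf_fourier j hg, F_dil hρ0, hΦ]
    simp only
    rw [inv_smul_smul₀ hρ0.ne', enorm_mul, enorm_mul]
    have h1 : ‖((ρ ^ n : ℝ) : ℂ)‖ₑ = ENNReal.ofReal (ρ ^ n) := by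
      rw [← ofReal_norm, Complex.norm_real, Real.norm_of_nonneg (by positivity)]
    have h2 : ‖((mj j η : ℝ) : ℂ)‖ₑ = ENNReal.ofReal (mj j η) := by
      rw [← ofReal_norm, Complex.norm_real, Real.norm_of_nonneg (mj_nonneg j η)]
    rw [h1, h2]
    ring
  simp only [e]
  have hmc : Measurable fun η : E n => Φ (ρ • η) := hmF.comp (measurable_const_smul ρ)
  rw [lintegral_const_mul _ hmc, lint_smul hρ0 hmF, ← mul_assoc, ← mul_assoc]
  have h3 : ENNReal.ofReal ((ρ ^ n)⁻¹) * ENNReal.ofReal (ρ ^ n) = 1 := by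
    rw [← ENNReal.ofReal_mul (by positivity), inv_mul_cancel₀ (by positivity), ENNReal.ofReal_one]
  have h4 : ENNReal.ofReal ((ρ ^ n)⁻¹) * ENNReal.ofReal (ρ ^ n) ^ 2 *
      ENNReal.ofReal ((ρ ^ n)⁻¹) = 1 := by
    calc _ = (ENNReal.ofReal ((ρ ^ n)⁻¹) * ENNReal.ofReal (ρ ^ n)) *
          (ENNReal.ofReal ((ρ ^ n)⁻¹) * ENNReal.ofReal (ρ ^ n)) := by ring
      _ = 1 := by rw [h3, one_mul]
  rw [h4, one_mul]

lemma LP_two (j : Fin n) {f : E n → ℂ} (hf : GB f) :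
    ∑' k : ℤ, ∫⁻ x, ‖LPk j k f x‖ₑ ^ 2 ≤
      (∑' m : ℤ, ENNReal.ofReal (4 * (1 / 4 : ℝ) ^ m.natAbs)) * ∫⁻ x, ‖f x‖ₑ ^ 2 := by
  simp only [LPk_two j _ hf]
  have hm : ∀ k : ℤ, Measurable fun ξ : E n =>
      ‖𝓕 f ξ‖ₑ ^ 2 * ENNReal.ofReal (mj j ((rr k)⁻¹ • ξ)) ^ 2 := fun k =>
    ((meas_F hf.int).enorm.pow_const 2).mul
      (((mj_meas j).comp (measurable_const_smul _)).ennreal_ofReal.pow_const 2)
  rw [← lintegral_tsum fun k => (hm k).aemeasurable]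
  simp only [ENNReal.tsum_mul_left]
  calc ∫⁻ ξ, ‖𝓕 f ξ‖ₑ ^ 2 * ∑' k : ℤ, ENNReal.ofReal (mj j ((rr k)⁻¹ • ξ)) ^ 2
      ≤ ∫⁻ ξ, ‖𝓕 f ξ‖ₑ ^ 2 * ∑' m : ℤ, ENNReal.ofReal (4 * (1 / 4 : ℝ) ^ m.natAbs) :=
        lintegral_mono fun ξ => mul_le_mul_right (mj_sum j ξ) _
    _ = _ := by
        rw [lintegral_mul_const' _ _ csum, Pool.Agent.H153R4.plancherel _ hf.int hf.memLp,
          mul_comm]

lemma LPk_sup (j : Fin n) (k : ℤ) {f : E n → ℂ} {t : ℝ} (ht : ∀ y, ‖f y‖ ≤ t) (x : E n) :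
    ‖LPk j k f x‖ ≤ (∫ y, ‖KJ j y‖) * t := by
  unfold LPk cv
  have h1 : ∫ y, ‖KJ j (rr k • x - y)‖ = ∫ y, ‖KJ j y‖ :=
    integral_sub_left_eq_self (fun z => ‖KJ j z‖) (volume : Measure (E n)) (rr k • x)
  rw [← h1, ← integral_mul_const]
  refine norm_integral_le_of_norm_le (((KJ_GB j).int.comp_sub_left _).norm.mul_const _)
    (ae_of_all _ fun y => ?_)
  rw [norm_mul, mul_comm]
  exact mul_le_mul_of_nonneg_left (ht _) (norm_nonneg _)

lemma LPk_add (j : Fin n) (k : ℤ) {f g : E n → ℂ} (hf : GB f) (hg : GB g) (x : E n) :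
    LPk j k (fun y => f y + g y) x = LPk j k f x + LPk j k g x := by
  unfold LPk
  rw [← cv_add (KJ_GB j) (dl_GB (rr_pos k) hf) (dl_GB (rr_pos k) hg)]
  rfl

theorem LP_p (n : ℕ) (j : Fin n) (p : ℝ) (hp : 2 ≤ p) : ∃ C : ℝ≥0∞, C ≠ ⊤ ∧
    ∀ f : E n → ℂ, GB f → ∑' k : ℤ, ∫⁻ x, ‖LPk j k f x‖ₑ ^ p ≤ C * ∫⁻ x, ‖f x‖ₑ ^ p := by
  obtain ⟨C2, hC2⟩ : ∃ C, C = ∑' m : ℤ, ENNReal.ofReal (4 * (1 / 4 : ℝ) ^ m.natAbs) := ⟨_, rfl⟩
  have hC2t : C2 ≠ ⊤ := by rw [hC2]; exact csum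
  rcases hp.eq_or_lt with rfl | hp
  · refine ⟨C2, hC2t, fun f hf => ?_⟩
    have := LP_two j hf
    rw [← hC2] at this
    simpa only [← ENNReal.rpow_natCast, Nat.cast_ofNat] using this
  obtain ⟨C, hC, hM⟩ := Pool.Agent.H438R2.RZ.marcInf 2 p (by norm_num) hp
  obtain ⟨M0, hM0⟩ : ∃ M, M = C2.toReal + 1 := ⟨_, rfl⟩
  obtain ⟨M1, hM1⟩ : ∃ M, M = (∫ y, ‖KJ j y‖) + 1 := ⟨_, rfl⟩
  have hM0' : C2 ≤ ENNReal.ofReal M0 := by
    rw [hM0]
    refine (le_of_eq (ENNReal.ofReal_toReal hC2t).symm).trans ?_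
    exact ENNReal.ofReal_le_ofReal (by linarith)
  have hM0p : 0 < M0 := by rw [hM0]; positivity
  have hM1p : 0 < M1 := by
    rw [hM1]
    have : 0 ≤ ∫ y, ‖KJ j y‖ := integral_nonneg fun _ => norm_nonneg _
    linarith
  refine ⟨ENNReal.ofReal (C * M0 * M1 ^ (p - 2)), ENNReal.ofReal_ne_top, fun f hf => ?_⟩
  have hmk : ∀ {g : E n → ℂ}, GB g → Measurable fun q : ℤ × E n => LPk j q.1 g q.2 := by
    intro g hg
    exact measurable_from_prod_countable_right fun k => LPk_meas j k hg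
  have key := hM (X := E n) (Y := ℤ × E n) volume (Measure.count.prod volume)
    (fun q => ‖LPk j q.1 f q.2‖) (fun x => ‖f x‖) (hmk hf).norm hf.meas.norm
    (fun _ => norm_nonneg _) (fun _ => norm_nonneg _) M0 M1 hM0p hM1p ?_
  · rw [lintegral_prod _ ((hmk hf).norm.ennreal_ofReal.pow_const p).aemeasurable,
      lintegral_count] at key
    simpa only [ofReal_norm] using key
  · intro t ht
    have hlo := lo_GB t hf.meas hf.int ht.le
    have hhi := hi_GB t hf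
    refine ⟨fun q => ‖LPk j q.1 (hi t f) q.2‖ₑ, fun q => ‖LPk j q.1 (lo t f) q.2‖ₑ,
      (hmk hhi).enorm, (hmk hlo).enorm, ?_, ?_, ?_⟩
    · refine ae_of_all _ fun q => ?_
      rw [ofReal_norm]
      have e : LPk j q.1 f q.2 = LPk j q.1 (hi t f) q.2 + LPk j q.1 (lo t f) q.2 := by
        rw [← LPk_add j q.1 hhi hlo]
        congr 1
        ext y
        exact hi_add_lo t f y
      rw [e]
      exact enorm_add_le _ _
    · rw [lintegral_prod _ ((hmk hhi).enorm.pow_const 2).aemeasurable, lintegral_count]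
      have h2 := LP_two j hhi
      rw [← hC2] at h2
      have e1 : ∀ z : ℝ≥0∞, z ^ (2 : ℝ) = z ^ 2 := fun z => by
        rw [← ENNReal.rpow_natCast]
        norm_num
      simp only [e1]
      refine h2.trans (mul_le_mul' hM0' (le_of_eq ?_))
      rw [← lintegral_indicator (measurableSet_lt measurable_const hf.meas.norm)]
      refine lintegral_congr fun x => ?_
      unfold hi
      by_cases h : t < ‖f x‖
      · rw [if_pos h, indicator_of_mem (by exact h), ofReal_norm]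
      · rw [if_neg h, indicator_of_notMem (by exact h)]
        simp
    · refine ae_of_all _ fun q => ?_
      simp only
      rw [← ofReal_norm]
      apply ENNReal.ofReal_le_ofReal
      refine (LPk_sup j q.1 (t := t) (fun y => ?_) q.2).trans ?_
      · unfold lo
        split_ifs with h
        · exact h
        · simpa using ht.le
      · refine mul_le_mul_of_nonneg_right ?_ ht.le
        rw [hM1]
        linarith

/-- the bound for the majorant over all radii -/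
theorem AT_p (n : ℕ) (hn : 1 ≤ n) (γ δ p : ℝ) (hγ : 2 ≤ γ) (hδ : 0 < δ) (hp : 2 ≤ p)
    (hp4 : p ≤ 4) (j : Fin n) : ∃ C : ℝ≥0∞, C ≠ ⊤ ∧ ∀ (f : E n → ℂ), GB f →
      ∫⁻ b, ∫⁻ x, AT p γ δ j b f x ^ p ∂volume ∂(nu n 2 γ) ≤ C * ∫⁻ x, ‖f x‖ₑ ^ p := by
  obtain ⟨C1, hC1, h1⟩ := block n hn γ δ p hγ hδ hp hp4
  obtain ⟨C2, hC2, h2⟩ := LP_p n j p hp
  have hp0 : 0 < p := by linarith
  refine ⟨C1 * C2, ENNReal.mul_ne_top hC1 hC2, fun f hf => ?_⟩
  have e0 : ∀ b x, AT p γ δ j b f x ^ p =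
      ∑' k : ℤ, BL γ δ j b (dl (rr k) f) (rr k • x) ^ p := by
    intro b x
    unfold AT
    rw [← ENNReal.rpow_mul, one_div_mul_cancel hp0.ne', ENNReal.rpow_one]
  simp only [e0]
  have hm : ∀ k : ℤ, Measurable fun q : (Fin n → ℝ) × E n =>
      BL γ δ j q.1 (dl (rr k) f) (rr k • q.2) ^ p := fun k =>
    (BLs_meas γ δ j hf (rr_pos k)).pow_const p
  have hmx : ∀ (b : Fin n → ℝ) (k : ℤ), Measurable fun x : E n =>
      BL γ δ j b (dl (rr k) f) (rr k • x) ^ p := by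
    intro b k
    have h5 : Measurable fun x : E n => (b, x) := measurable_const.prodMk measurable_id
    have h6 := (hm k).comp h5
    simp only [Function.comp_def] at h6
    exact h6
  have e1 : ∀ b : Fin n → ℝ, ∫⁻ x, ∑' k : ℤ, BL γ δ j b (dl (rr k) f) (rr k • x) ^ p =
      ∑' k : ℤ, ∫⁻ x, BL γ δ j b (dl (rr k) f) (rr k • x) ^ p := fun b =>
    lintegral_tsum fun k => (hmx b k).aemeasurable
  simp only [e1]
  rw [lintegral_tsum fun k => (hm k).lintegral_prod_right'.aemeasurable]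
  calc ∑' k : ℤ, ∫⁻ b, ∫⁻ x, BL γ δ j b (dl (rr k) f) (rr k • x) ^ p ∂volume ∂(nu n 2 γ)
      ≤ ∑' k : ℤ, C1 * ∫⁻ x, ‖LPk j k f x‖ₑ ^ p := by
        refine ENNReal.tsum_le_tsum fun k => ?_
        have hg := dl_GB (rr_pos k) hf
        have hBm : ∀ b : Fin n → ℝ, Measurable fun x : E n => BL γ δ j b (dl (rr k) f) x ^ p := by
          intro b
          have h5 : Measurable fun x : E n => (b, x) := measurable_const.prodMk measurable_id
          have h6 := ((BL_meas γ δ j hg).pow_const p).comp h5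
          simp only [Function.comp_def] at h6
          exact h6
        have e2 : ∀ b : Fin n → ℝ, ∫⁻ x, BL γ δ j b (dl (rr k) f) (rr k • x) ^ p =
            ENNReal.ofReal ((rr k ^ n)⁻¹) * ∫⁻ x, BL γ δ j b (dl (rr k) f) x ^ p := fun b =>
          lint_smul (Φ := fun x => BL γ δ j b (dl (rr k) f) x ^ p) (rr_pos k) (hBm b)
        simp only [e2]
        rw [lintegral_const_mul' _ _ ENNReal.ofReal_ne_top]
        refine (mul_le_mul_right (h1 j _ hg) _).trans (le_of_eq ?_)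
        have e3 : ∫⁻ x, ‖LPk j k f x‖ₑ ^ p =
            ENNReal.ofReal ((rr k ^ n)⁻¹) * ∫⁻ x, ‖cv (KJ j) (dl (rr k) f) x‖ₑ ^ p :=
          lint_smul (Φ := fun x => ‖cv (KJ j) (dl (rr k) f) x‖ₑ ^ p) (rr_pos k)
            (((KJ_GB j).cv hg).meas.enorm.pow_const p)
        rw [e3, mul_left_comm]
    _ = C1 * ∑' k : ℤ, ∫⁻ x, ‖LPk j k f x‖ₑ ^ p := ENNReal.tsum_mul_left
    _ ≤ _ := by
        rw [mul_assoc]
        exact mul_le_mul_right (h2 f hf) _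

end Pool.Agent.TH310.BZ
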