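import Mathlib
import Pool.Agent.TH310.BZ.Max2
import Pool.Agent.Helper930.BL.J05
import Pool.Agent.Helper865.TAP.J3
set_option autoImplicit false

/-! The Hardy-Littlewood maximal function over cubes and the large order means. -/

namespace Pool.Agent.TH310.BZ

open Complex MeasureTheory Set Filter Topology Metric
open scoped ENNReal FourierTransform ComplexConjugate RealInnerProductSpace

variable {n : ℕ}

/-- the centred maximal function over cubes -/
noncomputable def MQ (g : (Fin n → ℝ) → ℝ) (z : Fin n → ℝ) : ℝ≥0∞ :=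
  ⨆ (ρ : ℝ) (_ : 0 < ρ), ENNReal.ofReal ((∫ x in closedBall z ρ, g x) / (2 * ρ) ^ n)

lemma MQ_bad (g : (Fin n → ℝ) → ℝ) {l : ℝ} (hl : 0 ≤ l) :
    {z | ENNReal.ofReal l < MQ g z} = H930.BL.bad g l := by
  ext z
  unfold MQ H930.BL.bad
  simp only [mem_setOf_eq, lt_iSup_iff, exists_prop]
  refine exists_congr fun ρ => and_congr_right fun hρ => ?_
  have h0 : 0 < (2 * ρ) ^ n := by positivity
  rw [ENNReal.ofReal_lt_ofReal_iff_of_nonneg hl, lt_div_iff₀ h0]

lemma MQ_meas {g : (Fin n → ℝ) → ℝ} (hg : Integrable g) (hg0 : ∀ x, 0 ≤ g x) :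
    Measurable (MQ g) := by
  refine measurable_of_Ioi fun c => ?_
  rcases eq_or_ne c ⊤ with rfl | hc
  · simp
  · have h := MQ_bad g (l := c.toReal) ENNReal.toReal_nonneg
    rw [ENNReal.ofReal_toReal hc] at h
    have e : MQ g ⁻¹' Ioi c = {z | c < MQ g z} := rfl
    rw [e, h]
    exact (H930.BL.bad_open hg hg0 _).measurableSet

theorem MQ_strong (n : ℕ) {q : ℝ} (hq : 1 < q) : ∃ C : ℝ≥0∞, C ≠ ⊤ ∧
    ∀ g : (Fin n → ℝ) → ℝ, Measurable g → Integrable g → (∀ x, 0 ≤ g x) →
      ∫⁻ z, MQ g z ^ q ≤ C * ∫⁻ x, ENNReal.ofReal (g x) ^ q := by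
  refine ⟨ENNReal.ofReal (2 * 5 ^ n * q / (q - 1)) * 2 ^ (q - 1), ?_, ?_⟩
  · exact ENNReal.mul_ne_top ENNReal.ofReal_ne_top
      (ENNReal.rpow_ne_top_of_nonneg (by linarith) (by norm_num))
  intro g hgm hg hg0
  have hq0 : 0 < q := by linarith
  have hq1 : 0 < q - 1 := by linarith
  have hM := MQ_meas hg hg0
  have hF : Measurable fun x => ENNReal.ofReal (g x) := hgm.ennreal_ofReal
  calc ∫⁻ t, (MQ g t) ^ q
      = ∫⁻ t, ∫⁻ l in Ioi (0 : ℝ), ENNReal.ofReal (q * l ^ (q - 1)) *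
        (if ENNReal.ofReal l < MQ g t then 1 else 0) := by
        apply lintegral_congr; intro t; exact Helper865.TAP.J3.layer hq0 _
    _ = ∫⁻ l in Ioi (0 : ℝ), ∫⁻ t, ENNReal.ofReal (q * l ^ (q - 1)) *
        (if ENNReal.ofReal l < MQ g t then 1 else 0) := by
        apply lintegral_lintegral_swap
        apply Measurable.aemeasurable
        apply Measurable.mul
        · fun_prop
        · refine Measurable.ite ?_ measurable_const measurable_const
          exact measurableSet_lt (by fun_prop) (hM.comp measurable_fst)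
    _ = ∫⁻ l in Ioi (0 : ℝ), ENNReal.ofReal (q * l ^ (q - 1)) *
        volume {t | ENNReal.ofReal l < MQ g t} := by
        apply lintegral_congr; intro l
        rw [lintegral_const_mul' _ _ ENNReal.ofReal_ne_top]
        congr 1
        have hms : MeasurableSet {t | ENNReal.ofReal l < MQ g t} :=
          measurableSet_lt measurable_const hM
        rw [← lintegral_indicator_one hms]
        apply lintegral_congr; intro t
        simp [indicator]
    _ ≤ ∫⁻ l in Ioi (0 : ℝ), ENNReal.ofReal (q * l ^ (q - 1)) *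
        (ENNReal.ofReal (2 * 5 ^ n / l) *
          ∫⁻ t, (if ENNReal.ofReal (l / 2) < ENNReal.ofReal (g t) then ENNReal.ofReal (g t)
            else 0)) := by
        apply setLIntegral_mono' measurableSet_Ioi
        intro l hl
        have hl0 : 0 < l := hl
        gcongr
        rw [MQ_bad g hl0.le]
        refine (H930.BL.bad_volume hg hg0 hl0).trans (le_of_eq ?_)
        rw [ENNReal.ofReal_mul (by positivity),
          ofReal_integral_eq_lintegral_ofReal hg.integrableOn (ae_of_all _ hg0),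
          ← lintegral_indicator (measurableSet_lt measurable_const hgm)]
        congr 1
        refine lintegral_congr fun x => ?_
        by_cases h : l / 2 < g x
        · rw [indicator_of_mem (by exact h), if_pos]
          rwa [ENNReal.ofReal_lt_ofReal_iff_of_nonneg (by positivity)]
        · rw [indicator_of_notMem (by exact h), if_neg]
          rwa [ENNReal.ofReal_lt_ofReal_iff_of_nonneg (by positivity)]
    _ = ∫⁻ l in Ioi (0 : ℝ), ∫⁻ t, ENNReal.ofReal (2 * 5 ^ n * q / (q - 1)) *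
        (ENNReal.ofReal (g t) * (ENNReal.ofReal ((q - 1) * l ^ (q - 1 - 1)) *
          (if ENNReal.ofReal l < 2 * ENNReal.ofReal (g t) then 1 else 0))) := by
        apply setLIntegral_congr_fun measurableSet_Ioi
        intro l hl
        have hl0 : 0 < l := hl
        simp only
        rw [← lintegral_const_mul' _ _ ENNReal.ofReal_ne_top,
          ← lintegral_const_mul' _ _ ENNReal.ofReal_ne_top]
        apply lintegral_congr
        intro t
        have hiff : ENNReal.ofReal (l / 2) < ENNReal.ofReal (g t) ↔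
            ENNReal.ofReal l < 2 * ENNReal.ofReal (g t) := by
          have e : ENNReal.ofReal l = 2 * ENNReal.ofReal (l / 2) := by
            rw [← ENNReal.ofReal_ofNat 2, ← ENNReal.ofReal_mul (by norm_num)]
            congr 1; ring
          rw [e]
          exact (ENNReal.mul_lt_mul_iff_right (by norm_num) (by norm_num)).symm
        by_cases h : ENNReal.ofReal (l / 2) < ENNReal.ofReal (g t)
        · have h' := hiff.1 h
          simp only [h, h', if_true, mul_one]
          have e2 : ENNReal.ofReal (q * l ^ (q - 1)) * ENNReal.ofReal (2 * 5 ^ n / l) =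
              ENNReal.ofReal (2 * 5 ^ n * q / (q - 1)) *
                ENNReal.ofReal ((q - 1) * l ^ (q - 1 - 1)) := by
            rw [← ENNReal.ofReal_mul (by positivity), ← ENNReal.ofReal_mul (by positivity)]
            congr 1
            rw [Real.rpow_sub_one hl0.ne' (q - 1)]
            field_simp
          calc ENNReal.ofReal (q * l ^ (q - 1)) *
                (ENNReal.ofReal (2 * 5 ^ n / l) * ENNReal.ofReal (g t))
              = (ENNReal.ofReal (q * l ^ (q - 1)) * ENNReal.ofReal (2 * 5 ^ n / l)) *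
                ENNReal.ofReal (g t) := by ring
            _ = _ := by rw [e2]; ring
        · have h' : ¬ ENNReal.ofReal l < 2 * ENNReal.ofReal (g t) := fun hh => h (hiff.2 hh)
          simp [h, h']
    _ = ∫⁻ t, ∫⁻ l in Ioi (0 : ℝ), ENNReal.ofReal (2 * 5 ^ n * q / (q - 1)) *
        (ENNReal.ofReal (g t) * (ENNReal.ofReal ((q - 1) * l ^ (q - 1 - 1)) *
          (if ENNReal.ofReal l < 2 * ENNReal.ofReal (g t) then 1 else 0))) := by
        apply lintegral_lintegral_swap
        apply Measurable.aemeasurable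
        apply Measurable.mul measurable_const
        apply Measurable.mul (hF.comp measurable_snd)
        apply Measurable.mul
        · fun_prop
        · refine Measurable.ite ?_ measurable_const measurable_const
          exact measurableSet_lt (by fun_prop) ((hF.comp measurable_snd).const_mul 2)
    _ = ∫⁻ t, ENNReal.ofReal (2 * 5 ^ n * q / (q - 1)) * 2 ^ (q - 1) *
          ENNReal.ofReal (g t) ^ q := by
        apply lintegral_congr
        intro t
        rw [lintegral_const_mul' _ _ ENNReal.ofReal_ne_top,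
          mul_assoc (ENNReal.ofReal (2 * 5 ^ n * q / (q - 1)))]
        congr 1
        have hmeas : Measurable (fun l : ℝ => ENNReal.ofReal ((q - 1) * l ^ (q - 1 - 1)) *
          (if ENNReal.ofReal l < 2 * ENNReal.ofReal (g t) then 1 else 0)) := by
          apply Measurable.mul
          · fun_prop
          · refine Measurable.ite ?_ measurable_const measurable_const
            exact measurableSet_lt (by fun_prop) measurable_const
        rw [lintegral_const_mul _ hmeas, ← Helper865.TAP.J3.layer hq1,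
          ENNReal.mul_rpow_of_nonneg _ _ hq1.le]
        have e3 : ENNReal.ofReal (g t) * ENNReal.ofReal (g t) ^ (q - 1) =
            ENNReal.ofReal (g t) ^ q := by
          rcases eq_or_ne (ENNReal.ofReal (g t)) 0 with h0 | h0
          · rw [h0, zero_mul, ENNReal.zero_rpow_of_pos hq0]
          · have := ENNReal.rpow_add 1 (q - 1) h0 ENNReal.ofReal_ne_top
            rw [ENNReal.rpow_one, add_sub_cancel] at this
            exact this.symm
        calc ENNReal.ofReal (g t) * (2 ^ (q - 1) * ENNReal.ofReal (g t) ^ (q - 1))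
            = 2 ^ (q - 1) * (ENNReal.ofReal (g t) * ENNReal.ofReal (g t) ^ (q - 1)) := by ring
          _ = _ := by rw [e3]
    _ = ENNReal.ofReal (2 * 5 ^ n * q / (q - 1)) * 2 ^ (q - 1) *
          ∫⁻ t, ENNReal.ofReal (g t) ^ q := by
        rw [lintegral_const_mul _ (hF.pow_const q)]

/-- the constant -/
noncomputable def CG (n : ℕ) : ℝ≥0∞ :=
  ∑' m : ℕ, ENNReal.ofReal (Real.exp (-Real.pi * (m : ℝ) ^ 2) * (2 * ((m : ℝ) + 1)) ^ n)

lemma CG_fin (n : ℕ) : CG n ≠ ⊤ := by
  unfold CG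
  have hs : Summable fun m : ℕ =>
      Real.exp (-Real.pi * (m : ℝ) ^ 2) * (2 * ((m : ℝ) + 1)) ^ n := by
    have h1 := Real.summable_pow_mul_exp_neg_nat_mul n (r := 1) one_pos
    have h2 := (summable_nat_add_iff (f := fun m : ℕ => (m : ℝ) ^ n * Real.exp (-1 * (m : ℝ))) 1).2 h1
    refine Summable.of_nonneg_of_le (fun m => by positivity) (fun m => ?_)
      (h2.mul_left (2 ^ n * Real.exp 1))
    have h3 : Real.exp (-Real.pi * (m : ℝ) ^ 2) ≤ Real.exp 1 * Real.exp (-1 * ((m + 1 : ℕ) : ℝ)) := by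
      rw [← Real.exp_add]
      apply Real.exp_le_exp.2
      push_cast
      have h4 : (m : ℝ) ≤ (m : ℝ) ^ 2 := by
        rcases Nat.eq_zero_or_pos m with h | h
        · simp [h]
        · have : (1 : ℝ) ≤ m := by exact_mod_cast h
          nlinarith
      have := Real.pi_gt_three
      nlinarith [sq_nonneg (m : ℝ)]
    calc Real.exp (-Real.pi * (m : ℝ) ^ 2) * (2 * ((m : ℝ) + 1)) ^ n
        ≤ (Real.exp 1 * Real.exp (-1 * ((m + 1 : ℕ) : ℝ))) * (2 * ((m : ℝ) + 1)) ^ n := by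
          gcongr
      _ = _ := by
          rw [mul_pow]
          push_cast
          ring
  rw [← ENNReal.ofReal_tsum_of_nonneg (fun m => by positivity) hs]
  exact ENNReal.ofReal_ne_top

lemma gauss_cubes {u : ℝ} (hu : 0 ≤ u) : ENNReal.ofReal (Real.exp (-Real.pi * u ^ 2)) ≤
    ∑' m : ℕ, ENNReal.ofReal (Real.exp (-Real.pi * (m : ℝ) ^ 2)) *
      (if u ≤ (m : ℝ) + 1 then 1 else 0) := by
  refine le_trans ?_ (ENNReal.le_tsum ⌊u⌋₊)
  have h1 := Nat.floor_le hu
  have h2 := Nat.lt_floor_add_one u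
  rw [if_pos h2.le, mul_one]
  apply ENNReal.ofReal_le_ofReal
  apply Real.exp_le_exp.2
  have h3 : ((⌊u⌋₊ : ℕ) : ℝ) ^ 2 ≤ u ^ 2 := by gcongr
  nlinarith [Real.pi_pos]

lemma gauss_MQ {g : (Fin n → ℝ) → ℝ} (hgm : Measurable g) (hg : Integrable g)
    (hg0 : ∀ x, 0 ≤ g x) (z : Fin n → ℝ) {s : ℝ} (hs : 0 < s) :
    ∫⁻ y, ENNReal.ofReal (g y) *
      ENNReal.ofReal ((s ^ n)⁻¹ * Real.exp (-Real.pi * (‖z - y‖ / s) ^ 2)) ≤ CG n * MQ g z := by
  have hm : ∀ m : ℕ, Measurable fun y : Fin n → ℝ => ENNReal.ofReal (g y) *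
      (ENNReal.ofReal ((s ^ n)⁻¹) * (ENNReal.ofReal (Real.exp (-Real.pi * (m : ℝ) ^ 2)) *
        (if ‖z - y‖ / s ≤ (m : ℝ) + 1 then 1 else 0))) := by
    intro m
    refine hgm.ennreal_ofReal.mul (measurable_const.mul (measurable_const.mul ?_))
    refine Measurable.ite ?_ measurable_const measurable_const
    exact measurableSet_le (by fun_prop) measurable_const
  calc ∫⁻ y, ENNReal.ofReal (g y) *
        ENNReal.ofReal ((s ^ n)⁻¹ * Real.exp (-Real.pi * (‖z - y‖ / s) ^ 2))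
      ≤ ∫⁻ y, ∑' m : ℕ, ENNReal.ofReal (g y) *
        (ENNReal.ofReal ((s ^ n)⁻¹) * (ENNReal.ofReal (Real.exp (-Real.pi * (m : ℝ) ^ 2)) *
          (if ‖z - y‖ / s ≤ (m : ℝ) + 1 then 1 else 0))) := by
        refine lintegral_mono fun y => ?_
        rw [ENNReal.tsum_mul_left, ENNReal.tsum_mul_left, ENNReal.ofReal_mul (by positivity)]
        gcongr
        exact gauss_cubes (by positivity)
    _ = ∑' m : ℕ, ∫⁻ y, ENNReal.ofReal (g y) *
        (ENNReal.ofReal ((s ^ n)⁻¹) * (ENNReal.ofReal (Real.exp (-Real.pi * (m : ℝ) ^ 2)) *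
          (if ‖z - y‖ / s ≤ (m : ℝ) + 1 then 1 else 0))) :=
        lintegral_tsum fun m => (hm m).aemeasurable
    _ ≤ ∑' m : ℕ, ENNReal.ofReal (Real.exp (-Real.pi * (m : ℝ) ^ 2) * (2 * ((m : ℝ) + 1)) ^ n) *
          MQ g z := by
        refine ENNReal.tsum_le_tsum fun m => ?_
        obtain ⟨ρ, hρ⟩ : ∃ ρ : ℝ, ρ = ((m : ℝ) + 1) * s := ⟨_, rfl⟩
        have hρ0 : 0 < ρ := by rw [hρ]; positivity
        have e1 : ∀ y : Fin n → ℝ, ENNReal.ofReal (g y) *
            (ENNReal.ofReal ((s ^ n)⁻¹) * (ENNReal.ofReal (Real.exp (-Real.pi * (m : ℝ) ^ 2)) *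
              (if ‖z - y‖ / s ≤ (m : ℝ) + 1 then 1 else 0))) =
            ENNReal.ofReal ((s ^ n)⁻¹ * Real.exp (-Real.pi * (m : ℝ) ^ 2)) *
              (closedBall z ρ).indicator (fun y => ENNReal.ofReal (g y)) y := by
          intro y
          have hiff : ‖z - y‖ / s ≤ (m : ℝ) + 1 ↔ y ∈ closedBall z ρ := by
            rw [div_le_iff₀ hs, ← hρ, mem_closedBall, dist_comm, dist_eq_norm]
          rw [ENNReal.ofReal_mul (by positivity)]
          by_cases h : y ∈ closedBall z ρ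
          · rw [if_pos (hiff.2 h), indicator_of_mem h]
            ring
          · rw [if_neg (fun h' => h (hiff.1 h')), indicator_of_notMem h]
            simp
        simp only [e1]
        rw [lintegral_const_mul' _ _ ENNReal.ofReal_ne_top,
          lintegral_indicator isClosed_closedBall.measurableSet,
          ← ofReal_integral_eq_lintegral_ofReal hg.integrableOn (ae_of_all _ hg0)]
        have h2 : ENNReal.ofReal ((∫ x in closedBall z ρ, g x) / (2 * ρ) ^ n) ≤ MQ g z := by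
          unfold MQ
          exact le_iSup_of_le ρ (le_iSup_of_le hρ0 le_rfl)
        refine le_trans (le_of_eq ?_) (mul_le_mul_right h2 _)
        rw [← ENNReal.ofReal_mul (by positivity), ← ENNReal.ofReal_mul (by positivity)]
        congr 1
        rw [hρ]
        have e4 : (2 * (((m : ℝ) + 1) * s)) ^ n = (2 * ((m : ℝ) + 1)) ^ n * s ^ n := by
          rw [← mul_pow]
          congr 1
          ring
        rw [e4]
        have h5 : (2 * ((m : ℝ) + 1)) ^ n ≠ 0 := by positivity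
        field_simp
    _ = CG n * MQ g z := by
        rw [ENNReal.tsum_mul_right]
        rfl

/-- the maximal function on Euclidean space -/
noncomputable def Mf (f : E n → ℂ) (x : E n) : ℝ≥0∞ :=
  MQ (fun y => ‖f (WithLp.toLp 2 y)‖) (WithLp.ofLp x)

lemma toLp_mp (n : ℕ) : MeasurePreserving (@WithLp.toLp 2 (Fin n → ℝ)) :=
  (PiLp.volume_preserving_toLp (Fin n))

lemma gfn_meas {f : E n → ℂ} (hf : GB f) :
    Measurable fun y : Fin n → ℝ => ‖f (WithLp.toLp 2 y)‖ :=
  (hf.meas.comp (toLp_mp n).measurable).norm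

lemma gfn_int {f : E n → ℂ} (hf : GB f) :
    Integrable fun y : Fin n → ℝ => ‖f (WithLp.toLp 2 y)‖ :=
  ((toLp_mp n).integrable_comp_of_integrable hf.int).norm

lemma Mf_meas {f : E n → ℂ} (hf : GB f) : Measurable (Mf f) := by
  unfold Mf
  exact (MQ_meas (gfn_int hf) fun _ => norm_nonneg _).comp
    (PiLp.volume_preserving_ofLp (Fin n)).measurable

theorem Mf_strong (n : ℕ) {q : ℝ} (hq : 1 < q) : ∃ C : ℝ≥0∞, C ≠ ⊤ ∧
    ∀ f : E n → ℂ, GB f → ∫⁻ x, Mf f x ^ q ≤ C * ∫⁻ x, ‖f x‖ₑ ^ q := by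
  obtain ⟨C, hC, h⟩ := MQ_strong n hq
  refine ⟨C, hC, fun f hf => ?_⟩
  have h1 := h _ (gfn_meas hf) (gfn_int hf) fun _ => norm_nonneg _
  have e1 : ∫⁻ x, Mf f x ^ q = ∫⁻ z, MQ (fun y => ‖f (WithLp.toLp 2 y)‖) z ^ q := by
    unfold Mf
    exact (PiLp.volume_preserving_ofLp (Fin n)).lintegral_comp
      ((MQ_meas (gfn_int hf) fun _ => norm_nonneg _).pow_const q)
  have e2 : ∫⁻ x, ‖f x‖ₑ ^ q = ∫⁻ y : Fin n → ℝ, ENNReal.ofReal ‖f (WithLp.toLp 2 y)‖ ^ q := by
    simp only [ofReal_norm]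
    exact ((toLp_mp n).lintegral_comp (hf.meas.enorm.pow_const q)).symm
  rw [e1, e2]
  exact h1

/-! ### the kernel -/

lemma KK_gauss {γ : ℝ} (hγ : 2 ≤ γ) {b : Fin n → ℝ} (hb : ∀ j, 2 ≤ b j ∧ b j ≤ γ) {v : ℝ}
    (hv : 0 < v) (t : ℝ) (z : E n) :
    ‖KK (fun j => b j / v) t z‖ ≤ (γ * (1 + |t|)) ^ n *
      (((Real.sqrt (γ * DD t / v)) ^ n)⁻¹ *
        Real.exp (-Real.pi * (‖WithLp.ofLp z‖ / Real.sqrt (γ * DD t / v)) ^ 2)) := by
  have hD := DD_pos t
  have hγ0 : 0 < γ := by linarith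
  obtain ⟨r, hr⟩ : ∃ r, r = γ * DD t / v := ⟨_, rfl⟩
  have hr0 : 0 < r := by rw [hr]; positivity
  rw [← hr]
  have hs0 : 0 < Real.sqrt r := Real.sqrt_pos.2 hr0
  have h0 : (0 : ℝ) < 1 + |t| := by positivity
  have h1 : ∀ j, ‖k1 (b j / v) t (z j)‖ ≤ (γ * (1 + |t|)) * (Real.sqrt r)⁻¹ *
      Real.exp (-Real.pi * (z j ^ 2 / r)) := by
    intro j
    have hbj := hb j
    have hbj0 : 0 < b j := by linarith [hbj.1]
    have ha : 0 < b j / v := by positivity
    rw [k1_norm ha]
    refine mul_le_mul ?_ ?_ (Real.exp_pos _).le (by positivity)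
    · have e : (1 / 2 : ℂ) = ((1 / 2 : ℝ) : ℂ) := by push_cast; ring
      rw [e, Complex.norm_cpow_real, tau_norm ha, ← Real.sqrt_eq_rpow]
      apply Real.sqrt_le_iff.2
      refine ⟨by positivity, ?_⟩
      rw [mul_pow, inv_pow, Real.sq_sqrt hr0.le, hr]
      have hsD : 0 < Real.sqrt (DD t) := Real.sqrt_pos.2 hD
      have hsD2 : Real.sqrt (DD t) ≤ 2 * (1 + |t|) := by
        apply Real.sqrt_le_iff.2
        refine ⟨by positivity, ?_⟩
        unfold DD
        nlinarith [abs_nonneg t, sq_abs t]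
      have hsq : Real.sqrt (DD t) * Real.sqrt (DD t) = DD t := Real.mul_self_sqrt hD.le
      rw [div_mul_eq_mul_div, one_div, inv_div, inv_div, ← mul_div_assoc,
        div_le_div_iff₀ (by positivity) (by positivity)]
      have h5 : γ * DD t ≤ (γ * (1 + |t|)) ^ 2 * (b j * Real.sqrt (DD t)) := by
        have h6 : DD t ≤ 2 * (1 + |t|) * Real.sqrt (DD t) := by
          calc DD t = Real.sqrt (DD t) * Real.sqrt (DD t) := hsq.symm
            _ ≤ _ := mul_le_mul_of_nonneg_right hsD2 hsD.le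
        have h7 : (1 : ℝ) ≤ 1 + |t| := by linarith [abs_nonneg t]
        have h8 : (1 + |t|) ≤ (1 + |t|) ^ 2 := by nlinarith
        calc γ * DD t ≤ γ * (2 * (1 + |t|) * Real.sqrt (DD t)) := by gcongr
          _ ≤ γ * (b j * (1 + |t|) * Real.sqrt (DD t)) := by gcongr; exact hbj.1
          _ ≤ γ * (b j * (1 + |t|) ^ 2 * Real.sqrt (DD t)) := by gcongr
          _ ≤ γ ^ 2 * (b j * (1 + |t|) ^ 2 * Real.sqrt (DD t)) := by
              gcongr
              nlinarith
          _ = _ := by ring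
      nlinarith
    · apply Real.exp_le_exp.2
      have h5 : b j / v * DD t ≤ r := by
        rw [hr, div_mul_eq_mul_div]
        gcongr
        exact hbj.2
      have h6 : z j ^ 2 / r ≤ z j ^ 2 / (b j / v * DD t) :=
        div_le_div_of_nonneg_left (sq_nonneg _) (by positivity) h5
      have h7 : -(Real.pi / (b j / v * DD t)) * z j ^ 2 =
          -(Real.pi * (z j ^ 2 / (b j / v * DD t))) := by ring
      rw [h7]
      nlinarith [Real.pi_pos]
  unfold KK
  rw [norm_prod]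
  refine (Finset.prod_le_prod (fun _ _ => norm_nonneg _) fun j _ => h1 j).trans ?_
  rw [Finset.prod_mul_distrib, Finset.prod_const, Finset.card_univ, Fintype.card_fin,
    ← Real.exp_sum, mul_pow, mul_assoc, inv_pow]
  refine mul_le_mul_of_nonneg_left (mul_le_mul_of_nonneg_left ?_ (by positivity)) (by positivity)
  apply Real.exp_le_exp.2
  rw [← Finset.mul_sum, ← Finset.sum_div, div_pow, Real.sq_sqrt hr0.le]
  have h8 : ‖WithLp.ofLp z‖ ^ 2 ≤ ∑ j, z j ^ 2 := by
    have h9 : ‖WithLp.ofLp z‖ ≤ Real.sqrt (∑ j, z j ^ 2) := by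
      rw [pi_norm_le_iff_of_nonneg (Real.sqrt_nonneg _)]
      intro i
      apply Real.abs_le_sqrt
      exact Finset.single_le_sum (f := fun j => z j ^ 2) (fun j _ => sq_nonneg _)
        (Finset.mem_univ i)
    calc ‖WithLp.ofLp z‖ ^ 2 ≤ Real.sqrt (∑ j, z j ^ 2) ^ 2 := by gcongr
      _ = _ := Real.sq_sqrt (Finset.sum_nonneg fun j _ => sq_nonneg _)
  have h10 : ‖WithLp.ofLp z‖ ^ 2 / r ≤ (∑ j, z j ^ 2) / r := by gcongr
  nlinarith [Real.pi_pos]

lemma cv_Mf {γ : ℝ} (hγ : 2 ≤ γ) {b : Fin n → ℝ} (hb : ∀ j, 2 ≤ b j ∧ b j ≤ γ) {v : ℝ}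
    (hv : 0 < v) (t : ℝ) {f : E n → ℂ} (hf : GB f) (x : E n) :
    ‖cv (KK (fun j => b j / v) t) f x‖ₑ ≤
      ENNReal.ofReal ((γ * (1 + |t|)) ^ n) * (CG n * Mf f x) := by
  have hD := DD_pos t
  have hγ0 : 0 < γ := by linarith
  obtain ⟨s, hs⟩ : ∃ s, s = Real.sqrt (γ * DD t / v) := ⟨_, rfl⟩
  have hs0 : 0 < s := by rw [hs]; exact Real.sqrt_pos.2 (by positivity)
  unfold cv
  refine (enorm_integral_le_lintegral_enorm _).trans ?_
  have h1 : ∀ y : E n, ‖f y * KK (fun j => b j / v) t (x - y)‖ₑ ≤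
      ENNReal.ofReal ((γ * (1 + |t|)) ^ n) * (‖f y‖ₑ *
        ENNReal.ofReal ((s ^ n)⁻¹ *
          Real.exp (-Real.pi * (‖WithLp.ofLp x - WithLp.ofLp y‖ / s) ^ 2))) := by
    intro y
    rw [enorm_mul]
    have h2 := KK_gauss hγ hb hv t (x - y)
    rw [← hs] at h2
    have h3 : ‖KK (fun j => b j / v) t (x - y)‖ₑ ≤ ENNReal.ofReal ((γ * (1 + |t|)) ^ n) *
        ENNReal.ofReal ((s ^ n)⁻¹ *
          Real.exp (-Real.pi * (‖WithLp.ofLp x - WithLp.ofLp y‖ / s) ^ 2)) := by
      rw [← ofReal_norm, ← ENNReal.ofReal_mul (by positivity)]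
      exact ENNReal.ofReal_le_ofReal h2
    calc ‖f y‖ₑ * ‖KK (fun j => b j / v) t (x - y)‖ₑ ≤ ‖f y‖ₑ *
        (ENNReal.ofReal ((γ * (1 + |t|)) ^ n) *
        ENNReal.ofReal ((s ^ n)⁻¹ *
          Real.exp (-Real.pi * (‖WithLp.ofLp x - WithLp.ofLp y‖ / s) ^ 2))) := mul_le_mul_right h3 _
      _ = _ := by ring
  refine (lintegral_mono h1).trans ?_
  rw [lintegral_const_mul' _ _ ENNReal.ofReal_ne_top]
  refine mul_le_mul_right ?_ _
  have h4 := gauss_MQ (gfn_meas hf) (gfn_int hf) (fun _ => norm_nonneg _) (WithLp.ofLp x) hs0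
  refine le_trans (le_of_eq ?_) h4
  have hm : Measurable fun y : Fin n → ℝ => ENNReal.ofReal ‖f (WithLp.toLp 2 y)‖ *
      ENNReal.ofReal ((s ^ n)⁻¹ * Real.exp (-Real.pi * (‖WithLp.ofLp x - y‖ / s) ^ 2)) := by
    refine (gfn_meas hf).ennreal_ofReal.mul (Measurable.ennreal_ofReal ?_)
    fun_prop
  have h5 := (PiLp.volume_preserving_ofLp (Fin n)).lintegral_comp hm
  rw [← h5]
  refine lintegral_congr fun y => ?_
  rw [ofReal_norm]

theorem FF_sup (hn : 1 ≤ n) {δ : ℝ} (hδ : 0 ≤ δ) {b : Fin n → ℝ} (hb : ∀ j, 0 < b j)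
    {f : E n → ℂ} (hf : GB f) (x : E n) (v : ℝ) :
    ‖FF δ b f x v‖ₑ ≤ ENNReal.ofReal (Real.Gamma (δ + 1)) * BM δ b f x := by
  have hI := FF_int hδ hb hf.int x
  have hi := (hh_GB hn hδ hb hf x).int
  have e : FF δ b f x v = 𝓕⁻ (𝓕 (FF δ b f x)) v := by
    rw [(FF_cont hn hδ hb hf.int x).fourierInv_fourier_eq hI hi]
  rw [e, Real.fourierInv_eq_fourier_neg, Real.fourier_eq]
  refine (enorm_integral_le_lintegral_enorm _).trans ?_
  unfold BM
  rw [← lintegral_const_mul' _ _ ENNReal.ofReal_ne_top]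
  refine lintegral_mono fun t => ?_
  have e1 : ‖Real.fourierChar (-⟪t, -v⟫) • 𝓕 (FF δ b f x) t‖ₑ = ‖𝓕 (FF δ b f x) t‖ₑ := by
    rw [← ofReal_norm, ← ofReal_norm, Circle.norm_smul]
  rw [e1, FF_fourier hδ hb hf, enorm_mul, ← mul_assoc]
  refine mul_le_mul_left ?_ _
  unfold wt
  rw [← ofReal_norm, ← ENNReal.ofReal_mul (Real.Gamma_pos_of_pos (by linarith)).le]
  exact ENNReal.ofReal_le_ofReal (lap_bd hδ t)

/-- large order: the means of all radii are controlled by the maximal function -/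
theorem SS_large (n : ℕ) (hn : 1 ≤ n) (γ Δ : ℝ) (hγ : 2 ≤ γ) (hΔ : (n : ℝ) + 1 ≤ Δ) :
    ∃ C : ℝ≥0∞, C ≠ ⊤ ∧ ∀ (f : E n → ℂ), GB f → ∀ (b : Fin n → ℝ), (∀ j, 2 ≤ b j ∧ b j ≤ γ) →
      ∀ v : ℝ, 0 < v → ∀ x, ‖SS Δ (fun j => b j / v) f x‖ₑ ≤ C * Mf f x := by
  have hγ0 : 0 < γ := by linarith
  have hn0 : (0 : ℝ) ≤ n := Nat.cast_nonneg n
  have hΔ0 : 0 ≤ Δ := by linarith
  refine ⟨ENNReal.ofReal (Real.exp Real.pi) * (ENNReal.ofReal (Real.Gamma (Δ + 1)) *
    ((∫⁻ t, wt (-2) t) * (ENNReal.ofReal (γ ^ n) * CG n))), ?_, ?_⟩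
  · refine ENNReal.mul_ne_top ENNReal.ofReal_ne_top (ENNReal.mul_ne_top ENNReal.ofReal_ne_top
      (ENNReal.mul_ne_top (wt_fin (by norm_num)).ne (ENNReal.mul_ne_top ENNReal.ofReal_ne_top
        (CG_fin n))))
  intro f hf b hb v hv x
  have ha : ∀ j, 0 < (fun j => b j / v) j := fun j => by
    have := (hb j).1
    simp only
    positivity
  have h1 := SS_FF Δ (fun j => b j / v) f x (v := 1) one_pos
  simp only [div_one] at h1
  rw [h1, enorm_mul]
  have h2 : ‖(((1 : ℝ) ^ (-Δ) * Real.exp (Real.pi * 1) : ℝ) : ℂ)‖ₑ =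
      ENNReal.ofReal (Real.exp Real.pi) := by
    rw [← ofReal_norm, Complex.norm_real, Real.one_rpow, one_mul, mul_one,
      Real.norm_of_nonneg (Real.exp_pos _).le]
  rw [h2, mul_assoc]
  refine mul_le_mul_right ((FF_sup hn hΔ0 ha hf x 1).trans ?_) _
  rw [mul_assoc]
  refine mul_le_mul_right ?_ _
  unfold BM
  calc ∫⁻ t, wt (-(1 + Δ)) t * ‖cv (KK (fun j => b j / v) t) f x‖ₑ
      ≤ ∫⁻ t, wt (-2) t * (ENNReal.ofReal (γ ^ n) * (CG n * Mf f x)) := by
        refine lintegral_mono fun t => ?_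
        refine (mul_le_mul_right (cv_Mf hγ hb hv t hf x) _).trans ?_
        have h0 : (0 : ℝ) < 1 + |t| := by positivity
        rw [mul_pow, ENNReal.ofReal_mul (by positivity)]
        have e : wt (-(1 + Δ)) t * ENNReal.ofReal ((1 + |t|) ^ n) ≤ wt (-2) t := by
          unfold wt
          rw [← ENNReal.ofReal_mul (by positivity), ← Real.rpow_natCast, ← Real.rpow_add h0]
          apply ENNReal.ofReal_le_ofReal
          exact Real.rpow_le_rpow_of_exponent_le (by linarith [abs_nonneg t]) (by linarith)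
        calc wt (-(1 + Δ)) t * (ENNReal.ofReal (γ ^ n) * ENNReal.ofReal ((1 + |t|) ^ n) *
              (CG n * Mf f x))
            = (wt (-(1 + Δ)) t * ENNReal.ofReal ((1 + |t|) ^ n)) *
              (ENNReal.ofReal (γ ^ n) * (CG n * Mf f x)) := by ring
          _ ≤ _ := mul_le_mul_left e _
    _ = (∫⁻ t, wt (-2) t) * (ENNReal.ofReal (γ ^ n) * (CG n * Mf f x)) :=
        lintegral_mul_const _ (wt_meas _)
    _ = _ := by ring

end Pool.Agent.TH310.BZ
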