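import Mathlib
import Pool.Agent.TH310.BZ.Max5
import Pool.Agent.TH310.BZ.Max6
set_option autoImplicit false

/-! The global maximal theorem, averaged over the ellipsoids. -/

namespace Pool.Agent.TH310.BZ

open Complex MeasureTheory Set Filter Topology
open scoped ENNReal FourierTransform ComplexConjugate RealInnerProductSpace

variable {n : ℕ}

/-- the maximal bound, with a jointly measurable majorant -/
def PP (n : ℕ) (γ p δ : ℝ) : Prop := ∃ C : ℝ≥0∞, C ≠ ⊤ ∧ ∀ f : E n → ℂ, GB f →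
  ∃ A : (Fin n → ℝ) × E n → ℝ≥0∞, Measurable A ∧
    (∀ b : Fin n → ℝ, (∀ j, 2 ≤ b j ∧ b j ≤ γ) → ∀ v : ℝ, 0 < v → ∀ x,
      ‖SS δ (fun j => b j / v) f x‖ₑ ≤ A (b, x)) ∧
    ∫⁻ b, ∫⁻ x, A (b, x) ^ p ∂volume ∂(nu n 2 γ) ≤ C * ∫⁻ x, ‖f x‖ₑ ^ p

lemma nu_univ (n : ℕ) (α γ : ℝ) : nu n α γ univ ≠ ⊤ := by
  rw [nu_eq, Measure.restrict_apply_univ]
  exact (isCompact_univ_pi fun _ => isCompact_Icc).measure_lt_top.ne

lemma sect_meas {A : (Fin n → ℝ) × E n → ℝ≥0∞} (hA : Measurable A) (b : Fin n → ℝ) :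
    Measurable fun x : E n => A (b, x) := by
  have h5 : Measurable fun x : E n => (b, x) := measurable_const.prodMk measurable_id
  have h6 := hA.comp h5
  simp only [Function.comp_def] at h6
  exact h6

theorem PP_large (n : ℕ) (hn : 1 ≤ n) (γ p Δ : ℝ) (hγ : 2 ≤ γ) (hp : 2 ≤ p)
    (hΔ : (n : ℝ) + 1 ≤ Δ) : PP n γ p Δ := by
  obtain ⟨C1, hC1, h1⟩ := SS_large n hn γ Δ hγ hΔ
  obtain ⟨C2, hC2, h2⟩ := Mf_strong n (q := p) (by linarith)
  have hp0 : 0 ≤ p := by linarith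
  refine ⟨C1 ^ p * C2 * nu n 2 γ univ, ENNReal.mul_ne_top (ENNReal.mul_ne_top
    (ENNReal.rpow_ne_top_of_nonneg hp0 hC1) hC2) (nu_univ n 2 γ), fun f hf => ?_⟩
  have hm : Measurable fun q : (Fin n → ℝ) × E n => C1 * Mf f q.2 :=
    ((Mf_meas hf).comp measurable_snd).const_mul C1
  refine ⟨fun q => C1 * Mf f q.2, hm, fun b hb v hv x => h1 f hf b hb v hv x, ?_⟩
  simp only
  rw [lintegral_const]
  have e : ∫⁻ x, (C1 * Mf f x) ^ p = C1 ^ p * ∫⁻ x, Mf f x ^ p := by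
    rw [← lintegral_const_mul' _ _ (ENNReal.rpow_ne_top_of_nonneg hp0 hC1)]
    refine lintegral_congr fun x => ?_
    rw [ENNReal.mul_rpow_of_nonneg _ _ hp0]
  rw [e]
  calc C1 ^ p * (∫⁻ x, Mf f x ^ p) * nu n 2 γ univ
      ≤ C1 ^ p * (C2 * ∫⁻ x, ‖f x‖ₑ ^ p) * nu n 2 γ univ := by
        gcongr
        exact h2 f hf
    _ = _ := by ring

theorem PP_step (n : ℕ) (hn : 1 ≤ n) (γ p δ : ℝ) (hγ : 2 ≤ γ) (hδ : 0 < δ) (hp : 2 ≤ p)
    (hp4 : p ≤ 4) (h : PP n γ p (δ + 1)) : PP n γ p δ := by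
  obtain ⟨C1, hC1, h1⟩ := h
  have h2 := fun j : Fin n => AT_p n hn γ δ p hγ hδ hp hp4 j
  choose C2 hC2 h2 using h2
  have hp0 : 0 ≤ p := by linarith
  obtain ⟨K, hK⟩ : ∃ K : ℝ≥0∞, K = (2 : ℝ≥0∞) ^ (p - 1) := ⟨_, rfl⟩
  have hKt : K ≠ ⊤ := by
    rw [hK]
    exact ENNReal.rpow_ne_top_of_nonneg (by linarith) (by norm_num)
  obtain ⟨L, hL⟩ : ∃ L : ℝ≥0∞, L = ((Finset.univ : Finset (Fin n)).card : ℝ≥0∞) ^ (p - 1) :=
    ⟨_, rfl⟩
  have hLt : L ≠ ⊤ := by
    rw [hL]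
    exact ENNReal.rpow_ne_top_of_nonneg (by linarith) (by simp)
  refine ⟨K * (C1 + L * ∑ j, C2 j), ENNReal.mul_ne_top hKt (ENNReal.add_ne_top.2 ⟨hC1,
    ENNReal.mul_ne_top hLt (ENNReal.sum_ne_top.2 fun j _ => hC2 j)⟩), fun f hf => ?_⟩
  obtain ⟨A, hA, hA1, hA2⟩ := h1 f hf
  have hAT : ∀ j : Fin n, Measurable fun q : (Fin n → ℝ) × E n => AT p γ δ j q.1 f q.2 :=
    fun j => AT_meas p γ δ j hf
  have hS : Measurable fun q : (Fin n → ℝ) × E n => ∑ j, AT p γ δ j q.1 f q.2 :=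
    Finset.measurable_fun_sum _ fun j _ => hAT j
  refine ⟨fun q => A q + ∑ j, AT p γ δ j q.1 f q.2, hA.add hS, fun b hb v hv x => ?_, ?_⟩
  · have ha : ∀ j, 0 < (fun j => b j / v) j := fun j => by
      have := (hb j).1
      simp only
      positivity
    rw [SS_split hδ.le ha hf.int]
    refine (enorm_add_le _ _).trans (add_le_add (hA1 b hb v hv x) ?_)
    refine (enorm_sum_le _ _).trans (Finset.sum_le_sum fun j _ => ?_)
    exact TT_AT hn (by linarith) hδ.le hb hf j x hv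
  · have hpt : ∀ b x, (A (b, x) + ∑ j, AT p γ δ j b f x) ^ p ≤
        K * (A (b, x) ^ p + L * ∑ j, AT p γ δ j b f x ^ p) := by
      intro b x
      rw [hK]
      refine (ENNReal.rpow_add_le_mul_rpow_add_rpow _ _ (by linarith)).trans ?_
      refine mul_le_mul_right (add_le_add le_rfl ?_) _
      rw [hL]
      exact ENNReal.rpow_sum_le_const_mul_sum_rpow _ _ (by linarith)
    have hm1 : ∀ b : Fin n → ℝ, Measurable fun x : E n => A (b, x) ^ p := fun b =>
      (sect_meas hA b).pow_const p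
    have hm2 : ∀ (b : Fin n → ℝ) (j : Fin n), Measurable fun x : E n => AT p γ δ j b f x ^ p :=
      fun b j => (sect_meas (hAT j) b).pow_const p
    have hm3 : Measurable fun b : Fin n → ℝ => ∫⁻ x, A (b, x) ^ p :=
      (hA.pow_const p).lintegral_prod_right'
    have hm4 : ∀ j : Fin n, Measurable fun b : Fin n → ℝ => ∫⁻ x, AT p γ δ j b f x ^ p :=
      fun j => ((hAT j).pow_const p).lintegral_prod_right'
    calc ∫⁻ b, ∫⁻ x, (A (b, x) + ∑ j, AT p γ δ j b f x) ^ p ∂volume ∂(nu n 2 γ)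
        ≤ ∫⁻ b, ∫⁻ x, K * (A (b, x) ^ p + L * ∑ j, AT p γ δ j b f x ^ p)
            ∂volume ∂(nu n 2 γ) :=
          lintegral_mono fun b => lintegral_mono fun x => hpt b x
      _ = ∫⁻ b, K * (∫⁻ x, A (b, x) ^ p ∂volume +
            L * ∑ j, ∫⁻ x, AT p γ δ j b f x ^ p ∂volume) ∂(nu n 2 γ) := by
          refine lintegral_congr fun b => ?_
          rw [lintegral_const_mul' _ _ hKt, lintegral_add_left (hm1 b),
            lintegral_const_mul' _ _ hLt, lintegral_finset_sum _ fun j _ => hm2 b j]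
      _ = K * (∫⁻ b, ∫⁻ x, A (b, x) ^ p ∂volume ∂(nu n 2 γ) +
            L * ∑ j, ∫⁻ b, ∫⁻ x, AT p γ δ j b f x ^ p ∂volume ∂(nu n 2 γ)) := by
          rw [lintegral_const_mul' _ _ hKt, lintegral_add_left hm3,
            lintegral_const_mul' _ _ hLt, lintegral_finset_sum _ fun j _ => hm4 j]
      _ ≤ K * (C1 * (∫⁻ x, ‖f x‖ₑ ^ p) + L * ∑ j, C2 j * ∫⁻ x, ‖f x‖ₑ ^ p) := by
          gcongr with j
          exact h2 j f hf
      _ = _ := by
          rw [← Finset.sum_mul]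
          ring

theorem PP_all (n : ℕ) (hn : 1 ≤ n) (γ p : ℝ) (hγ : 2 ≤ γ) (hp : 2 ≤ p) (hp4 : p ≤ 4) (k : ℕ) :
    ∀ δ : ℝ, 0 < δ → (n : ℝ) + 1 ≤ δ + k → PP n γ p δ := by
  induction k with
  | zero =>
    intro δ _ h
    exact PP_large n hn γ p δ hγ hp (by simpa using h)
  | succ k ih =>
    intro δ hδ h
    refine PP_step n hn γ p δ hγ hδ hp hp4 (ih (δ + 1) (by linarith) ?_)
    push_cast at h
    linarith

theorem PP_pos (n : ℕ) (hn : 1 ≤ n) (γ p δ : ℝ) (hγ : 2 ≤ γ) (hp : 2 ≤ p) (hp4 : p ≤ 4)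
    (hδ : 0 < δ) : PP n γ p δ :=
  PP_all n hn γ p hγ hp hp4 (n + 1) δ hδ (by push_cast; linarith)

/-- all integrable functions -/
theorem PP_int (n : ℕ) (hn : 1 ≤ n) (γ p δ : ℝ) (hγ : 2 ≤ γ) (hp : 2 ≤ p) (hp4 : p ≤ 4)
    (hδ : 0 < δ) : ∃ C : ℝ≥0∞, C ≠ ⊤ ∧ ∀ f : E n → ℂ, Integrable f →
      ∃ A : (Fin n → ℝ) × E n → ℝ≥0∞, Measurable A ∧
        (∀ b : Fin n → ℝ, (∀ j, 2 ≤ b j ∧ b j ≤ γ) → ∀ v : ℝ, 0 < v → ∀ x,
          ‖SS δ (fun j => b j / v) f x‖ₑ ≤ A (b, x)) ∧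
        ∫⁻ b, ∫⁻ x, A (b, x) ^ p ∂volume ∂(nu n 2 γ) ≤ C * ∫⁻ x, ‖f x‖ₑ ^ p := by
  obtain ⟨C, hC, hP⟩ := PP_pos n hn γ p δ hγ hp hp4 hδ
  have hp0 : 0 < p := by linarith
  -- measurable functions
  have main : ∀ f : E n → ℂ, Measurable f → Integrable f →
      ∃ A : (Fin n → ℝ) × E n → ℝ≥0∞, Measurable A ∧
        (∀ b : Fin n → ℝ, (∀ j, 2 ≤ b j ∧ b j ≤ γ) → ∀ v : ℝ, 0 < v → ∀ x,
          ‖SS δ (fun j => b j / v) f x‖ₑ ≤ A (b, x)) ∧
        ∫⁻ b, ∫⁻ x, A (b, x) ^ p ∂volume ∂(nu n 2 γ) ≤ C * ∫⁻ x, ‖f x‖ₑ ^ p := by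
    intro f hf hi'
    have hk := fun k : ℕ => hP (lo k f) (lo_GB k hf hi' (by positivity))
    choose A hA hA1 hA2 using hk
    have hm : Measurable fun q : (Fin n → ℝ) × E n => liminf (fun k : ℕ => A k q ^ p) atTop :=
      Measurable.liminf fun k => (hA k).pow_const p
    refine ⟨fun q => (liminf (fun k : ℕ => A k q ^ p) atTop) ^ (1 / p), hm.pow_const _,
      fun b hb v hv x => ?_, ?_⟩
    · have ha : ∀ j, 0 < (fun j => b j / v) j := fun j => by
        have := (hb j).1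
        simp only
        positivity
      have h1 : Tendsto (fun k : ℕ => ‖SS δ (fun j => b j / v) (lo k f) x‖ₑ ^ p) atTop
          (𝓝 (‖SS δ (fun j => b j / v) f x‖ₑ ^ p)) :=
        ((ENNReal.continuous_rpow_const (y := p)).tendsto _).comp
          ((continuous_enorm.tendsto _).comp (SS_tendsto hδ.le ha hf hi' x))
      have h2 : ‖SS δ (fun j => b j / v) f x‖ₑ ^ p ≤
          liminf (fun k : ℕ => A k (b, x) ^ p) atTop := by
        rw [← h1.liminf_eq]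
        refine liminf_le_liminf (Eventually.of_forall fun k => ?_)
        gcongr
        exact hA1 k b hb v hv x
      calc ‖SS δ (fun j => b j / v) f x‖ₑ
          = (‖SS δ (fun j => b j / v) f x‖ₑ ^ p) ^ (1 / p) := by
            rw [← ENNReal.rpow_mul, mul_one_div_cancel hp0.ne', ENNReal.rpow_one]
        _ ≤ (liminf (fun k : ℕ => A k (b, x) ^ p) atTop) ^ (1 / p) := by gcongr
    · have e0 : ∀ q : (Fin n → ℝ) × E n,
          ((liminf (fun k : ℕ => A k q ^ p) atTop) ^ (1 / p)) ^ p =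
          liminf (fun k : ℕ => A k q ^ p) atTop := by
        intro q
        rw [← ENNReal.rpow_mul, one_div_mul_cancel hp0.ne', ENNReal.rpow_one]
      simp only [e0]
      have h3 := lintegral_prod (μ := nu n 2 γ) (ν := (volume : Measure (E n)))
        (fun q : (Fin n → ℝ) × E n => liminf (fun k : ℕ => A k q ^ p) atTop) hm.aemeasurable
      rw [← h3]
      calc ∫⁻ q : (Fin n → ℝ) × E n, liminf (fun k : ℕ => A k q ^ p) atTop
            ∂((nu n 2 γ).prod volume)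
          ≤ liminf (fun k : ℕ => ∫⁻ q : (Fin n → ℝ) × E n, A k q ^ p
            ∂((nu n 2 γ).prod volume)) atTop := lintegral_liminf_le fun k => (hA k).pow_const p
        _ ≤ liminf (fun _ : ℕ => C * ∫⁻ x, ‖f x‖ₑ ^ p) atTop := by
            refine liminf_le_liminf (Eventually.of_forall fun k => ?_)
            rw [lintegral_prod _ ((hA k).pow_const p).aemeasurable]
            refine (hA2 k).trans ?_
            gcongr with x
            rw [← ofReal_norm, ← ofReal_norm]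
            exact ENNReal.ofReal_le_ofReal (lo_le k f x)
        _ = _ := by simp
  refine ⟨C, hC, fun f hf => ?_⟩
  have hf1 : Measurable (hf.1.mk f) := hf.1.stronglyMeasurable_mk.measurable
  have hf2 : f =ᵐ[volume] hf.1.mk f := hf.1.ae_eq_mk
  have hf3 : Integrable (hf.1.mk f) := hf.congr hf2
  have e1 : 𝓕 f = 𝓕 (hf.1.mk f) := by
    ext ξ
    rw [Real.fourier_eq, Real.fourier_eq]
    refine integral_congr_ae ?_
    filter_upwards [hf2] with y hy
    rw [hy]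
  have e2 : ∀ a x, SS δ a f x = SS δ a (hf.1.mk f) x := by
    intro a x
    unfold SS
    rw [e1]
  obtain ⟨A, h1, h2, h3⟩ := main _ hf1 hf3
  refine ⟨A, h1, fun b hb v hv x => ?_, h3.trans (le_of_eq ?_)⟩
  · rw [e2]
    exact h2 b hb v hv x
  · congr 1
    refine lintegral_congr_ae ?_
    filter_upwards [hf2] with y hy
    rw [hy]

/-- change of variables in the parameter -/
lemma nu_lam {α β lam : ℝ} (hlam : 0 < lam) (G : (Fin n → ℝ) → ℝ≥0∞) (hG : Measurable G) :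
    ∫⁻ a, G (fun j => lam * a j) ∂(nu n α β) =
      ENNReal.ofReal ((lam ^ n)⁻¹) * ∫⁻ b, G b ∂(nu n (lam * α) (lam * β)) := by
  have hB : MeasurableSet (univ.pi fun _ : Fin n => Icc α β) :=
    MeasurableSet.univ_pi fun _ => measurableSet_Icc
  have hB2 : MeasurableSet (univ.pi fun _ : Fin n => Icc (lam * α) (lam * β)) :=
    MeasurableSet.univ_pi fun _ => measurableSet_Icc
  have hmap := Measure.map_addHaar_smul (volume : Measure (Fin n → ℝ)) (r := lam) hlam.ne'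
  have hH : Measurable ((univ.pi fun _ : Fin n => Icc (lam * α) (lam * β)).indicator G) :=
    hG.indicator hB2
  have h1 : ∫⁻ a, (univ.pi fun _ : Fin n => Icc (lam * α) (lam * β)).indicator G (lam • a) =
      ENNReal.ofReal ((lam ^ n)⁻¹) *
        ∫⁻ b, (univ.pi fun _ : Fin n => Icc (lam * α) (lam * β)).indicator G b := by
    rw [← lintegral_map hH (measurable_const_smul lam), hmap, lintegral_smul_measure, smul_eq_mul]
    congr 2
    rw [Module.finrank_fintype_fun_eq_card, Fintype.card_fin, abs_of_pos (by positivity)]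
  rw [nu_eq, nu_eq, ← lintegral_indicator hB, ← lintegral_indicator hB2, ← h1]
  refine lintegral_congr fun a => ?_
  have hiff : lam • a ∈ (univ.pi fun _ : Fin n => Icc (lam * α) (lam * β)) ↔
      a ∈ univ.pi fun _ : Fin n => Icc α β := by
    simp only [mem_univ_pi, Pi.smul_apply, smul_eq_mul, mem_Icc]
    refine forall_congr' fun j => ?_
    rw [mul_le_mul_iff_right₀ hlam, mul_le_mul_iff_right₀ hlam]
  by_cases ha : a ∈ univ.pi fun _ : Fin n => Icc α β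
  · rw [indicator_of_mem ha, indicator_of_mem (hiff.2 ha)]
    rfl
  · rw [indicator_of_notMem ha, indicator_of_notMem (fun h => ha (hiff.1 h))]

/-- any box of parameters -/
theorem PP_box (n : ℕ) (hn : 1 ≤ n) (α β p δ : ℝ) (hα : 0 < α) (hαβ : α ≤ β) (hp : 2 ≤ p)
    (hp4 : p ≤ 4) (hδ : 0 < δ) : ∃ C : ℝ≥0∞, C ≠ ⊤ ∧ ∀ f : E n → ℂ, Integrable f →
      ∃ A : (Fin n → ℝ) × E n → ℝ≥0∞, Measurable A ∧
        (∀ a : Fin n → ℝ, (∀ j, α ≤ a j ∧ a j ≤ β) → ∀ v : ℝ, 0 < v → ∀ x,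
          ‖SS δ (fun j => a j / v) f x‖ₑ ≤ A (a, x)) ∧
        ∫⁻ a, ∫⁻ x, A (a, x) ^ p ∂volume ∂(nu n α β) ≤ C * ∫⁻ x, ‖f x‖ₑ ^ p := by
  obtain ⟨lam, hlam⟩ : ∃ l, l = 2 / α := ⟨_, rfl⟩
  have hl0 : 0 < lam := by rw [hlam]; positivity
  have hlα : lam * α = 2 := by rw [hlam]; field_simp
  have hγ : 2 ≤ lam * β := by
    rw [← hlα]
    gcongr
  obtain ⟨C, hC, h⟩ := PP_int n hn (lam * β) p δ hγ hp hp4 hδ
  refine ⟨ENNReal.ofReal ((lam ^ n)⁻¹) * C, ENNReal.mul_ne_top ENNReal.ofReal_ne_top hC,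
    fun f hf => ?_⟩
  obtain ⟨A, hA, hA1, hA2⟩ := h f hf
  have hs : Measurable fun q : (Fin n → ℝ) × E n => ((fun j => lam * q.1 j : Fin n → ℝ), q.2) := by
    refine Measurable.prodMk ?_ measurable_snd
    fun_prop
  refine ⟨fun q => A ((fun j => lam * q.1 j), q.2), ?_, fun a ha v hv x => ?_, ?_⟩
  · have h6 := hA.comp hs
    simp only [Function.comp_def] at h6
    exact h6
  · have hb : ∀ j, 2 ≤ lam * a j ∧ lam * a j ≤ lam * β := by
      intro j
      constructor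
      · rw [← hlα]
        have := (ha j).1
        gcongr
      · have := (ha j).2
        gcongr
    have h3 := hA1 (fun j => lam * a j) hb (lam * v) (by positivity) x
    have e : (fun j => a j / v) = fun j => lam * a j / (lam * v) := by
      ext j
      field_simp
    rw [e]
    exact h3
  · have hG : Measurable fun b : Fin n → ℝ => ∫⁻ x, A (b, x) ^ p :=
      (hA.pow_const p).lintegral_prod_right'
    have h4 := nu_lam (α := α) (β := β) hl0 _ hG
    simp only at h4 ⊢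
    rw [h4, hlα, mul_assoc]
    exact mul_le_mul_right hA2 _

end Pool.Agent.TH310.BZ
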