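import Mathlib
import Pool.Agent.TH310.BZ.Max7
set_option autoImplicit false

/-! Almost everywhere and `L^p` convergence for almost every ellipsoid. -/

namespace Pool.Agent.TH310.BZ

open Complex MeasureTheory Set Filter Topology
open scoped ENNReal FourierTransform ComplexConjugate RealInnerProductSpace SchwartzMap ContDiff

variable {n : ℕ}

/-- smooth approximation -/
lemma approx {p : ℝ} (hp : 1 ≤ p) {f : E n → ℂ} (hf : Integrable f)
    (hfp : ∫⁻ x, ‖f x‖ₑ ^ p < ⊤) (η : ℝ) (hη : 0 < η) :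
    ∃ g : 𝓢(E n, ℂ), ∫⁻ x, ‖f x - g x‖ₑ ^ p ≤ ENNReal.ofReal η := by
  have hp0 : 0 < p := by linarith
  have h1 : ENNReal.ofReal p ≠ 0 := by
    rw [ne_eq, ENNReal.ofReal_eq_zero, not_le]
    exact hp0
  have h2 : (ENNReal.ofReal p).toReal = p := ENNReal.toReal_ofReal hp0.le
  have hmem : MemLp f (ENNReal.ofReal p) := by
    refine ⟨hf.1, ?_⟩
    rw [eLpNorm_lt_top_iff_lintegral_rpow_enorm_lt_top h1 ENNReal.ofReal_ne_top, h2]
    exact hfp
  obtain ⟨g, hg1, hg2, hg3⟩ := MemLp.exist_eLpNorm_sub_le (ENNReal.ofReal_ne_top)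
    (by rw [ENNReal.one_le_ofReal]; exact hp) hmem (ε := η ^ (1 / p)) (by positivity)
  refine ⟨hg1.toSchwartzMap hg2, ?_⟩
  rw [eLpNorm_eq_lintegral_rpow_enorm_toReal h1 ENNReal.ofReal_ne_top, h2] at hg3
  have h3 : ((∫⁻ x, ‖(f - g) x‖ₑ ^ p) ^ (1 / p)) ^ p ≤ (ENNReal.ofReal (η ^ (1 / p))) ^ p := by
    gcongr
  rw [← ENNReal.rpow_mul, one_div_mul_cancel hp0.ne', ENNReal.rpow_one,
    ENNReal.ofReal_rpow_of_pos (by positivity), ← Real.rpow_mul hη.le,
    one_div_mul_cancel hp0.ne', Real.rpow_one] at h3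
  exact h3

lemma a_pos {a : Fin n → ℝ} (ha : ∀ j, 0 < a j) {R : ℝ} (hR : 0 < R) :
    ∀ j, 0 < (fun j => a j / R ^ 2) j := fun j => by
  have := ha j
  simp only
  positivity

lemma QF_div (a : Fin n → ℝ) (v : ℝ) (ξ : E n) : QF (fun j => a j / v) ξ = QF a ξ / v := by
  unfold QF
  rw [Finset.sum_div]
  exact Finset.sum_congr rfl fun j _ => by ring

/-- convergence for Schwartz functions -/
lemma SS_schwartz {δ : ℝ} (hδ : 0 ≤ δ) {a : Fin n → ℝ} (ha : ∀ j, 0 < a j) (g : 𝓢(E n, ℂ))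
    (x : E n) : Tendsto (fun R : ℝ => SS δ (fun j => a j / R ^ 2) g x) atTop (𝓝 (g x)) := by
  have hF : Integrable (𝓕 (g : E n → ℂ)) := by
    rw [← SchwartzMap.fourier_coe]
    exact (𝓕 g).integrable
  have e : g x = ∫ ξ : E n, (1 : ℂ) * 𝓕 (g : E n → ℂ) ξ *
      cexp (((2 * Real.pi * ⟪x, ξ⟫ : ℝ) : ℂ) * I) := by
    have h1 : g x = 𝓕⁻ (𝓕 (g : E n → ℂ)) x := by
      rw [g.continuous.fourierInv_fourier_eq g.integrable hF]
    rw [h1, Real.fourierInv_eq']
    congr 1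
    ext ξ
    rw [smul_eq_mul, one_mul, mul_comm, real_inner_comm]
  rw [e]
  unfold SS
  refine tendsto_integral_filter_of_dominated_convergence
    (fun ξ => ‖𝓕 (g : E n → ℂ) ξ‖) ?_ ?_ hF.norm ?_
  · refine Eventually.of_forall fun R => ?_
    refine ((Complex.measurable_ofReal.comp (sm_meas δ _)).mul
      (meas_F g.integrable)).aestronglyMeasurable.mul (e_meas x)
  · filter_upwards [eventually_gt_atTop (0 : ℝ)] with R hR
    refine ae_of_all _ fun ξ => ?_
    rw [norm_mul, norm_mul, Complex.norm_exp_ofReal_mul_I, mul_one, Complex.norm_real,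
      Real.norm_of_nonneg (sm_nonneg _ _ _)]
    exact mul_le_of_le_one_left (norm_nonneg _) (sm_le_one hδ (a_pos ha hR) ξ)
  · refine ae_of_all _ fun ξ => ?_
    refine Tendsto.mul_const _ (Tendsto.mul_const _ ?_)
    have h1 : Tendsto (fun R : ℝ => sm δ (fun j => a j / R ^ 2) ξ) atTop (𝓝 1) := by
      have h2 : Tendsto (fun R : ℝ => QF a ξ / R ^ 2) atTop (𝓝 0) :=
        Tendsto.div_atTop tendsto_const_nhds (tendsto_pow_atTop two_ne_zero)
      have h3 : Tendsto (fun R : ℝ => (1 - QF a ξ / R ^ 2) ^ δ) atTop (𝓝 ((1 - 0) ^ δ)) :=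
        (tendsto_const_nhds.sub h2).rpow_const (Or.inr hδ)
      rw [sub_zero, Real.one_rpow] at h3
      refine h3.congr' ?_
      filter_upwards [h2.eventually (gt_mem_nhds one_pos)] with R hR
      unfold sm
      rw [QF_div, if_pos hR]
    have h4 := (Complex.continuous_ofReal.tendsto 1).comp h1
    simpa [Function.comp_def] using h4

lemma SS_m1 (δ : ℝ) {f : E n → ℂ} (hf : Integrable f) (a : Fin n → ℝ) :
    Measurable fun x : E n => SS δ a f x := by
  have h5 : Measurable fun x : E n => (a, x) := measurable_const.prodMk measurable_id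
  have h6 := (SS_meas2 δ hf).comp h5
  simp only [Function.comp_def] at h6
  exact h6

theorem conv (n : ℕ) (hn : 1 ≤ n) (α β p δ : ℝ) (hα : 0 < α) (hαβ : α ≤ β) (hp : 2 ≤ p)
    (hp4 : p ≤ 4) (hδ : 0 < δ) {f : E n → ℂ} (hf : Integrable f)
    (hfp : ∫⁻ x, ‖f x‖ₑ ^ p < ⊤) :
    ∀ᵐ a ∂(nu n α β), ∀ᵐ x, Tendsto (fun R : ℝ => SS δ (fun j => a j / R ^ 2) f x) atTop
      (𝓝 (f x)) := by
  obtain ⟨C, hC, h⟩ := PP_box n hn α β p δ hα hαβ hp hp4 hδ
  have hp0 : 0 < p := by linarith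
  have hg := fun k : ℕ => approx (by linarith) hf hfp ((1 / 2 : ℝ) ^ k) (by positivity)
  choose g hg using hg
  have hu : ∀ k, Integrable fun x => f x - g k x := fun k => hf.sub (g k).integrable
  have hA := fun k => h _ (hu k)
  choose A hA hA1 hA2 using hA
  have hsum : ∑' k : ℕ, ENNReal.ofReal ((1 / 2 : ℝ) ^ k) ≠ ⊤ := by
    rw [← ENNReal.ofReal_tsum_of_nonneg (fun k => by positivity)
      (summable_geometric_of_lt_one (by norm_num) (by norm_num))]
    exact ENNReal.ofReal_ne_top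
  have h1 : ∀ᵐ q ∂((nu n α β).prod (volume : Measure (E n))), ∑' k, A k q ^ p < ⊤ := by
    refine ae_lt_top (Measurable.ennreal_tsum fun k => (hA k).pow_const p) ?_
    rw [lintegral_tsum fun k => ((hA k).pow_const p).aemeasurable]
    refine ne_top_of_le_ne_top (ENNReal.mul_ne_top hC hsum) ?_
    rw [← ENNReal.tsum_mul_left]
    refine ENNReal.tsum_le_tsum fun k => ?_
    rw [lintegral_prod _ ((hA k).pow_const p).aemeasurable]
    exact (hA2 k).trans (mul_le_mul_right (hg k) _)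
  have h2 : ∀ᵐ x : E n, ∑' k, ‖f x - g k x‖ₑ ^ p < ⊤ := by
    have hm : ∀ k, AEMeasurable (fun x => ‖f x - g k x‖ₑ ^ p) volume := fun k =>
      (hu k).1.enorm.pow_const p
    refine ae_lt_top' (AEMeasurable.ennreal_tsum fun k => hm k) ?_
    rw [lintegral_tsum hm]
    exact ne_top_of_le_ne_top hsum (ENNReal.tsum_le_tsum fun k => hg k)
  have h3 := Measure.ae_ae_of_ae_prod h1
  filter_upwards [h3, nu_ae n α β] with a ha hab
  have hapos : ∀ j, 0 < a j := fun j => lt_of_lt_of_le hα (hab j).1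
  filter_upwards [ha, h2] with x hx1 hx2
  have h4 : Tendsto (fun k => A k (a, x) ^ p) atTop (𝓝 0) :=
    ENNReal.tendsto_atTop_zero_of_tsum_ne_top hx1.ne
  have h5 : Tendsto (fun k => ‖f x - g k x‖ₑ ^ p) atTop (𝓝 0) :=
    ENNReal.tendsto_atTop_zero_of_tsum_ne_top hx2.ne
  rw [Metric.tendsto_atTop]
  intro ε hε
  obtain ⟨k, hk1, hk2⟩ : ∃ k, A k (a, x) ^ p < ENNReal.ofReal ((ε / 4) ^ p) ∧
      ‖f x - g k x‖ₑ ^ p < ENNReal.ofReal ((ε / 4) ^ p) := by
    have hpos : 0 < ENNReal.ofReal ((ε / 4) ^ p) := by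
      rw [ENNReal.ofReal_pos]
      positivity
    exact ((h4.eventually (gt_mem_nhds hpos)).and (h5.eventually (gt_mem_nhds hpos))).exists
  rw [← ENNReal.ofReal_rpow_of_pos (by positivity)] at hk1 hk2
  rw [ENNReal.rpow_lt_rpow_iff hp0] at hk1 hk2
  have h6 := SS_schwartz hδ.le hapos (g k) x
  rw [Metric.tendsto_atTop] at h6
  obtain ⟨N, hN⟩ := h6 (ε / 4) (by positivity)
  refine ⟨max N 1, fun R hR => ?_⟩
  have hR1 : N ≤ R := (le_max_left _ _).trans hR
  have hR0 : 0 < R := lt_of_lt_of_le one_pos ((le_max_right _ _).trans hR)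
  have h7 := hN R hR1
  rw [dist_eq_norm] at h7 ⊢
  have h8 := hA1 k a (fun j => hab j) (R ^ 2) (by positivity) x
  have h9 : ‖SS δ (fun j => a j / R ^ 2) (fun x => f x - g k x) x‖ < ε / 4 := by
    have h10 := h8.trans_lt hk1
    rw [← ofReal_norm, ENNReal.ofReal_lt_ofReal_iff (by positivity)] at h10
    exact h10
  have h11 : ‖f x - g k x‖ < ε / 4 := by
    rw [← ofReal_norm, ENNReal.ofReal_lt_ofReal_iff (by positivity)] at hk2
    exact hk2
  have h12 : SS δ (fun j => a j / R ^ 2) f x =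
      SS δ (fun j => a j / R ^ 2) (fun x => f x - g k x) x +
      SS δ (fun j => a j / R ^ 2) (g k) x := by
    rw [← SS_add hδ.le (a_pos hapos hR0) (hu k) (g k).integrable]
    congr 1
    ext y
    ring
  rw [h12]
  have e : SS δ (fun j => a j / R ^ 2) (fun x => f x - g k x) x +
      SS δ (fun j => a j / R ^ 2) (g k) x - f x =
      SS δ (fun j => a j / R ^ 2) (fun x => f x - g k x) x +
      (SS δ (fun j => a j / R ^ 2) (g k) x - g k x) - (f x - g k x) := by ring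
  rw [e]
  refine (norm_sub_le _ _).trans_lt ?_
  have := norm_add_le (SS δ (fun j => a j / R ^ 2) (fun x => f x - g k x) x)
    (SS δ (fun j => a j / R ^ 2) (g k) x - g k x)
  linarith

theorem final_ae (n : ℕ) (hn : 1 ≤ n) (α β p δ : ℝ) (hα : 0 < α) (hαβ : α ≤ β) (hp : 2 ≤ p)
    (hp4 : p ≤ 4) (hδ : 0 < δ) {f : E n → ℂ} (hf : Integrable f)
    (hfp : ∫⁻ x, ‖f x‖ₑ ^ p < ⊤) :
    ∀ᵐ a ∂(nu n α β),
      (∫⁻ x, (⨆ (R : ℝ) (_ : 0 < R), ‖SS δ (fun j => a j / R ^ 2) f x‖ₑ) ^ p < ⊤) ∧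
      (∀ᵐ x, Tendsto (fun R : ℝ => SS δ (fun j => a j / R ^ 2) f x) atTop (𝓝 (f x))) ∧
      Tendsto (fun R : ℝ => ∫⁻ x, ‖SS δ (fun j => a j / R ^ 2) f x - f x‖ₑ ^ p) atTop (𝓝 0) := by
  obtain ⟨C, hC, h⟩ := PP_box n hn α β p δ hα hαβ hp hp4 hδ
  have hp0 : 0 < p := by linarith
  obtain ⟨A, hA, hA1, hA2⟩ := h f hf
  have hfin : ∀ᵐ a ∂(nu n α β), ∫⁻ x, A (a, x) ^ p < ⊤ := by
    refine ae_lt_top (hA.pow_const p).lintegral_prod_right' ?_
    exact ne_top_of_le_ne_top (ENNReal.mul_ne_top hC hfp.ne) hA2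
  filter_upwards [hfin, conv n hn α β p δ hα hαβ hp hp4 hδ hf hfp, nu_ae n α β] with a h1 h2 h3
  have hsup : ∀ x, ∀ R : ℝ, 0 < R → ‖SS δ (fun j => a j / R ^ 2) f x‖ₑ ≤ A (a, x) :=
    fun x R hR => hA1 a (fun j => h3 j) (R ^ 2) (by positivity) x
  refine ⟨?_, h2, ?_⟩
  · refine lt_of_le_of_lt (lintegral_mono fun x => ?_) h1
    have : (⨆ (R : ℝ) (_ : 0 < R), ‖SS δ (fun j => a j / R ^ 2) f x‖ₑ) ≤ A (a, x) :=
      iSup_le fun R => iSup_le fun hR => hsup x R hR
    gcongr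
  · have hKt : (2 : ℝ≥0∞) ^ (p - 1) ≠ ⊤ :=
      ENNReal.rpow_ne_top_of_nonneg (by linarith) (by norm_num)
    have h4 := tendsto_lintegral_filter_of_dominated_convergence' (μ := (volume : Measure (E n)))
      (l := atTop) (F := fun (R : ℝ) x => ‖SS δ (fun j => a j / R ^ 2) f x - f x‖ₑ ^ p)
      (f := fun _ => 0) (fun x => 2 ^ (p - 1) * (A (a, x) ^ p + ‖f x‖ₑ ^ p)) ?_ ?_ ?_ ?_
    · simpa using h4
    · refine Eventually.of_forall fun R => ?_
      exact (((SS_m1 δ hf _).aestronglyMeasurable.sub hf.1).enorm).pow_const p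
    · filter_upwards [eventually_gt_atTop (0 : ℝ)] with R hR
      refine ae_of_all _ fun x => ?_
      have h5 : ‖SS δ (fun j => a j / R ^ 2) f x - f x‖ₑ ≤ A (a, x) + ‖f x‖ₑ :=
        (enorm_sub_le).trans (add_le_add (hsup x R hR) le_rfl)
      calc ‖SS δ (fun j => a j / R ^ 2) f x - f x‖ₑ ^ p ≤ (A (a, x) + ‖f x‖ₑ) ^ p := by
            gcongr
        _ ≤ _ := ENNReal.rpow_add_le_mul_rpow_add_rpow _ _ (by linarith)
    · rw [lintegral_const_mul' _ _ hKt, lintegral_add_left ((sect_meas hA a).pow_const p)]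
      exact ENNReal.mul_ne_top hKt (ENNReal.add_ne_top.2 ⟨h1.ne, hfp.ne⟩)
    · filter_upwards [h2] with x hx
      have h6 : Tendsto (fun R : ℝ => SS δ (fun j => a j / R ^ 2) f x - f x) atTop (𝓝 0) := by
        have := hx.sub_const (f x)
        rwa [sub_self] at this
      have h7 := ((ENNReal.continuous_rpow_const (y := p)).tendsto _).comp
        ((continuous_enorm.tendsto _).comp h6)
      simpa [Function.comp_def, ENNReal.zero_rpow_of_pos hp0] using h7

/-- the maximal function is measurable -/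
lemma sup_meas {δ : ℝ} (hδ : 0 ≤ δ) {a : Fin n → ℝ} (ha : ∀ j, 0 < a j) {f : E n → ℂ}
    (hf : Integrable f) :
    Measurable fun x : E n => ⨆ (R : ℝ) (_ : 0 < R), ‖SS δ (fun j => a j / R ^ 2) f x‖ₑ := by
  refine LowerSemicontinuous.measurable ?_
  refine lowerSemicontinuous_iSup fun R => lowerSemicontinuous_iSup fun hR => ?_
  refine Continuous.lowerSemicontinuous ?_
  have h1 : Continuous fun x : E n => SS δ (fun j => a j / R ^ 2) f x := by
    have h2 : (fun x : E n => SS δ (fun j => a j / R ^ 2) f x) = fun x =>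
        𝓕 (fun ξ : E n => ((sm δ (fun j => a j / R ^ 2) ξ : ℝ) : ℂ) * 𝓕 f ξ) (-x) := by
      ext x
      exact SS_eq _ _ _ _
    rw [h2]
    exact (F_cont (SS_GB hδ (a_pos ha hR) hf).int).comp continuous_neg
  exact h1.enorm

end Pool.Agent.TH310.BZ
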