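import Mathlib
import Pool.Agent.TH310.BZ.Fin
set_option autoImplicit false

/-! Bochner-Riesz means for almost every ellipsoid. -/

namespace Pool.Agent.TH310.BZ.AlmostEvery

open MeasureTheory Set
open scoped ENNReal FourierTransform RealInnerProductSpace

/-- The Bochner-Riesz mean of order `δ` of `f` for the ellipsoid
`a₁ ξ₁ ^ 2 + … + aₙ ξₙ ^ 2 < 1`: the Fourier multiplier
`(1 - (a₁ ξ₁ ^ 2 + … + aₙ ξₙ ^ 2))₊ ^ δ`, which for `δ = 0` is the indicator function of the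
ellipsoid. -/
noncomputable def ellipsoidMean (n : ℕ) (δ : ℝ) (a : Fin n → ℝ)
    (f : EuclideanSpace ℝ (Fin n) → ℂ) (x : EuclideanSpace ℝ (Fin n)) : ℂ :=
  ∫ ξ : EuclideanSpace ℝ (Fin n),
    ((if ∑ j, a j * ξ j ^ 2 < 1 then (1 - ∑ j, a j * ξ j ^ 2) ^ δ else 0 : ℝ) : ℂ) *
      (∫ y : EuclideanSpace ℝ (Fin n),
        Complex.exp (((-2 * Real.pi * ⟪y, ξ⟫ : ℝ) : ℂ) * Complex.I) * f y) *
      Complex.exp (((2 * Real.pi * ⟪x, ξ⟫ : ℝ) : ℂ) * Complex.I)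

lemma mean_eq (n : ℕ) (δ : ℝ) (a : Fin n → ℝ) (f : EuclideanSpace ℝ (Fin n) → ℂ)
    (x : EuclideanSpace ℝ (Fin n)) :
    ellipsoidMean n δ a f x = Pool.Agent.TH310.BZ.SS δ a f x := by
  unfold ellipsoidMean Pool.Agent.TH310.BZ.SS Pool.Agent.TH310.BZ.sm Pool.Agent.TH310.BZ.QF
  congr 1
  ext ξ
  congr 2
  rw [Real.fourier_eq']
  rfl

/-- **Bochner-Riesz for almost every ellipsoid.** Let `n ≥ 2`, `2 ≤ p ≤ 4` and `δ ≥ 0`. The `p`-th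
power of the `L^p` norm of the Bochner-Riesz mean of order `δ`, averaged over the ellipsoids with
coefficients in `[α, β]^n`, is bounded by a constant times the `p`-th power of the `L^p` norm of
`f`; and for each `f` in `L¹ ∩ L^p` the mean lies in `L^p` for almost every ellipsoid. -/
theorem result (n : ℕ) (hn : 2 ≤ n) (p δ : ℝ) (hp : 2 ≤ p) (hp4 : p ≤ 4) (hδ : 0 ≤ δ) :
    (∀ α β : ℝ, 0 < α → α ≤ β → ∃ C : ℝ, 0 < C ∧
      ∀ f : EuclideanSpace ℝ (Fin n) → ℂ, Integrable f →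
        ∫⁻ a in univ.pi (fun _ : Fin n => Icc α β), ∫⁻ x, ‖ellipsoidMean n δ a f x‖ₑ ^ p ≤
          ENNReal.ofReal C * ∫⁻ x, ‖f x‖ₑ ^ p) ∧
    (∀ f : EuclideanSpace ℝ (Fin n) → ℂ, Integrable f → ∫⁻ x, ‖f x‖ₑ ^ p < ⊤ →
      ∀ᵐ a : Fin n → ℝ, (∀ j, 0 < a j) → ∫⁻ x, ‖ellipsoidMean n δ a f x‖ₑ ^ p < ⊤) := by
  have h1 : ∀ α β : ℝ, 0 < α → α ≤ β → ∃ C : ℝ, 0 < C ∧
      ∀ f : EuclideanSpace ℝ (Fin n) → ℂ, Integrable f →
        ∫⁻ a in univ.pi (fun _ : Fin n => Icc α β), ∫⁻ x, ‖ellipsoidMean n δ a f x‖ₑ ^ p ≤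
          ENNReal.ofReal C * ∫⁻ x, ‖f x‖ₑ ^ p := by
    intro α β hα hαβ
    obtain ⟨C, hC, h⟩ := Pool.Agent.TH310.BZ.SS_all n (by omega) α β δ p hα hαβ hδ hp hp4
    refine ⟨C, hC, fun f hf => ?_⟩
    have h2 := h f hf
    rw [Pool.Agent.TH310.BZ.nu_eq] at h2
    simpa only [mean_eq] using h2
  refine ⟨h1, fun f hf hfp => ?_⟩
  have hm : Measurable fun a : Fin n → ℝ => ∫⁻ x, ‖ellipsoidMean n δ a f x‖ₑ ^ p := by
    have h2 := ((Pool.Agent.TH310.BZ.SS_meas2 δ hf).enorm.pow_const p).lintegral_prod_right'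
      (ν := (volume : Measure (EuclideanSpace ℝ (Fin n))))
    simpa only [mean_eq] using h2
  have h3 : ∀ k : ℕ, ∀ᵐ a : Fin n → ℝ,
      a ∈ univ.pi (fun _ : Fin n => Icc (1 / ((k : ℝ) + 1)) (k + 1)) →
      ∫⁻ x, ‖ellipsoidMean n δ a f x‖ₑ ^ p < ⊤ := by
    intro k
    have hk : (0 : ℝ) < k + 1 := by positivity
    obtain ⟨C, hC, h⟩ := h1 (1 / ((k : ℝ) + 1)) (k + 1) (by positivity) (by
      rw [div_le_iff₀ hk]
      have : (1 : ℝ) ≤ k + 1 := by linarith [(Nat.cast_nonneg k : (0 : ℝ) ≤ k)]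
      nlinarith)
    have hfin : ∫⁻ a in univ.pi (fun _ : Fin n => Icc (1 / ((k : ℝ) + 1)) (k + 1)),
        ∫⁻ x, ‖ellipsoidMean n δ a f x‖ₑ ^ p ≠ ⊤ :=
      ((h f hf).trans_lt (ENNReal.mul_lt_top ENNReal.ofReal_lt_top hfp)).ne
    exact (ae_restrict_iff' (MeasurableSet.univ_pi fun _ => measurableSet_Icc)).1
      (ae_lt_top hm hfin)
  filter_upwards [ae_all_iff.2 h3] with a ha hpos
  obtain ⟨N, hN⟩ : ∃ N : ℕ, ∀ j, a j ≤ N ∧ 1 / a j ≤ N := by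
    refine ⟨∑ j, (⌈a j⌉₊ + ⌈1 / a j⌉₊), fun j => ?_⟩
    have h4 : ⌈a j⌉₊ + ⌈1 / a j⌉₊ ≤ ∑ j, (⌈a j⌉₊ + ⌈1 / a j⌉₊) :=
      Finset.single_le_sum (f := fun j => ⌈a j⌉₊ + ⌈1 / a j⌉₊) (fun _ _ => Nat.zero_le _)
        (Finset.mem_univ j)
    constructor
    · exact (Nat.le_ceil _).trans (by exact_mod_cast (Nat.le_add_right _ _).trans h4)
    · exact (Nat.le_ceil _).trans (by exact_mod_cast (Nat.le_add_left _ _).trans h4)
  refine ha N fun j _ => ⟨?_, by linarith [(hN j).1]⟩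
  have h5 := hpos j
  have h6 := (hN j).2
  rw [div_le_iff₀ h5] at h6
  rw [div_le_iff₀ (by positivity)]
  nlinarith

end Pool.Agent.TH310.BZ.AlmostEvery
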